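import Mathlib

namespace NM

open Complex Metric Set Filter Topology MeasureTheory

/-- The characteristic `T(r,f)` : the mean of `log^+ |f|` over the circle `|z| = r`. -/
noncomputable def T (r : ℝ) (f : ℂ → ℂ) : ℝ :=
  (2 * Real.pi)⁻¹ * ∫ θ in (0:ℝ)..(2 * Real.pi),
    Real.posLog ‖f ((r : ℂ) * Complex.exp ((θ : ℂ) * Complex.I))‖

/-- The Nevanlinna class `N` of the unit disc. -/
def InN (f : ℂ → ℂ) : Prop :=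
  DifferentiableOn ℂ f (ball 0 1) ∧ ∃ K : ℝ, ∀ r : ℝ, 0 < r → r < 1 → T r f ≤ K

/-- `l` is a coefficient multiplier from `N` to `N`. -/
def IsMul (l : ℕ → ℂ) : Prop :=
  ∀ (a : ℕ → ℂ) (f : ℂ → ℂ), InN f →
    (∀ z ∈ ball (0:ℂ) 1, HasSum (fun n => a n * z ^ n) (f z)) →
    ∃ g : ℂ → ℂ, InN g ∧ ∀ z ∈ ball (0:ℂ) 1, HasSum (fun n => l n * a n * z ^ n) (g z)

/-- `H(v) = (1+v)/(1-v)`, real part positive in the disc. -/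
noncomputable def H (v : ℂ) : ℂ := (1 + v) / (1 - v)

/-- `F_t(v) = exp (sum_α t_α H(e^{iα} v))`, `t` a finitely supported family of masses. -/
noncomputable def F (t : ℝ →₀ ℝ) (v : ℂ) : ℂ :=
  Complex.exp (t.sum fun α m => (m : ℂ) * H (Complex.exp ((α : ℂ) * Complex.I) * v))

/-- Taylor coefficients at `0`. -/
noncomputable def cf (f : ℂ → ℂ) (n : ℕ) : ℂ := iteratedDeriv n f 0 / (n.factorial : ℂ)

/-- `Lam l a n z = Λ(f v^n)(z)` when `f = sum a_m v^m`. -/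
noncomputable def Lam (l a : ℕ → ℂ) (n : ℕ) (z : ℂ) : ℂ := ∑' m, l (n + m) * a m * z ^ (n + m)

/-- `z` is a good point for the test function `F_t` with constant `B`. -/
def Good (l : ℕ → ℂ) (t : ℝ →₀ ℝ) (z : ℂ) (B : ℝ) : Prop :=
  ∀ n : ℕ, ‖Lam l (cf (F t)) n z‖ ≤ ((n:ℝ) + 1) ^ 2 * ‖z‖ ^ n * B

/-- Poisson integral of a measure on the circle. -/
noncomputable def V (σ : Measure (sphere (0:ℂ) 1)) (z : ℂ) : ℝ :=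
  ∫ ω : sphere (0:ℂ) 1, (1 - ‖z‖ ^ 2) / ‖(ω : ℂ) - z‖ ^ 2 ∂σ

/-- The majorant property of a multiplier (base mass `1` at angle `0`). -/
def Maj (l : ℕ → ℂ) (eu K : ℝ) : Prop :=
  ∀ ν : ℝ →₀ ℝ, (∀ α, 0 ≤ ν α) → (ν.sum fun _ m => m) ≤ eu →
    ∃ σ : Measure (sphere (0:ℂ) 1), IsFiniteMeasure σ ∧ σ.real univ ≤ K ∧
      ∀ z ∈ ball (0:ℂ) 1, Good l (Finsupp.single 0 1 + ν) z (2 * Real.exp (V σ z))

/-- `k(e^s) = sum_n l_n e^{ns}`, `Re s < 0`. -/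
noncomputable def Kf (l : ℕ → ℂ) (s : ℂ) : ℂ := ∑' n : ℕ, l n * Complex.exp ((n : ℂ) * s)

/-- A station: `G` is analytic and bounded by `E` on `Re s > Re ζ`, and it is close to `K`
near `ζ` with mass `μ`. -/
def Appr (K : ℂ → ℂ) (ζ : ℂ) (μ E : ℝ) (G : ℂ → ℂ) : Prop :=
  DifferentiableOn ℂ G {s | ζ.re < s.re} ∧ (∀ s : ℂ, ζ.re < s.re → ‖G s‖ ≤ E) ∧
    ∀ s : ℂ, ζ.re < s.re → s.re < 0 →
      ‖K s - G s‖ ≤ E * ((-s.re)⁻¹) ^ 3 * Real.exp (-(μ * (s.re - ζ.re) / ‖s - ζ‖ ^ 2))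

/-- Local assumption on `K` : analytic in the left half plane, `|K| ≤ Λ/|Re s|`. -/
def LocK (K : ℂ → ℂ) (Λ : ℝ) : Prop :=
  DifferentiableOn ℂ K {s | s.re < 0} ∧ ∀ s : ℂ, -1 ≤ s.re → s.re < 0 → ‖K s‖ ≤ Λ / (-s.re)

/-- Stations near the point `0`. -/
def St (K : ℂ → ℂ) (ρ ε X0 : ℝ) : Prop :=
  ∀ X x y : ℝ, 0 < X → X < X0 → ρ * X / 10 ≤ x → x ≤ 4 * ρ * X → X / 10 ≤ |y| → |y| ≤ 4 * X →
    ∃ G, Appr K ⟨-x, y⟩ 1 (Real.exp (2 * ε / X)) G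

/-- Two-atom stations. -/
def St2 (K : ℂ → ℂ) (ρ d X0 : ℝ) : Prop :=
  ∀ X : ℝ, 0 < X → X < X0 → ∃ h : ℝ, 1 / 4 ≤ h ∧ h ≤ 3 / 4 ∧ ∃ G,
    Appr K ⟨-(ρ * X), -((1 - h) * X)⟩ 1 (Real.exp (d / (500 * X))) G ∧
    Appr K ⟨-(ρ * X), h * X⟩ (d ^ 2) (Real.exp (d / (500 * X))) G

/-- Stations of small type. -/
def St3 (K : ℂ → ℂ) (ρ ε : ℝ) : Prop :=
  ∀ δ : ℝ, 0 < δ → ∃ ρ' : ℝ, 0 < ρ' ∧ ρ' ≤ ρ ∧ ∃ X1 : ℝ, 0 < X1 ∧ ∀ X : ℝ, 0 < X → X < X1 →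
    ∀ y : ℝ, (y = X ∨ y = -X) →
      (∀ x : ℝ, ρ' * X ≤ x → x ≤ ρ * X → ∃ G, Appr K ⟨-x, y⟩ 1 (Real.exp (2 * ε / X)) G) ∧
      ∃ G, Appr K ⟨-(ρ' * X), y⟩ 1 (Real.exp (δ / X)) G

/-- The (counterclockwise) integral over the boundary of the square `[-X,X]^2` of the function
which is `κ` on the left of `Re s = -x`, `U` above and `L` below the real axis. -/
noncomputable def ring (κ U L : ℂ → ℂ) (X x : ℝ) : ℂ :=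
  (∫ v in (0:ℝ)..X, Complex.I * U ⟨X, v⟩) - (∫ u in (-x)..X, U ⟨u, X⟩)
    - (∫ u in (-X)..(-x), κ ⟨u, X⟩) - (∫ v in (-X)..X, Complex.I * κ ⟨-X, v⟩)
    + (∫ u in (-X)..(-x), κ ⟨u, -X⟩) + (∫ u in (-x)..X, L ⟨u, -X⟩)
    + (∫ v in (-X)..(0:ℝ), Complex.I * L ⟨X, v⟩)

/-- Ring functional at scale `X`, dividing line at `-ρX/2`. -/
noncomputable def RX (K : ℂ → ℂ) (U L : ℝ → ℂ → ℂ) (ρ X : ℝ) (φ : ℂ → ℂ) : ℂ :=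
  ring (fun s => K s * φ s) (fun s => U X s * φ s) (fun s => L X s * φ s) X (ρ * X / 2)

/-- Square annulus. -/
def Ann (X' X : ℝ) : Set ℂ :=
  {s | |s.re| ≤ X ∧ |s.im| ≤ X ∧ (X' ≤ |s.re| ∨ X' ≤ |s.im|)}

/-- Families of upper and lower stations. -/
def Fam (K : ℂ → ℂ) (ρ ε X0 : ℝ) (U L : ℝ → ℂ → ℂ) : Prop :=
  ∀ X : ℝ, 0 < X → X < X0 →
    Appr K ⟨-(ρ * X), X⟩ 1 (Real.exp (2 * ε / X)) (U X) ∧
    Appr K ⟨-(ρ * X), -X⟩ 1 (Real.exp (2 * ε / X)) (L X)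

/-- the difference of the upper and lower stations has rate `m` up to `η`. -/
def PP (K : ℂ → ℂ) (ρ ε m η : ℝ) : Prop :=
  ∃ X1 : ℝ, 0 < X1 ∧ ∀ X : ℝ, 0 < X → X < X1 → ∀ U L : ℂ → ℂ,
    Appr K ⟨-(ρ * X), X⟩ 1 (Real.exp (2 * ε / X)) U →
    Appr K ⟨-(ρ * X), -X⟩ 1 (Real.exp (2 * ε / X)) L →
    ∀ s : ℂ, 0 < s.re → X / 10 ≤ ‖s‖ → ‖s‖ ≤ 4 * X →
      ‖U s - L s‖ ≤ Real.exp (η / X - m * s.re / ‖s‖ ^ 2)

/-- Ring functional with a free dividing line `-x`. -/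
noncomputable def RY (K U L : ℂ → ℂ) (X x : ℝ) (φ : ℂ → ℂ) : ℂ :=
  ring (fun s => K s * φ s) (fun s => U s * φ s) (fun s => L s * φ s) X x

end NM
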