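import Pool.Agent.Helper360.NM.Defs



namespace NM
open Complex Metric Set Filter Topology MeasureTheory


theorem Appr_mono (K G : ℂ → ℂ) (ζ : ℂ) (μ μ' E E' : ℝ) (hμ : μ' ≤ μ) (hE : E ≤ E')
    (hE0 : 0 ≤ E) (h : Appr K ζ μ E G) : Appr K ζ μ' E' G := by
  obtain ⟨h1, h2, h3⟩ := h
  refine ⟨h1, fun s hs => (h2 s hs).trans hE, ?_⟩
  intro s hs hs0
  refine (h3 s hs hs0).trans ?_
  have h4 : 0 < (-s.re)⁻¹ ^ 3 := by
    have : 0 < -s.re := by linarith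
    positivity
  have h5 : Real.exp (-(μ * (s.re - ζ.re) / ‖s - ζ‖ ^ 2)) ≤
      Real.exp (-(μ' * (s.re - ζ.re) / ‖s - ζ‖ ^ 2)) := by
    apply Real.exp_le_exp.mpr
    apply neg_le_neg
    have h6 : 0 ≤ s.re - ζ.re := by linarith
    apply div_le_div_of_nonneg_right _ (sq_nonneg _)
    exact mul_le_mul_of_nonneg_right hμ h6
  exact mul_le_mul (mul_le_mul_of_nonneg_right hE h4.le) h5 (Real.exp_pos _).le
    (mul_nonneg (hE0.trans hE) h4.le)

end NM
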