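import Pool.Agent.Helper360.NM.Defs



namespace NM
open Complex Metric Set Filter Topology MeasureTheory


theorem Appr_transl_re (s : ℂ) (θ : ℝ) : (s + (θ : ℂ) * Complex.I).re = s.re := by
  simp

theorem Appr_transl_mp (K G : ℂ → ℂ) (ζ : ℂ) (θ μ E : ℝ) (h : Appr K (ζ + (θ : ℂ) * Complex.I) μ E G) :
      Appr (fun s => K (s + (θ : ℂ) * Complex.I)) ζ μ E (fun s => G (s + (θ : ℂ) * Complex.I)) := by
  obtain ⟨h1, h2, h3⟩ := h
  refine ⟨?_, ?_, ?_⟩
  · refine DifferentiableOn.comp (t := {s | (ζ + (θ : ℂ) * Complex.I).re < s.re}) h1 ?_ ?_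
    · exact (differentiable_id.add_const _).differentiableOn
    · intro s hs
      show (ζ + (θ : ℂ) * Complex.I).re < (s + (θ : ℂ) * Complex.I).re
      rw [Appr_transl_re, Appr_transl_re]
      exact hs
  · intro s hs
    apply h2
    rw [Appr_transl_re, Appr_transl_re]
    exact hs
  · intro s hs hs0
    have h4 := h3 (s + (θ : ℂ) * Complex.I) (by rw [Appr_transl_re, Appr_transl_re]; exact hs)
      (by rw [Appr_transl_re]; exact hs0)
    rw [Appr_transl_re, Appr_transl_re, add_sub_add_right_eq_sub] at h4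
    exact h4

theorem Appr_transl (K G : ℂ → ℂ) (ζ : ℂ) (θ μ E : ℝ) :
    Appr K (ζ + (θ : ℂ) * Complex.I) μ E G ↔
      Appr (fun s => K (s + (θ : ℂ) * Complex.I)) ζ μ E (fun s => G (s + (θ : ℂ) * Complex.I)) := by
  refine ⟨Appr_transl_mp K G ζ θ μ E, fun h => ?_⟩
  have e1 : ζ = (ζ + (θ : ℂ) * Complex.I) + ((-θ : ℝ) : ℂ) * Complex.I := by
    push_cast
    ring
  have h2 := Appr_transl_mp (fun s => K (s + (θ : ℂ) * Complex.I)) (fun s => G (s + (θ : ℂ) * Complex.I))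
    (ζ + (θ : ℂ) * Complex.I) (-θ) μ E (by rw [← e1]; exact h)
  have e2 : ∀ s : ℂ, s + ((-θ : ℝ) : ℂ) * Complex.I + (θ : ℂ) * Complex.I = s := by
    intro s
    push_cast
    ring
  simp only [e2] at h2
  exact h2

end NM
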