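import Pool.Agent.Helper360.NM.Defs



namespace NM
open Complex Metric Set Filter Topology MeasureTheory


theorem TCc (f : ℂ → ℂ) (B κ : ℝ) (j : ℕ) (hf : DifferentiableOn ℂ f (ball 0 1))
    (hB : ∀ w ∈ ball (0:ℂ) 1, ‖f w‖ ≤ B) (hκ : 0 < κ) (hκ1 : κ < 1)
    (h : ∀ w : ℂ, ‖w‖ ≤ κ → ‖f w‖ ≤ B * κ ^ j) :
    ∀ w ∈ ball (0:ℂ) 1, κ ≤ ‖w‖ → ‖f w‖ ≤ B * ‖w‖ ^ j := by
  intro w hw hκw
  have hw1 : ‖w‖ < 1 := by simpa using hw
  have hB0 : 0 ≤ B := (norm_nonneg _).trans (hB w hw)
  rcases hκw.eq_or_lt with heq | hlt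
  · rw [← heq]
    exact h w heq.ge
  have hw0 : 0 < ‖w‖ := hκ.trans hlt
  have key : ∀ r : ℝ, ‖w‖ < r → r < 1 → ‖f w‖ ≤ B / r ^ j * ‖w‖ ^ j := by
    intro r hr hr1
    have hr0 : 0 < r := hw0.trans hr
    set U : Set ℂ := {v | κ < ‖v‖ ∧ ‖v‖ < r} with hU
    have hUo : IsOpen U := (isOpen_lt continuous_const continuous_norm).inter
      (isOpen_lt continuous_norm continuous_const)
    have hUb : Bornology.IsBounded U := by
      refine (Metric.isBounded_ball (x := (0:ℂ)) (r := r)).subset ?_
      intro v hv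
      simpa using hv.2
    have hcl : closure U ⊆ {v | κ ≤ ‖v‖ ∧ ‖v‖ ≤ r} := by
      apply closure_minimal
      · intro v hv
        exact ⟨hv.1.le, hv.2.le⟩
      · exact (isClosed_le continuous_const continuous_norm).inter
          (isClosed_le continuous_norm continuous_const)
    have hd : DiffContOnCl ℂ (fun v => f v / v ^ j) U := by
      apply DifferentiableOn.diffContOnCl
      intro v hv
      have hv' := hcl hv
      have hvb : v ∈ ball (0:ℂ) 1 := by
        simp only [mem_ball, dist_zero_right]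
        exact hv'.2.trans_lt hr1
      have hv0 : v ≠ 0 := by
        rintro rfl
        have := hv'.1
        rw [norm_zero] at this
        linarith
      have h1 : DifferentiableAt ℂ f v := hf.differentiableAt (isOpen_ball.mem_nhds hvb)
      exact (h1.div (differentiableAt_id.pow j) (pow_ne_zero _ hv0)).differentiableWithinAt
    have hr1j : r ^ j ≤ 1 := pow_le_one₀ hr0.le hr1.le
    have hBr : B ≤ B / r ^ j := by
      rw [le_div_iff₀ (by positivity)]
      nlinarith
    have hfr : ∀ v ∈ frontier U, ‖(fun v => f v / v ^ j) v‖ ≤ B / r ^ j := by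
      intro v hv
      rw [hUo.frontier_eq] at hv
      have hv' := hcl hv.1
      have hnot := hv.2
      have hcase : ‖v‖ = κ ∨ ‖v‖ = r := by
        by_contra hcon
        push Not at hcon
        exact hnot ⟨lt_of_le_of_ne hv'.1 (Ne.symm hcon.1), lt_of_le_of_ne hv'.2 hcon.2⟩
      have hvb : v ∈ ball (0:ℂ) 1 := by
        simp only [mem_ball, dist_zero_right]
        exact hv'.2.trans_lt hr1
      simp only [norm_div, norm_pow]
      rcases hcase with hc | hc
      · rw [hc, div_le_iff₀ (by positivity)]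
        exact (h v hc.le).trans (mul_le_mul_of_nonneg_right hBr (by positivity))
      · rw [hc]
        exact div_le_div_of_nonneg_right (hB v hvb) (by positivity)
    have hres := Complex.norm_le_of_forall_mem_frontier_norm_le hUb hd hfr
      (subset_closure (show w ∈ U from ⟨hlt, hr⟩))
    simp only [norm_div, norm_pow] at hres
    rwa [div_le_iff₀ (by positivity)] at hres
  have hlim : Tendsto (fun r : ℝ => B / r ^ j * ‖w‖ ^ j) (𝓝[<] 1) (𝓝 (B / 1 ^ j * ‖w‖ ^ j)) := by
    apply Tendsto.mono_left _ nhdsWithin_le_nhds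
    have hc : ContinuousAt (fun r : ℝ => B / r ^ j * ‖w‖ ^ j) 1 := by
      apply ContinuousAt.mul _ continuousAt_const
      apply ContinuousAt.div continuousAt_const (continuousAt_id.pow j)
      simp
    exact hc
  rw [one_pow, div_one] at hlim
  refine ge_of_tendsto hlim ?_
  have h1 : Set.Ioo ‖w‖ 1 ∈ 𝓝[<] (1:ℝ) := Ioo_mem_nhdsLT hw1
  filter_upwards [h1] with r hr
  exact key r hr.1 hr.2

end NM
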