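import Pool.Agent.Helper360.NM.Defs
import Pool.Agent.Helper360.NM.P_TCc



namespace NM
open Complex Metric Set Filter Topology MeasureTheory


theorem TCh_re (a w : ℂ) (ha : 0 < a.re) (hw : ‖w‖ < 1) :
    0 < ((a + (starRingEnd ℂ) a * w) / (1 - w)).re := by
  have h1 : (1 - w) ≠ 0 := by
    intro h
    have : w = 1 := (sub_eq_zero.1 h).symm
    rw [this, norm_one] at hw
    exact lt_irrefl _ hw
  have h2 : 0 < Complex.normSq (1 - w) := Complex.normSq_pos.2 h1
  have h3 : Complex.normSq w < 1 := by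
    rw [Complex.normSq_eq_norm_sq]
    have := norm_nonneg w
    nlinarith
  rw [Complex.div_re, ← add_div]
  apply div_pos _ h2
  rw [Complex.normSq_apply] at h3
  simp only [Complex.add_re, Complex.add_im, Complex.mul_re, Complex.mul_im, Complex.conj_re,
    Complex.conj_im, Complex.sub_re, Complex.sub_im, Complex.one_re, Complex.one_im]
  have h4 : (a.re + (a.re * w.re - -a.im * w.im)) * (1 - w.re) +
      (a.im + (a.re * w.im + -a.im * w.re)) * (0 - w.im) =
      a.re * (1 - (w.re * w.re + w.im * w.im)) := by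
    ring_nf
  rw [h4]
  exact mul_pos ha (by linarith)

theorem TCh_ne (w : ℂ) (hw : ‖w‖ < 1) : (1 - w) ≠ 0 := by
  intro h
  have : w = 1 := (sub_eq_zero.1 h).symm
  rw [this, norm_one] at hw
  exact lt_irrefl _ hw

theorem TCh_small (a w : ℂ) (ha : 0 < a.re) (hw : ‖w‖ ≤ 1 / 9) :
    ‖(a + (starRingEnd ℂ) a * w) / (1 - w) - a‖ ≤ a.re / 4 := by
  have h1 : (1 - w) ≠ 0 := TCh_ne w (by linarith)
  have h2 : (a + (starRingEnd ℂ) a * w) / (1 - w) - a = ((2 * a.re : ℝ) : ℂ) * w / (1 - w) := by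
    rw [div_sub' h1]
    congr 1
    have : (starRingEnd ℂ) a = ((2 * a.re : ℝ) : ℂ) - a := by
      rw [← Complex.add_conj]
      abel
    rw [this]
    linear_combination
  rw [h2, norm_div, norm_mul, Complex.norm_real, Real.norm_eq_abs, abs_of_pos (by linarith)]
  have h3 : 8 / 9 ≤ ‖1 - w‖ := by
    have := norm_sub_norm_le (1 : ℂ) w
    rw [norm_one] at this
    linarith
  rw [div_le_iff₀ (by linarith)]
  have h4 : 2 * a.re * ‖w‖ ≤ 2 * a.re * (1 / 9) :=
    mul_le_mul_of_nonneg_left hw (by linarith)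
  have h5 : a.re / 4 * (8 / 9) ≤ a.re / 4 * ‖1 - w‖ :=
    mul_le_mul_of_nonneg_left h3 (by linarith)
  linarith

theorem TCh (f : ℂ → ℂ) (B : ℝ) (a : ℂ) (j : ℕ) (hf : DifferentiableOn ℂ f {s | 0 < s.re})
    (hB : ∀ s : ℂ, 0 < s.re → ‖f s‖ ≤ B) (ha : 0 < a.re)
    (h : ∀ s : ℂ, ‖s - a‖ ≤ a.re / 4 → ‖f s‖ ≤ B * (1 / 9 : ℝ) ^ j) :
    ∀ s : ℂ, 0 < s.re →
      ‖f s‖ ≤ B * (max (1 / 9) (‖s - a‖ / ‖s + (starRingEnd ℂ) a‖)) ^ j := by
  intro s hs
  have hB0 : 0 ≤ B := le_trans (norm_nonneg _) (hB s hs)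
  set ψ : ℂ → ℂ := fun w => (a + (starRingEnd ℂ) a * w) / (1 - w) with hψ
  have hg : DifferentiableOn ℂ (fun w => f (ψ w)) (ball 0 1) := by
    apply DifferentiableOn.comp (t := {s | 0 < s.re}) hf
    · apply DifferentiableOn.div
      · apply DifferentiableOn.const_add
        exact (differentiableOn_id).const_mul _
      · apply DifferentiableOn.const_sub
        exact differentiableOn_id
      · intro w hw
        exact TCh_ne w (by simpa using hw)
    · intro w hw
      exact TCh_re a w ha (by simpa using hw)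
  have hgB : ∀ w ∈ ball (0:ℂ) 1, ‖f (ψ w)‖ ≤ B := by
    intro w hw
    exact hB _ (TCh_re a w ha (by simpa using hw))
  have hgs : ∀ w : ℂ, ‖w‖ ≤ 1 / 9 → ‖f (ψ w)‖ ≤ B * (1 / 9 : ℝ) ^ j := by
    intro w hw
    exact h _ (TCh_small a w ha hw)
  have hne : s + (starRingEnd ℂ) a ≠ 0 := by
    intro h0
    have := congrArg Complex.re h0
    simp only [Complex.add_re, Complex.conj_re, Complex.zero_re] at this
    linarith
  set w := (s - a) / (s + (starRingEnd ℂ) a) with hw
  have hwn : ‖w‖ = ‖s - a‖ / ‖s + (starRingEnd ℂ) a‖ := by rw [hw, norm_div]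
  have hnp : 0 < ‖s + (starRingEnd ℂ) a‖ := norm_pos_iff.2 hne
  have hw1 : ‖w‖ < 1 := by
    rw [hwn, div_lt_one hnp]
    have h1 : ‖s - a‖ ^ 2 < ‖s + (starRingEnd ℂ) a‖ ^ 2 := by
      rw [← Complex.normSq_eq_norm_sq, ← Complex.normSq_eq_norm_sq, Complex.normSq_apply,
        Complex.normSq_apply]
      simp only [Complex.add_re, Complex.add_im, Complex.conj_re, Complex.conj_im,
        Complex.sub_re, Complex.sub_im]
      have := mul_pos ha hs
      nlinarith
    exact lt_of_pow_lt_pow_left₀ 2 (norm_nonneg _) h1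
  have hψw : ψ w = s := by
    have h1 : 1 - w ≠ 0 := TCh_ne w hw1
    have hconj : (starRingEnd ℂ) a = ((2 * a.re : ℝ) : ℂ) - a := by
      rw [← Complex.add_conj]
      abel
    show (a + (starRingEnd ℂ) a * w) / (1 - w) = s
    rw [div_eq_iff h1]
    have h2 : w * (s + (starRingEnd ℂ) a) = s - a := by
      rw [hw, div_mul_cancel₀ _ hne]
    linear_combination h2
  have hmem : w ∈ ball (0:ℂ) 1 := by simpa using hw1
  rw [← hwn]
  by_cases hc : (1 / 9 : ℝ) ≤ ‖w‖
  · have h1 := TCc (fun w => f (ψ w)) B (1 / 9) j hg hgB (by norm_num) (by norm_num) hgs w hmem hc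
    simp only [hψw] at h1
    refine h1.trans (mul_le_mul_of_nonneg_left ?_ hB0)
    exact pow_le_pow_left₀ (norm_nonneg _) (le_max_right _ _) _
  · have h1 := hgs w (not_le.1 hc).le
    rw [hψw] at h1
    refine h1.trans (mul_le_mul_of_nonneg_left ?_ hB0)
    exact pow_le_pow_left₀ (by norm_num) (le_max_left _ _) _

end NM
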