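import Pool.Agent.Helper360.NM.Defs
import Pool.Agent.Helper360.NM.P_TCh



namespace NM
open Complex Metric Set Filter Topology MeasureTheory


theorem ballre (c r : ℝ) (u : ℂ) (hr : 0 ≤ r) (hrc : r < c) (hu : ‖u‖ ≤ r) :
    1 / (c + r) ≤ (c + u.re) / ‖(c:ℂ) + u‖ ^ 2 := by
  have h1 : ‖(c:ℂ)+u‖^2 = (c+u.re)^2 + u.im^2 := by
    rw [← Complex.normSq_eq_norm_sq, Complex.normSq_apply]
    simp only [add_re, ofReal_re, add_im, ofReal_im, zero_add]
    ring
  have h2 : u.re^2 + u.im^2 ≤ r^2 := by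
    have h := Complex.normSq_eq_norm_sq u
    rw [normSq_apply] at h
    nlinarith [norm_nonneg u]
  have h3 : u.re ≤ r := (Complex.re_le_norm u).trans hu
  have h4 : -r ≤ u.re := by
    have := Complex.abs_re_le_norm u
    have h5 := (abs_le.1 this).1
    linarith
  have hpos : 0 < ‖(c:ℂ) + u‖ ^ 2 := by
    rw [h1]
    have : 0 < c + u.re := by linarith
    positivity
  rw [div_le_div_iff₀ (by linarith) hpos, h1]
  nlinarith [mul_nonneg (sub_nonneg.2 hrc.le) (sub_nonneg.2 h3)]

theorem exp22 : (9:ℝ) ≤ Real.exp (11/5) := by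
  have h : (9:ℝ)^5 ≤ (Real.exp (11/5))^5 := by
    have h1 : (Real.exp (11/5))^5 = (Real.exp 1)^11 := by
      rw [← Real.exp_nat_mul, ← Real.exp_nat_mul]
      norm_num
    rw [h1]
    have h2 : (2.7182818283:ℝ) ≤ Real.exp 1 := Real.exp_one_gt_d9.le
    calc (9:ℝ)^5 ≤ (2.7182818283:ℝ)^11 := by norm_num
      _ ≤ _ := by gcongr
  exact (pow_le_pow_iff_left₀ (by norm_num) (Real.exp_pos _).le (by norm_num)).1 h

theorem exp2le : Real.exp 2 ≤ (9:ℝ) := by
  have h1 : Real.exp 2 = (Real.exp 1)^2 := by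
    rw [← Real.exp_nat_mul]; norm_num
  rw [h1]
  have h2 := Real.exp_one_lt_d9.le
  have h3 := (Real.exp_pos 1).le
  nlinarith

theorem CL (K G G' : ℂ → ℂ) (ζ ζ' : ℂ) (μ E x : ℝ) (hμ : 0 < μ) (hμ1 : μ ≤ 1) (hE : 1 ≤ E)
    (hx : 0 < x) (hx1 : ζ.re = -x) (hsm : 27 * (x⁻¹) ^ 3 ≤ Real.exp (μ / (4 * x)))
    (hd : ‖ζ - ζ'‖ ≤ x / 16) (hG : Appr K ζ μ E G) (hG' : Appr K ζ' μ E G') :
    ∀ s : ℂ, -(x / 2) ≤ s.re →
      ‖G s - G' s‖ ≤ 2 * E * Real.exp (-(μ * (s.re + x) / (16 * ‖s - ζ‖ ^ 2))) := by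
  obtain ⟨hGd, hGb, hGK⟩ := hG
  obtain ⟨hGd', hGb', hGK'⟩ := hG'
  have hre : |(ζ - ζ').re| ≤ x/16 := (Complex.abs_re_le_norm _).trans hd
  rw [sub_re, hx1] at hre
  obtain ⟨hl, hu⟩ := abs_le.1 hre
  set xm : ℝ := min x (-ζ'.re) with hxm
  have hxm1 : xm ≤ x := min_le_left _ _
  have hxm2 : xm ≤ -ζ'.re := min_le_right _ _
  have hxm3 : 15/16 * x ≤ xm := le_min (by linarith) (by linarith)
  set y : ℝ := μ / x with hy
  have hy0 : 0 < y := by positivity
  -- step 1
  have key : ∀ (s : ℂ) (ζ₀ : ℂ) (g : ℂ → ℂ), s.re ≤ -(3*x/8) →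
      (‖K s - g s‖ ≤ E * ((-s.re)⁻¹) ^ 3 * Real.exp (-(μ * (s.re - ζ₀.re) / ‖s - ζ₀‖ ^ 2))) →
      16 / (11 * x) ≤ (s.re - ζ₀.re) / ‖s - ζ₀‖ ^ 2 →
      ‖K s - g s‖ ≤ E * Real.exp (-(6/5 * y)) := by
    intro s ζ₀ g h1 h2 h3
    refine h2.trans ?_
    have h4 : (-s.re)⁻¹ ≤ 3 * x⁻¹ := by
      have h5 : x / 3 ≤ -s.re := by linarith
      calc (-s.re)⁻¹ ≤ (x/3)⁻¹ := by
            apply inv_anti₀ (by positivity) h5
        _ = 3 * x⁻¹ := by field_simp
    have h6 : 0 < (-s.re)⁻¹ := by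
      apply inv_pos.2; linarith
    have h7 : ((-s.re)⁻¹)^3 ≤ Real.exp (μ / (4*x)) := by
      calc ((-s.re)⁻¹)^3 ≤ (3 * x⁻¹)^3 := by gcongr
        _ = 27 * (x⁻¹)^3 := by ring
        _ ≤ _ := hsm
    have h8 : 29/20 * y ≤ μ * (s.re - ζ₀.re) / ‖s - ζ₀‖ ^ 2 := by
      rw [mul_div_assoc]
      calc 29/20 * y ≤ μ * (16 / (11 * x)) := by
            rw [hy]
            have : μ * (16 / (11 * x)) = 16/11 * (μ / x) := by field_simp
            rw [this]
            have h9 : 0 < μ / x := by positivity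
            nlinarith
        _ ≤ _ := by gcongr
    calc E * ((-s.re)⁻¹) ^ 3 * Real.exp (-(μ * (s.re - ζ₀.re) / ‖s - ζ₀‖ ^ 2))
        ≤ E * Real.exp (μ / (4*x)) * Real.exp (-(29/20 * y)) := by
          gcongr
      _ = E * Real.exp (-(6/5 * y)) := by
          rw [mul_assoc, ← Real.exp_add]
          congr 2
          rw [hy]
          field_simp
          ring
  have near : ∀ s : ℂ, ‖s - (ζ + ((x/2:ℝ):ℂ))‖ ≤ x/8 →
      ‖G s - G' s‖ ≤ 2 * E * Real.exp (-(6/5 * y)) := by
    intro s hs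
    obtain ⟨u, hu⟩ : ∃ u : ℂ, u = s - (ζ + ((x/2:ℝ):ℂ)) := ⟨_, rfl⟩
    rw [← hu] at hs
    have e1 : s - ζ = ((x/2:ℝ):ℂ) + u := by rw [hu]; ring
    have e2 : s - ζ' = ((x/2:ℝ):ℂ) + (u + (ζ - ζ')) := by rw [hu]; ring
    have n2 : ‖u + (ζ - ζ')‖ ≤ 3*x/16 := (norm_add_le _ _).trans (by linarith)
    have ure : |u.re| ≤ x/8 := (Complex.abs_re_le_norm u).trans hs
    obtain ⟨ul, uu⟩ := abs_le.1 ure
    have b1 := ballre (x/2) (x/8) u (by positivity) (by linarith) hs
    have b2 := ballre (x/2) (3*x/16) (u + (ζ-ζ')) (by positivity) (by linarith) n2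
    rw [← e1] at b1
    rw [← e2] at b2
    have r1 : s.re - ζ.re = x/2 + u.re := by
      have := congrArg Complex.re e1
      rw [sub_re, add_re, ofReal_re] at this
      exact this
    have r2 : s.re - ζ'.re = x/2 + (u + (ζ - ζ')).re := by
      have := congrArg Complex.re e2
      rw [sub_re, add_re, ofReal_re] at this
      exact this
    rw [← r1] at b1
    rw [← r2] at b2
    have c1 := key s ζ G (by linarith) (hGK s (by linarith) (by linarith)) (by
      refine le_trans ?_ b1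
      have : x/2 + x/8 = 5*x/8 := by ring
      rw [this, div_le_div_iff₀ (by positivity) (by positivity)]
      nlinarith)
    have c2 := key s ζ' G' (by linarith) (hGK' s (by linarith) (by linarith)) (by
      refine le_trans ?_ b2
      have : x/2 + 3*x/16 = 11*x/16 := by ring
      rw [this, div_le_div_iff₀ (by positivity) (by positivity)]
      nlinarith)
    have e3 : G s - G' s = (K s - G' s) - (K s - G s) := by ring
    rw [e3]
    refine (norm_sub_le _ _).trans ?_
    linarith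
  intro s hs
  -- powers
  obtain ⟨k, hk⟩ : ∃ k : ℕ, 22 / y + 1 ≤ (k:ℝ) := exists_nat_ge _
  have hk1 : 22 ≤ (k:ℝ) * y := by
    have : 22 / y ≤ (k:ℝ) := by linarith
    rwa [div_le_iff₀ hy0] at this
  have hk0 : k ≠ 0 := by
    rintro rfl
    simp at hk1
    linarith
  set j : ℕ := ⌈(k:ℝ) * y / 2⌉₊ with hj
  have hj1 : (k:ℝ) * y / 2 ≤ j := Nat.le_ceil _
  have hj2 : (j:ℝ) < (k:ℝ) * y / 2 + 1 := Nat.ceil_lt_add_one (by positivity)
  have hpow : Real.exp (-(6/5 * y)) ^ k ≤ (1/9:ℝ)^j := by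
    have h1 : (9:ℝ)^j ≤ Real.exp (6/5 * y) ^ k := by
      calc (9:ℝ)^j ≤ (Real.exp (11/5))^j := by
            gcongr
            exact exp22
        _ = Real.exp (j * (11/5)) := by rw [← Real.exp_nat_mul]
        _ ≤ Real.exp (k * (6/5 * y)) := by
            apply Real.exp_le_exp.2
            nlinarith
        _ = _ := by rw [Real.exp_nat_mul]
    rw [Real.exp_neg, inv_pow, one_div, inv_pow]
    exact inv_anti₀ (by positivity) h1
  set a : ℂ := ζ + ((x/2:ℝ):ℂ) + (xm:ℂ) with ha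
  have hare : a.re = xm - x/2 := by
    rw [ha]
    simp only [add_re, ofReal_re, hx1]
    ring
  have T := TCh (fun w => (G (w - xm) - G' (w - xm))^k) ((2*E)^k) a j
    (by
      apply DifferentiableOn.pow
      apply DifferentiableOn.sub
      · apply DifferentiableOn.comp hGd (by fun_prop)
        intro w hw
        have hw' : 0 < w.re := hw
        show ζ.re < (w - xm).re
        rw [sub_re, ofReal_re]
        linarith
      · apply DifferentiableOn.comp hGd' (by fun_prop)
        intro w hw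
        have hw' : 0 < w.re := hw
        show ζ'.re < (w - xm).re
        rw [sub_re, ofReal_re]
        linarith)
    (by
      intro w hw
      rw [norm_pow]
      gcongr
      refine (norm_sub_le _ _).trans ?_
      have h1 := hGb (w - xm) (by rw [sub_re, ofReal_re]; linarith)
      have h2 := hGb' (w - xm) (by rw [sub_re, ofReal_re]; linarith)
      linarith)
    (by rw [hare]; linarith)
    (by
      intro w hw
      have h1 : ‖(w - xm) - (ζ + ((x/2:ℝ):ℂ))‖ ≤ x/8 := by
        have e : (w - xm) - (ζ + ((x/2:ℝ):ℂ)) = w - a := by rw [ha]; ring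
        rw [e]
        refine hw.trans ?_
        rw [hare]
        linarith
      have h2 := near _ h1
      rw [norm_pow]
      calc ‖G (w - xm) - G' (w - xm)‖^k ≤ (2 * E * Real.exp (-(6/5 * y)))^k := by gcongr
        _ = (2*E)^k * Real.exp (-(6/5 * y))^k := by rw [mul_pow]
        _ ≤ _ := by gcongr)
    (s + xm) (by rw [add_re, ofReal_re]; linarith)
  have e1 : s + (xm:ℂ) - xm = s := by ring
  simp only [e1] at T
  rw [norm_pow] at T
  set D : ℝ := ‖s - ζ‖ with hD
  have hDre : s.re + x ≤ D := by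
    have := Complex.re_le_norm (s - ζ)
    rw [sub_re, hx1] at this
    linarith
  have hDx : x/2 ≤ D := by linarith
  have hD0 : 0 < D := by linarith
  set N : ℝ := ‖s + xm + (starRingEnd ℂ) a‖ with hN
  have hNre : s.re + xm + (xm - x/2) ≤ N := by
    have := Complex.re_le_norm (s + xm + (starRingEnd ℂ) a)
    rw [add_re, add_re, ofReal_re, conj_re, hare] at this
    exact this
  have hN0 : 0 < N := by linarith
  have hND : N ≤ 2 * D := by
    have e : s + xm + (starRingEnd ℂ) a = (s - ζ) + ((2*xm - 3*x/2 : ℝ) : ℂ) := by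
      apply Complex.ext
      · rw [add_re, add_re, ofReal_re, conj_re, hare, add_re, sub_re, ofReal_re, hx1]
        ring
      · simp only [ha, add_im, ofReal_im, conj_im, sub_im]
        ring
    rw [hN, e]
    refine (norm_add_le _ _).trans ?_
    rw [Complex.norm_real, Real.norm_eq_abs]
    have : |2*xm - 3*x/2| ≤ x/2 := abs_le.2 ⟨by linarith, by linarith⟩
    linarith
  have hsq : ‖s + xm - a‖^2 = N^2 - 4 * a.re * (s.re + xm) := by
    rw [hN, ← Complex.normSq_eq_norm_sq, ← Complex.normSq_eq_norm_sq, normSq_apply, normSq_apply]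
    simp only [add_re, sub_re, ofReal_re, conj_re, add_im, sub_im, ofReal_im, conj_im]
    ring
  set m : ℝ := x * (s.re + x) / (8 * D^2) with hm
  have hsx : 0 < s.re + x := by linarith
  have hm0 : 0 < m := by positivity
  have hm2 : m ≤ 2 := by
    rw [hm, div_le_iff₀ (by positivity)]
    nlinarith
  have ht : 2 * m ≤ 4 * a.re * (s.re + xm) / N^2 := by
    have h1 : 2 * m = x * (s.re + x) / (4 * D^2) := by
      rw [hm]; field_simp; ring
    rw [h1, div_le_div_iff₀ (by positivity) (by positivity)]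
    have h2 : N^2 ≤ 4 * D^2 := by nlinarith
    have h3 : x * (s.re + x) ≤ 4 * a.re * (s.re + xm) := by
      have h4 : 7/16 * x ≤ a.re := by rw [hare]; linarith
      have h5 : 7/8 * (s.re + x) ≤ s.re + xm := by linarith
      have h6 : 7/16 * x * (7/8 * (s.re + x)) ≤ a.re * (s.re + xm) :=
        mul_le_mul h4 h5 (by positivity) (by linarith)
      nlinarith [mul_pos hx hsx]
    exact mul_le_mul h3 h2 (by positivity) (le_trans (by positivity) h3)
  have hphi : ‖s + xm - a‖ / N ≤ Real.exp (-m) := by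
    have h1 : (‖s + xm - a‖ / N)^2 ≤ (Real.exp (-m))^2 := by
      rw [div_pow, hsq, ← Real.exp_nat_mul]
      have h2 : (N^2 - 4 * a.re * (s.re + xm)) / N^2 = 1 - 4 * a.re * (s.re + xm) / N^2 := by
        field_simp
      rw [h2]
      have h3 := Real.add_one_le_exp (-(4 * a.re * (s.re + xm) / N^2))
      calc 1 - 4 * a.re * (s.re + xm) / N^2 ≤ Real.exp (-(4 * a.re * (s.re + xm) / N^2)) := by
            linarith
        _ ≤ Real.exp (((2:ℕ):ℝ) * -m) := by
            apply Real.exp_le_exp.2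
            push_cast
            linarith
    exact (pow_le_pow_iff_left₀ (by positivity) (Real.exp_pos _).le (by norm_num)).1 h1
  have h9 : (1/9:ℝ) ≤ Real.exp (-m) := by
    rw [Real.exp_neg, one_div]
    apply inv_anti₀ (Real.exp_pos _)
    exact (Real.exp_le_exp.2 hm2).trans exp2le
  have hmax : max (1/9:ℝ) (‖s + xm - a‖ / N) ≤ Real.exp (-m) := max_le h9 hphi
  have hfin : ‖G s - G' s‖^k ≤ (2 * E * Real.exp (-(μ * (s.re + x) / (16 * D ^ 2))))^k := by
    refine T.trans ?_
    rw [mul_pow (2*E)]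
    have h1 : (max (1/9:ℝ) (‖s + xm - a‖ / N))^j ≤
        Real.exp (-(μ * (s.re + x) / (16 * D ^ 2)))^k := by
      calc (max (1/9:ℝ) (‖s + xm - a‖ / N))^j ≤ (Real.exp (-m))^j := by
            gcongr
        _ = Real.exp (-((j:ℝ) * m)) := by
            rw [← Real.exp_nat_mul]; ring_nf
        _ ≤ Real.exp (-((k:ℝ) * (μ * (s.re + x) / (16 * D ^ 2)))) := by
            apply Real.exp_le_exp.2
            have h2 : (k:ℝ) * (μ * (s.re + x) / (16 * D ^ 2)) = (k:ℝ) * y / 2 * m := by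
              rw [hy, hm]
              field_simp
              ring
            rw [h2]
            have := mul_le_mul_of_nonneg_right hj1 hm0.le
            linarith
        _ = _ := by
            rw [← Real.exp_nat_mul]; ring_nf
    gcongr
  exact (pow_le_pow_iff_left₀ (norm_nonneg _) (by positivity) hk0).1 hfin

end NM
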