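import Pool.Agent.Helper360.NM.Defs



namespace NM
open Complex Metric Set Filter Topology MeasureTheory


theorem sm_one (x : ℝ) (hx : 0 < x) (hx1 : x ≤ 1 / 100) : 27 * (x⁻¹) ^ 3 ≤ Real.exp (1 / (4 * x)) := by
  have hy : (100 : ℝ) ≤ x⁻¹ := by
    rw [le_inv_comm₀ (by norm_num) hx]
    linarith
  set y := x⁻¹ with hyd
  have h1 : 1 / (4 * x) = y / 4 := by
    rw [hyd]
    field_simp
  rw [h1]
  have h2 := Real.pow_div_factorial_le_exp (y / 4) (by positivity) 12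
  refine le_trans ?_ h2
  have h3 : (100:ℝ) ^ 9 ≤ y ^ 9 := by gcongr
  have hf : (Nat.factorial 12 : ℝ) = 479001600 := by norm_num [Nat.factorial]
  rw [hf]
  have h4 : y ^ 3 * (100:ℝ) ^ 9 ≤ y ^ 3 * y ^ 9 := by gcongr
  have h5 : 0 ≤ y ^ 3 := by positivity
  have h6 : (y / 4) ^ 12 / 479001600 = (y ^ 3 * y ^ 9) / (4 ^ 12 * 479001600) := by ring
  rw [h6, le_div_iff₀ (by norm_num)]
  nlinarith

end NM
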