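import Pool.Agent.Helper360.NM.Defs
import Pool.Agent.Helper360.NM.P_CL
import Pool.Agent.Helper360.NM.P_sm_one



namespace NM
open Complex Metric Set Filter Topology MeasureTheory


theorem CLring (K U U' : ℂ → ℂ) (ρ X X' E sg : ℝ) (hE : 1 ≤ E) (hρ : 0 < ρ) (hρ1 : ρ ≤ 1 / 1000)
    (hX : 0 < X) (hX1 : X ≤ 1) (h1 : X * (1 - ρ / 32) ≤ X') (h2 : X' ≤ X)
    (hsg : sg = 1 ∨ sg = -1)
    (hU : Appr K ⟨-(ρ * X), sg * X⟩ 1 E U) (hU' : Appr K ⟨-(ρ * X'), sg * X'⟩ 1 E U') (s : ℂ)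
    (hs : (-(ρ * X / 2) ≤ s.re ∧ s.re ≤ X ∧ s.im = sg * X') ∨
      (s.re = X' ∧ |s.im| ≤ X' ∧ 0 ≤ sg * s.im)) :
    ‖U s - U' s‖ ≤ 2 * E * Real.exp (-(1 / (34 * X))) := by
  have hsg2 : sg ^ 2 = 1 := by
    rcases hsg with h | h <;> rw [h] <;> norm_num
  have hρX : 0 < ρ * X := mul_pos hρ hX
  have hρX1 : ρ * X ≤ 1 / 1000 := by nlinarith
  have hnsq : ∀ w : ℂ, ‖w‖ ^ 2 = w.re ^ 2 + w.im ^ 2 := by
    intro w
    rw [Complex.sq_norm, Complex.normSq_apply]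
    ring
  have hXX : X - X' ≤ ρ * X / 32 := by linarith
  have hXX0 : 0 ≤ X - X' := by linarith
  have hXX2 : (X - X') ^ 2 ≤ (ρ * X / 32) ^ 2 := by
    apply pow_le_pow_left₀ hXX0 hXX
  have hd : ‖(⟨-(ρ * X), sg * X⟩ : ℂ) - ⟨-(ρ * X'), sg * X'⟩‖ ≤ ρ * X / 16 := by
    apply le_of_sq_le_sq _ (by positivity)
    rw [hnsq]
    simp only [Complex.sub_re, Complex.sub_im]
    have h3 : (-(ρ * X) - -(ρ * X')) ^ 2 + (sg * X - sg * X') ^ 2 =
        (ρ ^ 2 + sg ^ 2) * (X - X') ^ 2 := by ring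
    rw [h3, hsg2]
    have h4 : ρ ^ 2 + 1 ≤ 4 := by nlinarith
    calc (ρ ^ 2 + 1) * (X - X') ^ 2 ≤ 4 * (ρ * X / 32) ^ 2 :=
          mul_le_mul h4 hXX2 (sq_nonneg _) (by norm_num)
      _ = (ρ * X / 16) ^ 2 := by ring
  have hX'pos : 0 < X' := by nlinarith
  have hsre : -(ρ * X / 2) ≤ s.re := by
    rcases hs with h | h
    · exact h.1
    · rw [h.1]
      linarith
  have hcl := CL K U U' ⟨-(ρ * X), sg * X⟩ ⟨-(ρ * X'), sg * X'⟩ 1 E (ρ * X) one_pos le_rfl hE hρX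
    rfl (sm_one (ρ * X) hρX (by linarith)) hd hU hU' s hsre
  refine hcl.trans ?_
  apply mul_le_mul_of_nonneg_left _ (by linarith)
  apply Real.exp_le_exp.2
  apply neg_le_neg
  rw [one_mul]
  obtain ⟨N, hN⟩ : ∃ N, N = ‖s - ⟨-(ρ * X), sg * X⟩‖ ^ 2 := ⟨_, rfl⟩
  have hN' : N = (s.re + ρ * X) ^ 2 + (s.im - sg * X) ^ 2 := by
    rw [hN, hnsq]
    simp only [Complex.sub_re, Complex.sub_im]
    ring
  rw [← hN]
  have hu : 0 < s.re + ρ * X := by linarith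
  have hNpos : 0 < N := by
    rw [hN']
    have := sq_nonneg (s.im - sg * X)
    positivity
  rw [div_le_div_iff₀ (by positivity) (by positivity), one_mul, hN']
  rcases hs with ⟨h3, h4, h5⟩ | ⟨h3, h4, h5⟩
  · rw [h5]
    have h6 : (sg * X' - sg * X) ^ 2 = sg ^ 2 * (X - X') ^ 2 := by ring
    rw [h6, hsg2, one_mul]
    obtain ⟨u, hu'⟩ : ∃ u, u = s.re + ρ * X := ⟨_, rfl⟩
    rw [← hu'] at hu ⊢
    have h7 : ρ * X / 32 ≤ u / 16 := by linarith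
    have h8 : (ρ * X / 32) ^ 2 ≤ (u / 16) ^ 2 := pow_le_pow_left₀ (by positivity) h7 2
    have h9 : u ≤ 1.001 * X := by
      rw [hu']
      nlinarith
    nlinarith
  · rw [h3]
    have h6 : (s.im - sg * X) ^ 2 = (sg * s.im - X) ^ 2 := by
      have : (sg * s.im - X) ^ 2 = sg ^ 2 * s.im ^ 2 - 2 * sg * s.im * X + X ^ 2 := by ring
      rw [this, hsg2]
      have h7 : (s.im - sg * X) ^ 2 = s.im ^ 2 - 2 * sg * s.im * X + sg ^ 2 * X ^ 2 := by ring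
      rw [h7, hsg2]
      ring
    have h7 : sg * s.im ≤ X := by
      rcases hsg with h | h
      · rw [h, one_mul]
        exact (le_abs_self _).trans (h4.trans h2)
      · rw [h]
        have := neg_abs_le s.im
        linarith
    have h8 : (sg * s.im - X) ^ 2 ≤ X ^ 2 := by nlinarith
    rw [h6]
    obtain ⟨t, ht⟩ : ∃ t, t = X' + ρ * X := ⟨_, rfl⟩
    rw [← ht]
    have h9 : X ≤ t := by
      rw [ht]
      nlinarith
    have h10 : t ≤ 1.001 * X := by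
      rw [ht]
      nlinarith
    nlinarith [mul_nonneg (sub_nonneg.2 h9) (sub_nonneg.2 h10)]

end NM
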