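import Pool.Agent.Helper360.NM.Defs



namespace NM
open Complex Metric Set Filter Topology MeasureTheory


theorem F_add (t t' : ℝ →₀ ℝ) (v : ℂ) : F (t + t') v = F t v * F t' v := by
  unfold F
  rw [Finsupp.sum_add_index', Complex.exp_add]
  · intro a
    simp
  · intro a b1 b2
    push_cast
    ring

end NM
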