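import Pool.Agent.Helper360.NM.Defs

namespace NM

open Complex Metric Set Filter Topology MeasureTheory

theorem F_diff (t : ℝ →₀ ℝ) : DifferentiableOn ℂ (F t) (ball 0 1) := by
  unfold F Finsupp.sum H
  apply DifferentiableOn.cexp
  apply DifferentiableOn.fun_sum
  intro α hα
  apply DifferentiableOn.const_mul
  apply DifferentiableOn.div
  · fun_prop
  · fun_prop
  · intro v hv h
    have h1 : ‖Complex.exp ((α : ℂ) * Complex.I) * v‖ = 1 := by
      have : Complex.exp ((α : ℂ) * Complex.I) * v = 1 := by linear_combination -h
      rw [this]; simp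
    rw [norm_mul, Complex.norm_exp_ofReal_mul_I, one_mul] at h1
    simp at hv
    linarith

end NM
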