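import Pool.Agent.Helper360.NM.Defs



namespace NM
open Complex Metric Set Filter Topology MeasureTheory


theorem cf_hasSum (f : ℂ → ℂ) (hf : DifferentiableOn ℂ f (ball 0 1)) :
    ∀ z ∈ ball (0:ℂ) 1, HasSum (fun n => cf f n * z ^ n) (f z) := by
  intro z hz
  have h := Complex.hasSum_taylorSeries_on_ball (c := 0) (r := 1) (z := z) (f := f) hf hz
  have he : (fun n : ℕ => ((n.factorial : ℂ))⁻¹ • (z - 0) ^ n • iteratedDeriv n f 0)
      = fun n => cf f n * z ^ n := by
    funext n
    rw [cf, sub_zero, smul_eq_mul, smul_eq_mul]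
    ring
  rw [he] at h
  exact h

end NM
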