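import Pool.Agent.Helper360.NM.Defs



namespace NM
open Complex Metric Set Filter Topology MeasureTheory


theorem norm_F (t : ℝ →₀ ℝ) (v : ℂ) (hv : ‖v‖ < 1) :
    ‖F t v‖ = Real.exp (t.sum fun α m =>
      m * ((1 - ‖v‖ ^ 2) / ‖1 - Complex.exp ((α : ℂ) * Complex.I) * v‖ ^ 2)) := by
  have hH : ∀ u : ℂ, (H u).re = (1 - ‖u‖ ^ 2) / ‖1 - u‖ ^ 2 := by
    intro u
    unfold H
    rw [Complex.div_re, ← Complex.normSq_eq_norm_sq, ← Complex.normSq_eq_norm_sq,
      Complex.normSq_apply u]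
    simp only [Complex.add_re, Complex.one_re, Complex.sub_re, Complex.add_im, Complex.one_im,
      Complex.sub_im]
    ring
  unfold F
  rw [Complex.norm_exp]
  congr 1
  unfold Finsupp.sum
  rw [Complex.re_sum]
  refine Finset.sum_congr rfl (fun α _ => ?_)
  simp only
  rw [Complex.re_ofReal_mul, hH, norm_mul, Complex.norm_exp_ofReal_mul_I, one_mul]
end NM
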