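import Pool.Agent.Helper360.NM.Defs
import Pool.Agent.Helper360.NM.P_norm_F
import Pool.Agent.Helper360.NM.P_F_add
import Pool.Agent.Helper360.NM.P_F_diff
import Pool.Agent.Helper360.NM.P_cf_hasSum



namespace NM
open Complex Metric Set Filter Topology MeasureTheory


theorem gt_cf_mul (f g : ℂ → ℂ) (hf : DifferentiableOn ℂ f (ball 0 1))
    (hg : DifferentiableOn ℂ g (ball 0 1)) (m : ℕ) :
    cf (f * g) m = ∑ kl ∈ Finset.HasAntidiagonal.antidiagonal m, cf f kl.1 * cf g kl.2 := by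
  have h0 : ball (0 : ℂ) 1 ∈ nhds (0 : ℂ) := ball_mem_nhds _ one_pos
  have cf1 : ContDiffAt ℂ m f 0 := (hf.analyticAt h0).contDiffAt
  have cg1 : ContDiffAt ℂ m g 0 := (hg.analyticAt h0).contDiffAt
  unfold cf
  rw [iteratedDeriv_mul cf1 cg1, Finset.Nat.sum_antidiagonal_eq_sum_range_succ_mk, Finset.sum_div]
  refine Finset.sum_congr rfl fun i hi => ?_
  have hi' : i ≤ m := Nat.lt_succ_iff.1 (Finset.mem_range.1 hi)
  have h1 : (m.factorial : ℂ) ≠ 0 := by exact_mod_cast m.factorial_ne_zero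
  have h2 : (i.factorial : ℂ) ≠ 0 := by exact_mod_cast i.factorial_ne_zero
  have h3 : ((m - i).factorial : ℂ) ≠ 0 := by exact_mod_cast (m - i).factorial_ne_zero
  have h4 : (m.choose i : ℂ) * i.factorial * (m - i).factorial = m.factorial := by
    exact_mod_cast Nat.choose_mul_factorial_mul_factorial hi'
  simp only []
  field_simp
  rw [← h4]
  ring

theorem gt_F_neg (t ν : ℝ →₀ ℝ) : F t = F (-ν) * F (t + ν) := by
  funext v
  show F t v = F (-ν) v * F (t + ν) v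
  rw [← F_add]
  congr 1
  abel

theorem gt_norm (ν : ℝ →₀ ℝ) (hν : ∀ α, 0 ≤ ν α) (v : ℂ) (hv : ‖v‖ < 1) : ‖F (-ν) v‖ ≤ 1 := by
  rw [norm_F _ v hv, Real.exp_le_one_iff]
  unfold Finsupp.sum
  refine Finset.sum_nonpos fun α _ => ?_
  have h1 : (-ν) α ≤ 0 := by
    rw [Finsupp.neg_apply]
    linarith [hν α]
  refine mul_nonpos_of_nonpos_of_nonneg h1 (div_nonneg ?_ (sq_nonneg _))
  have := norm_nonneg v
  nlinarith

theorem gt_cf_le (ν : ℝ →₀ ℝ) (hν : ∀ α, 0 ≤ ν α) (n : ℕ) : ‖cf (F (-ν)) n‖ ≤ 1 := by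
  have key : ∀ r : ℝ, 0 < r → r < 1 → ‖cf (F (-ν)) n‖ * r ^ n ≤ 1 := by
    intro r hr0 hr1
    have h1 : DiffContOnCl ℂ (F (-ν)) (ball 0 r) :=
      (F_diff (-ν)).diffContOnCl_ball (closedBall_subset_ball hr1)
    have h2 := norm_iteratedDeriv_le_of_forall_mem_sphere_norm_le n hr0 h1 (C := 1)
      (fun z hz => gt_norm ν hν z (by rw [mem_sphere_zero_iff_norm] at hz; rw [hz]; exact hr1))
    unfold cf
    rw [norm_div, Complex.norm_natCast]
    have hf : (0 : ℝ) < n.factorial := by exact_mod_cast n.factorial_pos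
    have hrn : 0 < r ^ n := pow_pos hr0 n
    rw [le_div_iff₀ hrn] at h2
    rw [div_mul_eq_mul_div, div_le_one hf]
    linarith
  have hlim : Tendsto (fun r : ℝ => ‖cf (F (-ν)) n‖ * r ^ n) (nhdsWithin 1 (Iio 1))
      (nhds (‖cf (F (-ν)) n‖ * 1 ^ n)) := by
    apply Tendsto.mono_left _ nhdsWithin_le_nhds
    exact (continuous_const.mul (continuous_pow n)).tendsto 1
  rw [one_pow, mul_one] at hlim
  refine le_of_tendsto hlim ?_
  filter_upwards [Ioo_mem_nhdsLT (show (0 : ℝ) < 1 by norm_num)] with r hr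
  exact key r hr.1 hr.2

theorem Good_transfer (l : ℕ → ℂ) (L0 : ℝ) (hl : ∀ n, ‖l n‖ ≤ L0) (t ν : ℝ →₀ ℝ)
    (ht : ∀ α, 0 ≤ t α) (hν : ∀ α, 0 ≤ ν α) (z : ℂ) (hz : ‖z‖ < 1) (B : ℝ) (hB : 0 ≤ B)
    (h : Good l (t + ν) z B) : Good l t z (2 * ((1 - ‖z‖)⁻¹) ^ 3 * B) := by
  intro n
  set g := cf (F (t + ν)) with hg
  set a := cf (F (-ν)) with ha
  have hzb : z ∈ ball (0 : ℂ) 1 := by rwa [mem_ball_zero_iff]
  have sg : Summable fun j => ‖g j * z ^ j‖ := (cf_hasSum _ (F_diff (t + ν)) z hzb).summable.norm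
  have sa : Summable fun j => ‖a j * z ^ j‖ := (cf_hasSum _ (F_diff (-ν)) z hzb).summable.norm
  have hcf : ∀ m, cf (F t) m = ∑ kl ∈ Finset.HasAntidiagonal.antidiagonal m, a kl.1 * g kl.2 := by
    intro m
    rw [gt_F_neg t ν]
    exact gt_cf_mul _ _ (F_diff _) (F_diff _) m
  let φ : ℕ × ℕ → ℂ := fun p => a p.1 * (l (n + p.1 + p.2) * g p.2 * z ^ (n + p.1 + p.2))
  have hφ : Summable φ := by
    have hprod : Summable fun p : ℕ × ℕ => ‖a p.1 * z ^ p.1‖ * ‖g p.2 * z ^ p.2‖ :=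
      sa.mul_of_nonneg sg (fun _ => norm_nonneg _) (fun _ => norm_nonneg _)
    refine Summable.of_norm_bounded (hprod.mul_left (L0 * ‖z‖ ^ n)) fun p => ?_
    simp only [φ, norm_mul, norm_pow]
    have e : ‖a p.1‖ * (‖l (n + p.1 + p.2)‖ * ‖g p.2‖ * ‖z‖ ^ (n + p.1 + p.2)) =
        ‖l (n + p.1 + p.2)‖ * (‖z‖ ^ n * (‖a p.1‖ * ‖z‖ ^ p.1 * (‖g p.2‖ * ‖z‖ ^ p.2))) := by
      rw [pow_add, pow_add]; ring
    rw [e, mul_assoc L0]
    exact mul_le_mul_of_nonneg_right (hl _) (by positivity)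
  have hLam : Lam l (cf (F t)) n z = ∑' p, φ p := by
    unfold Lam
    rw [← Finset.HasAntidiagonal.sigmaAntidiagonalEquivProd.tsum_eq φ]
    have hs : Summable fun x : Σ n : ℕ, Finset.HasAntidiagonal.antidiagonal n => φ (Finset.HasAntidiagonal.sigmaAntidiagonalEquivProd x) :=
      Finset.HasAntidiagonal.sigmaAntidiagonalEquivProd.summable_iff.mpr hφ
    rw [hs.tsum_sigma' (fun n => (hasSum_fintype _).summable)]
    refine tsum_congr fun m => ?_
    rw [tsum_fintype, hcf, Finset.mul_sum, Finset.sum_mul]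
    rw [← Finset.sum_finset_coe]
    refine Finset.sum_congr rfl fun kl _ => ?_
    obtain ⟨⟨k, j⟩, hkl⟩ := kl
    have hkj : k + j = m := Finset.HasAntidiagonal.mem_antidiagonal.1 hkl
    simp only [φ, Finset.HasAntidiagonal.sigmaAntidiagonalEquivProd_apply]
    rw [show n + m = n + k + j by omega]
    ring
  rw [hLam, hφ.tsum_prod]
  have hin : ∀ i, ∑' j, φ (i, j) = a i * Lam l g (n + i) z := by
    intro i
    unfold Lam
    rw [← tsum_mul_left]
  have hx : ‖(‖z‖ : ℝ)‖ < 1 := by rw [norm_norm]; exact hz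
  have hgeo := hasSum_choose_mul_geometric_of_norm_lt_one 2 hx
  have hb := hgeo.mul_left (((n : ℝ) + 1) ^ 2 * ‖z‖ ^ n * B * 2)
  have hfin := tsum_of_norm_bounded hb (f := fun i => ∑' j, φ (i, j)) (by
    intro i
    rw [hin, norm_mul]
    have h1 : ‖a i‖ ≤ 1 := gt_cf_le ν hν i
    have h2 := h (n + i)
    have h3 : ‖a i‖ * ‖Lam l g (n + i) z‖ ≤ 1 * ((((n + i : ℕ) : ℝ) + 1) ^ 2 * ‖z‖ ^ (n + i) * B) :=
      mul_le_mul h1 h2 (norm_nonneg _) (by norm_num)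
    refine h3.trans ?_
    have h4 : (((i + 2).choose 2 : ℕ) : ℝ) * 2 = ((i : ℝ) + 2) * ((i : ℝ) + 1) := by
      have : (i + 2).choose 2 * 2 = (i + 2) * (i + 1) := by
        rw [Nat.choose_two_right, Nat.add_sub_assoc (by norm_num)]
        exact Nat.div_mul_cancel (Nat.even_mul_pred_self (i + 2)).two_dvd
      exact_mod_cast this
    have h5 : (((n + i : ℕ) : ℝ) + 1) ^ 2 ≤ ((n : ℝ) + 1) ^ 2 * (((i : ℝ) + 2) * ((i : ℝ) + 1)) := by
      push_cast
      have hn : (0 : ℝ) ≤ n := Nat.cast_nonneg n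
      have hi : (0 : ℝ) ≤ i := Nat.cast_nonneg i
      have q1 : (n : ℝ) + i + 1 ≤ (n + 1) * (i + 1) := by nlinarith
      calc ((n : ℝ) + i + 1) ^ 2 ≤ (((n : ℝ) + 1) * (i + 1)) ^ 2 :=
            pow_le_pow_left₀ (by positivity) q1 2
        _ = ((n : ℝ) + 1) ^ 2 * (((i : ℝ) + 1) * ((i : ℝ) + 1)) := by ring
        _ ≤ ((n : ℝ) + 1) ^ 2 * (((i : ℝ) + 2) * ((i : ℝ) + 1)) := by
            gcongr
            norm_num
    have h6 : 0 ≤ ‖z‖ ^ (n + i) * B := by positivity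
    have h7 := mul_le_mul_of_nonneg_right h5 h6
    rw [← h4] at h7
    rw [pow_add] at h7 ⊢
    linarith)
  refine hfin.trans (le_of_eq ?_)
  rw [one_div, inv_pow]
  ring

end NM
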