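import Pool.Agent.Helper360.NM.Defs



namespace NM
open Complex Metric Set Filter Topology MeasureTheory


theorem Kf_norm (l : ℕ → ℂ) (L0 : ℝ) (hL0 : 1 ≤ L0) (hl : ∀ n, ‖l n‖ ≤ L0) (s : ℂ)
    (h1 : -1 ≤ s.re) (h2 : s.re < 0) : ‖Kf l s‖ ≤ 2 * L0 / (-s.re) := by
  obtain ⟨u, hu⟩ : ∃ u, u = -s.re := ⟨_, rfl⟩
  have hu0 : 0 < u := by linarith
  have hu1 : u ≤ 1 := by linarith
  have hr1 : Real.exp s.re < 1 := by
    rw [Real.exp_lt_one_iff]; exact h2
  have hr0 := Real.exp_pos s.re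
  have hsum : HasSum (fun n : ℕ => L0 * Real.exp s.re ^ n) (L0 * (1 - Real.exp s.re)⁻¹) :=
    (hasSum_geometric_of_lt_one hr0.le hr1).mul_left L0
  have hb : ‖Kf l s‖ ≤ L0 * (1 - Real.exp s.re)⁻¹ := by
    unfold Kf
    apply tsum_of_norm_bounded hsum
    intro n
    rw [norm_mul, Complex.norm_exp]
    have e1 : ((n : ℂ) * s).re = n * s.re := by simp
    rw [e1, Real.exp_nat_mul]
    exact mul_le_mul_of_nonneg_right (hl n) (by positivity)
  refine hb.trans ?_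
  have h3 : u / 2 ≤ 1 - Real.exp s.re := by
    have h4 : Real.exp s.re = (Real.exp u)⁻¹ := by
      rw [← Real.exp_neg, hu, neg_neg]
    have h5 : 1 + u ≤ Real.exp u := by
      have := Real.add_one_le_exp u
      linarith
    have h6 : (Real.exp u)⁻¹ ≤ (1 + u)⁻¹ := by
      apply inv_anti₀ (by linarith) h5
    have h7 : (1 + u)⁻¹ ≤ 1 - u / 2 := by
      rw [inv_le_iff_one_le_mul₀ (by linarith)]
      nlinarith
    rw [h4]
    linarith
  rw [← hu, ← div_eq_mul_inv, div_le_div_iff₀ (by linarith) hu0]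
  nlinarith

end NM
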