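import Pool.Agent.Helper360.NM.Defs



namespace NM
open Complex Metric Set Filter Topology MeasureTheory


theorem Kf_periodic (l : ℕ → ℂ) (s : ℂ) : Kf l (s + 2 * Real.pi * Complex.I) = Kf l s := by
  unfold Kf
  refine tsum_congr fun n => ?_
  have h : (n : ℂ) * (s + 2 * Real.pi * Complex.I) = (n : ℂ) * s + (n : ℤ) * (2 * Real.pi * Complex.I) := by
    push_cast
    ring
  rw [h, Complex.exp_add, Complex.exp_int_mul_two_pi_mul_I, mul_one]

end NM
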