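import Pool.Agent.Helper360.NM.Defs
import Pool.Agent.Helper360.NM.P_Kf_norm



namespace NM
open Complex Metric Set Filter Topology MeasureTheory


theorem LocK_Kf (l : ℕ → ℂ) (L0 : ℝ) (hL0 : 1 ≤ L0) (hl : ∀ n, ‖l n‖ ≤ L0) :
    LocK (Kf l) (2 * L0) := by
  refine ⟨?_, fun s h1 h2 => Kf_norm l L0 hL0 hl s h1 h2⟩
  intro s hs
  have hs' : s.re < 0 := hs
  have hU : IsOpen {w : ℂ | w.re < s.re / 2} := isOpen_lt Complex.continuous_re continuous_const
  have hsU : s ∈ {w : ℂ | w.re < s.re / 2} := by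
    show s.re < s.re / 2
    linarith
  have hr0 : 0 ≤ Real.exp (s.re / 2) := (Real.exp_pos _).le
  have hr1 : Real.exp (s.re / 2) < 1 := by
    rw [Real.exp_lt_one_iff]
    linarith
  have hsum : Summable (fun n : ℕ => L0 * Real.exp (s.re / 2) ^ n) :=
    (summable_geometric_of_lt_one hr0 hr1).mul_left L0
  have hD : DifferentiableOn ℂ (fun w : ℂ => ∑' n : ℕ, l n * Complex.exp ((n : ℂ) * w))
      {w : ℂ | w.re < s.re / 2} := by
    refine differentiableOn_tsum_of_summable_norm hsum (fun n => ?_) hU (fun n w hw => ?_)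
    · fun_prop
    · have hw' : w.re < s.re / 2 := hw
      rw [norm_mul, Complex.norm_exp]
      have h1 : ((n : ℂ) * w).re = (n : ℝ) * w.re := by simp
      rw [h1, ← Real.exp_nat_mul]
      refine mul_le_mul (hl n) ?_ (Real.exp_pos _).le (by linarith)
      exact Real.exp_le_exp.mpr (mul_le_mul_of_nonneg_left hw'.le (Nat.cast_nonneg n))
  have hDa : DifferentiableAt ℂ (Kf l) s := (hD s hsU).differentiableAt (hU.mem_nhds hsU)
  exact hDa.differentiableWithinAt

/-! ## Part C (Poisson integrals near atoms) -/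

end NM
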