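import Pool.Agent.Helper360.NM.Defs



namespace NM
open Complex Metric Set Filter Topology MeasureTheory


/-- absolute summability at every radius -/
def PLqEnt (q : ℕ → ℂ) : Prop := ∀ R : ℝ, 0 ≤ R → Summable (fun l => ‖q l‖ * R ^ l)

/-- the power series -/
noncomputable def PLqF (q : ℕ → ℂ) (z : ℂ) : ℂ := ∑' l, q l * z ^ l

theorem PLqEnt.succ {q : ℕ → ℂ} (h : PLqEnt q) : PLqEnt (fun l => q (l + 1)) := by
  intro R hR
  have h1 := (summable_nat_add_iff (f := fun l => ‖q l‖ * (R + 1) ^ l) 1).2 (h (R + 1) (by linarith))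
  refine Summable.of_nonneg_of_le (fun l => by positivity) (fun l => ?_) h1
  apply mul_le_mul_of_nonneg_left _ (norm_nonneg _)
  calc R ^ l ≤ (R + 1) ^ l := pow_le_pow_left₀ hR (by linarith) l
    _ ≤ (R + 1) ^ (l + 1) := pow_le_pow_right₀ (by linarith) (Nat.le_succ l)

theorem PLqEnt.summ {q : ℕ → ℂ} (h : PLqEnt q) (z : ℂ) : Summable (fun l => q l * z ^ l) := by
  apply Summable.of_norm
  refine (h ‖z‖ (norm_nonneg _)).congr (fun l => ?_)
  rw [norm_mul, norm_pow]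

theorem PLqEnt.bd {q : ℕ → ℂ} (h : PLqEnt q) (z : ℂ) (R : ℝ) (hz : ‖z‖ ≤ R) :
    ‖PLqF q z‖ ≤ ∑' l, ‖q l‖ * R ^ l := by
  have hR : 0 ≤ R := (norm_nonneg _).trans hz
  unfold PLqF
  have h1 : Summable (fun l => ‖q l * z ^ l‖) := by
    refine (h ‖z‖ (norm_nonneg _)).congr (fun l => ?_)
    rw [norm_mul, norm_pow]
  refine (norm_tsum_le_tsum_norm h1).trans ?_
  apply Summable.tsum_le_tsum _ h1 (h R hR)
  intro l
  rw [norm_mul, norm_pow]
  exact mul_le_mul_of_nonneg_left (pow_le_pow_left₀ (norm_nonneg _) hz l) (norm_nonneg _)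

theorem PLqEnt.diff {q : ℕ → ℂ} (h : PLqEnt q) : Differentiable ℂ (PLqF q) := by
  intro z
  have h1 : DifferentiableOn ℂ (fun w : ℂ => ∑' l, q l * w ^ l) (ball 0 (‖z‖ + 1)) := by
    apply differentiableOn_tsum_of_summable_norm (h (‖z‖ + 1) (by positivity))
    · intro l
      apply DifferentiableOn.const_mul
      apply DifferentiableOn.pow
      exact differentiableOn_id
    · exact isOpen_ball
    · intro l w hw
      rw [norm_mul, norm_pow]
      have hw' : ‖w‖ < ‖z‖ + 1 := by simpa using hw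
      exact mul_le_mul_of_nonneg_left (pow_le_pow_left₀ (norm_nonneg _) hw'.le l) (norm_nonneg _)
  exact h1.differentiableAt (isOpen_ball.mem_nhds (by simp))

theorem PLqEnt.split {q : ℕ → ℂ} (h : PLqEnt q) (z : ℂ) :
    PLqF q z = q 0 + z * PLqF (fun l => q (l + 1)) z := by
  unfold PLqF
  rw [(h.summ z).tsum_eq_zero_add, pow_zero, mul_one, ← tsum_mul_left]
  congr 1
  apply tsum_congr
  intro l
  rw [pow_succ]
  ring

theorem PLqF_zero (q : ℕ → ℂ) : PLqF q 0 = q 0 := by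
  unfold PLqF
  rw [tsum_eq_single 0]
  · simp
  · intro l hl
    rw [zero_pow hl, mul_zero]

theorem PLq_van (l : ℕ) : ∀ q : ℕ → ℂ, PLqEnt q → (∀ z, z ≠ 0 → PLqF q z = 0) → q l = 0 := by
  induction l with
  | zero =>
    intro q h h0
    have h1 : PLqF q = fun _ => 0 := by
      apply Continuous.ext_on (dense_compl_singleton (0 : ℂ)) h.diff.continuous continuous_const
      intro z hz
      exact h0 z hz
    rw [← PLqF_zero q, h1]
  | succ l ih =>
    intro q h h0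
    have h1 : PLqF q = fun _ => 0 := by
      apply Continuous.ext_on (dense_compl_singleton (0 : ℂ)) h.diff.continuous continuous_const
      intro z hz
      exact h0 z hz
    have h2 : q 0 = 0 := by rw [← PLqF_zero q, h1]
    apply ih (fun l => q (l + 1)) h.succ
    intro z hz
    have h3 := h.split z
    rw [h0 z hz, h2, zero_add] at h3
    rcases mul_eq_zero.1 h3.symm with h4 | h4
    · exact absurd h4 hz
    · exact h4

theorem PLq_liou (q : ℕ → ℂ) (h : PLqEnt q) (C : ℝ) (hC : ∀ z : ℂ, 1 ≤ ‖z‖ → ‖PLqF q z‖ ≤ C) :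
    (∀ z, PLqF q z = q 0) ∧ ∀ l, q (l + 1) = 0 := by
  have hb : Bornology.IsBounded (range (PLqF q)) := by
    rw [isBounded_iff_forall_norm_le]
    refine ⟨max C (∑' l, ‖q l‖ * 1 ^ l), ?_⟩
    rintro _ ⟨z, rfl⟩
    rcases le_total 1 ‖z‖ with hz | hz
    · exact (hC z hz).trans (le_max_left _ _)
    · exact (h.bd z 1 hz).trans (le_max_right _ _)
  have h1 : ∀ z, PLqF q z = q 0 := by
    intro z
    rw [← PLqF_zero q]
    exact h.diff.apply_eq_apply_of_bounded hb z 0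
  refine ⟨h1, ?_⟩
  intro l
  apply PLq_van l (fun l => q (l + 1)) h.succ
  intro z hz
  have h3 := h.split z
  rw [h1 z] at h3
  have h4 : z * PLqF (fun l => q (l + 1)) z = 0 := by
    have := congrArg (fun w => w - q 0) h3
    simp only [sub_self, add_sub_cancel_left] at this
    exact this.symm
  rcases mul_eq_zero.1 h4 with h5 | h5
  · exact absurd h5 hz
  · exact h5

theorem PLq_ent (q : ℕ → ℂ)
    (h0 : ∀ δ : ℝ, 0 < δ → ∃ X1 : ℝ, 0 < X1 ∧ ∀ X : ℝ, 0 < X → X < X1 → ∀ l : ℕ,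
      ‖q l‖ ≤ (2 * X) ^ l * Real.exp (δ / X)) : PLqEnt q := by
  intro R hR
  obtain ⟨X1, hX1, hq⟩ := h0 1 one_pos
  set X := min (X1 / 2) (1 / (4 * (R + 1))) with hX
  have hXpos : 0 < X := lt_min (by linarith) (by positivity)
  have hXlt : X < X1 := (min_le_left _ _).trans_lt (by linarith)
  have hXR : X * (4 * (R + 1)) ≤ 1 := by
    have h1 : X ≤ 1 / (4 * (R + 1)) := min_le_right _ _
    rwa [le_div_iff₀ (by positivity)] at h1
  have h2 : 2 * X * R ≤ 1 / 2 := by nlinarith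
  have h3 : Summable (fun l : ℕ => Real.exp (1 / X) * (1 / 2 : ℝ) ^ l) :=
    (summable_geometric_of_lt_one (by norm_num) (by norm_num)).mul_left _
  refine Summable.of_nonneg_of_le (fun l => by positivity) (fun l => ?_) h3
  calc ‖q l‖ * R ^ l ≤ ((2 * X) ^ l * Real.exp (1 / X)) * R ^ l :=
        mul_le_mul_of_nonneg_right (hq X hXpos hXlt l) (by positivity)
    _ = Real.exp (1 / X) * (2 * X * R) ^ l := by rw [mul_pow (2 * X) R l]; ring
    _ ≤ Real.exp (1 / X) * (1 / 2 : ℝ) ^ l := by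
        apply mul_le_mul_of_nonneg_left _ (Real.exp_pos _).le
        exact pow_le_pow_left₀ (by positivity) h2 l

theorem PLq_type (q : ℕ → ℂ)
    (h0 : ∀ δ : ℝ, 0 < δ → ∃ X1 : ℝ, 0 < X1 ∧ ∀ X : ℝ, 0 < X → X < X1 → ∀ l : ℕ,
      ‖q l‖ ≤ (2 * X) ^ l * Real.exp (δ / X)) (δ : ℝ) (hδ : 0 < δ) :
    ∃ A : ℝ, 0 < A ∧ ∀ z, ‖PLqF q z‖ ≤ A * Real.exp (δ * ‖z‖) := by
  have hE := PLq_ent q h0
  obtain ⟨X1, hX1, hq⟩ := h0 (δ / 4) (by positivity)
  set R := 1 / (2 * X1) with hR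
  have hRp : 0 < R := by positivity
  set M := ∑' l, ‖q l‖ * R ^ l with hM
  refine ⟨max 2 M, lt_of_lt_of_le two_pos (le_max_left _ _), ?_⟩
  intro z
  have hexp1 : 1 ≤ Real.exp (δ * ‖z‖) := Real.one_le_exp (by positivity)
  rcases le_or_gt ‖z‖ R with hz | hz
  · calc ‖PLqF q z‖ ≤ M := hE.bd z R hz
      _ ≤ max 2 M := le_max_right _ _
      _ = max 2 M * 1 := (mul_one _).symm
      _ ≤ max 2 M * Real.exp (δ * ‖z‖) :=
          mul_le_mul_of_nonneg_left hexp1 (le_trans (by norm_num) (le_max_left _ _))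
  · have hzp : 0 < ‖z‖ := hRp.trans hz
    set X := 1 / (4 * ‖z‖) with hX
    have hXp : 0 < X := by positivity
    have hXlt : X < X1 := by
      rw [hX, div_lt_iff₀ (by positivity)]
      rw [hR, div_lt_iff₀ (by positivity)] at hz
      nlinarith
    have hXz : 2 * X * ‖z‖ = 1 / 2 := by
      rw [hX]
      field_simp
      norm_num
    have hexp : δ / 4 / X = δ * ‖z‖ := by
      rw [hX]
      field_simp
    have h1 := hE.bd z ‖z‖ le_rfl
    have h2 : ∑' l, ‖q l‖ * ‖z‖ ^ l ≤ ∑' l : ℕ, Real.exp (δ * ‖z‖) * (1 / 2 : ℝ) ^ l := by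
      apply Summable.tsum_le_tsum _ (hE ‖z‖ hzp.le)
        ((summable_geometric_of_lt_one (by norm_num) (by norm_num)).mul_left _)
      intro l
      calc ‖q l‖ * ‖z‖ ^ l ≤ ((2 * X) ^ l * Real.exp (δ / 4 / X)) * ‖z‖ ^ l :=
            mul_le_mul_of_nonneg_right (hq X hXp hXlt l) (by positivity)
        _ = Real.exp (δ / 4 / X) * (2 * X * ‖z‖) ^ l := by rw [mul_pow (2 * X) ‖z‖ l]; ring
        _ = Real.exp (δ * ‖z‖) * (1 / 2 : ℝ) ^ l := by rw [hXz, hexp]
    rw [tsum_mul_left, tsum_geometric_of_lt_one (by norm_num) (by norm_num)] at h2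
    calc ‖PLqF q z‖ ≤ Real.exp (δ * ‖z‖) * (1 - 1 / 2)⁻¹ := h1.trans h2
      _ = 2 * Real.exp (δ * ‖z‖) := by norm_num; ring
      _ ≤ max 2 M * Real.exp (δ * ‖z‖) :=
          mul_le_mul_of_nonneg_right (le_max_left _ _) (Real.exp_pos _).le

/-- Phragmen-Lindelof step -/
theorem PLq_pl (f : ℂ → ℂ) (hf : Differentiable ℂ f)
    (ht : ∀ δ : ℝ, 0 < δ → ∃ A : ℝ, 0 < A ∧ ∀ z, ‖f z‖ ≤ A * Real.exp (δ * ‖z‖))
    (C : ℝ) (hC : ∀ z : ℂ, z.re = -1 → ‖f z‖ ≤ C * ‖z‖ ^ 2) :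
    ∀ z : ℂ, -1 ≤ z.re → ‖f z‖ ≤ C * ‖z + 2‖ ^ 2 := by
  intro z hz
  have key : ∀ δ : ℝ, 0 < δ → ‖f z‖ / ‖z + 2‖ ^ 2 * Real.exp (-(δ * (z.re + 1))) ≤ C := by
    intro δ hδ
    obtain ⟨A, hA, hfA⟩ := ht (δ / 2) (by positivity)
    set g : ℂ → ℂ := fun w => f (w - 1) / (w + 1) ^ 2 * Complex.exp (-((δ : ℂ) * w)) with hg
    have hne : ∀ w : ℂ, 0 ≤ w.re → w + 1 ≠ 0 := by
      intro w hw h
      have := congrArg Complex.re h
      simp only [Complex.add_re, Complex.one_re, Complex.zero_re] at this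
      linarith
    have hge1 : ∀ w : ℂ, 0 ≤ w.re → 1 ≤ ‖w + 1‖ := by
      intro w hw
      have h1 := Complex.re_le_norm (w + 1)
      simp only [Complex.add_re, Complex.one_re] at h1
      linarith
    have hgn : ∀ w : ℂ, ‖g w‖ = ‖f (w - 1)‖ / ‖w + 1‖ ^ 2 * Real.exp (-(δ * w.re)) := by
      intro w
      rw [hg]
      simp only [norm_mul, norm_div, norm_pow, Complex.norm_exp]
      congr 2
      simp [Complex.mul_re]
    have hgle : ∀ w : ℂ, 0 ≤ w.re →
        ‖g w‖ ≤ A * Real.exp (δ / 2) * Real.exp (δ / 2 * ‖w‖) * Real.exp (-(δ * w.re)) := by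
      intro w hw
      rw [hgn]
      apply mul_le_mul_of_nonneg_right _ (Real.exp_pos _).le
      have h1 : ‖f (w - 1)‖ / ‖w + 1‖ ^ 2 ≤ ‖f (w - 1)‖ := by
        apply div_le_self (norm_nonneg _)
        exact one_le_pow₀ (hge1 w hw)
      have h2 : ‖w - 1‖ ≤ ‖w‖ + 1 := by
        have := norm_sub_le w 1
        rwa [norm_one] at this
      calc ‖f (w - 1)‖ / ‖w + 1‖ ^ 2 ≤ ‖f (w - 1)‖ := h1
        _ ≤ A * Real.exp (δ / 2 * ‖w - 1‖) := hfA _
        _ ≤ A * Real.exp (δ / 2 * (‖w‖ + 1)) := by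
            apply mul_le_mul_of_nonneg_left _ hA.le
            apply Real.exp_le_exp.2
            exact mul_le_mul_of_nonneg_left h2 (by positivity)
        _ = A * Real.exp (δ / 2) * Real.exp (δ / 2 * ‖w‖) := by
            rw [mul_add, mul_one, Real.exp_add]
            ring
    have hd : DiffContOnCl ℂ g {w | 0 < w.re} := by
      apply DifferentiableOn.diffContOnCl
      rw [closure_setOfPred_lt_re]
      intro w hw
      have hw' : 0 ≤ w.re := hw
      apply DifferentiableAt.differentiableWithinAt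
      apply DifferentiableAt.mul
      · apply DifferentiableAt.div
        · exact (hf _).comp w (differentiableAt_id.sub_const 1)
        · exact (differentiableAt_id.add_const 1).pow 2
        · exact pow_ne_zero 2 (hne w hw')
      · apply DifferentiableAt.cexp
        apply DifferentiableAt.neg
        exact differentiableAt_id.const_mul _
    have hexp : ∃ c < (2 : ℝ), ∃ B,
        g =O[Bornology.cobounded ℂ ⊓ 𝓟 {w | 0 < w.re}] fun w => Real.exp (B * ‖w‖ ^ c) := by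
      refine ⟨1, by norm_num, δ / 2, ?_⟩
      apply Asymptotics.IsBigO.of_bound (A * Real.exp (δ / 2))
      rw [eventually_inf_principal]
      refine Eventually.of_forall (fun w hw => ?_)
      have hw' : 0 < w.re := hw
      rw [Real.norm_eq_abs, abs_of_pos (Real.exp_pos _), Real.rpow_one]
      refine (hgle w hw'.le).trans ?_
      apply mul_le_of_le_one_right (by positivity)
      rw [Real.exp_le_one_iff]
      have := mul_pos hδ hw'
      linarith
    have hre : Tendsto (fun x : ℝ => g x) atTop (𝓝 0) := by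
      rw [tendsto_zero_iff_norm_tendsto_zero]
      have h1 : Tendsto (fun x : ℝ => A * Real.exp (δ / 2) * Real.exp (-(δ / 2) * x)) atTop
          (𝓝 (A * Real.exp (δ / 2) * 0)) := by
        apply Tendsto.const_mul
        exact Real.tendsto_exp_atBot.comp
          (tendsto_id.const_mul_atTop_of_neg (by linarith))
      rw [mul_zero] at h1
      refine squeeze_zero' (Eventually.of_forall (fun x => norm_nonneg _)) ?_ h1
      filter_upwards [eventually_ge_atTop (0 : ℝ)] with x hx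
      refine (hgle (x : ℂ) (by simpa using hx)).trans ?_
      rw [Complex.norm_real, Real.norm_eq_abs, abs_of_nonneg hx, Complex.ofReal_re, mul_assoc,
        ← Real.exp_add]
      apply le_of_eq
      congr 2
      ring
    have him : ∀ x : ℝ, ‖g (x * I)‖ ≤ C := by
      intro x
      rw [hgn]
      have h1 : ((x : ℂ) * I).re = 0 := by simp
      rw [h1, mul_zero, neg_zero, Real.exp_zero, mul_one]
      have h2 := hC ((x : ℂ) * I - 1) (by simp)
      have h3 : ‖(x : ℂ) * I - 1‖ = ‖(x : ℂ) * I + 1‖ := by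
        have h4 : ‖(x : ℂ) * I - 1‖ ^ 2 = ‖(x : ℂ) * I + 1‖ ^ 2 := by
          rw [← Complex.normSq_eq_norm_sq, ← Complex.normSq_eq_norm_sq, Complex.normSq_apply,
            Complex.normSq_apply]
          simp
        exact (pow_left_inj₀ (norm_nonneg _) (norm_nonneg _) two_ne_zero).1 h4
      rw [h3] at h2
      have h5 : 0 < ‖(x : ℂ) * I + 1‖ := norm_pos_iff.2 (hne _ (by simp))
      rw [div_le_iff₀ (by positivity)]
      exact h2
    have hfin := PhragmenLindelof.right_half_plane_of_tendsto_zero_on_real (z := z + 1) hd hexp hre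
      him (by simp only [Complex.add_re, Complex.one_re]; linarith)
    rw [hgn] at hfin
    have h6 : z + 1 - 1 = z := by ring
    have h7 : z + 1 + 1 = z + 2 := by ring
    rw [h6, h7, Complex.add_re, Complex.one_re] at hfin
    exact hfin
  have hz2 : 0 < ‖z + 2‖ := by
    rw [norm_pos_iff]
    intro h
    have := congrArg Complex.re h
    simp only [Complex.add_re, Complex.re_ofNat, Complex.zero_re] at this
    linarith
  have h8 : Tendsto (fun δ : ℝ => ‖f z‖ / ‖z + 2‖ ^ 2 * Real.exp (-(δ * (z.re + 1)))) (𝓝[>] 0)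
      (𝓝 (‖f z‖ / ‖z + 2‖ ^ 2)) := by
    have h9 : Continuous (fun δ : ℝ => ‖f z‖ / ‖z + 2‖ ^ 2 * Real.exp (-(δ * (z.re + 1)))) := by
      fun_prop
    have h10 := h9.tendsto 0
    simp only [zero_mul, neg_zero, Real.exp_zero, mul_one] at h10
    exact h10.mono_left nhdsWithin_le_nhds
  have h11 : ‖f z‖ / ‖z + 2‖ ^ 2 ≤ C := by
    apply le_of_tendsto h8
    filter_upwards [self_mem_nhdsWithin] with δ hδ
    exact key δ hδ
  rwa [div_le_iff₀ (by positivity)] at h11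

theorem PLq (q : ℕ → ℂ)
    (h0 : ∀ δ : ℝ, 0 < δ → ∃ X1 : ℝ, 0 < X1 ∧ ∀ X : ℝ, 0 < X → X < X1 → ∀ l : ℕ,
      ‖q l‖ ≤ (2 * X) ^ l * Real.exp (δ / X))
    (C' r0 : ℝ) (hC : 0 < C') (hr0 : 0 < r0)
    (h1 : ∀ σ : ℂ, σ.re < 0 → ‖σ‖ ^ 2 ≤ -σ.re → ‖σ‖ < r0 →
      ‖∑' l, q l / σ ^ (l + 1)‖ ≤ C' / (-σ.re)) :
    ∀ l : ℕ, 1 ≤ l → q l = 0 := by
  have hE := PLq_ent q h0
  -- the function `z F(z)`
  set f : ℂ → ℂ := fun z => z * PLqF q z with hf
  have hfd : Differentiable ℂ f := differentiable_id.mul hE.diff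
  have hft : ∀ δ : ℝ, 0 < δ → ∃ A : ℝ, 0 < A ∧ ∀ z, ‖f z‖ ≤ A * Real.exp (δ * ‖z‖) := by
    intro δ hδ
    obtain ⟨A, hA, hAz⟩ := PLq_type q h0 (δ / 2) (by positivity)
    refine ⟨2 / δ * A, by positivity, ?_⟩
    intro z
    have h2 : ‖z‖ ≤ 2 / δ * Real.exp (δ / 2 * ‖z‖) := by
      have h3 : δ / 2 * ‖z‖ ≤ Real.exp (δ / 2 * ‖z‖) := by
        have := Real.add_one_le_exp (δ / 2 * ‖z‖)
        linarith
      have h4 : ‖z‖ = 2 / δ * (δ / 2 * ‖z‖) := by
        field_simp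
      calc ‖z‖ = 2 / δ * (δ / 2 * ‖z‖) := h4
        _ ≤ 2 / δ * Real.exp (δ / 2 * ‖z‖) := mul_le_mul_of_nonneg_left h3 (by positivity)
    calc ‖f z‖ = ‖z‖ * ‖PLqF q z‖ := norm_mul _ _
      _ ≤ (2 / δ * Real.exp (δ / 2 * ‖z‖)) * (A * Real.exp (δ / 2 * ‖z‖)) :=
          mul_le_mul h2 (hAz z) (norm_nonneg _) (by positivity)
      _ = 2 / δ * A * (Real.exp (δ / 2 * ‖z‖) * Real.exp (δ / 2 * ‖z‖)) := by ring
      _ = 2 / δ * A * Real.exp (δ * ‖z‖) := by
          rw [← Real.exp_add]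
          congr 2
          ring
  -- the bound in the left half plane
  have hleft : ∀ z : ℂ, z.re ≤ -1 → 1 / r0 < ‖z‖ → ‖f z‖ ≤ C' * ‖z‖ ^ 2 / (-z.re) := by
    intro z hz hzr
    have hz0 : z ≠ 0 := by
      intro h
      rw [h] at hz
      simp only [Complex.zero_re] at hz
      linarith
    have hzp : 0 < ‖z‖ := norm_pos_iff.2 hz0
    have hre : (z⁻¹).re = z.re / ‖z‖ ^ 2 := by
      rw [Complex.inv_re, Complex.normSq_eq_norm_sq]
    have h2 := h1 z⁻¹ (by
      rw [hre]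
      exact div_neg_of_neg_of_pos (by linarith) (by positivity)) (by
      rw [hre, norm_inv, inv_pow, ← neg_div, le_div_iff₀ (by positivity),
        inv_mul_cancel₀ (by positivity)]
      linarith) (by
      rw [norm_inv]
      rw [div_lt_iff₀ hr0] at hzr
      rw [inv_lt_iff_one_lt_mul₀ hzp]
      linarith)
    have h3 : ∑' l, q l / z⁻¹ ^ (l + 1) = f z := by
      rw [hf]
      simp only
      unfold PLqF
      rw [← tsum_mul_left]
      apply tsum_congr
      intro l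
      rw [inv_pow, div_inv_eq_mul, pow_succ]
      ring
    rw [h3, hre] at h2
    refine h2.trans (le_of_eq ?_)
    have h4 : z.re ≠ 0 := by linarith
    field_simp
  set M := 1 / r0 * ∑' l, ‖q l‖ * (1 / r0) ^ l with hM
  have hMb : ∀ z : ℂ, ‖z‖ ≤ 1 / r0 → ‖f z‖ ≤ M := by
    intro z hz
    calc ‖f z‖ = ‖z‖ * ‖PLqF q z‖ := norm_mul _ _
      _ ≤ (1 / r0) * ∑' l, ‖q l‖ * (1 / r0) ^ l :=
          mul_le_mul hz (hE.bd z _ hz) (norm_nonneg _) (by positivity)
  have hM0 : 0 ≤ M := by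
    have := hMb 0 (by rw [norm_zero]; positivity)
    exact (norm_nonneg _).trans this
  set C1 := max C' M with hC1
  have hC1p : 0 < C1 := lt_of_lt_of_le hC (le_max_left _ _)
  have hleft2 : ∀ z : ℂ, z.re ≤ -1 → ‖f z‖ ≤ C1 * ‖z‖ ^ 2 := by
    intro z hz
    have hz1 : 1 ≤ ‖z‖ := by
      have h2 := Complex.abs_re_le_norm z
      have h3 := neg_le_abs z.re
      linarith
    rcases le_or_gt ‖z‖ (1 / r0) with h2 | h2
    · calc ‖f z‖ ≤ M := hMb z h2
        _ ≤ C1 := le_max_right _ _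
        _ = C1 * 1 := (mul_one _).symm
        _ ≤ C1 * ‖z‖ ^ 2 := mul_le_mul_of_nonneg_left (one_le_pow₀ hz1) hC1p.le
    · calc ‖f z‖ ≤ C' * ‖z‖ ^ 2 / (-z.re) := hleft z hz h2
        _ ≤ C' * ‖z‖ ^ 2 := div_le_self (by positivity) (by linarith)
        _ ≤ C1 * ‖z‖ ^ 2 := mul_le_mul_of_nonneg_right (le_max_left _ _) (by positivity)
  have hright := PLq_pl f hfd hft C1 (fun z hz => hleft2 z hz.le)
  have hall : ∀ z : ℂ, 1 ≤ ‖z‖ → ‖f z‖ ≤ 9 * C1 * ‖z‖ ^ 2 := by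
    intro z hz1
    rcases le_total z.re (-1) with h2 | h2
    · refine (hleft2 z h2).trans ?_
      have : 0 ≤ C1 * ‖z‖ ^ 2 := by positivity
      nlinarith
    · have h3 : ‖z + 2‖ ≤ 3 * ‖z‖ := by
        have h4 := norm_add_le z 2
        have h5 : ‖(2 : ℂ)‖ = 2 := by simp
        rw [h5] at h4
        linarith
      calc ‖f z‖ ≤ C1 * ‖z + 2‖ ^ 2 := hright z h2
        _ ≤ C1 * (3 * ‖z‖) ^ 2 := by
            apply mul_le_mul_of_nonneg_left _ hC1p.le
            exact pow_le_pow_left₀ (norm_nonneg _) h3 2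
        _ = 9 * C1 * ‖z‖ ^ 2 := by ring
  have hq1 : ∀ z : ℂ, 1 ≤ ‖z‖ → ‖PLqF (fun l => q (l + 1)) z‖ ≤ 9 * C1 + ‖q 0‖ := by
    intro z hz1
    have hzp : 0 < ‖z‖ := by linarith
    have h2 : ‖PLqF q z‖ ≤ 9 * C1 * ‖z‖ := by
      have h3 := hall z hz1
      have h4 : ‖f z‖ = ‖z‖ * ‖PLqF q z‖ := norm_mul _ _
      rw [h4] at h3
      have h5 : ‖z‖ * ‖PLqF q z‖ ≤ ‖z‖ * (9 * C1 * ‖z‖) := by
        calc ‖z‖ * ‖PLqF q z‖ ≤ 9 * C1 * ‖z‖ ^ 2 := h3
          _ = ‖z‖ * (9 * C1 * ‖z‖) := by ring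
      exact le_of_mul_le_mul_left h5 hzp
    have h3 := hE.split z
    have h4 : z * PLqF (fun l => q (l + 1)) z = PLqF q z - q 0 := by
      rw [h3]
      ring
    have h5 : ‖z‖ * ‖PLqF (fun l => q (l + 1)) z‖ ≤ ‖z‖ * (9 * C1 + ‖q 0‖) := by
      rw [← norm_mul, h4]
      refine (norm_sub_le _ _).trans ?_
      have h6 : ‖q 0‖ ≤ ‖z‖ * ‖q 0‖ := le_mul_of_one_le_left (norm_nonneg _) hz1
      nlinarith
    exact le_of_mul_le_mul_left h5 hzp
  obtain ⟨hc1, hc2⟩ := PLq_liou (fun l => q (l + 1)) hE.succ _ hq1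
  have hq10 : q 1 = 0 := by
    by_contra hne
    have hqp : 0 < ‖q 1‖ := norm_pos_iff.2 hne
    set t : ℝ := 1 + 1 / r0 + (C' + ‖q 0‖ + 1) / ‖q 1‖ with ht
    have htp : 1 ≤ t := by
      have : 0 < (C' + ‖q 0‖ + 1) / ‖q 1‖ := by positivity
      have : 0 < 1 / r0 := by positivity
      linarith
    have h2 := hleft (-(t : ℂ)) (by simp; linarith) (by
      rw [norm_neg, Complex.norm_real, Real.norm_eq_abs, abs_of_pos (by linarith)]
      have : 0 < (C' + ‖q 0‖ + 1) / ‖q 1‖ := by positivity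
      linarith)
    have h3 : f (-(t : ℂ)) = -(t : ℂ) * (q 0 + -(t : ℂ) * q 1) := by
      show -(t : ℂ) * PLqF q (-(t : ℂ)) = _
      rw [hE.split, hc1]
    have h4 : ‖-(t : ℂ)‖ = t := by
      rw [norm_neg, Complex.norm_real, Real.norm_eq_abs, abs_of_pos (by linarith)]
    rw [h3, norm_mul, h4, Complex.neg_re, Complex.ofReal_re, neg_neg] at h2
    have h5 : C' * t ^ 2 / t = t * C' := by
      field_simp
    rw [h5] at h2
    have h6 : ‖q 0 + -(t : ℂ) * q 1‖ ≤ C' := le_of_mul_le_mul_left h2 (by linarith)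
    have h7 : t * ‖q 1‖ ≤ C' + ‖q 0‖ := by
      have h8 : t * ‖q 1‖ = ‖-(t : ℂ) * q 1‖ := by rw [norm_mul, h4]
      have h9 : -(t : ℂ) * q 1 = (q 0 + -(t : ℂ) * q 1) - q 0 := by ring
      rw [h8, h9]
      exact (norm_sub_le _ _).trans (by linarith)
    have h10 : (C' + ‖q 0‖ + 1) / ‖q 1‖ * ‖q 1‖ ≤ t * ‖q 1‖ := by
      apply mul_le_mul_of_nonneg_right _ hqp.le
      have : 0 < 1 / r0 := by positivity
      linarith
    rw [div_mul_cancel₀ _ hqp.ne'] at h10
    linarith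
  intro l hl
  obtain ⟨m, rfl⟩ : ∃ m, l = m + 1 := ⟨l - 1, by omega⟩
  cases m with
  | zero => exact hq10
  | succ m => exact hc2 m

end NM
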