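import Pool.Agent.Helper360.NM.Defs
import Pool.Agent.Helper360.NM.P_TCc



namespace NM
open Complex Metric Set Filter Topology MeasureTheory


theorem tcb_id (b w : ℂ) : ‖1 - (starRingEnd ℂ) b * w‖ ^ 2 - ‖w - b‖ ^ 2 =
    (1 - ‖b‖ ^ 2) * (1 - ‖w‖ ^ 2) := by
  rw [Complex.sq_norm, Complex.sq_norm, Complex.sq_norm, Complex.sq_norm, Complex.normSq_apply,
    Complex.normSq_apply, Complex.normSq_apply, Complex.normSq_apply]
  simp only [Complex.sub_re, Complex.sub_im, Complex.one_re, Complex.one_im, Complex.mul_re,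
    Complex.mul_im, Complex.conj_re, Complex.conj_im]
  ring

theorem tcb_id' (b w : ℂ) : ‖1 + (starRingEnd ℂ) b * w‖ ^ 2 - ‖w + b‖ ^ 2 =
    (1 - ‖b‖ ^ 2) * (1 - ‖w‖ ^ 2) := by
  have := tcb_id (-b) w
  rw [map_neg, neg_mul, sub_neg_eq_add, sub_neg_eq_add, norm_neg] at this
  exact this

theorem tcb_ne (b w : ℂ) (hb : ‖b‖ < 1) (hw : ‖w‖ < 1) : 1 + (starRingEnd ℂ) b * w ≠ 0 := by
  intro h
  have h1 : (starRingEnd ℂ) b * w = -1 := by linear_combination h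
  have h2 : ‖(starRingEnd ℂ) b * w‖ = 1 := by rw [h1]; simp
  rw [norm_mul, Complex.norm_conj] at h2
  nlinarith [norm_nonneg b, norm_nonneg w]

theorem tcb_psi_lt (b u : ℂ) (hb : ‖b‖ < 1) (hu : ‖u‖ < 1) :
    ‖(u + b) / (1 + (starRingEnd ℂ) b * u)‖ < 1 := by
  have hne := tcb_ne b u hb hu
  have h1 := tcb_id' b u
  have hpos : 0 < ‖1 + (starRingEnd ℂ) b * u‖ := norm_pos_iff.mpr hne
  rw [norm_div, div_lt_one hpos]
  have h2 : 0 < (1 - ‖b‖ ^ 2) * (1 - ‖u‖ ^ 2) := by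
    apply mul_pos
    · nlinarith [norm_nonneg b]
    · nlinarith [norm_nonneg u]
  have h3 : ‖u + b‖ ^ 2 < ‖1 + (starRingEnd ℂ) b * u‖ ^ 2 := by linarith
  exact lt_of_pow_lt_pow_left₀ 2 hpos.le h3

theorem tcb_psi_sub (b u : ℂ) (hb : ‖b‖ < 1) (hu : ‖u‖ < 1) :
    ‖(u + b) / (1 + (starRingEnd ℂ) b * u) - b‖ ≤ 2 * ‖u‖ := by
  have hne := tcb_ne b u hb hu
  have hpos : 0 < ‖1 + (starRingEnd ℂ) b * u‖ := norm_pos_iff.mpr hne
  have h1 : (u + b) / (1 + (starRingEnd ℂ) b * u) - b =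
      (u * (1 - b * (starRingEnd ℂ) b)) / (1 + (starRingEnd ℂ) b * u) := by
    rw [eq_div_iff hne, sub_mul, div_mul_cancel₀ _ hne]
    ring
  have h2 : b * (starRingEnd ℂ) b = ((‖b‖ ^ 2 : ℝ) : ℂ) := by
    rw [Complex.mul_conj, Complex.normSq_eq_norm_sq]
  have h3 : ‖(1 - b * (starRingEnd ℂ) b)‖ = 1 - ‖b‖ ^ 2 := by
    rw [h2, ← Complex.ofReal_one, ← Complex.ofReal_sub, Complex.norm_real, Real.norm_eq_abs,
      abs_of_nonneg]
    nlinarith [norm_nonneg b]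
  rw [h1, norm_div, norm_mul, h3, div_le_iff₀ hpos]
  have h4 : 1 - ‖b‖ ≤ ‖1 + (starRingEnd ℂ) b * u‖ := by
    have h5 : ‖(1 : ℂ)‖ - ‖(starRingEnd ℂ) b * u‖ ≤ ‖1 + (starRingEnd ℂ) b * u‖ := by
      have := norm_sub_norm_le (1 : ℂ) (-((starRingEnd ℂ) b * u))
      rw [norm_neg, sub_neg_eq_add] at this
      exact this
    rw [norm_one, norm_mul, Complex.norm_conj] at h5
    nlinarith [norm_nonneg b, norm_nonneg u]
  have h6 : 1 - ‖b‖ ^ 2 ≤ 2 * (1 - ‖b‖) := by nlinarith [norm_nonneg b]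
  have h7 : 1 - ‖b‖ ^ 2 ≤ 2 * ‖1 + (starRingEnd ℂ) b * u‖ := by linarith
  nlinarith [norm_nonneg u]

theorem tcb_phi_le (α r' : ℝ) (hα1 : α < 1) (hr1 : r' < 1) (b w : ℂ) (hb : ‖b‖ ≤ α)
    (hw : ‖w‖ ≤ r') :
    ‖(w - b) / (1 - (starRingEnd ℂ) b * w)‖ ≤ 1 - (1 - α ^ 2) * (1 - r' ^ 2) / 8 := by
  have hα : 0 ≤ α := (norm_nonneg b).trans hb
  have hr : 0 ≤ r' := (norm_nonneg w).trans hw
  have hne : 1 - (starRingEnd ℂ) b * w ≠ 0 := by
    have := tcb_ne (-b) w (by rw [norm_neg]; linarith) (by linarith)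
    rw [map_neg, neg_mul, ← sub_eq_add_neg] at this
    exact this
  have hpos : 0 < ‖1 - (starRingEnd ℂ) b * w‖ := norm_pos_iff.mpr hne
  have hle2 : ‖1 - (starRingEnd ℂ) b * w‖ ≤ 2 := by
    refine (norm_sub_le _ _).trans ?_
    rw [norm_one, norm_mul, Complex.norm_conj]
    nlinarith [norm_nonneg b, norm_nonneg w]
  have h1 := tcb_id b w
  have hα2 : 0 ≤ 1 - α ^ 2 := by nlinarith
  have hr2 : 0 ≤ 1 - r' ^ 2 := by nlinarith
  have hα3 : 1 - α ^ 2 ≤ 1 := by nlinarith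
  have hr3 : 1 - r' ^ 2 ≤ 1 := by nlinarith
  have hb2 : 1 - α ^ 2 ≤ 1 - ‖b‖ ^ 2 := by nlinarith [norm_nonneg b]
  have hw2 : 1 - r' ^ 2 ≤ 1 - ‖w‖ ^ 2 := by nlinarith [norm_nonneg w]
  have h2 : (1 - α ^ 2) * (1 - r' ^ 2) ≤ (1 - ‖b‖ ^ 2) * (1 - ‖w‖ ^ 2) :=
    mul_le_mul hb2 hw2 hr2 (by linarith)
  set D := (1 - α ^ 2) * (1 - r' ^ 2) with hD
  have hD0 : 0 ≤ D := mul_nonneg hα2 hr2
  have hD1 : D ≤ 1 := mul_le_one₀ hα3 hr2 hr3
  rw [norm_div, div_le_iff₀ hpos]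
  have h3 : ‖w - b‖ ^ 2 ≤ ((1 - D / 8) * ‖1 - (starRingEnd ℂ) b * w‖) ^ 2 := by
    rw [mul_pow]
    have h4 : ‖1 - (starRingEnd ℂ) b * w‖ ^ 2 ≤ 4 := by nlinarith
    have h5 : ‖w - b‖ ^ 2 ≤ ‖1 - (starRingEnd ℂ) b * w‖ ^ 2 - D := by linarith
    have h6 : D / 4 * ‖1 - (starRingEnd ℂ) b * w‖ ^ 2 ≤ D := by nlinarith
    nlinarith [sq_nonneg (D / 8 * ‖1 - (starRingEnd ℂ) b * w‖)]
  exact le_of_sq_le_sq h3 (mul_nonneg (by linarith) hpos.le)

theorem TCball (α τ r' : ℝ) (hα : 0 < α) (hα1 : α < 1) (hτ : 0 < τ) (hτ1 : τ < 1) (hr : 0 < r')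
    (hr1 : r' < 1) :
    ∃ ω C : ℝ, 0 < ω ∧ 1 ≤ C ∧ ∀ (f : ℂ → ℂ) (c a : ℂ) (r B T : ℝ), 0 < r → 0 ≤ T → 0 < B →
      ‖a - c‖ ≤ α * r → DifferentiableOn ℂ f (ball c r) → (∀ w ∈ ball c r, ‖f w‖ ≤ B) →
      (∀ w ∈ ball c r, ‖w - a‖ ≤ τ * r → ‖f w‖ ≤ B * Real.exp (-T)) →
      ∀ w : ℂ, ‖w - c‖ ≤ r' * r → ‖f w‖ ≤ C * B * Real.exp (-(ω * T)) := by
  set D := (1 - α ^ 2) * (1 - r' ^ 2) with hD
  have hD0 : 0 < D := mul_pos (by nlinarith) (by nlinarith)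
  have hD1 : D ≤ 1 := mul_le_one₀ (by nlinarith) (by nlinarith) (by nlinarith)
  set κ := τ / 2 with hκ
  have hκ0 : 0 < κ := by positivity
  have hκ1 : κ < 1 := by rw [hκ]; linarith
  set m := max κ (1 - D / 8) with hm
  have hm0 : 0 < m := lt_of_lt_of_le hκ0 (le_max_left _ _)
  have hm1 : m < 1 := max_lt hκ1 (by linarith)
  have hlκ : 0 < Real.log (1 / κ) := Real.log_pos (by rw [lt_div_iff₀ hκ0]; linarith)
  have hlm : 0 < Real.log (1 / m) := Real.log_pos (by rw [lt_div_iff₀ hm0]; linarith)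
  refine ⟨Real.log (1 / m) / Real.log (1 / κ), 1 / m, by positivity, ?_, ?_⟩
  · rw [le_div_iff₀ hm0]; linarith
  intro f c a r B T hrr hT hB hac hf hfB hfa w hw
  have hrc : (r : ℂ) ≠ 0 := by exact_mod_cast hrr.ne'
  set b : ℂ := (a - c) / r with hb
  have hbn : ‖b‖ ≤ α := by
    rw [hb, norm_div, Complex.norm_real, Real.norm_eq_abs, abs_of_pos hrr, div_le_iff₀ hrr]
    exact hac
  have hb1 : ‖b‖ < 1 := lt_of_le_of_lt hbn hα1
  set ψ : ℂ → ℂ := fun u => (u + b) / (1 + (starRingEnd ℂ) b * u) with hψ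
  set F : ℂ → ℂ := fun u => f (c + r * ψ u) with hF
  have hmaps : ∀ u ∈ ball (0:ℂ) 1, c + r * ψ u ∈ ball c r := by
    intro u hu
    rw [mem_ball_zero_iff] at hu
    rw [mem_ball_iff_norm, add_sub_cancel_left, norm_mul, Complex.norm_real, Real.norm_eq_abs,
      abs_of_pos hrr]
    have := tcb_psi_lt b u hb1 hu
    nlinarith
  have hFd : DifferentiableOn ℂ F (ball 0 1) := by
    have h1 : DifferentiableOn ℂ (fun u => c + r * ψ u) (ball 0 1) := by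
      refine DifferentiableOn.const_add _ (DifferentiableOn.const_mul ?_ _)
      refine DifferentiableOn.div (by fun_prop) (by fun_prop) ?_
      intro u hu
      rw [mem_ball_zero_iff] at hu
      exact tcb_ne b u hb1 hu
    exact hf.comp h1 hmaps
  have hFB : ∀ u ∈ ball (0:ℂ) 1, ‖F u‖ ≤ B := fun u hu => hfB _ (hmaps u hu)
  set j := ⌊T / Real.log (1 / κ)⌋₊ with hj
  have hj1 : (j : ℝ) ≤ T / Real.log (1 / κ) := Nat.floor_le (by positivity)
  have hj2 : T / Real.log (1 / κ) < j + 1 := Nat.lt_floor_add_one _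
  have hexp : Real.exp (-T) ≤ κ ^ j := by
    have h1 : κ ^ j = Real.exp (-(j * Real.log (1 / κ))) := by
      rw [one_div, Real.log_inv, mul_neg, neg_neg, mul_comm, Real.exp_mul, Real.exp_log hκ0,
        Real.rpow_natCast]
    rw [h1]
    apply Real.exp_le_exp.mpr
    have : (j : ℝ) * Real.log (1 / κ) ≤ T := by
      rw [le_div_iff₀ hlκ] at hj1
      exact hj1
    linarith
  have hsmall : ∀ u : ℂ, ‖u‖ ≤ κ → ‖F u‖ ≤ B * κ ^ j := by
    intro u hu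
    have hu1 : ‖u‖ < 1 := lt_of_le_of_lt hu hκ1
    have h1 : ‖F u‖ ≤ B * Real.exp (-T) := by
      apply hfa _ (hmaps u (mem_ball_zero_iff.mpr hu1))
      have h2 : c + r * ψ u - a = r * (ψ u - b) := by
        rw [hb]
        field_simp
        ring
      rw [h2, norm_mul, Complex.norm_real, Real.norm_eq_abs, abs_of_pos hrr]
      have h3 := tcb_psi_sub b u hb1 hu1
      have h4 : ‖ψ u - b‖ ≤ τ := by
        refine h3.trans ?_
        rw [hκ] at hu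
        linarith
      nlinarith
    exact h1.trans (mul_le_mul_of_nonneg_left hexp hB.le)
  have hbig := TCc F B κ j hFd hFB hκ0 hκ1 hsmall
  -- the point
  set w' : ℂ := (w - c) / r with hw'
  have hw'n : ‖w'‖ ≤ r' := by
    rw [hw', norm_div, Complex.norm_real, Real.norm_eq_abs, abs_of_pos hrr, div_le_iff₀ hrr]
    exact hw
  have hw'1 : ‖w'‖ < 1 := lt_of_le_of_lt hw'n hr1
  set u : ℂ := (w' - b) / (1 - (starRingEnd ℂ) b * w') with hu
  have hun : ‖u‖ ≤ 1 - D / 8 := tcb_phi_le α r' hα1 hr1 b w' hbn hw'n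
  have hu1 : ‖u‖ < 1 := by linarith
  have hden : 1 - (starRingEnd ℂ) b * w' ≠ 0 := by
    have := tcb_ne (-b) w' (by rw [norm_neg]; exact hb1) hw'1
    rw [map_neg, neg_mul, ← sub_eq_add_neg] at this
    exact this
  have hden2 := tcb_ne b u hb1 hu1
  have hψu : ψ u = w' := by
    show (u + b) / (1 + (starRingEnd ℂ) b * u) = w'
    have hud : u * (1 - (starRingEnd ℂ) b * w') = w' - b := div_mul_cancel₀ _ hden
    rw [div_eq_iff hden2]
    linear_combination hud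
  have hFu : F u = f w := by
    show f (c + r * ψ u) = f w
    rw [hψu, hw']
    congr 1
    field_simp
    ring
  have hle : ‖f w‖ ≤ B * m ^ j := by
    rw [← hFu]
    rcases le_total κ ‖u‖ with h | h
    · refine (hbig u (mem_ball_zero_iff.mpr hu1) h).trans ?_
      refine mul_le_mul_of_nonneg_left (pow_le_pow_left₀ (norm_nonneg _) ?_ _) hB.le
      exact hun.trans (le_max_right _ _)
    · refine (hsmall u h).trans ?_
      exact mul_le_mul_of_nonneg_left (pow_le_pow_left₀ hκ0.le (le_max_left _ _) _) hB.le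
  refine hle.trans ?_
  have h1 : m ^ j = Real.exp (-(j * Real.log (1 / m))) := by
    rw [one_div, Real.log_inv, mul_neg, neg_neg, mul_comm, Real.exp_mul, Real.exp_log hm0,
      Real.rpow_natCast]
  have h2 : (1 / m) = Real.exp (Real.log (1 / m)) := (Real.exp_log (by positivity)).symm
  have h3 : m ^ j ≤ 1 / m * Real.exp (-(Real.log (1 / m) / Real.log (1 / κ) * T)) := by
    rw [h1]
    conv_rhs => rw [h2]
    rw [Real.log_exp, ← Real.exp_add]
    apply Real.exp_le_exp.mpr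
    have h4 : Real.log (1 / m) / Real.log (1 / κ) * T =
        Real.log (1 / m) * (T / Real.log (1 / κ)) := by ring
    rw [h4]
    nlinarith
  calc B * m ^ j ≤ B * (1 / m * Real.exp (-(Real.log (1 / m) / Real.log (1 / κ) * T))) :=
        mul_le_mul_of_nonneg_left h3 hB.le
    _ = 1 / m * B * Real.exp (-(Real.log (1 / m) / Real.log (1 / κ) * T)) := by ring

end NM
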