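import Pool.Agent.Helper360.NM.Defs
import Pool.Agent.Helper360.NM.P_TCc



namespace NM
open Complex Metric Set Filter Topology MeasureTheory


theorem TClin (τ : ℝ) (hτ : 0 < τ) (hτ1 : τ ≤ 1 / 3) (f : ℂ → ℂ) (c : ℂ) (r B T : ℝ)
    (hr : 0 < r) (hT : 0 ≤ T) (hB0 : 0 < B) (hf : DifferentiableOn ℂ f (ball c r))
    (hB : ∀ w ∈ ball c r, ‖f w‖ ≤ B)
    (h : ∀ w : ℂ, ‖w - c‖ ≤ τ * r → ‖f w‖ ≤ B * Real.exp (-T)) :
    ∀ w ∈ ball c r, ‖f w‖ ≤ 3 * B * Real.exp (-(T * (1 - ‖w - c‖ / r) / Real.log (1 / τ))) := by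
  set Lg : ℝ := Real.log (1 / τ) with hLg
  have hτ1' : 3 ≤ 1 / τ := by
    rw [le_div_iff₀ hτ]
    linarith
  have hL1 : 1 ≤ Lg := by
    rw [hLg, Real.le_log_iff_exp_le (by positivity)]
    have := Real.exp_one_lt_d9
    linarith
  have hL0 : 0 < Lg := by linarith
  have hexp : Real.exp (-Lg) = τ := by
    rw [Real.exp_neg, hLg, Real.exp_log (by positivity)]
    simp
  set j : ℕ := ⌊T / Lg⌋₊ with hj
  have hj1 : (j : ℝ) ≤ T / Lg := Nat.floor_le (div_nonneg hT hL0.le)
  have hj2 : T / Lg < j + 1 := Nat.lt_floor_add_one _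
  have hjT : (j : ℝ) * Lg ≤ T := by
    rwa [le_div_iff₀ hL0] at hj1
  have hτj : Real.exp (-T) ≤ τ ^ j := by
    rw [← hexp, ← Real.exp_nat_mul]
    apply Real.exp_le_exp.2
    linarith
  have hrC : (r : ℂ) ≠ 0 := by exact_mod_cast hr.ne'
  intro w hw
  have hw' : ‖w - c‖ < r := by rwa [mem_ball_iff_norm] at hw
  set x : ℝ := ‖w - c‖ / r with hx
  have hx0 : 0 ≤ x := by positivity
  have hx1 : x < 1 := by rwa [hx, div_lt_one hr]
  by_cases hsmall : ‖w - c‖ ≤ τ * r
  · have h1 := h w hsmall
    have h2 : T * (1 - x) / Lg ≤ T := by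
      rw [div_le_iff₀ hL0]
      nlinarith
    have h3 : Real.exp (-T) ≤ Real.exp (-(T * (1 - x) / Lg)) := Real.exp_le_exp.2 (by linarith)
    have h4 : 0 < Real.exp (-(T * (1 - x) / Lg)) := Real.exp_pos _
    have h5 : B * Real.exp (-T) ≤ B * Real.exp (-(T * (1 - x) / Lg)) :=
      mul_le_mul_of_nonneg_left h3 hB0.le
    have h6 : 0 ≤ B * Real.exp (-(T * (1 - x) / Lg)) := by positivity
    linarith
  · push Not at hsmall
    set u : ℂ := (w - c) / r with hu
    have hun : ‖u‖ = x := by
      rw [hu, norm_div, Complex.norm_real, Real.norm_of_nonneg hr.le]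
    have hmem : ∀ v : ℂ, ‖v‖ < 1 → c + r * v ∈ ball c r := by
      intro v hv
      rw [mem_ball_iff_norm, add_sub_cancel_left, norm_mul, Complex.norm_real,
        Real.norm_of_nonneg hr.le]
      nlinarith
    have key := TCc (fun v => f (c + r * v)) B τ j (by
        refine hf.comp ?_ ?_
        · exact (differentiable_const c).differentiableOn.add
            ((differentiable_const _).mul differentiable_id).differentiableOn
        · intro v hv
          exact hmem v (by simpa using hv)) (by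
        intro v hv
        exact hB _ (hmem v (by simpa using hv))) hτ (by linarith) (by
        intro v hv
        refine (h _ ?_).trans (mul_le_mul_of_nonneg_left hτj hB0.le)
        rw [add_sub_cancel_left, norm_mul, Complex.norm_real, Real.norm_of_nonneg hr.le,
          mul_comm]
        exact mul_le_mul_of_nonneg_right hv hr.le) u (by
        rw [mem_ball_zero_iff, hun]; exact hx1) (by
        rw [hun, hx, le_div_iff₀ hr]; exact hsmall.le)
    have hfw : f (c + r * u) = f w := by
      congr 1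
      rw [hu]
      field_simp
      ring
    simp only [hfw, hun] at key
    have hxe : x ≤ Real.exp (-(1 - x)) := by
      have := Real.add_one_le_exp (-(1 - x))
      linarith
    have hxj : x ^ j ≤ Real.exp (-(j * (1 - x))) := by
      calc x ^ j ≤ (Real.exp (-(1 - x))) ^ j := pow_le_pow_left₀ hx0 hxe j
        _ = Real.exp (-(j * (1 - x))) := by
          rw [← Real.exp_nat_mul]
          congr 1
          ring
    have h7 : -((j:ℝ) * (1 - x)) ≤ -(T * (1 - x) / Lg) + 1 := by
      have e1 : T * (1 - x) / Lg = (T / Lg) * (1 - x) := by ring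
      rw [e1]
      nlinarith
    have h8 : Real.exp (-((j:ℝ) * (1 - x))) ≤ 3 * Real.exp (-(T * (1 - x) / Lg)) := by
      calc Real.exp (-((j:ℝ) * (1 - x))) ≤ Real.exp (-(T * (1 - x) / Lg) + 1) :=
            Real.exp_le_exp.2 h7
        _ = Real.exp 1 * Real.exp (-(T * (1 - x) / Lg)) := by
            rw [Real.exp_add, mul_comm]
        _ ≤ 3 * Real.exp (-(T * (1 - x) / Lg)) := by
            have := Real.exp_one_lt_d9
            exact mul_le_mul_of_nonneg_right (by linarith) (Real.exp_pos _).le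
    calc ‖f w‖ ≤ B * x ^ j := key
      _ ≤ B * (3 * Real.exp (-(T * (1 - x) / Lg))) :=
          mul_le_mul_of_nonneg_left (hxj.trans h8) hB0.le
      _ = 3 * B * Real.exp (-(T * (1 - x) / Lg)) := by ring
end NM
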