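import Pool.Agent.Helper360.NM.Defs
import Pool.Agent.Helper360.NM.P_TCball
import Pool.Agent.Helper360.NM.P_TClin



namespace NM
open Complex Metric Set Filter Topology MeasureTheory


theorem PL_normle (z : ℂ) (b : ℝ) (hb : 0 ≤ b) (h : z.re ^ 2 + z.im ^ 2 ≤ b ^ 2) : ‖z‖ ≤ b := by
  have h1 : ‖z‖ ^ 2 = z.re ^ 2 + z.im ^ 2 := by
    rw [Complex.sq_norm, Complex.normSq_apply]; ring
  exact (sq_le_sq₀ (norm_nonneg z) hb).mp (by rw [h1]; exact h)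

theorem PL_lenorm (z : ℂ) (b : ℝ) (hb : 0 ≤ b) (h : b ^ 2 ≤ z.re ^ 2 + z.im ^ 2) : b ≤ ‖z‖ := by
  have h1 : ‖z‖ ^ 2 = z.re ^ 2 + z.im ^ 2 := by
    rw [Complex.sq_norm, Complex.normSq_apply]; ring
  exact (sq_le_sq₀ hb (norm_nonneg z)).mp (by rw [h1]; exact h)

theorem PL_ballReg (c : ℂ) (r : ℝ) (hr : 0 < r) (hr4 : r ≤ 4) (h1 : r ≤ c.re)
    (h2 : (r + 1 / 10) ^ 2 ≤ c.re ^ 2 + c.im ^ 2) (h3 : c.re ^ 2 + c.im ^ 2 ≤ (4 - r) ^ 2) :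
    ball c r ⊆ {s : ℂ | 0 < s.re ∧ 1 / 10 < ‖s‖ ∧ ‖s‖ < 4} := by
  intro w hw
  rw [mem_ball, dist_eq_norm] at hw
  have hc1 : r + 1 / 10 ≤ ‖c‖ := PL_lenorm c _ (by linarith) h2
  have hc2 : ‖c‖ ≤ 4 - r := PL_normle c _ (by linarith) h3
  refine ⟨?_, ?_, ?_⟩
  · have e1 : |(w - c).re| ≤ ‖w - c‖ := Complex.abs_re_le_norm _
    rw [Complex.sub_re] at e1
    have e2 := (abs_le.mp e1).1
    linarith
  · have e1 : ‖c‖ ≤ ‖w‖ + ‖w - c‖ := by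
      calc ‖c‖ = ‖w - (w - c)‖ := by congr 1; ring
        _ ≤ ‖w‖ + ‖w - c‖ := norm_sub_le _ _
    linarith
  · have e1 : ‖w‖ ≤ ‖c‖ + ‖w - c‖ := by
      calc ‖w‖ = ‖c + (w - c)‖ := by congr 1; ring
        _ ≤ ‖c‖ + ‖w - c‖ := norm_add_le _ _
    linarith

theorem PL_tri (w a c : ℂ) : ‖w - c‖ ≤ ‖w - a‖ + ‖a - c‖ := by
  calc ‖w - c‖ = ‖(w - a) + (a - c)‖ := by congr 1; ring
    _ ≤ _ := norm_add_le _ _

theorem PropL (d : ℝ) (hd : 0 < d) (hd1 : d ≤ 1 / 100) :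
    ∃ c C : ℝ, 0 < c ∧ 1 ≤ C ∧ ∀ (h : ℝ) (f : ℂ → ℂ) (B T : ℝ), 1 / 4 ≤ h → h ≤ 3 / 4 → 0 < B →
      0 ≤ T → DifferentiableOn ℂ f {s : ℂ | 0 < s.re ∧ 1 / 10 < ‖s‖ ∧ ‖s‖ < 4} →
      (∀ s : ℂ, 0 < s.re → 1 / 10 < ‖s‖ → ‖s‖ < 4 → ‖f s‖ ≤ B) →
      (∀ s : ℂ, ‖s - ⟨d, h⟩‖ ≤ d / 4 → ‖f s‖ ≤ B * Real.exp (-T)) →
      ∀ s : ℂ, ‖s‖ = 1 → 0 < s.re → ‖f s‖ ≤ C * B * Real.exp (-(c * T * s.re)) := by
  obtain ⟨w1, C1, hw1, hC1, H1⟩ := TCball (1 - 2 * d) (d / 4) (24 / 25) (by linarith)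
    (by linarith) (by linarith) (by linarith) (by norm_num) (by norm_num)
  obtain ⟨w2, C2, hw2, hC2, H2⟩ := TCball (97 / 100) (1 / 100) (16 / 17) (by norm_num)
    (by norm_num) (by norm_num) (by norm_num) (by norm_num) (by norm_num)
  obtain ⟨w3, C3, hw3, hC3, H3⟩ := TCball (3 / 4) (1 / 20) (18 / 19) (by norm_num)
    (by norm_num) (by norm_num) (by norm_num) (by norm_num) (by norm_num)
  have hlog : 0 < Real.log (1 / (3 / 10)) := Real.log_pos (by norm_num)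
  have hC12 : 1 ≤ C1 * C2 := by nlinarith
  have hC123 : 1 ≤ C1 * C2 * C3 := by nlinarith
  refine ⟨min (w1 * w2) (w1 * w2 * w3 / Real.log (1 / (3 / 10))), 3 * (C1 * C2 * C3),
    lt_min (by positivity) (by positivity), by linarith, ?_⟩
  intro h f B T hh1 hh2 hB hT hf hfB hfp s hs hsre
  have hB1 : B ≤ C1 * B := by nlinarith
  have hB2 : B ≤ C2 * (C1 * B) := by nlinarith
  have hB3 : B ≤ C3 * (C2 * (C1 * B)) := by nlinarith
  -- step 1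
  have R1 : ball (⟨h / 2, h⟩ : ℂ) (h / 2) ⊆ {s : ℂ | 0 < s.re ∧ 1 / 10 < ‖s‖ ∧ ‖s‖ < 4} := by
    apply PL_ballReg _ _ (by linarith) (by linarith) le_rfl
    · show (h / 2 + 1 / 10) ^ 2 ≤ (h / 2) ^ 2 + h ^ 2
      nlinarith
    · show (h / 2) ^ 2 + h ^ 2 ≤ (4 - h / 2) ^ 2
      nlinarith
  have S1 : ∀ w : ℂ, ‖w - ⟨h / 2, h⟩‖ ≤ 24 / 25 * (h / 2) →
      ‖f w‖ ≤ C1 * B * Real.exp (-(w1 * T)) := by
    apply H1 f ⟨h / 2, h⟩ ⟨d, h⟩ (h / 2) B T (by linarith) hT hB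
    · apply PL_normle _ _ (mul_nonneg (by linarith) (by linarith))
      show (d - h / 2) ^ 2 + (h - h) ^ 2 ≤ ((1 - 2 * d) * (h / 2)) ^ 2
      have e1 : h / 2 - d ≤ (1 - 2 * d) * (h / 2) := by nlinarith
      have e2 : 0 ≤ h / 2 - d := by linarith
      have e3 := pow_le_pow_left₀ e2 e1 2
      calc (d - h / 2) ^ 2 + (h - h) ^ 2 = (h / 2 - d) ^ 2 := by ring
        _ ≤ _ := e3
    · exact hf.mono R1
    · intro w hw
      have := R1 hw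
      exact hfB w this.1 this.2.1 this.2.2
    · intro w _ hwa
      apply hfp w
      refine hwa.trans ?_
      nlinarith
  -- step 2
  have R2 : ball (⟨1, 0⟩ : ℂ) (17 / 20) ⊆ {s : ℂ | 0 < s.re ∧ 1 / 10 < ‖s‖ ∧ ‖s‖ < 4} := by
    apply PL_ballReg _ _ (by norm_num) (by norm_num)
    · show (17 / 20 : ℝ) ≤ 1
      norm_num
    · show (17 / 20 + 1 / 10 : ℝ) ^ 2 ≤ 1 ^ 2 + 0 ^ 2
      norm_num
    · show (1 : ℝ) ^ 2 + 0 ^ 2 ≤ (4 - 17 / 20) ^ 2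
      norm_num
  have S2 : ∀ w : ℂ, ‖w - ⟨1, 0⟩‖ ≤ 16 / 17 * (17 / 20) →
      ‖f w‖ ≤ C2 * (C1 * B) * Real.exp (-(w2 * (w1 * T))) := by
    apply H2 f ⟨1, 0⟩ ⟨9 / 10 * h, h⟩ (17 / 20) (C1 * B) (w1 * T) (by norm_num)
      (by positivity) (by positivity)
    · apply PL_normle _ _ (by norm_num)
      show (9 / 10 * h - 1) ^ 2 + (h - 0) ^ 2 ≤ (97 / 100 * (17 / 20) : ℝ) ^ 2
      nlinarith [mul_nonneg (sub_nonneg.mpr hh1) (sub_nonneg.mpr hh2)]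
    · exact hf.mono R2
    · intro w hw
      have := R2 hw
      exact (hfB w this.1 this.2.1 this.2.2).trans hB1
    · intro w _ hwa
      apply S1 w
      have e1 := PL_tri w ⟨9 / 10 * h, h⟩ ⟨h / 2, h⟩
      have e2 : ‖(⟨9 / 10 * h, h⟩ : ℂ) - ⟨h / 2, h⟩‖ ≤ 4 / 10 * h := by
        apply PL_normle _ _ (by linarith)
        show (9 / 10 * h - h / 2) ^ 2 + (h - h) ^ 2 ≤ (4 / 10 * h) ^ 2
        nlinarith
      linarith
  -- step 3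
  have S3 : ∀ σ : ℝ, (σ = 1 ∨ σ = -1) → ∀ w : ℂ, ‖w - ⟨1, σ⟩‖ ≤ 18 / 19 * (19 / 20) →
      ‖f w‖ ≤ C3 * (C2 * (C1 * B)) * Real.exp (-(w3 * (w2 * (w1 * T)))) := by
    intro σ hσ
    have hσ2 : σ ^ 2 = 1 := by
      rcases hσ with rfl | rfl <;> norm_num
    have R3 : ball (⟨1, σ⟩ : ℂ) (19 / 20) ⊆ {s : ℂ | 0 < s.re ∧ 1 / 10 < ‖s‖ ∧ ‖s‖ < 4} := by
      apply PL_ballReg _ _ (by norm_num) (by norm_num)
      · show (19 / 20 : ℝ) ≤ 1
        norm_num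
      · show (19 / 20 + 1 / 10 : ℝ) ^ 2 ≤ 1 ^ 2 + σ ^ 2
        rw [hσ2]; norm_num
      · show (1 : ℝ) ^ 2 + σ ^ 2 ≤ (4 - 19 / 20) ^ 2
        rw [hσ2]; norm_num
    apply H3 f ⟨1, σ⟩ ⟨1, 3 / 10 * σ⟩ (19 / 20) (C2 * (C1 * B)) (w2 * (w1 * T)) (by norm_num)
      (by positivity) (by positivity)
    · apply PL_normle _ _ (by norm_num)
      show (1 - 1 : ℝ) ^ 2 + (3 / 10 * σ - σ) ^ 2 ≤ (3 / 4 * (19 / 20) : ℝ) ^ 2
      nlinarith
    · exact hf.mono R3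
    · intro w hw
      have := R3 hw
      exact (hfB w this.1 this.2.1 this.2.2).trans hB2
    · intro w _ hwa
      apply S2 w
      have e1 := PL_tri w ⟨1, 3 / 10 * σ⟩ ⟨1, 0⟩
      have e2 : ‖(⟨1, 3 / 10 * σ⟩ : ℂ) - ⟨1, 0⟩‖ ≤ 3 / 10 := by
        apply PL_normle _ _ (by norm_num)
        show (1 - 1 : ℝ) ^ 2 + (3 / 10 * σ - 0) ^ 2 ≤ (3 / 10 : ℝ) ^ 2
        nlinarith
      linarith
  -- step 4
  have hs2 : s.re ^ 2 + s.im ^ 2 = 1 := by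
    have : ‖s‖ ^ 2 = s.re ^ 2 + s.im ^ 2 := by
      rw [Complex.sq_norm, Complex.normSq_apply]; ring
    rw [← this, hs, one_pow]
  have hsre1 : s.re ≤ 1 := by nlinarith [sq_nonneg s.im]
  have hTs : 0 ≤ T * s.re := mul_nonneg hT hsre.le
  set lg : ℝ := Real.log (1 / (3 / 10)) with hlg
  by_cases hv : |s.im| ≤ 1 / 2
  · have him : s.im ^ 2 ≤ 1 / 4 := by
      have := sq_abs s.im
      have h0 := abs_nonneg s.im
      nlinarith
    have hu : 8 / 10 ≤ s.re := by nlinarith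
    have h1 : ‖s - ⟨1, 0⟩‖ ≤ 16 / 17 * (17 / 20) := by
      apply PL_normle _ _ (by norm_num)
      show (s.re - 1) ^ 2 + (s.im - 0) ^ 2 ≤ _
      nlinarith
    refine (S2 s h1).trans ?_
    have e1 : C2 * (C1 * B) ≤ 3 * (C1 * C2 * C3) * B := by
      have : C1 * C2 ≤ 3 * (C1 * C2 * C3) := by nlinarith
      calc C2 * (C1 * B) = C1 * C2 * B := by ring
        _ ≤ 3 * (C1 * C2 * C3) * B := mul_le_mul_of_nonneg_right this hB.le
    apply mul_le_mul e1 _ (Real.exp_pos _).le (by positivity)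
    apply Real.exp_le_exp.mpr
    apply neg_le_neg
    have e2 := min_le_left (w1 * w2) (w1 * w2 * w3 / lg)
    calc min (w1 * w2) (w1 * w2 * w3 / lg) * T * s.re
        = min (w1 * w2) (w1 * w2 * w3 / lg) * (T * s.re) := by ring
      _ ≤ (w1 * w2) * (T * s.re) := mul_le_mul_of_nonneg_right e2 hTs
      _ ≤ (w1 * w2) * (T * 1) := by
          apply mul_le_mul_of_nonneg_left _ (by positivity)
          exact mul_le_mul_of_nonneg_left hsre1 hT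
      _ = w2 * (w1 * T) := by ring
  · have hv' : 1 / 2 < |s.im| := not_le.mp hv
    have him1 : |s.im| ≤ 1 := by
      rw [← abs_one]
      apply sq_le_sq.mp
      nlinarith [sq_nonneg s.re]
    obtain ⟨σ, hσ, hσv⟩ : ∃ σ : ℝ, (σ = 1 ∨ σ = -1) ∧ |s.im - σ| ≤ 1 / 2 := by
      rcases le_total 0 s.im with h0 | h0
      · refine ⟨1, Or.inl rfl, ?_⟩
        rw [abs_of_nonneg h0] at hv' him1
        rw [abs_le]; constructor <;> linarith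
      · refine ⟨-1, Or.inr rfl, ?_⟩
        rw [abs_of_nonpos h0] at hv' him1
        rw [abs_le]; constructor <;> linarith
    have himsq : 1 / 4 ≤ s.im ^ 2 := by
      have := sq_abs s.im
      nlinarith
    have himsq1 : s.im ^ 2 ≤ 1 := by nlinarith [sq_nonneg s.re]
    have R4 : ball (⟨1, s.im⟩ : ℂ) 1 ⊆ {s : ℂ | 0 < s.re ∧ 1 / 10 < ‖s‖ ∧ ‖s‖ < 4} := by
      apply PL_ballReg _ _ (by norm_num) (by norm_num)
      · show (1 : ℝ) ≤ 1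
        norm_num
      · show (1 + 1 / 10 : ℝ) ^ 2 ≤ 1 ^ 2 + s.im ^ 2
        nlinarith
      · show (1 : ℝ) ^ 2 + s.im ^ 2 ≤ (4 - 1) ^ 2
        nlinarith
    have hse : ‖s - ⟨1, s.im⟩‖ = 1 - s.re := by
      have e1 : s - ⟨1, s.im⟩ = ((s.re - 1 : ℝ) : ℂ) := by
        apply Complex.ext
        · simp
        · simp
      rw [e1, Complex.norm_real, Real.norm_eq_abs, abs_of_nonpos (by linarith)]
      ring
    have S4 := TClin (3 / 10) (by norm_num) (by norm_num) f ⟨1, s.im⟩ 1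
      (C3 * (C2 * (C1 * B))) (w3 * (w2 * (w1 * T))) (by norm_num) (by positivity) (by positivity)
      (hf.mono R4)
      (fun w hw => by
        have := R4 hw
        exact (hfB w this.1 this.2.1 this.2.2).trans hB3)
      (fun w hw => by
        apply S3 σ hσ w
        have e1 := PL_tri w ⟨1, s.im⟩ ⟨1, σ⟩
        have e2 : ‖(⟨1, s.im⟩ : ℂ) - ⟨1, σ⟩‖ ≤ 1 / 2 := by
          apply PL_normle _ _ (by norm_num)
          show (1 - 1 : ℝ) ^ 2 + (s.im - σ) ^ 2 ≤ (1 / 2 : ℝ) ^ 2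
          have e3 := sq_abs (s.im - σ)
          have e4 := abs_nonneg (s.im - σ)
          nlinarith
        linarith)
      s (by rw [mem_ball, dist_eq_norm, hse]; linarith)
    rw [hse] at S4
    refine S4.trans ?_
    have e0 : 3 * (C3 * (C2 * (C1 * B))) = 3 * (C1 * C2 * C3) * B := by ring
    rw [e0]
    apply mul_le_mul_of_nonneg_left _ (by positivity)
    apply Real.exp_le_exp.mpr
    apply neg_le_neg
    have e2 := min_le_right (w1 * w2) (w1 * w2 * w3 / lg)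
    calc min (w1 * w2) (w1 * w2 * w3 / lg) * T * s.re
        = min (w1 * w2) (w1 * w2 * w3 / lg) * (T * s.re) := by ring
      _ ≤ (w1 * w2 * w3 / lg) * (T * s.re) := mul_le_mul_of_nonneg_right e2 hTs
      _ = w3 * (w2 * (w1 * T)) * (1 - (1 - s.re) / 1) / lg := by ring

end NM
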