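import Pool.Agent.Helper360.NM.Defs
import Pool.Agent.Helper360.NM.P_CL
import Pool.Agent.Helper360.NM.P_sm_one



namespace NM
open Complex Metric Set Filter Topology MeasureTheory


theorem chain (K Ga Gb : ℂ → ℂ) (a b : ℂ) (E x0 g : ℝ) (N : ℕ) (hE : 1 ≤ E) (hx0 : 0 < x0)
    (hG : ∀ t : ℝ, 0 ≤ t → t ≤ 1 → ∃ G, Appr K (a + (t : ℂ) * (b - a)) 1 E G)
    (hdep : ∀ t : ℝ, 0 ≤ t → t ≤ 1 → (a + (t : ℂ) * (b - a)).re ≤ -x0 ∧
      -(1 / 100) ≤ (a + (t : ℂ) * (b - a)).re)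
    (hGa : Appr K a 1 E Ga) (hGb : Appr K b 1 E Gb) (hN : ‖b - a‖ ≤ N * x0 / 16) (hN0 : 0 < N)
    (s : ℂ) (hs : -(x0 / 2) ≤ s.re)
    (hg : ∀ t : ℝ, 0 ≤ t → t ≤ 1 →
      g * ‖s - (a + (t : ℂ) * (b - a))‖ ^ 2 ≤ s.re - (a + (t : ℂ) * (b - a)).re) :
    ‖Ga s - Gb s‖ ≤ ((N : ℝ) + 2) * (2 * E * Real.exp (-(g / 16))) := by
  have hNr : (0 : ℝ) < N := by exact_mod_cast hN0
  have hC : 0 ≤ 2 * E * Real.exp (-(g / 16)) := by positivity
  have step : ∀ t : ℝ, 0 ≤ t → t ≤ 1 → ∀ (ζ' : ℂ) (G G' : ℂ → ℂ),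
      ‖(a + (t : ℂ) * (b - a)) - ζ'‖ ≤ x0 / 16 → Appr K (a + (t : ℂ) * (b - a)) 1 E G →
      Appr K ζ' 1 E G' → ‖G s - G' s‖ ≤ 2 * E * Real.exp (-(g / 16)) := by
    intro t ht0 ht1 ζ' G G' hd hG1 hG2
    obtain ⟨hd1, hd2⟩ := hdep t ht0 ht1
    have hgt := hg t ht0 ht1
    set ζ : ℂ := a + (t : ℂ) * (b - a) with hζ
    set x : ℝ := -ζ.re with hx
    have hxx0 : x0 ≤ x := by rw [hx]; linarith
    have hxpos : 0 < x := lt_of_lt_of_le hx0 hxx0
    have hx100 : x ≤ 1 / 100 := by rw [hx]; linarith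
    have h1 := CL K G G' ζ ζ' 1 E x one_pos le_rfl hE hxpos (by rw [hx]; ring)
      (sm_one x hxpos hx100) (hd.trans (by linarith)) hG1 hG2 s (by linarith)
    refine h1.trans ?_
    apply mul_le_mul_of_nonneg_left _ (by positivity)
    apply Real.exp_le_exp.mpr
    apply neg_le_neg
    have hpos : 0 < ‖s - ζ‖ := by
      rw [norm_pos_iff]
      intro h0
      have h2 : s.re = ζ.re := by
        rw [sub_eq_zero.mp h0]
      rw [h2] at hs
      linarith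
    rw [le_div_iff₀ (by positivity)]
    have h3 : g / 16 * (16 * ‖s - ζ‖ ^ 2) = g * ‖s - ζ‖ ^ 2 := by ring
    rw [h3, one_mul, hx]
    linarith
  have main : ∀ i : ℕ, i ≤ N → ∀ G : ℂ → ℂ,
      Appr K (a + (((i : ℝ) / N : ℝ) : ℂ) * (b - a)) 1 E G →
      ‖Ga s - G s‖ ≤ ((i : ℝ) + 1) * (2 * E * Real.exp (-(g / 16))) := by
    intro i
    induction i with
    | zero =>
      intro _ G hG0
      have h0 : a + ((((0 : ℕ) : ℝ) / N : ℝ) : ℂ) * (b - a) = a := by simp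
      have h1 : a + (((0 : ℝ)) : ℂ) * (b - a) = a := by simp
      rw [h0] at hG0
      have h2 := step 0 le_rfl zero_le_one a Ga G (by
        rw [h1, sub_self, norm_zero]
        positivity) (by rw [h1]; exact hGa) hG0
      have h3 : (((0 : ℕ) : ℝ) + 1) = 1 := by norm_num
      rw [h3, one_mul]
      exact h2
    | succ i ih =>
      intro hi G hG1
      have ht0 : (0 : ℝ) ≤ (i : ℝ) / N := by positivity
      have ht1 : (i : ℝ) / N ≤ 1 := by
        rw [div_le_one hNr]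
        exact_mod_cast (by omega : i ≤ N)
      obtain ⟨Gi, hGi⟩ := hG ((i : ℝ) / N) ht0 ht1
      have h1 := ih (by omega) Gi hGi
      have h2 := step ((i : ℝ) / N) ht0 ht1 _ Gi G (by
        have h3 : (a + (((i : ℝ) / N : ℝ) : ℂ) * (b - a))
            - (a + (((((i + 1 : ℕ)) : ℝ) / N : ℝ) : ℂ) * (b - a))
            = (((-(1 / (N : ℝ))) : ℝ) : ℂ) * (b - a) := by
          push_cast
          ring
        rw [h3, norm_mul, Complex.norm_real, Real.norm_eq_abs, abs_neg,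
          abs_of_pos (by positivity : (0 : ℝ) < 1 / N), one_div, inv_mul_le_iff₀ hNr]
        linarith) hGi hG1
      have h4 : ‖Ga s - G s‖ ≤ ‖Ga s - Gi s‖ + ‖Gi s - G s‖ := norm_sub_le_norm_sub_add_norm_sub _ _ _
      push_cast
      linarith
  have h1 : a + (((N : ℝ) / N : ℝ) : ℂ) * (b - a) = b := by
    rw [div_self hNr.ne']
    push_cast
    ring
  have h2 := main N le_rfl Gb (by rw [h1]; exact hGb)
  linarith

end NM
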