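import Pool.Agent.Helper360.NM.Defs
import Pool.Agent.Helper360.NM.P_Appr_mono
import Pool.Agent.Helper360.NM.P_chain



namespace NM
open Complex Metric Set Filter Topology MeasureTheory


theorem crude (K : ℂ → ℂ) (ρ ε X0 : ℝ) (hε : 0 < ε) (hρ : 0 < ρ) (hρ1 : ρ ≤ 1 / 1000)
    (h1 : St K ρ ε X0) (X : ℝ) (hX : 0 < X) (hX0 : X < X0) (hX1 : X ≤ 1)
    (xa ya xb yb : ℝ) (hxa : ρ * X / 10 ≤ xa) (hxa' : xa ≤ 4 * ρ * X)
    (hxb : ρ * X / 10 ≤ xb) (hxb' : xb ≤ 4 * ρ * X)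
    (hy : (X / 10 ≤ ya ∧ ya ≤ 4 * X ∧ X / 10 ≤ yb ∧ yb ≤ 4 * X) ∨
      (X / 10 ≤ -ya ∧ -ya ≤ 4 * X ∧ X / 10 ≤ -yb ∧ -yb ≤ 4 * X))
    (Ga Gb : ℂ → ℂ) (hGa : Appr K ⟨-xa, ya⟩ 1 (Real.exp (2 * ε / X)) Ga)
    (hGb : Appr K ⟨-xb, yb⟩ 1 (Real.exp (2 * ε / X)) Gb) (s : ℂ) (hs : 0 < s.re)
    (hs4 : ‖s‖ ≤ 4 * X) :
    ‖Ga s - Gb s‖ ≤ 2000 / ρ * Real.exp (2 * ε / X - s.re / (1296 * X ^ 2)) := by
  have hρX : 0 < ρ * X := mul_pos hρ hX
  have hρX2 : ρ * X ≤ X / 1000 := by nlinarith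
  have hseg : ∀ t : ℝ, 0 ≤ t → t ≤ 1 →
      ((⟨-xa, ya⟩ : ℂ) + (t : ℂ) * ((⟨-xb, yb⟩ : ℂ) - ⟨-xa, ya⟩)) =
        ⟨-(xa + t * (xb - xa)), ya + t * (yb - ya)⟩ := by
    intro t _ _
    apply Complex.ext
    · simp
      ring
    · simp
  have hx1 : ∀ t : ℝ, 0 ≤ t → t ≤ 1 → ρ * X / 10 ≤ xa + t * (xb - xa) := by
    intro t h0 h1
    nlinarith [mul_nonneg h0 (sub_nonneg.mpr hxb), mul_nonneg (sub_nonneg.mpr h1)
      (sub_nonneg.mpr hxa)]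
  have hx2 : ∀ t : ℝ, 0 ≤ t → t ≤ 1 → xa + t * (xb - xa) ≤ 4 * ρ * X := by
    intro t h0 h1
    nlinarith [mul_nonneg h0 (sub_nonneg.mpr hxb'), mul_nonneg (sub_nonneg.mpr h1)
      (sub_nonneg.mpr hxa')]
  have hyy : ∀ t : ℝ, 0 ≤ t → t ≤ 1 →
      X / 10 ≤ |ya + t * (yb - ya)| ∧ |ya + t * (yb - ya)| ≤ 4 * X := by
    intro t h0 h1
    rcases hy with ⟨p1, p2, p3, p4⟩ | ⟨p1, p2, p3, p4⟩
    · have q1 : X / 10 ≤ ya + t * (yb - ya) := by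
        nlinarith [mul_nonneg h0 (sub_nonneg.mpr p3), mul_nonneg (sub_nonneg.mpr h1)
          (sub_nonneg.mpr p1)]
      have q2 : ya + t * (yb - ya) ≤ 4 * X := by
        nlinarith [mul_nonneg h0 (sub_nonneg.mpr p4), mul_nonneg (sub_nonneg.mpr h1)
          (sub_nonneg.mpr p2)]
      rw [abs_of_nonneg (by linarith)]
      exact ⟨q1, q2⟩
    · have q1 : X / 10 ≤ -(ya + t * (yb - ya)) := by
        nlinarith [mul_nonneg h0 (sub_nonneg.mpr p3), mul_nonneg (sub_nonneg.mpr h1)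
          (sub_nonneg.mpr p1)]
      have q2 : -(ya + t * (yb - ya)) ≤ 4 * X := by
        nlinarith [mul_nonneg h0 (sub_nonneg.mpr p4), mul_nonneg (sub_nonneg.mpr h1)
          (sub_nonneg.mpr p2)]
      rw [abs_of_nonpos (by linarith)]
      exact ⟨q1, q2⟩
  have hE1 : 1 ≤ Real.exp (2 * ε / X) := Real.one_le_exp (by positivity)
  set N : ℕ := ⌈625 / ρ⌉₊ with hNdef
  have hN1 : 625 / ρ ≤ (N : ℝ) := Nat.le_ceil _
  have hN2 : (N : ℝ) < 625 / ρ + 1 := Nat.ceil_lt_add_one (by positivity)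
  have hN0 : 0 < N := Nat.ceil_pos.mpr (by positivity)
  have hab : ‖(⟨-xb, yb⟩ : ℂ) - ⟨-xa, ya⟩‖ ≤ 3.904 * X := by
    have e : ((⟨-xb, yb⟩ : ℂ) - ⟨-xa, ya⟩) = ⟨xa - xb, yb - ya⟩ := by
      apply Complex.ext
      · simp
        ring
      · simp
    rw [e]
    refine (Complex.norm_le_abs_re_add_abs_im _).trans ?_
    show |xa - xb| + |yb - ya| ≤ _
    have r1 : |xa - xb| ≤ 0.0039 * X := by
      rw [abs_le]
      constructor <;> nlinarith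
    have r2 : |yb - ya| ≤ 3.9 * X := by
      rw [abs_le]
      rcases hy with ⟨p1, p2, p3, p4⟩ | ⟨p1, p2, p3, p4⟩ <;> constructor <;> linarith
    linarith
  have hN : ‖(⟨-xb, yb⟩ : ℂ) - ⟨-xa, ya⟩‖ ≤ N * (ρ * X / 10) / 16 := by
    refine hab.trans ?_
    have r1 : 625 ≤ (N : ℝ) * ρ := by
      rw [div_le_iff₀ hρ] at hN1
      exact hN1
    have r2 : 625 * X ≤ (N : ℝ) * ρ * X := mul_le_mul_of_nonneg_right r1 hX.le
    linarith
  have hmain := chain K Ga Gb ⟨-xa, ya⟩ ⟨-xb, yb⟩ (Real.exp (2 * ε / X)) (ρ * X / 10)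
    (s.re / (81 * X ^ 2)) N hE1 (by positivity) (by
      intro t h0 h1'
      rw [hseg t h0 h1']
      exact h1 X _ _ hX hX0 (hx1 t h0 h1') (hx2 t h0 h1') (hyy t h0 h1').1 (hyy t h0 h1').2)
    (by
      intro t h0 h1'
      rw [hseg t h0 h1']
      have a1 := hx1 t h0 h1'
      have a2 := hx2 t h0 h1'
      constructor
      · show -(xa + t * (xb - xa)) ≤ _
        linarith
      · show _ ≤ -(xa + t * (xb - xa))
        nlinarith)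
    hGa hGb hN hN0 s (by
      have : 0 < ρ * X / 10 / 2 := by positivity
      linarith)
    (by
      intro t h0 h1'
      rw [hseg t h0 h1']
      have a1 := hx1 t h0 h1'
      have a2 := hx2 t h0 h1'
      have a3 := (hyy t h0 h1').2
      set x : ℝ := xa + t * (xb - xa)
      set y : ℝ := ya + t * (yb - ya)
      have b1 : ‖s - (⟨-x, y⟩ : ℂ)‖ ≤ 9 * X := by
        have c1 : ‖(⟨-x, y⟩ : ℂ)‖ ≤ |(-x)| + |y| := Complex.norm_le_abs_re_add_abs_im _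
        have c2 : |(-x)| = x := by
          rw [abs_neg, abs_of_nonneg (by linarith)]
        have c3 := norm_sub_le s (⟨-x, y⟩ : ℂ)
        rw [c2] at c1
        nlinarith
      have b2 : ‖s - (⟨-x, y⟩ : ℂ)‖ ^ 2 ≤ 81 * X ^ 2 := by
        calc ‖s - (⟨-x, y⟩ : ℂ)‖ ^ 2 ≤ (9 * X) ^ 2 :=
              pow_le_pow_left₀ (norm_nonneg _) b1 2
          _ = 81 * X ^ 2 := by ring
      have b3 : s.re / (81 * X ^ 2) * ‖s - (⟨-x, y⟩ : ℂ)‖ ^ 2 ≤ s.re := by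
        calc s.re / (81 * X ^ 2) * ‖s - (⟨-x, y⟩ : ℂ)‖ ^ 2
            ≤ s.re / (81 * X ^ 2) * (81 * X ^ 2) :=
              mul_le_mul_of_nonneg_left b2 (by positivity)
          _ = s.re := by field_simp
      show _ ≤ s.re - (-x)
      linarith)
  refine hmain.trans ?_
  have e1 : Real.exp (2 * ε / X - s.re / (1296 * X ^ 2)) =
      Real.exp (2 * ε / X) * Real.exp (-(s.re / (81 * X ^ 2) / 16)) := by
    rw [← Real.exp_add]
    congr 1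
    field_simp
    ring
  rw [e1]
  have e2 : ((N : ℝ) + 2) * (2 * Real.exp (2 * ε / X) * Real.exp (-(s.re / (81 * X ^ 2) / 16))) =
      (2 * ((N : ℝ) + 2)) * (Real.exp (2 * ε / X) * Real.exp (-(s.re / (81 * X ^ 2) / 16))) := by
    ring
  rw [e2]
  refine mul_le_mul_of_nonneg_right ?_ (by positivity)
  have e3 : (1000 : ℝ) ≤ 1 / ρ := by
    rw [le_div_iff₀ hρ]
    linarith
  have e4 : 2000 / ρ = 2000 * (1 / ρ) := by ring
  have e5 : 625 / ρ = 625 * (1 / ρ) := by ring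
  rw [e5] at hN2
  rw [e4]
  linarith

end NM
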