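import Pool.Agent.Helper360.NM.Defs
import Pool.Agent.Helper360.NM.P_CL
import Pool.Agent.Helper360.NM.P_Appr_mono
import Pool.Agent.Helper360.NM.P_crude



namespace NM
open Complex Metric Set Filter Topology MeasureTheory


theorem vstep_A {d X R h a b : ℝ} (hd : 0 < d) (hd1 : d ≤ 1 / 100) (hX : 0 < X) (hR : 0 < R)
    (hRd : R ≤ d * X / 10) (ha : |a - d * X| ≤ d * X / 4) (hb : |b - h * X| ≤ d * X / 4) :
    d / (25 * X) ≤ 1 * (a + R) / (16 * ((a + R) ^ 2 + (b + (1 - h) * X) ^ 2)) := by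
  rw [abs_le] at ha hb
  have hdX : 0 < d * X := mul_pos hd hX
  have hdX1 : d * X ≤ X / 100 := by nlinarith
  have ha1 : 3 / 4 * (d * X) ≤ a + R := by linarith [ha.1]
  have ha2 : a + R ≤ 27 / 2000 * X := by linarith [ha.2]
  have hN1 : (a + R) ^ 2 ≤ (27 / 2000 * X) ^ 2 := by
    apply pow_le_pow_left₀ _ ha2
    linarith
  have hN2 : (b + (1 - h) * X) ^ 2 ≤ (401 / 400 * X) ^ 2 := by
    apply sq_le_sq'
    · nlinarith [hb.1]
    · nlinarith [hb.2]
  have hN3 : 0 < (b + (1 - h) * X) ^ 2 := by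
    have : 0 < b + (1 - h) * X := by nlinarith [hb.1]
    positivity
  have hN : (a + R) ^ 2 + (b + (1 - h) * X) ^ 2 ≤ 102 / 100 * X ^ 2 := by nlinarith
  have hpos : 0 < 16 * ((a + R) ^ 2 + (b + (1 - h) * X) ^ 2) := by positivity
  rw [le_div_iff₀ hpos]
  have h3 : d / (25 * X) * (16 * ((a + R) ^ 2 + (b + (1 - h) * X) ^ 2)) ≤
      d / (25 * X) * (16 * (102 / 100 * X ^ 2)) :=
    mul_le_mul_of_nonneg_left (by linarith) (by positivity)
  have h4 : d / (25 * X) * (16 * (102 / 100 * X ^ 2)) = 1632 / 2500 * (d * X) := by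
    field_simp
    norm_num
  linarith

theorem vstep_B {d X R h a b : ℝ} (hd : 0 < d) (hX : 0 < X) (hR : 0 < R)
    (hRd : R ≤ d * X / 10) (ha : |a - d * X| ≤ d * X / 4) (hb : |b - h * X| ≤ d * X / 4) :
    d / (25 * X) ≤ d ^ 2 * (a + R) / (16 * ((a + R) ^ 2 + (b - h * X) ^ 2)) := by
  have hb2 : (b - h * X) ^ 2 ≤ (d * X / 4) ^ 2 := by
    rw [← sq_abs (b - h * X)]
    exact pow_le_pow_left₀ (abs_nonneg _) hb 2
  rw [abs_le] at ha
  have hdX : 0 < d * X := mul_pos hd hX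
  have ha1 : 3 / 4 * (d * X) ≤ a + R := by linarith [ha.1]
  have ha2 : a + R ≤ 27 / 20 * (d * X) := by linarith [ha.2]
  have hpos : 0 < 16 * ((a + R) ^ 2 + (b - h * X) ^ 2) := by
    have : 0 < (a + R) ^ 2 := by
      have : 0 < a + R := by linarith
      positivity
    positivity
  rw [le_div_iff₀ hpos]
  obtain ⟨u, hu⟩ : ∃ u, u = a + R := ⟨_, rfl⟩
  obtain ⟨D, hD⟩ : ∃ D, D = d * X := ⟨_, rfl⟩
  obtain ⟨v, hv⟩ : ∃ v, v = (b - h * X) ^ 2 := ⟨_, rfl⟩
  rw [← hu, ← hD] at ha1 ha2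
  rw [← hD] at hdX
  rw [← hv, ← hD] at hb2
  rw [← hu, ← hv]
  have h1 : 16 / 25 * (u ^ 2 + v) ≤ D * u := by
    nlinarith [mul_nonneg (sub_nonneg.2 ha1) (sub_nonneg.2 ha2)]
  have h2 : d / (25 * X) * (16 * (u ^ 2 + v)) = d / X * (16 / 25 * (u ^ 2 + v)) := by
    field_simp
  have h3 : d ^ 2 * u = d / X * (D * u) := by
    rw [hD]; field_simp
  rw [h2, h3]
  exact mul_le_mul_of_nonneg_left h1 (by positivity)

theorem vstep_C {d w : ℝ} (hd : 0 < d) (hw : 0 < w) (hw1 : w ≤ d ^ 8 / 165888) :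
    27 * (w⁻¹) ^ 3 ≤ Real.exp (d ^ 2 / (4 * w)) := by
  have h1 := Real.pow_div_factorial_le_exp (d ^ 2 / (4 * w)) (by positivity) 4
  refine le_trans ?_ h1
  have h2 : (d ^ 2 / (4 * w)) ^ 4 / ((4).factorial : ℝ) = d ^ 8 / (6144 * w ^ 4) := by
    have : ((4).factorial : ℝ) = 24 := by norm_num [Nat.factorial]
    rw [this]
    field_simp
    norm_num
  rw [h2, le_div_iff₀ (by positivity)]
  have h3 : 27 * (w⁻¹) ^ 3 * (6144 * w ^ 4) = 165888 * w := by
    field_simp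
    norm_num
  rw [h3]
  linarith

theorem vstep (K : ℂ → ℂ) (ρ ε d X0 : ℝ) (hX0 : 0 < X0)
    (hd : 0 < d) (hd1 : d ≤ 1 / 100) (hε : 0 < ε) (hε1 : ε ≤ d / 10 ^ 5)
    (hρ : 0 < ρ) (hρ1 : ρ ≤ 1 / 1000) (hρd : ρ ≤ d / 10) (h1 : St K ρ ε X0)
    (h2 : St2 K ρ d X0) :
    ∃ X1 : ℝ, 0 < X1 ∧ ∀ X : ℝ, 0 < X → X < X1 → ∃ h : ℝ, 1 / 4 ≤ h ∧ h ≤ 3 / 4 ∧
      ∀ U L : ℂ → ℂ, Appr K ⟨-(ρ * X), X⟩ 1 (Real.exp (2 * ε / X)) U →
        Appr K ⟨-(ρ * X), -X⟩ 1 (Real.exp (2 * ε / X)) L →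
        ∀ s : ℂ, ‖s - ⟨d * X, h * X⟩‖ ≤ d * X / 4 → ‖U s - L s‖ ≤ Real.exp (-(d / (2500 * X))) := by
  refine ⟨min (min X0 1) (min (d ^ 8 / 165888) (d / (10000 * (4 + 4000 / ρ)))), ?_, ?_⟩
  · refine lt_min (lt_min hX0 one_pos) (lt_min (by positivity) (by positivity))
  intro X hX hXlt
  have hX0' : X < X0 := lt_of_lt_of_le hXlt ((min_le_left _ _).trans (min_le_left _ _))
  have hX1 : X ≤ 1 := hXlt.le.trans ((min_le_left _ _).trans (min_le_right _ _))
  have hX8 : X ≤ d ^ 8 / 165888 := hXlt.le.trans ((min_le_right _ _).trans (min_le_left _ _))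
  have hX4 : X ≤ d / (10000 * (4 + 4000 / ρ)) :=
    hXlt.le.trans ((min_le_right _ _).trans (min_le_right _ _))
  obtain ⟨h, hh1, hh2, G, hG1, hG2⟩ := h2 X hX hX0'
  refine ⟨h, hh1, hh2, ?_⟩
  intro U L hU hL s hs
  have hRX : 0 < ρ * X := mul_pos hρ hX
  have hdX : 0 < d * X := mul_pos hd hX
  have hRd : ρ * X ≤ d * X / 10 := by nlinarith
  have hdX1 : d * X ≤ X / 100 := by nlinarith
  -- the auxiliary stations
  obtain ⟨L', hL'⟩ := h1 X (ρ * X) (-((1 - h) * X)) hX hX0' (by nlinarith) (by nlinarith)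
    (by rw [abs_neg, abs_of_pos (by nlinarith)]; nlinarith)
    (by rw [abs_neg, abs_of_pos (by nlinarith)]; nlinarith)
  obtain ⟨U', hU'⟩ := h1 X (ρ * X) (h * X) hX hX0' (by nlinarith) (by nlinarith)
    (by rw [abs_of_pos (by nlinarith)]; nlinarith)
    (by rw [abs_of_pos (by nlinarith)]; nlinarith)
  have hEE : Real.exp (2 * ε / X) ≤ Real.exp (d / (500 * X)) := by
    apply Real.exp_le_exp.2
    rw [div_le_div_iff₀ hX (by positivity)]
    have : ε * 100000 ≤ d := by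
      rw [le_div_iff₀ (by norm_num)] at hε1
      linarith
    nlinarith
  have hE1 : 1 ≤ Real.exp (d / (500 * X)) := Real.one_le_exp (by positivity)
  have hd2 : d ^ 2 ≤ 1 := by nlinarith
  have hL2 := Appr_mono K L' _ 1 1 _ _ le_rfl hEE (Real.exp_pos _).le hL'
  have hU2 := Appr_mono K U' _ 1 (d ^ 2) _ _ hd2 hEE (Real.exp_pos _).le hU'
  have hsm2 : 27 * ((ρ * X)⁻¹) ^ 3 ≤ Real.exp (d ^ 2 / (4 * (ρ * X))) :=
    vstep_C hd hRX (by nlinarith)
  have hsm1 : 27 * ((ρ * X)⁻¹) ^ 3 ≤ Real.exp (1 / (4 * (ρ * X))) := by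
    refine hsm2.trans (Real.exp_le_exp.2 ?_)
    exact div_le_div_of_nonneg_right hd2 (by positivity)
  -- coordinates of `s`
  have hre : |s.re - d * X| ≤ d * X / 4 := by
    have := (Complex.abs_re_le_norm (s - ⟨d * X, h * X⟩)).trans hs
    simpa using this
  have him : |s.im - h * X| ≤ d * X / 4 := by
    have := (Complex.abs_im_le_norm (s - ⟨d * X, h * X⟩)).trans hs
    simpa using this
  have hre' := abs_le.1 hre
  have him' := abs_le.1 him
  have hspos : 0 < s.re := by linarith [hre'.1]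
  have hs4 : ‖s‖ ≤ 4 * X := by
    have h5 := Complex.norm_le_abs_re_add_abs_im s
    have h6 : |s.re| ≤ 2 * X := by
      rw [abs_of_pos hspos]; linarith [hre'.2]
    have h7 : |s.im| ≤ 2 * X := by
      rw [abs_le]
      constructor
      · nlinarith [him'.1]
      · nlinarith [him'.2]
    linarith
  -- norms of the differences
  have hn1 : ‖s - ⟨-(ρ * X), -((1 - h) * X)⟩‖ ^ 2 = (s.re + ρ * X) ^ 2 +
      (s.im + (1 - h) * X) ^ 2 := by
    rw [Complex.sq_norm, Complex.normSq_apply]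
    simp only [Complex.sub_re, Complex.sub_im]
    ring
  have hn2 : ‖s - ⟨-(ρ * X), h * X⟩‖ ^ 2 = (s.re + ρ * X) ^ 2 + (s.im - h * X) ^ 2 := by
    rw [Complex.sq_norm, Complex.normSq_apply]
    simp only [Complex.sub_re, Complex.sub_im]
    ring
  have hb1 : ‖G s - L' s‖ ≤ 2 * Real.exp (-(d / (2000 * X))) := by
    have h5 := CL K G L' ⟨-(ρ * X), -((1 - h) * X)⟩ ⟨-(ρ * X), -((1 - h) * X)⟩ 1
      (Real.exp (d / (500 * X))) (ρ * X) one_pos le_rfl hE1 hRX rfl hsm1
      (by rw [sub_self, norm_zero]; positivity) hG1 hL2 s (by linarith)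
    rw [hn1] at h5
    refine h5.trans ?_
    rw [mul_assoc, ← Real.exp_add]
    refine mul_le_mul_of_nonneg_left (Real.exp_le_exp.2 ?_) (by norm_num)
    have h6 := vstep_A hd hd1 hX hRX hRd hre him
    have h7 : d / (500 * X) + -(d / (25 * X)) ≤ -(d / (2000 * X)) := by
      have h8 : d / (500 * X) = 1 / 500 * (d / X) := by field_simp
      have h9 : d / (25 * X) = 1 / 25 * (d / X) := by field_simp
      have h10 : d / (2000 * X) = 1 / 2000 * (d / X) := by field_simp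
      have h11 : 0 < d / X := by positivity
      rw [h8, h9, h10]
      linarith
    linarith
  have hb2 : ‖G s - U' s‖ ≤ 2 * Real.exp (-(d / (2000 * X))) := by
    have h5 := CL K G U' ⟨-(ρ * X), h * X⟩ ⟨-(ρ * X), h * X⟩ (d ^ 2)
      (Real.exp (d / (500 * X))) (ρ * X) (by positivity) hd2 hE1 hRX rfl hsm2
      (by rw [sub_self, norm_zero]; positivity) hG2 hU2 s (by linarith)
    rw [hn2] at h5
    refine h5.trans ?_
    rw [mul_assoc, ← Real.exp_add]
    refine mul_le_mul_of_nonneg_left (Real.exp_le_exp.2 ?_) (by norm_num)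
    have h6 := vstep_B hd hX hRX hRd hre him
    have h7 : d / (500 * X) + -(d / (25 * X)) ≤ -(d / (2000 * X)) := by
      have h8 : d / (500 * X) = 1 / 500 * (d / X) := by field_simp
      have h9 : d / (25 * X) = 1 / 25 * (d / X) := by field_simp
      have h10 : d / (2000 * X) = 1 / 2000 * (d / X) := by field_simp
      have h11 : 0 < d / X := by positivity
      rw [h8, h9, h10]
      linarith
    linarith
  have hexp : 2 * ε / X - s.re / (1296 * X ^ 2) ≤ -(d / (2000 * X)) := by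
    have h5 : 2 * ε / X ≤ 1 / 50000 * (d / X) := by
      rw [div_le_iff₀ hX]
      have h6 : 1 / 50000 * (d / X) * X = 1 / 50000 * d := by field_simp
      rw [h6]
      linarith
    have h6 : 3 / 5184 * (d / X) ≤ s.re / (1296 * X ^ 2) := by
      rw [le_div_iff₀ (by positivity)]
      have h7 : 3 / 5184 * (d / X) * (1296 * X ^ 2) = 3 / 4 * (d * X) := by
        field_simp
        norm_num
      rw [h7]
      linarith [hre'.1]
    have h10 : d / (2000 * X) = 1 / 2000 * (d / X) := by field_simp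
    have h11 : 0 < d / X := by positivity
    rw [h10]
    linarith
  have hb3 : ‖U s - U' s‖ ≤ 2000 / ρ * Real.exp (-(d / (2000 * X))) := by
    have h5 := crude K ρ ε X0 hε hρ hρ1 h1 X hX hX0' hX1 (ρ * X) X (ρ * X) (h * X)
      (by linarith) (by linarith) (by linarith) (by linarith)
      (Or.inl ⟨by linarith, by linarith, by nlinarith, by nlinarith⟩) U U' hU hU' s hspos hs4
    refine h5.trans (mul_le_mul_of_nonneg_left (Real.exp_le_exp.2 hexp) (by positivity))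
  have hb4 : ‖L s - L' s‖ ≤ 2000 / ρ * Real.exp (-(d / (2000 * X))) := by
    have h5 := crude K ρ ε X0 hε hρ hρ1 h1 X hX hX0' hX1 (ρ * X) (-X) (ρ * X) (-((1 - h) * X))
      (by linarith) (by linarith) (by linarith) (by linarith)
      (Or.inr ⟨by linarith, by linarith, by nlinarith, by nlinarith⟩) L L' hL hL' s hspos hs4
    refine h5.trans (mul_le_mul_of_nonneg_left (Real.exp_le_exp.2 hexp) (by positivity))
  have hsum : ‖U s - L s‖ ≤ ‖U s - U' s‖ + ‖G s - U' s‖ + ‖G s - L' s‖ + ‖L s - L' s‖ := by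
    have h5 : U s - L s = (U s - U' s) - (G s - U' s) + (G s - L' s) - (L s - L' s) := by ring
    rw [h5]
    refine (norm_sub_le _ _).trans (add_le_add_left ?_ _)
    refine (norm_add_le _ _).trans (add_le_add_left ?_ _)
    exact norm_sub_le _ _
  have htot : ‖U s - L s‖ ≤ (4 + 4000 / ρ) * Real.exp (-(d / (2000 * X))) := by
    have h5 : (4 + 4000 / ρ) * Real.exp (-(d / (2000 * X))) =
        2000 / ρ * Real.exp (-(d / (2000 * X))) + 2 * Real.exp (-(d / (2000 * X))) +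
        2 * Real.exp (-(d / (2000 * X))) + 2000 / ρ * Real.exp (-(d / (2000 * X))) := by ring
    rw [h5]
    linarith
  refine htot.trans ?_
  have h5 : 4 + 4000 / ρ ≤ Real.exp (d / (10000 * X)) := by
    have h6 : 4 + 4000 / ρ ≤ d / (10000 * X) := by
      rw [le_div_iff₀ (by positivity)]
      rw [le_div_iff₀ (by positivity)] at hX4
      linarith
    have h7 := Real.add_one_le_exp (d / (10000 * X))
    linarith
  have h6 : Real.exp (-(d / (2500 * X))) = Real.exp (d / (10000 * X)) *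
      Real.exp (-(d / (2000 * X))) := by
    rw [← Real.exp_add]
    congr 1
    field_simp
    norm_num
  rw [h6]
  exact mul_le_mul_of_nonneg_right h5 (Real.exp_pos _).le

end NM
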