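import Pool.Agent.Helper360.NM.Defs
import Pool.Agent.Helper360.NM.P_Appr_mono
import Pool.Agent.Helper360.NM.P_crude
import Pool.Agent.Helper360.NM.P_vstep
import Pool.Agent.Helper360.NM.P_PropL



namespace NM
open Complex Metric Set Filter Topology MeasureTheory


theorem ps_norm_exp (m : ℝ) (s : ℂ) :
    ‖Complex.exp ((m:ℂ) / s)‖ = Real.exp (m * s.re / ‖s‖ ^ 2) := by
  rw [Complex.norm_exp]
  congr 1
  rw [Complex.div_re, Complex.normSq_eq_norm_sq, Complex.ofReal_re, Complex.ofReal_im]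
  ring

theorem ps_core (m η d c C Y h : ℝ) (hd : 0 < d) (hd1 : d ≤ 1 / 100)
    (hY : 0 < Y) (hη : 0 ≤ η) (hm : 0 ≤ m) (hm1 : m ≤ 1 / 10 ^ 6) (hh : 1 / 4 ≤ h)
    (hh1 : h ≤ 3 / 4)
    (hP : ∀ (h : ℝ) (f : ℂ → ℂ) (B T : ℝ), 1 / 4 ≤ h → h ≤ 3 / 4 → 0 < B →
      0 ≤ T → DifferentiableOn ℂ f {s : ℂ | 0 < s.re ∧ 1 / 10 < ‖s‖ ∧ ‖s‖ < 4} →
      (∀ s : ℂ, 0 < s.re → 1 / 10 < ‖s‖ → ‖s‖ < 4 → ‖f s‖ ≤ B) →
      (∀ s : ℂ, ‖s - ⟨d, h⟩‖ ≤ d / 4 → ‖f s‖ ≤ B * Real.exp (-T)) →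
      ∀ s : ℂ, ‖s‖ = 1 → 0 < s.re → ‖f s‖ ≤ C * B * Real.exp (-(c * T * s.re)))
    (U L : ℂ → ℂ) (hU : DifferentiableOn ℂ U {s | 0 < s.re})
    (hL : DifferentiableOn ℂ L {s | 0 < s.re})
    (hPP : ∀ s : ℂ, 0 < s.re → Y / 10 ≤ ‖s‖ → ‖s‖ ≤ 4 * Y →
      ‖U s - L s‖ ≤ Real.exp (η / Y - m * s.re / ‖s‖ ^ 2))
    (hV : ∀ s : ℂ, ‖s - ⟨d * Y, h * Y⟩‖ ≤ d * Y / 4 →
      ‖U s - L s‖ ≤ Real.exp (-(d / (2500 * Y))))
    (s : ℂ) (hs : 0 < s.re) (hsY : ‖s‖ = Y) :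
    ‖U s - L s‖ ≤ C * Real.exp (η / Y - (m + c * d / 5000) * s.re / Y ^ 2) := by
  obtain ⟨f, hf⟩ : ∃ f : ℂ → ℂ, f = fun w => (U ((Y:ℂ) * w) - L ((Y:ℂ) * w)) *
    Complex.exp ((m:ℂ) / ((Y:ℂ) * w)) := ⟨_, rfl⟩
  have hre : ∀ w : ℂ, ((Y:ℂ) * w).re = Y * w.re := fun w => by simp
  have hnm : ∀ w : ℂ, ‖(Y:ℂ) * w‖ = Y * ‖w‖ := fun w => by
    rw [norm_mul, Complex.norm_real, Real.norm_of_nonneg hY.le]
  have hYc : (Y:ℂ) ≠ 0 := by exact_mod_cast hY.ne'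
  have hfd : DifferentiableOn ℂ f {s : ℂ | 0 < s.re ∧ 1 / 10 < ‖s‖ ∧ ‖s‖ < 4} := by
    have h1 : DifferentiableOn ℂ (fun w : ℂ => (Y:ℂ) * w)
        {s : ℂ | 0 < s.re ∧ 1 / 10 < ‖s‖ ∧ ‖s‖ < 4} :=
      (differentiable_id.const_mul _).differentiableOn
    have hmaps : Set.MapsTo (fun w : ℂ => (Y:ℂ) * w)
        {s : ℂ | 0 < s.re ∧ 1 / 10 < ‖s‖ ∧ ‖s‖ < 4} {s : ℂ | 0 < s.re} := by
      intro w hw
      show 0 < ((Y:ℂ) * w).re
      rw [hre]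
      exact mul_pos hY hw.1
    rw [hf]
    refine DifferentiableOn.mul ((hU.comp h1 hmaps).sub (hL.comp h1 hmaps)) ?_
    refine DifferentiableOn.cexp ?_
    refine DifferentiableOn.div (differentiableOn_const _) h1 ?_
    intro w hw h0
    have h2 : (0:ℝ) < ‖w‖ := by linarith [hw.2.1]
    rcases mul_eq_zero.mp h0 with h | h
    · exact hYc h
    · rw [h, norm_zero] at h2
      exact lt_irrefl _ h2
  have hfn : ∀ w : ℂ, ‖f w‖ = ‖U ((Y:ℂ) * w) - L ((Y:ℂ) * w)‖ *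
      Real.exp (m * (Y * w.re) / (Y * ‖w‖) ^ 2) := by
    intro w
    rw [hf]
    show ‖(U ((Y:ℂ) * w) - L ((Y:ℂ) * w)) * Complex.exp ((m:ℂ) / ((Y:ℂ) * w))‖ = _
    rw [norm_mul, ps_norm_exp, hre, hnm]
  have hB : ∀ w : ℂ, 0 < w.re → 1 / 10 < ‖w‖ → ‖w‖ < 4 → ‖f w‖ ≤ Real.exp (η / Y) := by
    intro w h1 h2 h3
    have h4 := hPP ((Y:ℂ) * w) (by rw [hre]; exact mul_pos hY h1)
      (by
        rw [hnm]
        have := mul_le_mul_of_nonneg_left h2.le hY.le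
        linarith)
      (by
        rw [hnm]
        have := mul_le_mul_of_nonneg_left h3.le hY.le
        linarith)
    rw [hre, hnm] at h4
    rw [hfn]
    calc _ ≤ Real.exp (η / Y - m * (Y * w.re) / (Y * ‖w‖) ^ 2) *
          Real.exp (m * (Y * w.re) / (Y * ‖w‖) ^ 2) :=
          mul_le_mul_of_nonneg_right h4 (Real.exp_pos _).le
      _ = Real.exp (η / Y) := by
          rw [← Real.exp_add]
          congr 1
          ring
  have hS : ∀ w : ℂ, ‖w - ⟨d, h⟩‖ ≤ d / 4 →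
      ‖f w‖ ≤ Real.exp (η / Y) * Real.exp (-(d / (5000 * Y))) := by
    intro w hw
    have h1 : ‖(Y:ℂ) * w - ⟨d * Y, h * Y⟩‖ ≤ d * Y / 4 := by
      have e1 : (Y:ℂ) * w - ⟨d * Y, h * Y⟩ = (Y:ℂ) * (w - ⟨d, h⟩) := by
        apply Complex.ext
        · simp
          ring
        · simp
          ring
      rw [e1, hnm]
      have := mul_le_mul_of_nonneg_left hw hY.le
      linarith
    have h2 := hV _ h1
    have h3 : |w.re - d| ≤ d / 4 := le_trans (Complex.abs_re_le_norm (w - ⟨d, h⟩)) hw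
    have h4 : |w.im - h| ≤ d / 4 := le_trans (Complex.abs_im_le_norm (w - ⟨d, h⟩)) hw
    have h5 : w.re ≤ 5 * d / 4 := by linarith [(abs_le.mp h3).2]
    have h5' : 0 ≤ w.re := by linarith [(abs_le.mp h3).1]
    have h6 : 99 / 400 ≤ w.im := by linarith [(abs_le.mp h4).1]
    have h7 : 99 / 400 ≤ ‖w‖ := le_trans h6 (le_trans (le_abs_self _) (Complex.abs_im_le_norm w))
    have hw0 : 0 < ‖w‖ := by linarith
    have h8 : m * (Y * w.re) / (Y * ‖w‖) ^ 2 ≤ d / (5000 * Y) := by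
      rw [div_le_div_iff₀ (by positivity) (by positivity)]
      have h9 : m * w.re * 5000 ≤ d * ‖w‖ ^ 2 := by
        have h10 : m * w.re ≤ 1 / 10 ^ 6 * (5 * d / 4) := mul_le_mul hm1 h5 h5' (by norm_num)
        have h11 : ((99:ℝ) / 400) ^ 2 ≤ ‖w‖ ^ 2 := pow_le_pow_left₀ (by norm_num) h7 2
        have h12 : d * ((99:ℝ) / 400) ^ 2 ≤ d * ‖w‖ ^ 2 := mul_le_mul_of_nonneg_left h11 hd.le
        have h13 : (1 / 10 ^ 6 * (5 * d / 4)) * 5000 ≤ d * ((99:ℝ) / 400) ^ 2 := by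
          norm_num
          linarith
        linarith
      calc m * (Y * w.re) * (5000 * Y) = Y ^ 2 * (m * w.re * 5000) := by ring
        _ ≤ Y ^ 2 * (d * ‖w‖ ^ 2) := mul_le_mul_of_nonneg_left h9 (sq_nonneg _)
        _ = d * (Y * ‖w‖) ^ 2 := by ring
    rw [hfn]
    calc ‖U ((Y:ℂ) * w) - L ((Y:ℂ) * w)‖ * Real.exp (m * (Y * w.re) / (Y * ‖w‖) ^ 2)
        ≤ Real.exp (-(d / (2500 * Y))) * Real.exp (d / (5000 * Y)) :=
          mul_le_mul h2 (Real.exp_le_exp.mpr h8) (Real.exp_pos _).le (Real.exp_pos _).le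
      _ = Real.exp (-(d / (5000 * Y))) := by
          rw [← Real.exp_add]
          congr 1
          field_simp
          ring
      _ ≤ Real.exp (η / Y) * Real.exp (-(d / (5000 * Y))) := by
          have e2 : 1 ≤ Real.exp (η / Y) := Real.one_le_exp (by positivity)
          have e3 := mul_le_mul_of_nonneg_right e2 (Real.exp_pos (-(d / (5000 * Y)))).le
          linarith
  have hw1 : ‖(Y:ℂ)⁻¹ * s‖ = 1 := by
    rw [norm_mul, norm_inv, Complex.norm_real, Real.norm_of_nonneg hY.le, hsY,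
      inv_mul_cancel₀ hY.ne']
  have hw2 : ((Y:ℂ)⁻¹ * s).re = Y⁻¹ * s.re := by
    rw [← Complex.ofReal_inv]
    simp
  have hw3 : (Y:ℂ) * ((Y:ℂ)⁻¹ * s) = s := by rw [← mul_assoc, mul_inv_cancel₀ hYc, one_mul]
  have h1 := hP h f (Real.exp (η / Y)) (d / (5000 * Y)) hh hh1 (Real.exp_pos _) (by positivity)
    hfd hB hS ((Y:ℂ)⁻¹ * s) hw1 (by rw [hw2]; exact mul_pos (inv_pos.mpr hY) hs)
  rw [hfn, hw3, hw2, hw1] at h1
  have h2 : ‖U s - L s‖ = ‖U s - L s‖ * Real.exp (m * (Y * (Y⁻¹ * s.re)) / (Y * 1) ^ 2) *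
      Real.exp (-(m * (Y * (Y⁻¹ * s.re)) / (Y * 1) ^ 2)) := by
    rw [mul_assoc, ← Real.exp_add, add_neg_cancel, Real.exp_zero, mul_one]
  rw [h2]
  calc _ ≤ (C * Real.exp (η / Y) * Real.exp (-(c * (d / (5000 * Y)) * (Y⁻¹ * s.re)))) *
        Real.exp (-(m * (Y * (Y⁻¹ * s.re)) / (Y * 1) ^ 2)) :=
        mul_le_mul_of_nonneg_right h1 (Real.exp_pos _).le
    _ = C * Real.exp (η / Y - (m + c * d / 5000) * s.re / Y ^ 2) := by
        rw [mul_assoc, mul_assoc, ← Real.exp_add, ← Real.exp_add]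
        congr 2
        field_simp
        ring

theorem PPstep (d : ℝ) (hd : 0 < d) (hd1 : d ≤ 1 / 100) :
    ∃ c3 : ℝ, 0 < c3 ∧ c3 ≤ 1 / 10 ^ 7 ∧ ∀ (K : ℂ → ℂ) (ρ ε X0 : ℝ), 0 < X0 → 0 < ε →
      ε ≤ d / 10 ^ 5 → 0 < ρ → ρ ≤ 1 / 1000 → ρ ≤ d / 10 → St K ρ ε X0 → St2 K ρ d X0 → ∀ m η : ℝ, 0 ≤ m → m + c3 ≤ 1 / 10 ^ 6 →
      3 * ε ≤ η → PP K ρ ε m η → PP K ρ ε (m + c3) (11 * η) := by
  obtain ⟨c, C, hc, hC, hP⟩ := PropL d hd hd1
  refine ⟨min (c * d / 5000) (1 / 10 ^ 7), lt_min (by positivity) (by norm_num),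
    min_le_right _ _, ?_⟩
  intro K ρ ε X0 hX0 hε hεd hρ hρ1 hρd hSt hSt2 m η hm hmc hη hPP
  have hη0 : 0 < η := by linarith
  obtain ⟨c3, hc3⟩ : ∃ c3 : ℝ, c3 = min (c * d / 5000) (1 / 10 ^ 7) := ⟨_, rfl⟩
  rw [← hc3] at hmc ⊢
  have hc30 : 0 < c3 := by rw [hc3]; exact lt_min (by positivity) (by norm_num)
  have hc3l : c3 ≤ c * d / 5000 := by rw [hc3]; exact min_le_left _ _
  obtain ⟨Xv, hXv, hv⟩ := vstep K ρ ε d X0 hX0 hd hd1 hε hεd hρ hρ1 hρd hSt hSt2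
  obtain ⟨Xp, hXp, hp⟩ := hPP
  obtain ⟨M, hM⟩ : ∃ M : ℝ, M = 4000 / ρ + C := ⟨_, rfl⟩
  have hM0 : 0 < M := by rw [hM]; positivity
  refine ⟨min (min (X0 / 4) (Xv / 4)) (min (min (Xp / 4) (1 / 4)) (η / M)), ?_, ?_⟩
  · refine lt_min (lt_min (by positivity) (by positivity)) (lt_min (lt_min (by positivity)
      (by norm_num)) (by positivity))
  intro X hX hXlt U L hU hL s hs hs1 hs4
  have hX1 : X < X0 / 4 := lt_of_lt_of_le hXlt (le_trans (min_le_left _ _) (min_le_left _ _))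
  have hX2 : X < Xv / 4 := lt_of_lt_of_le hXlt (le_trans (min_le_left _ _) (min_le_right _ _))
  have hX3 : X < Xp / 4 := lt_of_lt_of_le hXlt (le_trans (min_le_right _ _)
    (le_trans (min_le_left _ _) (min_le_left _ _)))
  have hX4 : X < 1 / 4 := lt_of_lt_of_le hXlt (le_trans (min_le_right _ _)
    (le_trans (min_le_left _ _) (min_le_right _ _)))
  have hX5 : X < η / M := lt_of_lt_of_le hXlt (le_trans (min_le_right _ _) (min_le_right _ _))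
  obtain ⟨Y, hY⟩ : ∃ Y : ℝ, Y = ‖s‖ := ⟨_, rfl⟩
  rw [← hY] at hs1 hs4
  have hY0 : 0 < Y := by linarith
  obtain ⟨Z, hZ⟩ : ∃ Z : ℝ, Z = max X Y := ⟨_, rfl⟩
  have hZX : X ≤ Z := by rw [hZ]; exact le_max_left _ _
  have hZY : Y ≤ Z := by rw [hZ]; exact le_max_right _ _
  have hZ0 : 0 < Z := lt_of_lt_of_le hX hZX
  have hZ10 : Z / 10 ≤ Y := by
    rw [hZ]
    rcases le_total X Y with h | h
    · rw [max_eq_right h]; linarith
    · rw [max_eq_left h]; linarith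
  have hZ4 : Z ≤ 4 * X := by
    rw [hZ]
    exact max_le (by linarith) hs4
  have hρY : ρ * Z / 10 ≤ ρ * Y := by
    have := mul_le_mul_of_nonneg_left hZ10 hρ.le
    linarith
  have hρY4 : ρ * Y ≤ 4 * ρ * Z := by
    have h1 := mul_le_mul_of_nonneg_left hZY hρ.le
    have h2 : 0 < ρ * Z := mul_pos hρ hZ0
    linarith
  obtain ⟨U', hU'⟩ := hSt Z (ρ * Y) Y hZ0 (by linarith) hρY hρY4
    (by rw [abs_of_pos hY0]; exact hZ10) (by rw [abs_of_pos hY0]; linarith)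
  obtain ⟨L', hL'⟩ := hSt Z (ρ * Y) (-Y) hZ0 (by linarith) hρY hρY4
    (by rw [abs_neg, abs_of_pos hY0]; exact hZ10) (by rw [abs_neg, abs_of_pos hY0]; linarith)
  have hEX : Real.exp (2 * ε / Z) ≤ Real.exp (2 * ε / X) :=
    Real.exp_le_exp.mpr (div_le_div_of_nonneg_left (by positivity) hX hZX)
  have hEY : Real.exp (2 * ε / Z) ≤ Real.exp (2 * ε / Y) :=
    Real.exp_le_exp.mpr (div_le_div_of_nonneg_left (by positivity) hY0 hZY)
  have hU'X := Appr_mono K U' _ 1 1 _ _ le_rfl hEX (Real.exp_pos _).le hU'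
  have hU'Y := Appr_mono K U' _ 1 1 _ _ le_rfl hEY (Real.exp_pos _).le hU'
  have hL'X := Appr_mono K L' _ 1 1 _ _ le_rfl hEX (Real.exp_pos _).le hL'
  have hL'Y := Appr_mono K L' _ 1 1 _ _ le_rfl hEY (Real.exp_pos _).le hL'
  have hρX : 0 < ρ * X := mul_pos hρ hX
  have hρY1 : ρ * X / 10 ≤ ρ * Y := by
    have := mul_le_mul_of_nonneg_left hs1 hρ.le
    linarith
  have hρY2 : ρ * Y ≤ 4 * ρ * X := by
    have := mul_le_mul_of_nonneg_left hs4 hρ.le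
    linarith
  have hs4' : ‖s‖ ≤ 4 * X := by rw [← hY]; exact hs4
  have cU := crude K ρ ε X0 hε hρ hρ1 hSt X hX (by linarith) (by linarith) (ρ * X) X (ρ * Y) Y
    (by linarith) (by linarith) hρY1 hρY2 (Or.inl ⟨by linarith, by linarith, hs1, hs4⟩) U U' hU
    hU'X s hs hs4'
  have cL := crude K ρ ε X0 hε hρ hρ1 hSt X hX (by linarith) (by linarith) (ρ * X) (-X) (ρ * Y)
    (-Y) (by linarith) (by linarith) hρY1 hρY2
    (Or.inr ⟨by linarith, by linarith, by linarith, by linarith⟩) L L' hL hL'X s hs hs4'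
  obtain ⟨h, hh, hh1, hV⟩ := hv Y hY0 (by linarith)
  have hVY := hV U' L' hU'Y hL'Y
  have hpY := hp Y hY0 (by linarith) U' L' hU'Y hL'Y
  have hρY0 : 0 < ρ * Y := mul_pos hρ hY0
  have hdU : DifferentiableOn ℂ U' {s | 0 < s.re} := hU'.1.mono (fun z hz => by
    show -(ρ * Y) < z.re
    have hz' : 0 < z.re := hz
    linarith)
  have hdL : DifferentiableOn ℂ L' {s | 0 < s.re} := hL'.1.mono (fun z hz => by
    show -(ρ * Y) < z.re
    have hz' : 0 < z.re := hz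
    linarith)
  have hcore := ps_core m η d c C Y h hd hd1 hY0 hη0.le hm (by linarith) hh hh1 hP U' L' hdU hdL
    hpY hVY s hs hY.symm
  -- final estimate
  obtain ⟨r, hr⟩ : ∃ r : ℝ, r = s.re / Y ^ 2 := ⟨_, rfl⟩
  have hr0 : 0 < r := by rw [hr]; positivity
  have hrX : r ≤ 100 * (s.re / X ^ 2) := by
    rw [hr, ← mul_div_assoc, div_le_div_iff₀ (by positivity) (by positivity)]
    have h1 : X ^ 2 ≤ 100 * Y ^ 2 := by
      have h2 : X ≤ 10 * Y := by linarith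
      have h3 := pow_le_pow_left₀ hX.le h2 2
      calc X ^ 2 ≤ (10 * Y) ^ 2 := h3
        _ = 100 * Y ^ 2 := by ring
    calc s.re * X ^ 2 ≤ s.re * (100 * Y ^ 2) := mul_le_mul_of_nonneg_left h1 hs.le
      _ = 100 * s.re * Y ^ 2 := by ring
  have hsX : 0 < s.re / X ^ 2 := by positivity
  have hmr : (m + c3) * r ≤ s.re / (1296 * X ^ 2) := by
    have h1 : (m + c3) * r ≤ 1 / 10 ^ 6 * (100 * (s.re / X ^ 2)) :=
      mul_le_mul hmc hrX hr0.le (by norm_num)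
    have h2 : s.re / (1296 * X ^ 2) = 1 / 1296 * (s.re / X ^ 2) := by
      rw [mul_comm (1296:ℝ), ← div_div]
      ring
    rw [h2]
    refine le_trans h1 ?_
    have h3 : 1 / 10 ^ 6 * (100 * (s.re / X ^ 2)) = (1 / 10 ^ 4) * (s.re / X ^ 2) := by
      norm_num
      ring
    rw [h3]
    exact mul_le_mul_of_nonneg_right (by norm_num) hsX.le
  have hηY : η / Y ≤ 10 * (η / X) := by
    rw [← mul_div_assoc, div_le_div_iff₀ hY0 hX]
    have := mul_le_mul_of_nonneg_left hs1 hη0.le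
    linarith
  have hεη : 2 * ε / X ≤ 10 * (η / X) := by
    rw [← mul_div_assoc]
    exact div_le_div_of_nonneg_right (by linarith) hX.le
  have hMX : M ≤ η / X := by
    rw [lt_div_iff₀ hM0] at hX5
    rw [le_div_iff₀ hX]
    linarith
  have hMe : M ≤ Real.exp (η / X) := by
    have := Real.add_one_le_exp (η / X)
    linarith
  have t1 : Real.exp (2 * ε / X - s.re / (1296 * X ^ 2)) ≤
      Real.exp (10 * (η / X)) * Real.exp (-((m + c3) * r)) := by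
    rw [← Real.exp_add]
    apply Real.exp_le_exp.mpr
    linarith
  have t2 : Real.exp (η / Y - (m + c * d / 5000) * s.re / Y ^ 2) ≤
      Real.exp (10 * (η / X)) * Real.exp (-((m + c3) * r)) := by
    rw [← Real.exp_add]
    apply Real.exp_le_exp.mpr
    have h1 : (m + c * d / 5000) * s.re / Y ^ 2 = (m + c * d / 5000) * r := by
      rw [hr, mul_div_assoc]
    rw [h1]
    have h2 : (m + c3) * r ≤ (m + c * d / 5000) * r :=
      mul_le_mul_of_nonneg_right (by linarith) hr0.le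
    linarith
  have hgoal : Real.exp (11 * η / X - (m + c3) * s.re / ‖s‖ ^ 2) =
      Real.exp (η / X) * (Real.exp (10 * (η / X)) * Real.exp (-((m + c3) * r))) := by
    rw [← Real.exp_add, ← Real.exp_add, ← hY, hr]
    congr 1
    ring
  rw [hgoal]
  obtain ⟨Q, hQ⟩ : ∃ Q : ℝ, Q = Real.exp (10 * (η / X)) * Real.exp (-((m + c3) * r)) := ⟨_, rfl⟩
  have hQ0 : 0 < Q := by rw [hQ]; positivity
  rw [← hQ] at t1 t2 ⊢
  have hρ2 : 0 ≤ 2000 / ρ := by positivity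
  have cU' : ‖U s - U' s‖ ≤ 2000 / ρ * Q := le_trans cU (mul_le_mul_of_nonneg_left t1 hρ2)
  have cL' : ‖L s - L' s‖ ≤ 2000 / ρ * Q := le_trans cL (mul_le_mul_of_nonneg_left t1 hρ2)
  have cc : ‖U' s - L' s‖ ≤ C * Q := le_trans hcore (mul_le_mul_of_nonneg_left t2 (by linarith))
  have htri : ‖U s - L s‖ ≤ ‖U s - U' s‖ + ‖U' s - L' s‖ + ‖L s - L' s‖ := by
    have e1 : U s - L s = (U s - U' s) + (U' s - L' s) - (L s - L' s) := by ring
    calc ‖U s - L s‖ = ‖(U s - U' s) + (U' s - L' s) - (L s - L' s)‖ := by rw [← e1]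
      _ ≤ ‖(U s - U' s) + (U' s - L' s)‖ + ‖L s - L' s‖ := norm_sub_le _ _
      _ ≤ _ := by
        have := norm_add_le (U s - U' s) (U' s - L' s)
        linarith
  have hfin : M * Q ≤ Real.exp (η / X) * Q := mul_le_mul_of_nonneg_right hMe hQ0.le
  have hMQ : M * Q = 2000 / ρ * Q + C * Q + 2000 / ρ * Q := by
    rw [hM]
    ring
  linarith

end NM
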