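import Pool.Agent.Helper360.NM.Defs
import Pool.Agent.Helper360.NM.P_PPstep



namespace NM
open Complex Metric Set Filter Topology MeasureTheory


theorem PPfinal (d : ℝ) (hd : 0 < d) (hd1 : d ≤ 1 / 100) :
    ∃ ε0 : ℝ, 0 < ε0 ∧ ∀ (K : ℂ → ℂ) (ρ ε X0 : ℝ), 0 < X0 → 0 < ε → ε ≤ ε0 → 0 < ρ →
      ρ ≤ 1 / 1000 → ρ ≤ d / 10 → St K ρ ε X0 → St2 K ρ d X0 →
      ∃ X1 : ℝ, 0 < X1 ∧ ∀ X : ℝ, 0 < X → X < X1 → ∀ U L : ℂ → ℂ,
        Appr K ⟨-(ρ * X), X⟩ 1 (Real.exp (2 * ε / X)) U →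
        Appr K ⟨-(ρ * X), -X⟩ 1 (Real.exp (2 * ε / X)) L →
        ∀ u : ℝ, X / 2 ≤ u → u ≤ X → ‖U (u : ℂ) - L (u : ℂ)‖ ≤ Real.exp (-(4 / (10 ^ 7 * X))) := by
  obtain ⟨c3, hc3, hc3', hstep⟩ := PPstep d hd hd1
  obtain ⟨N, hN⟩ : ∃ N : ℕ, N = ⌊(1 / 10 ^ 6 : ℝ) / c3⌋₊ := ⟨_, rfl⟩
  have hN1 : (N : ℝ) * c3 ≤ 1 / 10 ^ 6 := by
    have h := Nat.floor_le (a := (1 / 10 ^ 6 : ℝ) / c3) (by positivity)
    rw [← hN, le_div_iff₀ hc3] at h
    exact h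
  have hN2 : 1 / 10 ^ 6 < ((N : ℝ) + 1) * c3 := by
    have h := Nat.lt_floor_add_one ((1 / 10 ^ 6 : ℝ) / c3)
    rw [← hN, div_lt_iff₀ hc3] at h
    exact h
  refine ⟨min (d / 10 ^ 5) (1 / 10 ^ 7 / (3 * 11 ^ N)), by positivity, ?_⟩
  intro K ρ ε X0 hX0 hε hε0 hρ hρ1 hρ2 hSt hSt2
  have hεd : ε ≤ d / 10 ^ 5 := hε0.trans (min_le_left _ _)
  have hεN : ε ≤ 1 / 10 ^ 7 / (3 * 11 ^ N) := hε0.trans (min_le_right _ _)
  have hεN' : 11 ^ N * (3 * ε) ≤ 1 / 10 ^ 7 := by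
    rw [le_div_iff₀ (by positivity)] at hεN
    linarith
  have h0 : PP K ρ ε 0 (3 * ε) := by
    refine ⟨ε, hε, ?_⟩
    intro X hX hXε U L hU hL s hs _ _
    have hre : -(ρ * X) < s.re := by
      have : 0 < ρ * X := by positivity
      linarith
    have h1 := hU.2.1 s hre
    have h2 := hL.2.1 s hre
    have h3 : ‖U s - L s‖ ≤ ‖U s‖ + ‖L s‖ := norm_sub_le _ _
    have h4 : (2 : ℝ) * Real.exp (2 * ε / X) ≤ Real.exp (3 * ε / X) := by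
      have h5 : 3 * ε / X = ε / X + 2 * ε / X := by ring
      rw [h5, Real.exp_add]
      have h6 : (1 : ℝ) ≤ ε / X := by
        rw [le_div_iff₀ hX]
        linarith
      have h7 : (2 : ℝ) ≤ Real.exp (ε / X) := by
        have := Real.add_one_le_exp (ε / X)
        linarith
      exact mul_le_mul_of_nonneg_right h7 (Real.exp_pos _).le
    simp only [zero_mul, zero_div, sub_zero]
    linarith
  have hind : ∀ n : ℕ, n ≤ N → PP K ρ ε ((n : ℝ) * c3) (11 ^ n * (3 * ε)) := by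
    intro n
    induction n with
    | zero =>
      intro _
      simpa using h0
    | succ n ih =>
      intro hn
      have h1 := ih (by omega)
      have hnN : ((n : ℝ) + 1) ≤ N := by exact_mod_cast hn
      have h11 : (1 : ℝ) ≤ 11 ^ n := one_le_pow₀ (by norm_num)
      have h2 := hstep K ρ ε X0 hX0 hε hεd hρ hρ1 hρ2 hSt hSt2 ((n : ℝ) * c3) (11 ^ n * (3 * ε))
        (by positivity) (by nlinarith) (by nlinarith) h1
      have e1 : ((n + 1 : ℕ) : ℝ) * c3 = (n : ℝ) * c3 + c3 := by push_cast; ring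
      have e2 : (11 : ℝ) ^ (n + 1) * (3 * ε) = 11 * (11 ^ n * (3 * ε)) := by ring
      rw [e1, e2]
      exact h2
  obtain ⟨X1, hX1, hPP⟩ := hind N le_rfl
  refine ⟨X1, hX1, ?_⟩
  intro X hX hXX1 U L hU hL u hu1 hu2
  have hu : 0 < u := by linarith
  have hnorm : ‖(u : ℂ)‖ = u := by
    rw [Complex.norm_real, Real.norm_eq_abs, abs_of_pos hu]
  have h := hPP X hX hXX1 U L hU hL (u : ℂ) (by simpa using hu) (by rw [hnorm]; linarith)
    (by rw [hnorm]; linarith)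
  refine h.trans ?_
  rw [Real.exp_le_exp, hnorm, Complex.ofReal_re]
  have e1 : (N : ℝ) * c3 * u / u ^ 2 = (N : ℝ) * c3 / u := by
    field_simp
  rw [e1]
  have hm : 9 / 10 ^ 7 ≤ (N : ℝ) * c3 := by
    have : ((N : ℝ) + 1) * c3 = (N : ℝ) * c3 + c3 := by ring
    rw [this] at hN2
    norm_num at hN2 hc3' ⊢
    linarith
  have h5 : 9 / 10 ^ 7 / X ≤ (N : ℝ) * c3 / u := by
    apply div_le_div₀ (by positivity) hm hu hu2
  have h6 : 11 ^ N * (3 * ε) / X ≤ 1 / 10 ^ 7 / X := by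
    apply div_le_div_of_nonneg_right hεN' hX.le
  have h7 : (1 / 10 ^ 7 / X : ℝ) - 9 / 10 ^ 7 / X = -(8 / (10 ^ 7 * X)) := by
    field_simp
    norm_num
  have h8 : (8 / (10 ^ 7 * X) : ℝ) = 4 / (10 ^ 7 * X) + 4 / (10 ^ 7 * X) := by
    field_simp
    norm_num
  have h9 : (0 : ℝ) < 4 / (10 ^ 7 * X) := by positivity
  linarith

end NM
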