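import Pool.Agent.Helper360.NM.Defs



namespace NM
open Complex Metric Set Filter Topology MeasureTheory


theorem P_far (x y D : ℝ) (hx : 0 < x) (hx1 : x ≤ 1) (ω : ℂ) (hω : ‖ω‖ = 1) (hD : 2 * x ≤ D)
    (h : D ≤ ‖ω - Complex.exp ((y : ℂ) * Complex.I)‖) :
    (1 - ‖Complex.exp (⟨-x, y⟩ : ℂ)‖ ^ 2) / ‖ω - Complex.exp (⟨-x, y⟩ : ℂ)‖ ^ 2
      ≤ 8 * x / D ^ 2 := by
  set z : ℂ := Complex.exp (⟨-x, y⟩ : ℂ) with hz
  have hz1 : z = (Real.exp (-x) : ℂ) * Complex.exp ((y : ℂ) * Complex.I) := by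
    rw [hz, Complex.ofReal_exp, ← Complex.exp_add]
    congr 1
    apply Complex.ext <;> simp
  have hn : ‖z‖ = Real.exp (-x) := by
    rw [hz, Complex.norm_exp]
  have hD0 : 0 < D := by linarith
  have h1 : ‖z - Complex.exp ((y : ℂ) * Complex.I)‖ ≤ x := by
    have e1 : z - Complex.exp ((y : ℂ) * Complex.I) =
        ((Real.exp (-x) - 1 : ℝ) : ℂ) * Complex.exp ((y : ℂ) * Complex.I) := by
      rw [hz1]; push_cast; ring
    rw [e1, norm_mul, Complex.norm_exp_ofReal_mul_I, mul_one, Complex.norm_real,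
      Real.norm_eq_abs, abs_sub_comm]
    have h2 : Real.exp (-x) ≤ 1 := Real.exp_le_one_iff.2 (by linarith)
    rw [abs_of_nonneg (by linarith)]
    have := Real.add_one_le_exp (-x)
    linarith
  have h2 : D / 2 ≤ ‖ω - z‖ := by
    have h3 : ‖ω - Complex.exp ((y : ℂ) * Complex.I)‖ ≤ ‖ω - z‖ +
        ‖z - Complex.exp ((y : ℂ) * Complex.I)‖ := by
      have := norm_add_le (ω - z) (z - Complex.exp ((y : ℂ) * Complex.I))
      rwa [sub_add_sub_cancel] at this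
    linarith
  have h3 : 1 - ‖z‖ ^ 2 ≤ 2 * x := by
    rw [hn, ← Real.exp_nat_mul]
    have := Real.add_one_le_exp (((2 : ℕ) : ℝ) * -x)
    push_cast at this ⊢
    linarith
  have h4 : (D / 2) ^ 2 ≤ ‖ω - z‖ ^ 2 := by gcongr
  calc (1 - ‖z‖ ^ 2) / ‖ω - z‖ ^ 2 ≤ (2 * x) / ‖ω - z‖ ^ 2 := by gcongr
    _ ≤ (2 * x) / (D / 2) ^ 2 := by gcongr
    _ = 8 * x / D ^ 2 := by field_simp; ring

end NM
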