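import Pool.Agent.Helper360.NM.Defs



namespace NM
open Complex Metric Set Filter Topology MeasureTheory


theorem P_near (x y : ℝ) (hx : 0 < x) (hx1 : x ≤ 1) (ω : ℂ) (hω : ‖ω‖ = 1) :
    (1 - ‖Complex.exp (⟨-x, y⟩ : ℂ)‖ ^ 2) / ‖ω - Complex.exp (⟨-x, y⟩ : ℂ)‖ ^ 2 ≤ 4 / x := by
  have hn : ‖Complex.exp (⟨-x, y⟩ : ℂ)‖ = Real.exp (-x) := by
    rw [Complex.norm_exp]
  set r := Real.exp (-x) with hr
  have hr0 : 0 < r := Real.exp_pos _
  have h1 : r ≤ 1 - x / 2 := by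
    have h2 : x + 1 ≤ Real.exp x := Real.add_one_le_exp x
    have h3 : r * Real.exp x = 1 := by rw [hr, ← Real.exp_add]; simp
    have h4 : r * (x + 1) ≤ 1 := by
      calc r * (x + 1) ≤ r * Real.exp x := mul_le_mul_of_nonneg_left h2 hr0.le
        _ = 1 := h3
    by_contra h5
    have h6 := not_le.1 h5
    have h7 : (1 - x / 2) * (x + 1) < r * (x + 1) := mul_lt_mul_of_pos_right h6 (by linarith)
    nlinarith
  have hd : 1 - r ≤ ‖ω - Complex.exp (⟨-x, y⟩ : ℂ)‖ := by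
    have := norm_sub_norm_le ω (Complex.exp (⟨-x, y⟩ : ℂ))
    rw [hω, hn] at this
    exact this
  have h1r : 0 < 1 - r := by linarith
  rw [hn]
  calc (1 - r ^ 2) / ‖ω - Complex.exp (⟨-x, y⟩ : ℂ)‖ ^ 2 ≤ (1 - r ^ 2) / (1 - r) ^ 2 := by
        apply div_le_div_of_nonneg_left _ (by positivity) (by gcongr)
        nlinarith
    _ = (1 + r) / (1 - r) := by
        field_simp
        ring
    _ ≤ 4 / x := by
        rw [div_le_div_iff₀ h1r hx]
        nlinarith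

end NM
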