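import Pool.Agent.Helper360.NM.Defs



namespace NM
open Complex Metric Set Filter Topology MeasureTheory


theorem aux_seg (X : ℝ) (hX : 0 < X) (c : ℕ → ℂ) (hc : Summable fun l => ‖c l‖ * (2 * X) ^ l)
    (a b : ℝ) (G p : ℝ → ℂ) (hG : ContinuousOn G (uIcc a b)) (hp : ContinuousOn p (uIcc a b))
    (hb : ∀ t ∈ uIcc a b, ‖p t‖ ≤ 2 * X) :
    HasSum (fun l => c l * ∫ t in a..b, G t * (p t) ^ l)
      (∫ t in a..b, G t * ∑' l, c l * (p t) ^ l) := by
  obtain ⟨M, hM⟩ := isCompact_uIcc.exists_bound_of_continuousOn hG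
  have hM0 : 0 ≤ M := le_trans (norm_nonneg _) (hM a left_mem_uIcc)
  have h1 : ∀ l, c l * ∫ t in a..b, G t * (p t) ^ l = ∫ t in a..b, G t * (c l * (p t) ^ l) := by
    intro l
    rw [← intervalIntegral.integral_const_mul]
    refine intervalIntegral.integral_congr fun t _ => ?_
    show c l * (G t * p t ^ l) = G t * (c l * p t ^ l)
    ring
  simp_rw [h1]
  refine intervalIntegral.hasSum_integral_of_dominated_convergence
    (fun l _ => M * (‖c l‖ * (2 * X) ^ l)) ?_ ?_ ?_ ?_ ?_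
  · intro l
    have hcont : ContinuousOn (fun t => G t * (c l * (p t) ^ l)) (uIcc a b) :=
      hG.mul (continuousOn_const.mul (hp.pow l))
    exact (hcont.mono uIoc_subset_uIcc).aestronglyMeasurable measurableSet_uIoc
  · intro l
    refine Filter.Eventually.of_forall fun t ht => ?_
    have ht' := uIoc_subset_uIcc ht
    rw [norm_mul, norm_mul, norm_pow]
    have h2 : ‖p t‖ ^ l ≤ (2 * X) ^ l := pow_le_pow_left₀ (norm_nonneg _) (hb t ht') l
    have h3 := hM t ht'
    exact mul_le_mul h3 (mul_le_mul_of_nonneg_left h2 (norm_nonneg _)) (by positivity) hM0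
  · exact Filter.Eventually.of_forall fun t _ => hc.mul_left M
  · exact intervalIntegrable_const
  · refine Filter.Eventually.of_forall fun t ht => ?_
    have ht' := uIoc_subset_uIcc ht
    have hs : Summable fun l => c l * (p t) ^ l := by
      refine Summable.of_norm_bounded hc fun l => ?_
      rw [norm_mul, norm_pow]
      exact mul_le_mul_of_nonneg_left (pow_le_pow_left₀ (norm_nonneg _) (hb t ht') l)
        (norm_nonneg _)
    exact hs.hasSum.mul_left (G t)

theorem aux_norm (X x y : ℝ) (hx : |x| ≤ X) (hy : |y| ≤ X) : ‖(⟨x, y⟩ : ℂ)‖ ≤ 2 * X := by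
  refine (Complex.norm_le_abs_re_add_abs_im _).trans ?_
  simp only
  linarith

theorem aux_ch (X : ℝ) (s : Set ℝ) : ContinuousOn (fun u : ℝ => (⟨u, X⟩ : ℂ)) s := by
  have : (fun u : ℝ => (⟨u, X⟩ : ℂ)) = fun u : ℝ => (u : ℂ) + (X : ℂ) * Complex.I := by
    funext u
    apply Complex.ext <;> simp
  rw [this]
  fun_prop

theorem aux_cv (X : ℝ) (s : Set ℝ) : ContinuousOn (fun v : ℝ => (⟨X, v⟩ : ℂ)) s := by
  have : (fun v : ℝ => (⟨X, v⟩ : ℂ)) = fun v : ℝ => (X : ℂ) + (v : ℂ) * Complex.I := by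
    funext u
    apply Complex.ext <;> simp
  rw [this]
  fun_prop

theorem RX_hasSum (K : ℂ → ℂ) (U L : ℝ → ℂ → ℂ) (ρ X : ℝ) (hX : 0 < X) (hρ : 0 < ρ) (hρ1 : ρ ≤ 1)
    (hK : DifferentiableOn ℂ K {s | s.re < 0})
    (hU : DifferentiableOn ℂ (U X) {s | -(ρ * X) < s.re})
    (hL : DifferentiableOn ℂ (L X) {s | -(ρ * X) < s.re})
    (c : ℕ → ℂ) (hc : Summable fun l => ‖c l‖ * (2 * X) ^ l) :
    HasSum (fun l => c l * RX K U L ρ X (fun s => s ^ l))
      (RX K U L ρ X (fun s => ∑' l, c l * s ^ l)) := by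
  have hρX : 0 < ρ * X := mul_pos hρ hX
  have hρX1 : ρ * X ≤ X := by nlinarith
  have abs1 : ∀ t : ℝ, -X ≤ t → t ≤ X → |t| ≤ X := fun t h1 h2 => abs_le.2 ⟨h1, h2⟩
  have e1 := aux_seg X hX c hc 0 X (fun v => Complex.I * U X ⟨X, v⟩) (fun v => ⟨X, v⟩)
    (continuousOn_const.mul (hU.continuousOn.comp (aux_cv X _) (fun v hv => by
      simp only [mem_ofPred_eq]; linarith)))
    (aux_cv X _) (fun v hv => by
      rw [uIcc_of_le hX.le] at hv
      exact aux_norm X _ _ (by rw [abs_of_pos hX]) (abs1 _ (by linarith [hv.1]) hv.2))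
  have e2 := aux_seg X hX c hc (-(ρ * X / 2)) X (fun u => U X ⟨u, X⟩) (fun u => ⟨u, X⟩)
    (hU.continuousOn.comp (aux_ch X _) (fun u hu => by
      rw [uIcc_of_le (by linarith)] at hu
      simp only [mem_ofPred_eq]; linarith [hu.1]))
    (aux_ch X _) (fun u hu => by
      rw [uIcc_of_le (by linarith)] at hu
      exact aux_norm X _ _ (abs1 _ (by linarith [hu.1]) hu.2) (by rw [abs_of_pos hX]))
  have e3 := aux_seg X hX c hc (-X) (-(ρ * X / 2)) (fun u => K ⟨u, X⟩) (fun u => ⟨u, X⟩)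
    (hK.continuousOn.comp (aux_ch X _) (fun u hu => by
      rw [uIcc_of_le (by linarith)] at hu
      simp only [mem_ofPred_eq]; linarith [hu.2]))
    (aux_ch X _) (fun u hu => by
      rw [uIcc_of_le (by linarith)] at hu
      exact aux_norm X _ _ (abs1 _ hu.1 (by linarith [hu.2])) (by rw [abs_of_pos hX]))
  have e4 := aux_seg X hX c hc (-X) X (fun v => Complex.I * K ⟨-X, v⟩) (fun v => ⟨-X, v⟩)
    (continuousOn_const.mul (hK.continuousOn.comp (aux_cv (-X) _) (fun v hv => by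
      simp only [mem_ofPred_eq]; linarith)))
    (aux_cv (-X) _) (fun v hv => by
      rw [uIcc_of_le (by linarith)] at hv
      exact aux_norm X _ _ (by rw [abs_neg, abs_of_pos hX]) (abs1 _ hv.1 hv.2))
  have e5 := aux_seg X hX c hc (-X) (-(ρ * X / 2)) (fun u => K ⟨u, -X⟩) (fun u => ⟨u, -X⟩)
    (hK.continuousOn.comp (aux_ch (-X) _) (fun u hu => by
      rw [uIcc_of_le (by linarith)] at hu
      simp only [mem_ofPred_eq]; linarith [hu.2]))
    (aux_ch (-X) _) (fun u hu => by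
      rw [uIcc_of_le (by linarith)] at hu
      exact aux_norm X _ _ (abs1 _ hu.1 (by linarith [hu.2])) (by rw [abs_neg, abs_of_pos hX]))
  have e6 := aux_seg X hX c hc (-(ρ * X / 2)) X (fun u => L X ⟨u, -X⟩) (fun u => ⟨u, -X⟩)
    (hL.continuousOn.comp (aux_ch (-X) _) (fun u hu => by
      rw [uIcc_of_le (by linarith)] at hu
      simp only [mem_ofPred_eq]; linarith [hu.1]))
    (aux_ch (-X) _) (fun u hu => by
      rw [uIcc_of_le (by linarith)] at hu
      exact aux_norm X _ _ (abs1 _ (by linarith [hu.1]) hu.2) (by rw [abs_neg, abs_of_pos hX]))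
  have e7 := aux_seg X hX c hc (-X) 0 (fun v => Complex.I * L X ⟨X, v⟩) (fun v => ⟨X, v⟩)
    (continuousOn_const.mul (hL.continuousOn.comp (aux_cv X _) (fun v hv => by
      simp only [mem_ofPred_eq]; linarith)))
    (aux_cv X _) (fun v hv => by
      rw [uIcc_of_le (by linarith)] at hv
      exact aux_norm X _ _ (by rw [abs_of_pos hX]) (abs1 _ hv.1 (by linarith [hv.2])))
  have key := (((((e1.sub e2).sub e3).sub e4).add e5).add e6).add e7
  unfold RX ring
  simp only [mul_assoc] at key ⊢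
  have hfun : ∀ f g : ℕ → ℂ, ∀ s : ℂ, (∀ l, f l = g l) → HasSum g s → HasSum f s := by
    intro f g s h h2
    rwa [funext h]
  refine hfun _ _ _ (fun l => ?_) key
  ring

end NM
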