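import Pool.Agent.Helper360.NM.Defs



namespace NM
open Complex Metric Set Filter Topology MeasureTheory


/-- horizontal segment integral -/
noncomputable def rsH (f : ℂ → ℂ) (a b y : ℝ) : ℂ := ∫ u in a..b, f ⟨u, y⟩

/-- vertical segment integral -/
noncomputable def rsV (f : ℂ → ℂ) (x a b : ℝ) : ℂ := ∫ v in a..b, Complex.I * f ⟨x, v⟩

theorem rs_contH {f : ℂ → ℂ} {u y : ℝ} (h : ContinuousAt f ⟨u, y⟩) :
    ContinuousAt (fun t : ℝ => f ⟨t, y⟩) u := by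
  have e : (fun t : ℝ => (⟨t, y⟩ : ℂ)) = fun t : ℝ => (t : ℂ) + y * Complex.I := by
    funext t
    exact Complex.mk_eq_add_mul_I t y
  have hc : ContinuousAt (fun t : ℝ => (⟨t, y⟩ : ℂ)) u := by
    rw [e]; fun_prop
  exact ContinuousAt.comp (f := fun t : ℝ => (⟨t, y⟩ : ℂ)) h hc

theorem rs_contV {f : ℂ → ℂ} {x v : ℝ} (h : ContinuousAt f ⟨x, v⟩) :
    ContinuousAt (fun t : ℝ => Complex.I * f ⟨x, t⟩) v := by
  have e : (fun t : ℝ => (⟨x, t⟩ : ℂ)) = fun t : ℝ => (x : ℂ) + t * Complex.I := by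
    funext t
    exact Complex.mk_eq_add_mul_I x t
  have hc : ContinuousAt (fun t : ℝ => (⟨x, t⟩ : ℂ)) v := by
    rw [e]; fun_prop
  exact continuousAt_const.mul (ContinuousAt.comp (f := fun t : ℝ => (⟨x, t⟩ : ℂ)) h hc)

theorem rs_intH {f : ℂ → ℂ} {a b y : ℝ} (hab : a ≤ b)
    (h : ∀ u, a ≤ u → u ≤ b → ContinuousAt f ⟨u, y⟩) :
    IntervalIntegrable (fun u : ℝ => f ⟨u, y⟩) volume a b := by
  refine ContinuousOn.intervalIntegrable ?_
  rw [uIcc_of_le hab]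
  intro u hu
  exact (rs_contH (h u hu.1 hu.2)).continuousWithinAt

theorem rs_intV {f : ℂ → ℂ} {x a b : ℝ} (hab : a ≤ b)
    (h : ∀ v, a ≤ v → v ≤ b → ContinuousAt f ⟨x, v⟩) :
    IntervalIntegrable (fun v : ℝ => Complex.I * f ⟨x, v⟩) volume a b := by
  refine ContinuousOn.intervalIntegrable ?_
  rw [uIcc_of_le hab]
  intro u hu
  exact (rs_contV (h u hu.1 hu.2)).continuousWithinAt

theorem rs_splitH {f : ℂ → ℂ} {a b c y : ℝ} (hab : a ≤ b) (hbc : b ≤ c)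
    (h : ∀ u, a ≤ u → u ≤ c → ContinuousAt f ⟨u, y⟩) :
    rsH f a b y + rsH f b c y = rsH f a c y := by
  unfold rsH
  exact intervalIntegral.integral_add_adjacent_intervals
    (rs_intH hab fun u h1 h2 => h u h1 (h2.trans hbc))
    (rs_intH hbc fun u h1 h2 => h u (hab.trans h1) h2)

theorem rs_splitV {f : ℂ → ℂ} {a b c x : ℝ} (hab : a ≤ b) (hbc : b ≤ c)
    (h : ∀ v, a ≤ v → v ≤ c → ContinuousAt f ⟨x, v⟩) :
    rsV f x a b + rsV f x b c = rsV f x a c := by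
  unfold rsV
  exact intervalIntegral.integral_add_adjacent_intervals
    (rs_intV hab fun u h1 h2 => h u h1 (h2.trans hbc))
    (rs_intV hbc fun u h1 h2 => h u (hab.trans h1) h2)

theorem rs_diffH {f g : ℂ → ℂ} {a b y e : ℝ} (hab : a ≤ b)
    (hf : ∀ u, a ≤ u → u ≤ b → ContinuousAt f ⟨u, y⟩)
    (hg : ∀ u, a ≤ u → u ≤ b → ContinuousAt g ⟨u, y⟩)
    (h : ∀ u, a ≤ u → u ≤ b → ‖f ⟨u, y⟩ - g ⟨u, y⟩‖ ≤ e) :
    ‖rsH f a b y - rsH g a b y‖ ≤ e * (b - a) := by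
  unfold rsH
  rw [← intervalIntegral.integral_sub (rs_intH hab hf) (rs_intH hab hg)]
  have h1 := intervalIntegral.norm_integral_le_of_norm_le_const (a := a) (b := b) (C := e)
    (f := fun u : ℝ => f ⟨u, y⟩ - g ⟨u, y⟩) (fun u hu => by
      rw [uIoc_of_le hab] at hu
      exact h u hu.1.le hu.2)
  rwa [abs_of_nonneg (by linarith)] at h1

theorem rs_diffV {f g : ℂ → ℂ} {a b x e : ℝ} (hab : a ≤ b)
    (hf : ∀ u, a ≤ u → u ≤ b → ContinuousAt f ⟨x, u⟩)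
    (hg : ∀ u, a ≤ u → u ≤ b → ContinuousAt g ⟨x, u⟩)
    (h : ∀ u, a ≤ u → u ≤ b → ‖f ⟨x, u⟩ - g ⟨x, u⟩‖ ≤ e) :
    ‖rsV f x a b - rsV g x a b‖ ≤ e * (b - a) := by
  unfold rsV
  rw [← intervalIntegral.integral_sub (rs_intV hab hf) (rs_intV hab hg)]
  have h1 := intervalIntegral.norm_integral_le_of_norm_le_const (a := a) (b := b) (C := e)
    (f := fun u : ℝ => Complex.I * f ⟨x, u⟩ - Complex.I * g ⟨x, u⟩) (fun u hu => by
      rw [uIoc_of_le hab] at hu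
      rw [← mul_sub, norm_mul, Complex.norm_I, one_mul]
      exact h u hu.1.le hu.2)
  rwa [abs_of_nonneg (by linarith)] at h1

theorem rs_rect {f : ℂ → ℂ} {a b c d : ℝ} (hab : a ≤ b) (hcd : c ≤ d)
    (h : ∀ s : ℂ, a ≤ s.re → s.re ≤ b → c ≤ s.im → s.im ≤ d → DifferentiableAt ℂ f s) :
    rsH f a b c + rsV f b c d - rsH f a b d - rsV f a c d = 0 := by
  have h1 := Complex.integral_boundary_rect_eq_zero_of_differentiableOn f ⟨a, c⟩ ⟨b, d⟩ (by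
    intro s hs
    refine (h s ?_ ?_ ?_ ?_).differentiableWithinAt
    all_goals
      have hs' := hs
      rw [Complex.mem_reProdIm] at hs'
      simp only [uIcc_of_le hab, uIcc_of_le hcd] at hs'
    · exact hs'.1.1
    · exact hs'.1.2
    · exact hs'.2.1
    · exact hs'.2.2)
  unfold rsH rsV
  simp only [Complex.mk_eq_add_mul_I, intervalIntegral.integral_const_mul]
  simp only [smul_eq_mul] at h1
  linear_combination h1

theorem rs_ring (κ U L : ℂ → ℂ) (X x : ℝ) : ring κ U L X x =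
    rsV U X 0 X - rsH U (-x) X X - rsH κ (-X) (-x) X - rsV κ (-X) (-X) X
      + rsH κ (-X) (-x) (-X) + rsH L (-x) X (-X) + rsV L X (-X) 0 := rfl

theorem RingStep (κ U L U' L' : ℂ → ℂ) (X X' x x' e : ℝ) (hx' : 0 < x') (hxx : x' ≤ x)
    (hxX : x ≤ X') (hX : X' ≤ X) (he : 0 ≤ e)
    (hκ : ∀ s : ℂ, -X ≤ s.re → s.re ≤ -x' → |s.im| ≤ X → (X' ≤ -s.re ∨ X' ≤ |s.im|) →
      DifferentiableAt ℂ κ s)
    (hU : ∀ s : ℂ, -x ≤ s.re → s.re ≤ X → 0 ≤ s.im → s.im ≤ X → (X' ≤ s.re ∨ X' ≤ s.im) →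
      DifferentiableAt ℂ U s)
    (hL : ∀ s : ℂ, -x ≤ s.re → s.re ≤ X → -X ≤ s.im → s.im ≤ 0 → (X' ≤ s.re ∨ s.im ≤ -X') →
      DifferentiableAt ℂ L s)
    (hU1 : ∀ u : ℝ, -x' ≤ u → u ≤ X' → ContinuousAt U' ⟨u, X'⟩)
    (hU2 : ∀ v : ℝ, 0 ≤ v → v ≤ X' → ContinuousAt U' ⟨X', v⟩)
    (hL1 : ∀ u : ℝ, -x' ≤ u → u ≤ X' → ContinuousAt L' ⟨u, -X'⟩)
    (hL2 : ∀ v : ℝ, -X' ≤ v → v ≤ 0 → ContinuousAt L' ⟨X', v⟩)
    (e1 : ∀ u : ℝ, -x ≤ u → u ≤ -x' → ‖κ ⟨u, X⟩ - U ⟨u, X⟩‖ ≤ e)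
    (e1' : ∀ u : ℝ, -x ≤ u → u ≤ -x' → ‖κ ⟨u, -X⟩ - L ⟨u, -X⟩‖ ≤ e)
    (e2 : ∀ v : ℝ, X' ≤ v → v ≤ X → ‖κ ⟨-x', v⟩ - U ⟨-x', v⟩‖ ≤ e)
    (e2' : ∀ v : ℝ, X' ≤ v → v ≤ X → ‖κ ⟨-x', -v⟩ - L ⟨-x', -v⟩‖ ≤ e)
    (e3 : ∀ u : ℝ, -x' ≤ u → u ≤ X' → ‖U ⟨u, X'⟩ - U' ⟨u, X'⟩‖ ≤ e)
    (e3b : ∀ v : ℝ, 0 ≤ v → v ≤ X' → ‖U ⟨X', v⟩ - U' ⟨X', v⟩‖ ≤ e)
    (e3' : ∀ u : ℝ, -x' ≤ u → u ≤ X' → ‖L ⟨u, -X'⟩ - L' ⟨u, -X'⟩‖ ≤ e)
    (e3b' : ∀ v : ℝ, -X' ≤ v → v ≤ 0 → ‖L ⟨X', v⟩ - L' ⟨X', v⟩‖ ≤ e)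
    (e4 : ∀ u : ℝ, X' ≤ u → u ≤ X → ‖U ⟨u, 0⟩ - L ⟨u, 0⟩‖ ≤ e) :
    ‖ring κ U L X x - ring κ U' L' X' x'‖ ≤ 14 * X * e := by
  have hX'0 : 0 < X' := by linarith
  have hX0 : 0 < X := by linarith
  have aX : |X| = X := abs_of_pos hX0
  have aX' : |X'| = X' := abs_of_pos hX'0
  -- continuity facts
  have cU1 : ∀ u, -x ≤ u → u ≤ X → ContinuousAt U ⟨u, X⟩ := fun u h1 h2 =>
    (hU ⟨u, X⟩ h1 h2 hX0.le le_rfl (Or.inr hX)).continuousAt
  have cU2 : ∀ u, -x ≤ u → u ≤ X → ContinuousAt U ⟨u, X'⟩ := fun u h1 h2 =>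
    (hU ⟨u, X'⟩ h1 h2 hX'0.le hX (Or.inr le_rfl)).continuousAt
  have cU3 : ∀ v, 0 ≤ v → v ≤ X → ContinuousAt U ⟨X', v⟩ := fun v h1 h2 =>
    (hU ⟨X', v⟩ (show -x ≤ X' by linarith) hX h1 h2 (Or.inl le_rfl)).continuousAt
  have cU4 : ∀ u, X' ≤ u → u ≤ X → ContinuousAt U ⟨u, 0⟩ := fun u h1 h2 =>
    (hU ⟨u, 0⟩ (show -x ≤ u by linarith) h2 le_rfl hX0.le (Or.inl h1)).continuousAt
  have cU5 : ∀ v, X' ≤ v → v ≤ X → ContinuousAt U ⟨-x', v⟩ := fun v h1 h2 =>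
    (hU ⟨-x', v⟩ (show -x ≤ -x' by linarith) (show -x' ≤ X by linarith)
      (show 0 ≤ v by linarith) h2 (Or.inr h1)).continuousAt
  have cL1 : ∀ u, -x ≤ u → u ≤ X → ContinuousAt L ⟨u, -X⟩ := fun u h1 h2 =>
    (hL ⟨u, -X⟩ h1 h2 le_rfl (show -X ≤ 0 by linarith)
      (Or.inr (show -X ≤ -X' by linarith))).continuousAt
  have cL2 : ∀ u, -x ≤ u → u ≤ X → ContinuousAt L ⟨u, -X'⟩ := fun u h1 h2 =>
    (hL ⟨u, -X'⟩ h1 h2 (show -X ≤ -X' by linarith) (show -X' ≤ 0 by linarith)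
      (Or.inr le_rfl)).continuousAt
  have cL3 : ∀ v, -X ≤ v → v ≤ 0 → ContinuousAt L ⟨X', v⟩ := fun v h1 h2 =>
    (hL ⟨X', v⟩ (show -x ≤ X' by linarith) hX h1 h2 (Or.inl le_rfl)).continuousAt
  have cL4 : ∀ u, X' ≤ u → u ≤ X → ContinuousAt L ⟨u, 0⟩ := fun u h1 h2 =>
    (hL ⟨u, 0⟩ (show -x ≤ u by linarith) h2 (show -X ≤ 0 by linarith) le_rfl
      (Or.inl h1)).continuousAt
  have cL5 : ∀ v, -X ≤ v → v ≤ -X' → ContinuousAt L ⟨-x', v⟩ := fun v h1 h2 =>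
    (hL ⟨-x', v⟩ (show -x ≤ -x' by linarith) (show -x' ≤ X by linarith) h1
      (show v ≤ 0 by linarith) (Or.inr h2)).continuousAt
  have cκ1 : ∀ u, -X ≤ u → u ≤ -x' → ContinuousAt κ ⟨u, X⟩ := fun u h1 h2 =>
    (hκ ⟨u, X⟩ h1 h2 (show |X| ≤ X by rw [aX]) (Or.inr (show X' ≤ |X| by rw [aX]; exact hX))).continuousAt
  have cκ2 : ∀ u, -X ≤ u → u ≤ -x' → ContinuousAt κ ⟨u, -X⟩ := fun u h1 h2 =>
    (hκ ⟨u, -X⟩ h1 h2 (show |-X| ≤ X by rw [abs_neg, aX])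
      (Or.inr (show X' ≤ |-X| by rw [abs_neg, aX]; exact hX))).continuousAt
  have cκ3 : ∀ v, -X ≤ v → v ≤ X → ContinuousAt κ ⟨-X', v⟩ := fun v h1 h2 =>
    (hκ ⟨-X', v⟩ (show -X ≤ -X' by linarith) (show -X' ≤ -x' by linarith)
      (show |v| ≤ X from abs_le.2 ⟨h1, h2⟩) (Or.inl (show X' ≤ -(-X') by linarith))).continuousAt
  have cκ4 : ∀ v, X' ≤ v → v ≤ X → ContinuousAt κ ⟨-x', v⟩ := fun v h1 h2 =>
    (hκ ⟨-x', v⟩ (show -X ≤ -x' by linarith) le_rfl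
      (show |v| ≤ X from abs_le.2 ⟨by linarith, h2⟩)
      (Or.inr (show X' ≤ |v| from h1.trans (le_abs_self v)))).continuousAt
  have cκ5 : ∀ v, -X ≤ v → v ≤ -X' → ContinuousAt κ ⟨-x', v⟩ := fun v h1 h2 =>
    (hκ ⟨-x', v⟩ (show -X ≤ -x' by linarith) le_rfl
      (show |v| ≤ X from abs_le.2 ⟨h1, by linarith⟩)
      (Or.inr (show X' ≤ |v| from le_trans (by linarith) (neg_le_abs v)))).continuousAt
  -- rectangles
  have R1 := rs_rect (f := U) (a := X') (b := X) (c := 0) (d := X) hX hX0.le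
    (fun s h1 h2 h3 h4 => hU s (by linarith) h2 h3 h4 (Or.inl h1))
  have R2 := rs_rect (f := U) (a := -x') (b := X') (c := X') (d := X) (by linarith) hX
    (fun s h1 h2 h3 h4 => hU s (by linarith) (by linarith) (by linarith) h4 (Or.inr h3))
  have R3 := rs_rect (f := L) (a := X') (b := X) (c := -X) (d := 0) hX (by linarith)
    (fun s h1 h2 h3 h4 => hL s (by linarith) h2 h3 h4 (Or.inl h1))
  have R4 := rs_rect (f := L) (a := -x') (b := X') (c := -X) (d := -X') (by linarith) (by linarith)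
    (fun s h1 h2 h3 h4 => hL s (by linarith) (by linarith) h3 (by linarith) (Or.inr h4))
  have R5 := rs_rect (f := κ) (a := -X) (b := -X') (c := -X) (d := X) (by linarith) (by linarith)
    (fun s h1 h2 h3 h4 => hκ s h1 (by linarith) (abs_le.2 ⟨h3, h4⟩) (Or.inl (by linarith)))
  have R6 := rs_rect (f := κ) (a := -X') (b := -x') (c := X') (d := X) (by linarith) hX
    (fun s h1 h2 h3 h4 => hκ s (by linarith) h2 (abs_le.2 ⟨by linarith, h4⟩)
      (Or.inr (h3.trans (le_abs_self _))))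
  have R7 := rs_rect (f := κ) (a := -X') (b := -x') (c := -X) (d := -X') (by linarith) (by linarith)
    (fun s h1 h2 h3 h4 => hκ s (by linarith) h2 (abs_le.2 ⟨h3, by linarith⟩)
      (Or.inr (le_trans (by linarith) (neg_le_abs _))))
  -- splits
  have S1 := rs_splitH (f := U) (a := -x) (b := -x') (c := X) (y := X) (by linarith) (by linarith) cU1
  have S2 := rs_splitH (f := U) (a := -x') (b := X') (c := X) (y := X) (by linarith) hX
    (fun u h1 h2 => cU1 u (by linarith) h2)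
  have S3 := rs_splitH (f := L) (a := -x) (b := -x') (c := X) (y := -X) (by linarith) (by linarith) cL1
  have S4 := rs_splitH (f := L) (a := -x') (b := X') (c := X) (y := -X) (by linarith) hX
    (fun u h1 h2 => cL1 u (by linarith) h2)
  have S5 := rs_splitH (f := κ) (a := -X) (b := -x) (c := -x') (y := X) (by linarith) (by linarith) cκ1
  have S6 := rs_splitH (f := κ) (a := -X) (b := -X') (c := -x') (y := X) (by linarith) (by linarith) cκ1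
  have S7 := rs_splitH (f := κ) (a := -X) (b := -x) (c := -x') (y := -X) (by linarith) (by linarith) cκ2
  have S8 := rs_splitH (f := κ) (a := -X) (b := -X') (c := -x') (y := -X) (by linarith) (by linarith) cκ2
  have S9 := rs_splitV (f := U) (x := X') (a := 0) (b := X') (c := X) hX'0.le hX cU3
  have S10 := rs_splitV (f := L) (x := X') (a := -X) (b := -X') (c := 0) (by linarith) (by linarith) cL3
  have S11 := rs_splitV (f := κ) (x := -X') (a := -X) (b := -X') (c := X') (by linarith) (by linarith)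
    (fun v h1 h2 => cκ3 v h1 (by linarith))
  have S12 := rs_splitV (f := κ) (x := -X') (a := -X) (b := X') (c := X) (by linarith) hX cκ3
  -- errors
  have E1 := rs_diffH (f := κ) (g := U) (a := -x) (b := -x') (y := X) (e := e) (by linarith)
    (fun u h1 h2 => cκ1 u (by linarith) h2) (fun u h1 h2 => cU1 u h1 (by linarith)) e1
  have E2 := rs_diffH (f := κ) (g := L) (a := -x) (b := -x') (y := -X) (e := e) (by linarith)
    (fun u h1 h2 => cκ2 u (by linarith) h2) (fun u h1 h2 => cL1 u h1 (by linarith)) e1'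
  have E3 := rs_diffV (f := κ) (g := U) (x := -x') (a := X') (b := X) (e := e) hX cκ4 cU5 e2
  have E4 := rs_diffH (f := U) (g := L) (a := X') (b := X) (y := 0) (e := e) hX cU4 cL4 e4
  have E5 := rs_diffV (f := κ) (g := L) (x := -x') (a := -X) (b := -X') (e := e) (by linarith)
    cκ5 cL5 (fun v h1 h2 => by
      have := e2' (-v) (by linarith) (by linarith)
      rwa [neg_neg] at this)
  have E6 := rs_diffV (f := U) (g := U') (x := X') (a := 0) (b := X') (e := e) hX'0.le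
    (fun v h1 h2 => cU3 v h1 (by linarith)) hU2 e3b
  have E7 := rs_diffH (f := U) (g := U') (a := -x') (b := X') (y := X') (e := e) (by linarith)
    (fun u h1 h2 => cU2 u (by linarith) (by linarith)) hU1 e3
  have E8 := rs_diffH (f := L) (g := L') (a := -x') (b := X') (y := -X') (e := e) (by linarith)
    (fun u h1 h2 => cL2 u (by linarith) (by linarith)) hL1 e3'
  have E9 := rs_diffV (f := L) (g := L') (x := X') (a := -X') (b := 0) (e := e) (by linarith)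
    (fun v h1 h2 => cL3 v (by linarith) h2) hL2 e3b'
  have key : ring κ U L X x - ring κ U' L' X' x' =
      (rsH κ (-x) (-x') X - rsH U (-x) (-x') X)
      + -(rsH κ (-x) (-x') (-X) - rsH L (-x) (-x') (-X))
      + -(rsV κ (-x') X' X - rsV U (-x') X' X)
      + -(rsH U X' X 0 - rsH L X' X 0)
      + -(rsV κ (-x') (-X) (-X') - rsV L (-x') (-X) (-X'))
      + (rsV U X' 0 X' - rsV U' X' 0 X')
      + -(rsH U (-x') X' X' - rsH U' (-x') X' X')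
      + (rsH L (-x') X' (-X') - rsH L' (-x') X' (-X'))
      + (rsV L X' (-X') 0 - rsV L' X' (-X') 0) := by
    rw [rs_ring, rs_ring]
    linear_combination R1 + R2 + R3 + R4 + R5 + R6 + R7 + S1 + S2 - S3 - S4 - S5 + S6 + S7 - S8
      - S9 - S10 + S11 + S12
  rw [key]
  refine (norm_add_le _ _).trans ?_
  refine (add_le_add (norm_add_le _ _) E9).trans ?_
  refine (add_le_add (add_le_add (norm_add_le _ _) E8) le_rfl).trans ?_
  have n1 := norm_add_le ((rsH κ (-x) (-x') X - rsH U (-x) (-x') X)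
      + -(rsH κ (-x) (-x') (-X) - rsH L (-x) (-x') (-X))
      + -(rsV κ (-x') X' X - rsV U (-x') X' X)
      + -(rsH U X' X 0 - rsH L X' X 0)
      + -(rsV κ (-x') (-X) (-X') - rsV L (-x') (-X) (-X')))
      (rsV U X' 0 X' - rsV U' X' 0 X')
  have n2 := norm_add_le ((rsH κ (-x) (-x') X - rsH U (-x) (-x') X)
      + -(rsH κ (-x) (-x') (-X) - rsH L (-x) (-x') (-X))
      + -(rsV κ (-x') X' X - rsV U (-x') X' X)
      + -(rsH U X' X 0 - rsH L X' X 0))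
      (-(rsV κ (-x') (-X) (-X') - rsV L (-x') (-X) (-X')))
  have n3 := norm_add_le ((rsH κ (-x) (-x') X - rsH U (-x) (-x') X)
      + -(rsH κ (-x) (-x') (-X) - rsH L (-x) (-x') (-X))
      + -(rsV κ (-x') X' X - rsV U (-x') X' X))
      (-(rsH U X' X 0 - rsH L X' X 0))
  have n4 := norm_add_le ((rsH κ (-x) (-x') X - rsH U (-x) (-x') X)
      + -(rsH κ (-x) (-x') (-X) - rsH L (-x) (-x') (-X)))
      (-(rsV κ (-x') X' X - rsV U (-x') X' X))
  have n5 := norm_add_le (rsH κ (-x) (-x') X - rsH U (-x) (-x') X)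
      (-(rsH κ (-x) (-x') (-X) - rsH L (-x) (-x') (-X)))
  rw [norm_neg] at n2 n3 n4 n5 ⊢
  have hXe : x * e ≤ X * e := mul_le_mul_of_nonneg_right (by linarith) he
  have hXe2 : X' * e ≤ X * e := mul_le_mul_of_nonneg_right (by linarith) he
  have hXe3 : 0 ≤ X * e := mul_nonneg hX0.le he
  nlinarith

end NM
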