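import Pool.Agent.Helper360.NM.Defs



namespace NM
open Complex Metric Set Filter Topology MeasureTheory


theorem closeK (K U : ℂ → ℂ) (ζ : ℂ) (E x : ℝ) (hx : 0 < x) (hζ : ζ.re = -x) (hE : 0 ≤ E)
    (h : Appr K ζ 1 E U) (s : ℂ) (h1 : -(3 * x / 4) ≤ s.re) (h2 : s.re ≤ -(x / 4))
    (h3 : |s.im - ζ.im| ≤ x / 8) :
    ‖K s - U s‖ ≤ E * 64 * (x⁻¹) ^ 3 * Real.exp (-(1 / x)) := by
  obtain ⟨hd, hb, hc⟩ := h
  have hr1 : x / 4 ≤ s.re - ζ.re := by rw [hζ]; linarith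
  have hr2 : s.re - ζ.re ≤ 3 * x / 4 := by rw [hζ]; linarith
  have hlt : ζ.re < s.re := by linarith
  have hs0 : s.re < 0 := by linarith
  have h5 := hc s hlt hs0
  obtain ⟨r, hr⟩ : ∃ r, r = s.re - ζ.re := ⟨_, rfl⟩
  obtain ⟨D, hD⟩ : ∃ D, D = ‖s - ζ‖ ^ 2 := ⟨_, rfl⟩
  have hDeq : D = r ^ 2 + (s.im - ζ.im) ^ 2 := by
    rw [hD, hr, ← Complex.normSq_eq_norm_sq, Complex.normSq_apply, Complex.sub_re,
      Complex.sub_im]
    ring
  have him : (s.im - ζ.im) ^ 2 ≤ (x / 8) ^ 2 := by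
    rw [← sq_abs]
    exact pow_le_pow_left₀ (abs_nonneg _) h3 2
  rw [← hr] at hr1 hr2
  have hr0 : 0 < r := by linarith
  have hD0 : 0 < D := by rw [hDeq]; positivity
  have hDx : D ≤ r * x := by
    rw [hDeq]
    nlinarith [mul_nonneg (sub_nonneg.2 hr1) (sub_nonneg.2 hr2)]
  rw [← hr, ← hD] at h5
  refine le_trans h5 ?_
  have hexp : Real.exp (-(1 * r / D)) ≤ Real.exp (-(1 / x)) := by
    apply Real.exp_le_exp.2
    apply neg_le_neg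
    rw [one_mul, div_le_div_iff₀ hx hD0, one_mul]
    exact hDx
  have hinv : ((-s.re)⁻¹) ^ 3 ≤ 64 * (x⁻¹) ^ 3 := by
    have h6 : (-s.re)⁻¹ ≤ 4 * x⁻¹ := by
      rw [← div_eq_mul_inv, inv_le_comm₀ (by linarith) (by positivity), inv_div]
      linarith
    calc ((-s.re)⁻¹) ^ 3 ≤ (4 * x⁻¹) ^ 3 :=
          pow_le_pow_left₀ (inv_nonneg.2 (by linarith)) h6 3
      _ = 64 * (x⁻¹) ^ 3 := by ring
  calc E * ((-s.re)⁻¹) ^ 3 * Real.exp (-(1 * r / D))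
      ≤ E * (64 * (x⁻¹) ^ 3) * Real.exp (-(1 / x)) := by
        apply mul_le_mul _ hexp (Real.exp_pos _).le (by positivity)
        exact mul_le_mul_of_nonneg_left hinv hE
    _ = E * 64 * (x⁻¹) ^ 3 * Real.exp (-(1 / x)) := by ring

end NM
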