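import Pool.Agent.Helper360.NM.Defs
import Pool.Agent.Helper360.NM.P_Appr_mono
import Pool.Agent.Helper360.NM.P_RingStep
import Pool.Agent.Helper360.NM.P_closeK
import Pool.Agent.Helper360.NM.P_CLring



namespace NM
open Complex Metric Set Filter Topology MeasureTheory


theorem Radj_aux3 (y : ℝ) (hy : 0 < y) : y ^ 3 * Real.exp (-y) ≤ 48 * Real.exp (-(y / 2)) := by
  have h1 : (y / 2) ^ 3 / (Nat.factorial 3) ≤ Real.exp (y / 2) :=
    Real.pow_div_factorial_le_exp (y / 2) (by positivity) 3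
  have h2 : (Nat.factorial 3 : ℝ) = 6 := by norm_num [Nat.factorial]
  rw [h2] at h1
  have h3 : y ^ 3 ≤ 48 * Real.exp (y / 2) := by
    have : (y / 2) ^ 3 / 6 = y ^ 3 / 48 := by ring
    rw [this] at h1
    linarith
  have h4 : Real.exp (-(y / 2)) = Real.exp (y / 2) * Real.exp (-y) := by
    rw [← Real.exp_add]; congr 1; ring
  rw [h4, ← mul_assoc]
  exact mul_le_mul_of_nonneg_right h3 (Real.exp_pos _).le

theorem Radj_auxA (X : ℝ) (hX : 0 < X) (hX1 : X ≤ 1 / 50000) :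
    Real.exp (-(4 / (10 ^ 7 * X))) ≤ Real.exp (-(3 / (10 ^ 7 * X))) / (14 * X) := by
  rw [le_div_iff₀ (by positivity)]
  have h1 : Real.exp (-(4 / (10 ^ 7 * X))) ≤ Real.exp (-(3 / (10 ^ 7 * X))) := by
    apply Real.exp_le_exp.2
    have : 3 / (10 ^ 7 * X) ≤ 4 / (10 ^ 7 * X) := by
      apply div_le_div_of_nonneg_right (by norm_num) (by positivity)
    linarith
  have h2 : 14 * X ≤ 1 := by linarith
  calc Real.exp (-(4 / (10 ^ 7 * X))) * (14 * X) ≤ Real.exp (-(4 / (10 ^ 7 * X))) * 1 :=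
        mul_le_mul_of_nonneg_left h2 (Real.exp_pos _).le
    _ ≤ _ := by rw [mul_one]; exact h1

theorem Radj_auxB (X ε : ℝ) (hX : 0 < X) (hX1 : X ≤ 1 / 50000) (hε2 : ε ≤ 1 / 10 ^ 9) :
    2 * Real.exp (3 * ε / X) * Real.exp (-(1 / (34 * X))) ≤
      Real.exp (-(3 / (10 ^ 7 * X))) / (14 * X) := by
  rw [le_div_iff₀ (by positivity), mul_assoc 2, ← Real.exp_add]
  have h1 : Real.exp (3 * ε / X + -(1 / (34 * X))) ≤ Real.exp (-(3 / (10 ^ 7 * X))) := by
    apply Real.exp_le_exp.2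
    have e1 : 3 * ε / X + -(1 / (34 * X)) = (3 * ε - 1 / 34) / X := by field_simp; ring
    have e2 : -(3 / (10 ^ 7 * X)) = (-(3 / 10 ^ 7)) / X := by field_simp
    rw [e1, e2]
    apply div_le_div_of_nonneg_right _ hX.le
    norm_num at hε2 ⊢
    linarith
  have h2 : 2 * (14 * X) ≤ 1 := by linarith
  have h3 : 0 < Real.exp (3 * ε / X + -(1 / (34 * X))) := Real.exp_pos _
  calc 2 * Real.exp (3 * ε / X + -(1 / (34 * X))) * (14 * X)
      = Real.exp (3 * ε / X + -(1 / (34 * X))) * (2 * (14 * X)) := by ring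
    _ ≤ Real.exp (3 * ε / X + -(1 / (34 * X))) * 1 := mul_le_mul_of_nonneg_left h2 h3.le
    _ ≤ _ := by rw [mul_one]; exact h1

theorem Radj_auxC (X ε ρ : ℝ) (hX : 0 < X) (hX1 : X ≤ 1 / 50000) (hε2 : ε ≤ 1 / 10 ^ 9)
    (hρ : 0 < ρ) (hρ1 : ρ ≤ 1 / 1000) :
    Real.exp (3 * ε / X) * 64 * ((ρ * X)⁻¹) ^ 3 * Real.exp (-(1 / (ρ * X))) ≤
      Real.exp (-(3 / (10 ^ 7 * X))) / (14 * X) := by
  have h0 := Radj_aux3 ((ρ * X)⁻¹) (by positivity)
  rw [le_div_iff₀ (by positivity)]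
  have h1 : Real.exp (3 * ε / X) * Real.exp (-((ρ * X)⁻¹ / 2)) ≤ Real.exp (-(3 / (10 ^ 7 * X))) := by
    rw [← Real.exp_add]
    apply Real.exp_le_exp.2
    have e1 : 3 * ε / X + -((ρ * X)⁻¹ / 2) = (3 * ε - ρ⁻¹ / 2) / X := by field_simp; ring
    have e2 : -(3 / (10 ^ 7 * X)) = (-(3 / 10 ^ 7)) / X := by field_simp
    rw [e1, e2]
    apply div_le_div_of_nonneg_right _ hX.le
    have h5 : (1000:ℝ) ≤ ρ⁻¹ := by
      rw [le_inv_comm₀ (by norm_num) hρ]
      linarith
    norm_num at hε2 ⊢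
    linarith
  have h2 : 64 * 48 * (14 * X) ≤ 1 := by linarith
  rw [one_div]
  calc Real.exp (3 * ε / X) * 64 * ((ρ * X)⁻¹) ^ 3 * Real.exp (-(ρ * X)⁻¹) * (14 * X)
      = (((ρ * X)⁻¹) ^ 3 * Real.exp (-(ρ * X)⁻¹)) * (Real.exp (3 * ε / X) * 64 * (14 * X)) := by ring
    _ ≤ (48 * Real.exp (-((ρ * X)⁻¹ / 2))) * (Real.exp (3 * ε / X) * 64 * (14 * X)) :=
        mul_le_mul_of_nonneg_right h0 (by positivity)
    _ = (Real.exp (3 * ε / X) * Real.exp (-((ρ * X)⁻¹ / 2))) * (64 * 48 * (14 * X)) := by ring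
    _ ≤ (Real.exp (3 * ε / X) * Real.exp (-((ρ * X)⁻¹ / 2))) * 1 :=
        mul_le_mul_of_nonneg_left h2 (by positivity)
    _ ≤ _ := by rw [mul_one]; exact h1

theorem Radj (K : ℂ → ℂ) (Λ ρ ε X0 XJ : ℝ) (hΛ : 1 ≤ Λ) (hK : LocK K Λ) (hX0 : 0 < X0)
    (hε : 0 < ε) (hε2 : ε ≤ 1 / 10 ^ 9) (hρ : 0 < ρ) (hρ1 : ρ ≤ 1 / 1000)
    (U L : ℝ → ℂ → ℂ) (hf : Fam K ρ ε X0 U L) (hXJ : 0 < XJ)
    (hJ : ∀ X : ℝ, 0 < X → X < XJ → ∀ u : ℝ, X / 2 ≤ u → u ≤ X →
      ‖U X (u : ℂ) - L X (u : ℂ)‖ ≤ Real.exp (-(4 / (10 ^ 7 * X)))) :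
    ∃ X1 : ℝ, 0 < X1 ∧ ∀ X X' : ℝ, 0 < X' → X' ≤ X → X < X1 → X * (1 - ρ / 32) ≤ X' →
      ∀ (φ : ℂ → ℂ) (Φ : ℝ), 0 ≤ Φ → (∀ s ∈ Ann X' X, DifferentiableAt ℂ φ s) →
        (∀ s ∈ Ann X' X, ‖φ s‖ ≤ Φ) →
        ‖RX K U L ρ X φ - RX K U L ρ X' φ‖ ≤ Φ * Real.exp (-(3 / (10 ^ 7 * X))) := by
  refine ⟨min (min X0 XJ) (1 / 50000), by positivity, ?_⟩
  intro X X' hX' hXX hX1 hXρ φ Φ hΦ hφd hφb
  have hX : 0 < X := lt_of_lt_of_le hX' hXX
  have hXX0 : X < X0 := lt_of_lt_of_le hX1 ((min_le_left _ _).trans (min_le_left _ _))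
  have hXXJ : X < XJ := lt_of_lt_of_le hX1 ((min_le_left _ _).trans (min_le_right _ _))
  have hXs : X ≤ 1 / 50000 := (hX1.trans_le (min_le_right _ _)).le
  have hρX : 0 < ρ * X := by positivity
  have hρX' : 0 < ρ * X' := by positivity
  have hX23 : 2 * X / 3 ≤ X' := by nlinarith
  have hρXX' : ρ * X' ≤ ρ * X := mul_le_mul_of_nonneg_left hXX hρ.le
  have hρXh : ρ * X / 2 ≤ ρ * X' := by nlinarith
  have hρXs : ρ * X ≤ X / 1000 := by nlinarith
  have hdiff : X - X' ≤ ρ * X / 32 := by nlinarith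
  set E := Real.exp (3 * ε / X) with hE
  have hE1 : 1 ≤ E := by
    rw [hE, ← Real.exp_zero]; apply Real.exp_le_exp.2; positivity
  have hEX : Real.exp (2 * ε / X) ≤ E := by
    rw [hE]; apply Real.exp_le_exp.2
    apply div_le_div_of_nonneg_right _ hX.le; linarith
  have hEX' : Real.exp (2 * ε / X') ≤ E := by
    rw [hE]; apply Real.exp_le_exp.2
    rw [div_le_div_iff₀ hX' hX]
    nlinarith
  obtain ⟨hU0, hL0⟩ := hf X hX hXX0
  obtain ⟨hU0', hL0'⟩ := hf X' hX' (lt_of_le_of_lt hXX hXX0)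
  have hU := Appr_mono K _ _ 1 1 _ E le_rfl hEX (Real.exp_pos _).le hU0
  have hL := Appr_mono K _ _ 1 1 _ E le_rfl hEX (Real.exp_pos _).le hL0
  have hU' := Appr_mono K _ _ 1 1 _ E le_rfl hEX' (Real.exp_pos _).le hU0'
  have hL' := Appr_mono K _ _ 1 1 _ E le_rfl hEX' (Real.exp_pos _).le hL0'
  -- differentiability
  have hKd : ∀ s : ℂ, s.re < 0 → DifferentiableAt ℂ K s := fun s hs =>
    hK.1.differentiableAt ((isOpen_lt Complex.continuous_re continuous_const).mem_nhds hs)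
  have hGd : ∀ (G : ℂ → ℂ) (ζ : ℂ), Appr K ζ 1 E G → ∀ s : ℂ, ζ.re < s.re →
      DifferentiableAt ℂ G s := fun G ζ hG s hs =>
    hG.1.differentiableAt ((isOpen_lt continuous_const Complex.continuous_re).mem_nhds hs)
  set e0 := Real.exp (-(3 / (10 ^ 7 * X))) / (14 * X) with he0
  have he0pos : 0 < e0 := by positivity
  have hA := Radj_auxA X hX hXs
  have hB := Radj_auxB X ε hX hXs hε2
  have hC := Radj_auxC X ε ρ hX hXs hε2 hρ hρ1
  rw [← he0] at hA hB hC
  rw [← hE] at hB hC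
  -- generic estimate
  have hgen : ∀ (a b : ℂ) (s : ℂ), s ∈ Ann X' X → ‖a - b‖ ≤ e0 → ‖a * φ s - b * φ s‖ ≤ Φ * e0 := by
    intro a b s hs hab
    rw [← sub_mul, norm_mul, mul_comm Φ e0]
    exact mul_le_mul hab (hφb s hs) (norm_nonneg _) he0pos.le
  have hcU : ∀ s : ℂ, -(ρ * X / 2) ≤ s.re → s.re ≤ -(ρ * X' / 2) → |s.im - X| ≤ ρ * X / 8 →
      ‖K s - U X s‖ ≤ e0 := by
    intro s h1 h2 h3
    exact (closeK K (U X) _ E (ρ * X) hρX rfl (by positivity) hU s (by linarith) (by linarith)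
      h3).trans hC
  have hcL : ∀ s : ℂ, -(ρ * X / 2) ≤ s.re → s.re ≤ -(ρ * X' / 2) → |s.im - (-X)| ≤ ρ * X / 8 →
      ‖K s - L X s‖ ≤ e0 := by
    intro s h1 h2 h3
    exact (closeK K (L X) _ E (ρ * X) hρX rfl (by positivity) hL s (by linarith) (by linarith)
      h3).trans hC
  have hrU : ∀ s : ℂ, ((-(ρ * X / 2) ≤ s.re ∧ s.re ≤ X ∧ s.im = 1 * X') ∨
      (s.re = X' ∧ |s.im| ≤ X' ∧ 0 ≤ 1 * s.im)) → ‖U X s - U X' s‖ ≤ e0 := by
    intro s hs
    exact (CLring K (U X) (U X') ρ X X' E 1 hE1 hρ hρ1 hX (by linarith) hXρ hXX (Or.inl rfl)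
      (by simpa using hU) (by simpa using hU') s hs).trans hB
  have hrL : ∀ s : ℂ, ((-(ρ * X / 2) ≤ s.re ∧ s.re ≤ X ∧ s.im = (-1) * X') ∨
      (s.re = X' ∧ |s.im| ≤ X' ∧ 0 ≤ (-1) * s.im)) → ‖L X s - L X' s‖ ≤ e0 := by
    intro s hs
    exact (CLring K (L X) (L X') ρ X X' E (-1) hE1 hρ hρ1 hX (by linarith) hXρ hXX (Or.inr rfl)
      (by simpa using hL) (by simpa using hL') s hs).trans hB
  have hmain := RingStep (fun s => K s * φ s) (fun s => U X s * φ s) (fun s => L X s * φ s)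
    (fun s => U X' s * φ s) (fun s => L X' s * φ s) X X' (ρ * X / 2) (ρ * X' / 2) (Φ * e0)
    (by positivity) (by linarith) (by linarith) hXX (by positivity)
    (fun s h1 h2 h3 h4 => by
      refine (hKd s (by linarith)).mul (hφd s ⟨?_, h3, ?_⟩)
      · rw [abs_le]; constructor <;> linarith
      · rcases h4 with h4 | h4
        · left; exact h4.trans (neg_le_abs _)
        · right; exact h4)
    (fun s h1 h2 h3 h4 h5 => by
      refine (hGd _ _ hU s (show -(ρ * X) < s.re by linarith)).mul (hφd s ⟨?_, ?_, ?_⟩)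
      · rw [abs_le]; constructor <;> linarith
      · rw [abs_le]; constructor <;> linarith
      · rcases h5 with h5 | h5
        · left; exact h5.trans (le_abs_self _)
        · right; exact h5.trans (le_abs_self _))
    (fun s h1 h2 h3 h4 h5 => by
      refine (hGd _ _ hL s (show -(ρ * X) < s.re by linarith)).mul (hφd s ⟨?_, ?_, ?_⟩)
      · rw [abs_le]; constructor <;> linarith
      · rw [abs_le]; constructor <;> linarith
      · rcases h5 with h5 | h5
        · left; exact h5.trans (le_abs_self _)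
        · right; have := neg_le_abs s.im; linarith)
    (fun u h1 h2 => by
      refine ((hGd _ _ hU' _ (show -(ρ * X') < u by linarith)).mul
        (hφd _ ⟨?_, ?_, ?_⟩)).continuousAt
      · show |u| ≤ X
        rw [abs_le]; constructor <;> linarith
      · show |X'| ≤ X
        rw [abs_of_pos hX']; exact hXX
      · right; show X' ≤ |X'|
        exact le_abs_self _)
    (fun v h1 h2 => by
      refine ((hGd _ _ hU' _ (show -(ρ * X') < X' by linarith)).mul
        (hφd _ ⟨?_, ?_, ?_⟩)).continuousAt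
      · show |X'| ≤ X
        rw [abs_of_pos hX']; exact hXX
      · show |v| ≤ X
        rw [abs_le]; constructor <;> linarith
      · left; show X' ≤ |X'|
        exact le_abs_self _)
    (fun u h1 h2 => by
      refine ((hGd _ _ hL' _ (show -(ρ * X') < u by linarith)).mul
        (hφd _ ⟨?_, ?_, ?_⟩)).continuousAt
      · show |u| ≤ X
        rw [abs_le]; constructor <;> linarith
      · show |-X'| ≤ X
        rw [abs_neg, abs_of_pos hX']; exact hXX
      · right; show X' ≤ |-X'|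
        rw [abs_neg]; exact le_abs_self _)
    (fun v h1 h2 => by
      refine ((hGd _ _ hL' _ (show -(ρ * X') < X' by linarith)).mul
        (hφd _ ⟨?_, ?_, ?_⟩)).continuousAt
      · show |X'| ≤ X
        rw [abs_of_pos hX']; exact hXX
      · show |v| ≤ X
        rw [abs_le]; constructor <;> linarith
      · left; show X' ≤ |X'|
        exact le_abs_self _)
    (fun u h1 h2 => by
      refine hgen _ _ _ ⟨?_, ?_, ?_⟩ (hcU _ h1 h2 ?_)
      · show |u| ≤ X
        rw [abs_le]; constructor <;> linarith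
      · show |X| ≤ X
        rw [abs_of_pos hX]
      · right; show X' ≤ |X|
        rw [abs_of_pos hX]; exact hXX
      · show |X - X| ≤ ρ * X / 8
        rw [sub_self, abs_zero]; positivity)
    (fun u h1 h2 => by
      refine hgen _ _ _ ⟨?_, ?_, ?_⟩ (hcL _ h1 h2 ?_)
      · show |u| ≤ X
        rw [abs_le]; constructor <;> linarith
      · show |-X| ≤ X
        rw [abs_neg, abs_of_pos hX]
      · right; show X' ≤ |-X|
        rw [abs_neg, abs_of_pos hX]; exact hXX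
      · show |-X - (-X)| ≤ ρ * X / 8
        rw [sub_self, abs_zero]; positivity)
    (fun v h1 h2 => by
      refine hgen _ _ _ ⟨?_, ?_, ?_⟩ (hcU _ ?_ ?_ ?_)
      · show |-(ρ * X' / 2)| ≤ X
        rw [abs_le]; constructor <;> linarith
      · show |v| ≤ X
        rw [abs_le]; constructor <;> linarith
      · right; show X' ≤ |v|
        exact h1.trans (le_abs_self _)
      · show -(ρ * X / 2) ≤ -(ρ * X' / 2)
        linarith
      · show -(ρ * X' / 2) ≤ -(ρ * X' / 2)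
        exact le_rfl
      · show |v - X| ≤ ρ * X / 8
        rw [abs_le]; constructor <;> linarith)
    (fun v h1 h2 => by
      refine hgen _ _ _ ⟨?_, ?_, ?_⟩ (hcL _ ?_ ?_ ?_)
      · show |-(ρ * X' / 2)| ≤ X
        rw [abs_le]; constructor <;> linarith
      · show |-v| ≤ X
        rw [abs_le]; constructor <;> linarith
      · right; show X' ≤ |-v|
        rw [abs_neg]; exact h1.trans (le_abs_self _)
      · show -(ρ * X / 2) ≤ -(ρ * X' / 2)
        linarith
      · show -(ρ * X' / 2) ≤ -(ρ * X' / 2)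
        exact le_rfl
      · show |-v - (-X)| ≤ ρ * X / 8
        rw [abs_le]; constructor <;> linarith)
    (fun u h1 h2 => by
      refine hgen _ _ _ ⟨?_, ?_, ?_⟩ (hrU _ (Or.inl ⟨?_, ?_, ?_⟩))
      · show |u| ≤ X
        rw [abs_le]; constructor <;> linarith
      · show |X'| ≤ X
        rw [abs_of_pos hX']; exact hXX
      · right; show X' ≤ |X'|
        exact le_abs_self _
      · show -(ρ * X / 2) ≤ u
        linarith
      · show u ≤ X
        linarith
      · show X' = 1 * X'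
        ring)
    (fun v h1 h2 => by
      refine hgen _ _ _ ⟨?_, ?_, ?_⟩ (hrU _ (Or.inr ⟨rfl, ?_, ?_⟩))
      · show |X'| ≤ X
        rw [abs_of_pos hX']; exact hXX
      · show |v| ≤ X
        rw [abs_le]; constructor <;> linarith
      · left; show X' ≤ |X'|
        exact le_abs_self _
      · show |v| ≤ X'
        rw [abs_le]; constructor <;> linarith
      · show 0 ≤ 1 * v
        linarith)
    (fun u h1 h2 => by
      refine hgen _ _ _ ⟨?_, ?_, ?_⟩ (hrL _ (Or.inl ⟨?_, ?_, ?_⟩))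
      · show |u| ≤ X
        rw [abs_le]; constructor <;> linarith
      · show |-X'| ≤ X
        rw [abs_neg, abs_of_pos hX']; exact hXX
      · right; show X' ≤ |-X'|
        rw [abs_neg]; exact le_abs_self _
      · show -(ρ * X / 2) ≤ u
        linarith
      · show u ≤ X
        linarith
      · show -X' = (-1) * X'
        ring)
    (fun v h1 h2 => by
      refine hgen _ _ _ ⟨?_, ?_, ?_⟩ (hrL _ (Or.inr ⟨rfl, ?_, ?_⟩))
      · show |X'| ≤ X
        rw [abs_of_pos hX']; exact hXX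
      · show |v| ≤ X
        rw [abs_le]; constructor <;> linarith
      · left; show X' ≤ |X'|
        exact le_abs_self _
      · show |v| ≤ X'
        rw [abs_le]; constructor <;> linarith
      · show 0 ≤ (-1) * v
        linarith)
    (fun u h1 h2 => by
      refine hgen _ _ _ ⟨?_, ?_, ?_⟩ ((hJ X hX hXXJ u (by linarith) h2).trans hA)
      · show |u| ≤ X
        rw [abs_le]; constructor <;> linarith
      · show |(0:ℝ)| ≤ X
        rw [abs_zero]; exact hX.le
      · left; show X' ≤ |u|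
        exact h1.trans (le_abs_self _))
  have hfin : 14 * X * (Φ * e0) = Φ * Real.exp (-(3 / (10 ^ 7 * X))) := by
    rw [he0]; field_simp
  rw [hfin] at hmain
  exact hmain

end NM
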