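import Pool.Agent.Helper360.NM.Defs



namespace NM
open Complex Metric Set Filter Topology MeasureTheory


theorem Rcomp_aux (R : ℝ → (ℂ → ℂ) → ℂ) (ρ X1 : ℝ) (hρ : 0 < ρ) (hρ1 : ρ ≤ 1 / 1000)
    (h : ∀ X X' : ℝ, 0 < X' → X' ≤ X → X < X1 → X * (1 - ρ / 32) ≤ X' →
      ∀ (φ : ℂ → ℂ) (Φ : ℝ), 0 ≤ Φ → (∀ s ∈ Ann X' X, DifferentiableAt ℂ φ s) →
        (∀ s ∈ Ann X' X, ‖φ s‖ ≤ Φ) →
        ‖R X φ - R X' φ‖ ≤ Φ * Real.exp (-(3 / (10 ^ 7 * X))))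
    (X' : ℝ) (hX' : 0 < X') (φ : ℂ → ℂ) (Φ : ℝ) (hΦ : 0 ≤ Φ) (N : ℕ) :
    ∀ X : ℝ, X' ≤ X → X < X1 → X * (1 - ρ / 32) ^ N ≤ X' →
      (∀ s ∈ Ann X' X, DifferentiableAt ℂ φ s) → (∀ s ∈ Ann X' X, ‖φ s‖ ≤ Φ) →
      ‖R X φ - R X' φ‖ ≤ Φ * ∑ k ∈ Finset.range N,
        Real.exp (-(3 / (10 ^ 7 * (X * (1 - ρ / 32) ^ k)))) := by
  have hq0 : 0 < 1 - ρ / 32 := by linarith
  have hq1 : 1 - ρ / 32 < 1 := by linarith
  induction N with
  | zero =>
    intro X h1 h2 h3 _ _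
    have : X = X' := le_antisymm (by simpa using h3) h1
    subst this
    simp
  | succ N ih =>
    intro X h1 h2 h3 hd hb
    rw [Finset.sum_range_succ']
    have e0 : X * (1 - ρ / 32) ^ 0 = X := by simp
    rw [e0]
    have hXpos : 0 < X := lt_of_lt_of_le hX' h1
    by_cases hc : X * (1 - ρ / 32) ≤ X'
    · refine (h X X' hX' h1 h2 hc φ Φ hΦ hd hb).trans ?_
      refine mul_le_mul_of_nonneg_left ?_ hΦ
      have : 0 ≤ ∑ k ∈ Finset.range N,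
          Real.exp (-(3 / (10 ^ 7 * (X * (1 - ρ / 32) ^ (k + 1))))) :=
        Finset.sum_nonneg fun _ _ => (Real.exp_pos _).le
      linarith
    · push Not at hc
      have hX'' : X * (1 - ρ / 32) ≤ X := by nlinarith
      have hs1 : Ann (X * (1 - ρ / 32)) X ⊆ Ann X' X := by
        rintro s ⟨ha, hb', hc'⟩
        refine ⟨ha, hb', ?_⟩
        rcases hc' with hc' | hc'
        · exact Or.inl (hc.le.trans hc')
        · exact Or.inr (hc.le.trans hc')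
      have hs2 : Ann X' (X * (1 - ρ / 32)) ⊆ Ann X' X := by
        rintro s ⟨ha, hb', hc'⟩
        exact ⟨ha.trans hX'', hb'.trans hX'', hc'⟩
      have i1 := h X (X * (1 - ρ / 32)) (by positivity) hX'' h2 le_rfl φ Φ hΦ
        (fun s hs => hd s (hs1 hs)) (fun s hs => hb s (hs1 hs))
      have i2 := ih (X * (1 - ρ / 32)) hc.le (lt_of_le_of_lt hX'' h2)
        (by rw [pow_succ] at h3; linarith [h3, mul_comm ((1 - ρ / 32) ^ N) (1 - ρ / 32),
              mul_assoc X (1 - ρ / 32) ((1 - ρ / 32) ^ N),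
              mul_assoc X ((1 - ρ / 32) ^ N) (1 - ρ / 32),
              congrArg (fun t => X * t) (mul_comm ((1 - ρ / 32) ^ N) (1 - ρ / 32))])
        (fun s hs => hd s (hs2 hs)) (fun s hs => hb s (hs2 hs))
      have e1 : ∑ k ∈ Finset.range N,
          Real.exp (-(3 / (10 ^ 7 * (X * (1 - ρ / 32) * (1 - ρ / 32) ^ k))))
          = ∑ k ∈ Finset.range N,
          Real.exp (-(3 / (10 ^ 7 * (X * (1 - ρ / 32) ^ (k + 1))))) := by
        refine Finset.sum_congr rfl fun k _ => ?_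
        rw [pow_succ']
        ring_nf
      rw [e1] at i2
      have e2 : R X φ - R X' φ = (R X φ - R (X * (1 - ρ / 32)) φ)
          + (R (X * (1 - ρ / 32)) φ - R X' φ) := by ring
      rw [e2]
      refine (norm_add_le _ _).trans ?_
      rw [mul_add]
      linarith

theorem Rcomp (R : ℝ → (ℂ → ℂ) → ℂ) (ρ X1 : ℝ) (hρ : 0 < ρ) (hρ1 : ρ ≤ 1 / 1000) (hX1 : 0 < X1)
    (h : ∀ X X' : ℝ, 0 < X' → X' ≤ X → X < X1 → X * (1 - ρ / 32) ≤ X' →
      ∀ (φ : ℂ → ℂ) (Φ : ℝ), 0 ≤ Φ → (∀ s ∈ Ann X' X, DifferentiableAt ℂ φ s) →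
        (∀ s ∈ Ann X' X, ‖φ s‖ ≤ Φ) →
        ‖R X φ - R X' φ‖ ≤ Φ * Real.exp (-(3 / (10 ^ 7 * X)))) :
    ∃ X2 : ℝ, 0 < X2 ∧ X2 ≤ X1 ∧ ∀ X X' : ℝ, 0 < X' → X' ≤ X → X < X2 →
      ∀ (φ : ℂ → ℂ) (Φ : ℝ), 0 ≤ Φ → (∀ s ∈ Ann X' X, DifferentiableAt ℂ φ s) →
        (∀ s ∈ Ann X' X, ‖φ s‖ ≤ Φ) →
        ‖R X φ - R X' φ‖ ≤ Φ * Real.exp (-(2 / (10 ^ 7 * X))) := by
  have hq0 : 0 < 1 - ρ / 32 := by linarith
  have hq1 : 1 - ρ / 32 < 1 := by linarith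
  set A : ℝ := 3 / 10 ^ 7 with hA
  have hApos : 0 < A := by rw [hA]; positivity
  refine ⟨min X1 (min (A * (ρ / 32)) (1 / 10 ^ 7)), ?_, min_le_left _ _, ?_⟩
  · refine lt_min hX1 (lt_min (by positivity) (by positivity))
  intro X X' hX' hXX hX2 φ Φ hΦ hd hb
  have hXpos : 0 < X := lt_of_lt_of_le hX' hXX
  have hXX1 : X < X1 := lt_of_lt_of_le hX2 (min_le_left _ _)
  have hXA : X < A * (ρ / 32) :=
    lt_of_lt_of_le hX2 ((min_le_right _ _).trans (min_le_left _ _))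
  have hX7 : X < 1 / 10 ^ 7 :=
    lt_of_lt_of_le hX2 ((min_le_right _ _).trans (min_le_right _ _))
  obtain ⟨N, hN⟩ := exists_pow_lt_of_lt_one (show 0 < X' / X by positivity) hq1
  have hN' : X * (1 - ρ / 32) ^ N ≤ X' := by
    rw [lt_div_iff₀ hXpos] at hN
    linarith
  have hmain := Rcomp_aux R ρ X1 hρ hρ1 h X' hX' φ Φ hΦ N X hXX hXX1 hN' hd hb
  refine hmain.trans (mul_le_mul_of_nonneg_left ?_ hΦ)
  -- the sum
  have h2exp : (2 : ℝ) ≤ Real.exp 1 := by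
    have := Real.add_one_le_exp (1 : ℝ)
    linarith
  have hy : Real.exp (-(A * (ρ / 32) / X)) ≤ 1 / 2 := by
    have h1 : 1 ≤ A * (ρ / 32) / X := by
      rw [le_div_iff₀ hXpos]; linarith
    have h3 : Real.exp 1 ≤ Real.exp (A * (ρ / 32) / X) := Real.exp_le_exp.2 h1
    rw [Real.exp_neg, one_div]
    exact inv_anti₀ (by norm_num) (h2exp.trans h3)
  have hterm : ∀ k ∈ Finset.range N, Real.exp (-(3 / (10 ^ 7 * (X * (1 - ρ / 32) ^ k))))
      ≤ Real.exp (-(A / X)) * (1 / 2) ^ k := by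
    intro k _
    have hqk : 0 < (1 - ρ / 32) ^ k := by positivity
    have h1 : 1 + k * (ρ / 32) ≤ (1 / (1 - ρ / 32)) ^ k := by
      have h4 : 1 + ρ / 32 ≤ 1 / (1 - ρ / 32) := by
        rw [le_div_iff₀ hq0]; nlinarith
      calc 1 + (k : ℝ) * (ρ / 32) ≤ (1 + ρ / 32) ^ k :=
            one_add_mul_le_pow (by linarith) k
        _ ≤ _ := pow_le_pow_left₀ (by linarith) h4 k
    have h5 : 3 / (10 ^ 7 * (X * (1 - ρ / 32) ^ k)) = A / X * (1 / (1 - ρ / 32)) ^ k := by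
      rw [hA, div_pow, one_pow]
      field_simp
    have h6 : A / X * (1 + k * (ρ / 32)) ≤ A / X * (1 / (1 - ρ / 32)) ^ k :=
      mul_le_mul_of_nonneg_left h1 (by positivity)
    rw [h5]
    calc Real.exp (-(A / X * (1 / (1 - ρ / 32)) ^ k))
        ≤ Real.exp (-(A / X * (1 + k * (ρ / 32)))) := Real.exp_le_exp.2 (by linarith)
      _ = Real.exp (-(A / X)) * Real.exp (-(A * (ρ / 32) / X)) ^ k := by
          rw [← Real.exp_nat_mul, ← Real.exp_add]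
          congr 1
          ring
      _ ≤ Real.exp (-(A / X)) * (1 / 2) ^ k :=
          mul_le_mul_of_nonneg_left (pow_le_pow_left₀ (Real.exp_pos _).le hy k)
            (Real.exp_pos _).le
  refine (Finset.sum_le_sum hterm).trans ?_
  rw [← Finset.mul_sum]
  have hgeo : ∑ k ∈ Finset.range N, (1 / 2 : ℝ) ^ k ≤ 2 := sum_geometric_two_le N
  have hlast : (2 : ℝ) ≤ Real.exp (1 / (10 ^ 7 * X)) := by
    have h1 : 1 ≤ 1 / (10 ^ 7 * X) := by
      rw [le_div_iff₀ (by positivity)]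
      rw [lt_div_iff₀ (by positivity)] at hX7
      linarith
    exact h2exp.trans (Real.exp_le_exp.2 h1)
  calc Real.exp (-(A / X)) * ∑ k ∈ Finset.range N, (1 / 2 : ℝ) ^ k
      ≤ Real.exp (-(A / X)) * Real.exp (1 / (10 ^ 7 * X)) :=
        mul_le_mul_of_nonneg_left (hgeo.trans hlast) (Real.exp_pos _).le
    _ = Real.exp (-(2 / (10 ^ 7 * X))) := by
        rw [← Real.exp_add]
        congr 1
        rw [hA]
        field_simp
        norm_num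

end NM
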