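import Pool.Agent.Helper360.NM.Defs



namespace NM
open Complex Metric Set Filter Topology MeasureTheory


theorem kern_lower (β : ℂ) (α : ℝ) (h0 : 0 < β.re) (h1 : β.re ≤ 1) :
    β.re / ‖β - (α : ℂ) * Complex.I‖ ^ 2 ≤
      (1 - ‖Complex.exp (-β)‖ ^ 2) /
        ‖1 - Complex.exp ((α : ℂ) * Complex.I) * Complex.exp (-β)‖ ^ 2 := by
  obtain ⟨x, hx⟩ : ∃ x : ℝ, x = β.re := ⟨_, rfl⟩
  obtain ⟨t, ht⟩ : ∃ t : ℝ, t = α - β.im := ⟨_, rfl⟩
  have hn1 : ‖Complex.exp (-β)‖ = Real.exp (-x) := by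
    rw [Complex.norm_exp, Complex.neg_re, hx]
  have hn2 : ‖β - (α : ℂ) * Complex.I‖ ^ 2 = x ^ 2 + t ^ 2 := by
    rw [← Complex.normSq_eq_norm_sq, Complex.normSq_apply]
    simp only [Complex.sub_re, Complex.mul_re, Complex.ofReal_re, Complex.I_re, Complex.ofReal_im,
      Complex.I_im, Complex.sub_im, Complex.mul_im]
    rw [hx, ht]; ring
  have hE : Complex.exp ((α : ℂ) * Complex.I) * Complex.exp (-β) =
      Complex.exp (⟨-x, t⟩ : ℂ) := by
    rw [← Complex.exp_add]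
    congr 1
    apply Complex.ext
    · simp [hx]
    · simp [ht]; ring
  have hn3 : ‖1 - Complex.exp ((α : ℂ) * Complex.I) * Complex.exp (-β)‖ ^ 2 =
      1 - 2 * Real.exp (-x) * Real.cos t + Real.exp (-x) ^ 2 := by
    rw [hE, ← Complex.normSq_eq_norm_sq, Complex.normSq_apply]
    simp only [Complex.sub_re, Complex.one_re, Complex.sub_im, Complex.one_im, Complex.exp_re,
      Complex.exp_im]
    have := Real.sin_sq_add_cos_sq t
    linear_combination (Real.exp (-x)) ^ 2 * this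
  rw [hn1, hn2, hn3, ← hx]
  rw [← hx] at h0 h1
  have hsinh : x ≤ Real.sinh x := Real.self_le_sinh_iff.2 h0.le
  have hcosh : Real.cosh x ≤ 1 + x ^ 2 := by
    have hu : x ^ 2 / 2 ≤ 1 / 2 := by nlinarith
    have h3 : Real.exp (x ^ 2 / 2) * (1 - x ^ 2 / 2) ≤ 1 := by
      have h4 := Real.add_one_le_exp (-(x ^ 2 / 2))
      have h5 : Real.exp (x ^ 2 / 2) * Real.exp (-(x ^ 2 / 2)) = 1 := by
        rw [← Real.exp_add]; simp
      have h6 := Real.exp_pos (x ^ 2 / 2)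
      nlinarith
    have h7 := Real.cosh_le_exp_half_sq x
    have h8 : Real.cosh x * (1 - x ^ 2 / 2) ≤ 1 :=
      (mul_le_mul_of_nonneg_right h7 (by linarith)).trans h3
    nlinarith [sq_nonneg x, mul_nonneg (sq_nonneg x) (sub_nonneg.2 (show x ^ 2 ≤ 1 by nlinarith))]
  have hcos : 1 - t ^ 2 / 2 ≤ Real.cos t := Real.one_sub_sq_div_two_le_cos
  have hep := Real.exp_pos (-x)
  have hinv : Real.exp x * Real.exp (-x) = 1 := by rw [← Real.exp_add]; simp
  have hD : 1 - 2 * Real.exp (-x) * Real.cos t + Real.exp (-x) ^ 2 =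
      2 * Real.exp (-x) * (Real.cosh x - Real.cos t) := by
    rw [Real.cosh_eq]
    linear_combination (-1 : ℝ) * hinv
  have hN : 1 - Real.exp (-x) ^ 2 = 2 * Real.exp (-x) * Real.sinh x := by
    rw [Real.sinh_eq]
    linear_combination (-1 : ℝ) * hinv
  rw [hD, hN]
  have hch1 : 1 < Real.cosh x := Real.one_lt_cosh.2 h0.ne'
  have hcos1 := Real.cos_le_one t
  have hd : 0 < Real.cosh x - Real.cos t := by linarith
  have hq : 0 < x ^ 2 + t ^ 2 := by positivity
  rw [div_le_div_iff₀ hq (by positivity)]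
  have hle : x * (Real.cosh x - Real.cos t) ≤ Real.sinh x * (x ^ 2 + t ^ 2) := by
    refine mul_le_mul hsinh ?_ hd.le (by linarith)
    nlinarith [sq_nonneg t]
  nlinarith

end NM
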