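import Pool.Agent.Helper360.NM.Defs



namespace NM
open Complex Metric Set Filter Topology MeasureTheory


theorem lau_g1_inj : Function.Injective (fun p : ℕ × ℕ => ((p.2, p.1 + p.2) : ℕ × ℕ)) := by
  rintro ⟨a, b⟩ ⟨c, d⟩ h
  simp only [Prod.mk.injEq] at h ⊢
  omega

theorem lau_g2_inj : Function.Injective (fun p : ℕ × ℕ => ((p.2 + p.1 + 1, p.2) : ℕ × ℕ)) := by
  rintro ⟨a, b⟩ ⟨c, d⟩ h
  simp only [Prod.mk.injEq] at h ⊢
  omega

theorem lau_compl : (Set.range (fun p : ℕ × ℕ => ((p.2, p.1 + p.2) : ℕ × ℕ)))ᶜ =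
    Set.range (fun p : ℕ × ℕ => ((p.2 + p.1 + 1, p.2) : ℕ × ℕ)) := by
  ext ⟨x, y⟩
  simp only [Set.mem_compl_iff, Set.mem_range, Prod.exists, Prod.mk.injEq, not_exists]
  constructor
  · intro h
    by_cases hxy : x ≤ y
    · exact absurd ⟨rfl, by omega⟩ (h (y - x) x)
    · exact ⟨x - y - 1, y, by omega, rfl⟩
  · rintro ⟨c, d, h1, h2⟩ u v ⟨h3, h4⟩
    omega

theorem lau_split (F : ℕ × ℕ → ℂ) (hF : Summable F) :
    ∑' p, F p = (∑' n, ∑' m, F (m, n + m)) + ∑' k, ∑' n, F (n + k + 1, n) := by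
  have h := hF.tsum_subtype_add_tsum_subtype_compl
    (Set.range (fun p : ℕ × ℕ => ((p.2, p.1 + p.2) : ℕ × ℕ)))
  rw [← h, lau_compl, tsum_range F lau_g1_inj, tsum_range F lau_g2_inj]
  have e1 : ∑' p : ℕ × ℕ, F (p.2, p.1 + p.2) = ∑' n, ∑' m, F (m, n + m) :=
    (hF.comp_injective lau_g1_inj).tsum_prod
  have e2 : ∑' p : ℕ × ℕ, F (p.2 + p.1 + 1, p.2) = ∑' k, ∑' n, F (n + k + 1, n) :=
    (hF.comp_injective lau_g2_inj).tsum_prod
  rw [e1, e2]

theorem lau_sum (l a : ℕ → ℂ) (L0 : ℝ) (hl : ∀ n, ‖l n‖ ≤ L0) (f : ℂ → ℂ)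
    (hf : ∀ w ∈ ball (0:ℂ) 1, HasSum (fun n => a n * w ^ n) (f w)) (z w : ℂ)
    (h1 : ‖z‖ < ‖w‖) (h2 : ‖w‖ < 1) :
    Summable (fun n => ‖a n * w ^ n‖) ∧ Summable (fun n => ‖l n * (z / w) ^ n‖) := by
  constructor
  · exact (hf w (by simpa using h2)).summable.norm
  · have hw : 0 < ‖w‖ := lt_of_le_of_lt (norm_nonneg z) h1
    have hr : ‖z‖ / ‖w‖ < 1 := (div_lt_one hw).2 h1
    refine Summable.of_nonneg_of_le (fun _ => norm_nonneg _) (fun n => ?_)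
      ((summable_geometric_of_lt_one (by positivity) hr).mul_left L0)
    rw [norm_mul, norm_pow, norm_div]
    exact mul_le_mul_of_nonneg_right (hl n) (by positivity)

theorem lau_sum2 (l a : ℕ → ℂ) (L0 : ℝ) (hl : ∀ n, ‖l n‖ ≤ L0) (f : ℂ → ℂ)
    (hf : ∀ w ∈ ball (0:ℂ) 1, HasSum (fun n => a n * w ^ n) (f w)) (z w : ℂ)
    (h1 : ‖z‖ < ‖w‖) (h2 : ‖w‖ < 1) :
    Summable (fun p : ℕ × ℕ => a p.1 * w ^ p.1 * (l p.2 * (z / w) ^ p.2)) := by
  obtain ⟨s1, s2⟩ := lau_sum l a L0 hl f hf z w h1 h2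
  exact summable_mul_of_summable_norm (f := fun n => a n * w ^ n)
    (g := fun n => l n * (z / w) ^ n) s1 s2

theorem lau_q (l a : ℕ → ℂ) (z w : ℂ) (hw : w ≠ 0) (k : ℕ) :
    ∑' n, a (n + k + 1) * w ^ (n + k + 1) * (l n * (z / w) ^ n) =
      (∑' n, a (n + k + 1) * l n * z ^ n) * w ^ (k + 1) := by
  rw [← tsum_mul_right]
  refine tsum_congr (fun n => ?_)
  rw [div_pow, show n + k + 1 = n + (k + 1) by ring, pow_add w n (k + 1)]
  field_simp

theorem laurent (l a : ℕ → ℂ) (L0 : ℝ) (hl : ∀ n, ‖l n‖ ≤ L0) (f : ℂ → ℂ)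
    (hf : ∀ w ∈ ball (0:ℂ) 1, HasSum (fun n => a n * w ^ n) (f w)) (z : ℂ) (hz : ‖z‖ < 1) :
    ∃ Q : ℂ → ℂ, DifferentiableOn ℂ Q (ball 0 1) ∧ ∀ w : ℂ, ‖z‖ < ‖w‖ → ‖w‖ < 1 →
      f w * (∑' n, l n * (z / w) ^ n) = (∑' n, (w⁻¹) ^ n * Lam l a n z) + Q w := by
  refine ⟨fun w => ∑' k, (∑' n, a (n + k + 1) * l n * z ^ n) * w ^ (k + 1), ?_, ?_⟩
  · intro w0 hw0
    have hw0' : ‖w0‖ < 1 := by simpa using hw0
    obtain ⟨r, hr1, hr2⟩ := exists_between (max_lt hz hw0')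
    have hr1z : ‖z‖ < r := lt_of_le_of_lt (le_max_left _ _) hr1
    have hr1w : ‖w0‖ < r := lt_of_le_of_lt (le_max_right _ _) hr1
    have hr0 : 0 < r := lt_of_le_of_lt (norm_nonneg _) hr1z
    have hrn : ‖(r : ℂ)‖ = r := by
      rw [Complex.norm_real, Real.norm_of_nonneg hr0.le]
    have hS := lau_sum2 l a L0 hl f hf z (r : ℂ) (by rw [hrn]; exact hr1z) (by rw [hrn]; exact hr2)
    have hS2 := hS.comp_injective lau_g2_inj
    have hS3 : Summable (fun k : ℕ => ∑' n : ℕ, a (n + k + 1) * (r : ℂ) ^ (n + k + 1) *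
        (l n * (z / (r : ℂ)) ^ n)) := hS2.prod
    have hrC : (r : ℂ) ≠ 0 := by exact_mod_cast hr0.ne'
    have hS4 : Summable (fun k : ℕ => (∑' n, a (n + k + 1) * l n * z ^ n) * (r : ℂ) ^ (k + 1)) := by
      refine hS3.congr (fun k => ?_)
      exact lau_q l a z r hrC k
    have hD : DifferentiableOn ℂ
        (fun w => ∑' k, (∑' n, a (n + k + 1) * l n * z ^ n) * w ^ (k + 1)) (ball 0 r) := by
      refine differentiableOn_tsum_of_summable_norm hS4.norm (fun k => ?_) isOpen_ball ?_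
      · exact ((differentiable_id.pow (k + 1)).const_mul _).differentiableOn
      · intro k w hw
        have hw' : ‖w‖ < r := by simpa using hw
        rw [norm_mul, norm_mul, norm_pow, norm_pow, hrn]
        exact mul_le_mul_of_nonneg_left (pow_le_pow_left₀ (norm_nonneg _) hw'.le _) (norm_nonneg _)
    exact (hD.differentiableAt (isOpen_ball.mem_nhds (by simpa using hr1w))).differentiableWithinAt
  · intro w h1 h2
    have hw : 0 < ‖w‖ := lt_of_le_of_lt (norm_nonneg z) h1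
    have hw0 : w ≠ 0 := norm_pos_iff.1 hw
    obtain ⟨s1, s2⟩ := lau_sum l a L0 hl f hf z w h1 h2
    rw [← (hf w (by simpa using h2)).tsum_eq, tsum_mul_tsum_of_summable_norm (f := fun n => a n * w ^ n)
      (g := fun n => l n * (z / w) ^ n) s1 s2,
      lau_split _ (lau_sum2 l a L0 hl f hf z w h1 h2)]
    congr 1
    · refine tsum_congr (fun n => ?_)
      unfold Lam
      rw [← tsum_mul_left]
      refine tsum_congr (fun m => ?_)
      show a m * w ^ m * (l (n + m) * (z / w) ^ (n + m)) = _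
      rw [div_pow, pow_add w n m, inv_pow]
      field_simp
    · refine tsum_congr (fun k => ?_)
      exact lau_q l a z w hw0 k

end NM
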