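import Pool.Agent.Helper360.NM.Defs
import Pool.Agent.Helper360.NM.P_norm_F
import Pool.Agent.Helper360.NM.P_F_diff
import Pool.Agent.Helper360.NM.P_cf_hasSum
import Pool.Agent.Helper360.NM.P_laurent
import Pool.Agent.Helper360.NM.P_Kf_norm
import Pool.Agent.Helper360.NM.P_kern_lower



namespace NM
open Complex Metric Set Filter Topology MeasureTheory


theorem lemmaA_choose (n : ℕ) : ((n : ℝ) + 1) ^ 2 ≤ 2 * ((n + 2).choose 2 : ℝ) := by
  have h := Nat.add_one_mul_choose_eq (n + 1) 1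
  rw [Nat.choose_one_right] at h
  have h2 : ((n : ℝ) + 1 + 1) * ((n : ℝ) + 1) = ((n + 2).choose 2 : ℝ) * 2 := by
    have h3 : (n + 1 + 1) * (n + 1) = (n + 2).choose 2 * 2 := h
    exact_mod_cast h3
  have hn : (0 : ℝ) ≤ n := Nat.cast_nonneg n
  nlinarith

theorem lemmaA_sum (f : ℕ → ℂ) (q B : ℝ) (hq0 : 0 ≤ q) (hq1 : q < 1) (hB : 0 ≤ B)
    (h : ∀ n : ℕ, ‖f n‖ ≤ ((n : ℝ) + 1) ^ 2 * q ^ n * B) : ‖∑' n, f n‖ ≤ 2 * B / (1 - q) ^ 3 := by
  have hs := hasSum_choose_mul_geometric_of_norm_lt_one 2 (r := q) (by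
    rw [Real.norm_eq_abs, abs_of_nonneg hq0]; exact hq1)
  have hs2 := hs.mul_left (2 * B)
  have h1 : 2 * B * (1 / (1 - q) ^ (2 + 1)) = 2 * B / (1 - q) ^ 3 := by ring
  rw [h1] at hs2
  refine tsum_of_norm_bounded hs2 (fun n => (h n).trans ?_)
  have h2 := lemmaA_choose n
  have h3 : 0 ≤ q ^ n * B := by positivity
  calc ((n : ℝ) + 1) ^ 2 * q ^ n * B = ((n : ℝ) + 1) ^ 2 * (q ^ n * B) := by ring
    _ ≤ 2 * ((n + 2).choose 2 : ℝ) * (q ^ n * B) := mul_le_mul_of_nonneg_right h2 h3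
    _ = _ := by ring

theorem lemmaA_one_sub_exp (x : ℝ) (h0 : 0 ≤ x) (h1 : x ≤ 1) : x / 2 ≤ 1 - Real.exp (-x) := by
  have h2 : Real.exp (-x) * (1 + x) ≤ 1 := by
    have h3 := Real.add_one_le_exp x
    calc Real.exp (-x) * (1 + x) ≤ Real.exp (-x) * Real.exp x :=
          mul_le_mul_of_nonneg_left (by linarith) (Real.exp_pos _).le
      _ = 1 := by rw [← Real.exp_add]; simp
  have h4 : 0 < Real.exp (-x) := Real.exp_pos _
  by_contra hcon
  push Not at hcon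
  nlinarith

theorem lemmaA_F (t : ℝ →₀ ℝ) (ht : ∀ α, 0 ≤ t α) (β : ℂ) (h0 : 0 < β.re) (h1 : β.re ≤ 1)
    (α : ℝ) : ‖F t (Complex.exp (-β))‖⁻¹ ≤
      Real.exp (-(t α * β.re / ‖β - (α : ℂ) * Complex.I‖ ^ 2)) := by
  have hw : ‖Complex.exp (-β)‖ < 1 := by
    rw [Complex.norm_exp, Real.exp_lt_one_iff, Complex.neg_re]
    linarith
  rw [norm_F t _ hw, ← Real.exp_neg, Real.exp_le_exp, neg_le_neg_iff]
  have hkern : ∀ α : ℝ, 0 ≤ (1 - ‖Complex.exp (-β)‖ ^ 2) /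
      ‖1 - Complex.exp ((α : ℂ) * Complex.I) * Complex.exp (-β)‖ ^ 2 := by
    intro α
    apply div_nonneg _ (sq_nonneg _)
    have := norm_nonneg (Complex.exp (-β))
    nlinarith
  have h2 := kern_lower β α h0 h1
  have h3 : t α * ((1 - ‖Complex.exp (-β)‖ ^ 2) /
      ‖1 - Complex.exp ((α : ℂ) * Complex.I) * Complex.exp (-β)‖ ^ 2) ≤
      t.sum fun α m => m * ((1 - ‖Complex.exp (-β)‖ ^ 2) /
        ‖1 - Complex.exp ((α : ℂ) * Complex.I) * Complex.exp (-β)‖ ^ 2) := by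
    unfold Finsupp.sum
    by_cases hα : α ∈ t.support
    · exact Finset.single_le_sum (f := fun α => t α * ((1 - ‖Complex.exp (-β)‖ ^ 2) /
        ‖1 - Complex.exp ((α : ℂ) * Complex.I) * Complex.exp (-β)‖ ^ 2))
        (fun a _ => mul_nonneg (ht a) (hkern a)) hα
    · rw [Finsupp.notMem_support_iff.1 hα, zero_mul]
      exact Finset.sum_nonneg (fun a _ => mul_nonneg (ht a) (hkern a))
  refine le_trans ?_ h3
  rw [mul_div_assoc]
  exact mul_le_mul_of_nonneg_left h2 (ht α)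

theorem lemmaA (l : ℕ → ℂ) (L0 : ℝ) (hL0 : 1 ≤ L0) (hl : ∀ n, ‖l n‖ ≤ L0) (t : ℝ →₀ ℝ)
    (ht : ∀ α, 0 ≤ t α) (ζ : ℂ) (h1 : -1 ≤ ζ.re) (h2 : ζ.re < 0) (B : ℝ) (hB : 1 ≤ B)
    (hg : Good l t (Complex.exp ζ) B) :
    ∃ G : ℂ → ℂ, ∀ α : ℝ,
      Appr (Kf l) (ζ + (α : ℂ) * Complex.I) (t α) (1000 * L0 * B * ((-ζ.re)⁻¹) ^ 3) G := by
  have hzn : ‖Complex.exp ζ‖ < 1 := by
    rw [Complex.norm_exp, Real.exp_lt_one_iff]; exact h2
  obtain ⟨Q, hQd, hQ⟩ := laurent l (cf (F t)) L0 hl (F t) (cf_hasSum (F t) (F_diff t))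
    (Complex.exp ζ) hzn
  have hF0 : ∀ v, F t v ≠ 0 := fun v => Complex.exp_ne_zero _
  have hqd : DifferentiableOn ℂ (fun w => Q w / F t w) (ball 0 1) :=
    hQd.div (F_diff t) (fun w _ => hF0 w)
  have hwn : ∀ s : ℂ, ‖Complex.exp (ζ - s)‖ = Real.exp (ζ.re - s.re) := by
    intro s
    rw [Complex.norm_exp, Complex.sub_re]
  have hwb : ∀ s : ℂ, ζ.re < s.re → Complex.exp (ζ - s) ∈ ball (0 : ℂ) 1 := by
    intro s hs
    rw [mem_ball_zero_iff, hwn, Real.exp_lt_one_iff]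
    linarith
  obtain ⟨Rs, hRs⟩ : ∃ Rs : ℂ → ℂ, Rs = fun s => ∑' n, ((Complex.exp (ζ - s))⁻¹) ^ n *
      Lam l (cf (F t)) n (Complex.exp ζ) := ⟨_, rfl⟩
  have hid : ∀ s : ℂ, ζ.re < s.re → s.re < 0 →
      Kf l s = Rs s / F t (Complex.exp (ζ - s)) +
        Q (Complex.exp (ζ - s)) / F t (Complex.exp (ζ - s)) := by
    intro s hs hs0
    have h3 := hQ (Complex.exp (ζ - s)) (by
      rw [hwn, Complex.norm_exp, Real.exp_lt_exp]; linarith) (by
      rw [hwn, Real.exp_lt_one_iff]; linarith)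
    have h4 : (∑' n, l n * (Complex.exp ζ / Complex.exp (ζ - s)) ^ n) = Kf l s := by
      unfold Kf
      refine tsum_congr (fun n => ?_)
      rw [← Complex.exp_sub, ← Complex.exp_nat_mul]
      congr 3
      ring
    rw [h4] at h3
    rw [← add_div, eq_div_iff (hF0 _), mul_comm, h3, hRs]
  have hRb : ∀ s : ℂ, ζ.re < s.re → s.re < 0 → ‖Rs s‖ ≤ 16 * B * ((-s.re)⁻¹) ^ 3 := by
    intro s hs hs0
    have h3 : ‖Rs s‖ ≤ 2 * B / (1 - Real.exp s.re) ^ 3 := by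
      rw [hRs]
      refine lemmaA_sum _ (Real.exp s.re) B (Real.exp_pos _).le
        (by rw [Real.exp_lt_one_iff]; exact hs0) (by linarith) (fun n => ?_)
      rw [norm_mul, norm_pow, norm_inv, hwn]
      have h4 := hg n
      rw [Complex.norm_exp] at h4
      calc ((Real.exp (ζ.re - s.re))⁻¹) ^ n * ‖Lam l (cf (F t)) n (Complex.exp ζ)‖
          ≤ ((Real.exp (ζ.re - s.re))⁻¹) ^ n *
            (((n : ℝ) + 1) ^ 2 * Real.exp ζ.re ^ n * B) :=
            mul_le_mul_of_nonneg_left h4 (by positivity)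
        _ = ((n : ℝ) + 1) ^ 2 * ((Real.exp (ζ.re - s.re))⁻¹ * Real.exp ζ.re) ^ n * B := by
            rw [mul_pow]; ring
        _ = _ := by
            congr 3
            rw [← Real.exp_neg, ← Real.exp_add]
            congr 1
            ring
    have h5 := lemmaA_one_sub_exp (-s.re) (by linarith) (by linarith)
    rw [neg_neg] at h5
    refine h3.trans ?_
    have h6 : 0 < -s.re := by linarith
    have h7 : ((-s.re) / 2) ^ 3 ≤ (1 - Real.exp s.re) ^ 3 := pow_le_pow_left₀ (by linarith) h5 3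
    calc 2 * B / (1 - Real.exp s.re) ^ 3 ≤ 2 * B / ((-s.re) / 2) ^ 3 :=
          div_le_div_of_nonneg_left (by linarith) (by positivity) h7
      _ = 16 * B * ((-s.re)⁻¹) ^ 3 := by field_simp; ring
  have hFi : ∀ s : ℂ, ζ.re < s.re → s.re < 0 → ∀ α : ℝ, ‖F t (Complex.exp (ζ - s))‖⁻¹ ≤
      Real.exp (-(t α * (s.re - ζ.re) / ‖s - (ζ + (α : ℂ) * Complex.I)‖ ^ 2)) := by
    intro s hs hs0 α
    have h3 := lemmaA_F t ht (s - ζ) (by rw [Complex.sub_re]; linarith)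
      (by rw [Complex.sub_re]; linarith) α
    rw [neg_sub, Complex.sub_re, sub_sub] at h3
    exact h3
  have hFi1 : ∀ s : ℂ, ζ.re < s.re → s.re < 0 → ‖F t (Complex.exp (ζ - s))‖⁻¹ ≤ 1 := by
    intro s hs hs0
    refine (hFi s hs hs0 0).trans ?_
    rw [Real.exp_le_one_iff, neg_nonpos]
    exact div_nonneg (mul_nonneg (ht 0) (by linarith)) (sq_nonneg _)
  have hdiff : ∀ s : ℂ, ζ.re < s.re → s.re < 0 → ∀ α : ℝ,
      ‖Kf l s - Q (Complex.exp (ζ - s)) / F t (Complex.exp (ζ - s))‖ ≤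
        16 * B * ((-s.re)⁻¹) ^ 3 *
        Real.exp (-(t α * (s.re - ζ.re) / ‖s - (ζ + (α : ℂ) * Complex.I)‖ ^ 2)) := by
    intro s hs hs0 α
    rw [hid s hs hs0, add_sub_cancel_right, norm_div, div_eq_mul_inv]
    exact mul_le_mul (hRb s hs hs0) (hFi s hs hs0 α) (inv_nonneg.2 (norm_nonneg _))
      ((norm_nonneg _).trans (hRb s hs hs0))
  have hξ : 0 < -ζ.re := by linarith
  have hinv1 : 1 ≤ (-ζ.re)⁻¹ := by
    rw [one_le_inv₀ hξ]; linarith
  have hE0 : 0 ≤ ((-ζ.re)⁻¹) ^ 3 := by positivity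
  have hLB : L0 ≤ L0 * B := le_mul_of_one_le_right (by linarith) hB
  have hLB2 : B ≤ L0 * B := le_mul_of_one_le_left (by linarith) hL0
  -- bound near the line
  have hG1 : ∀ s : ℂ, ζ.re < s.re → s.re ≤ ζ.re / 2 →
      ‖Q (Complex.exp (ζ - s)) / F t (Complex.exp (ζ - s))‖ ≤
        1000 * L0 * B * ((-ζ.re)⁻¹) ^ 3 := by
    intro s hs hs2
    have hs0 : s.re < 0 := by linarith
    have h3 := Kf_norm l L0 hL0 hl s (by linarith) hs0
    have h4 : ‖Rs s / F t (Complex.exp (ζ - s))‖ ≤ 16 * B * ((-s.re)⁻¹) ^ 3 := by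
      rw [norm_div, div_eq_mul_inv]
      calc ‖Rs s‖ * ‖F t (Complex.exp (ζ - s))‖⁻¹ ≤ (16 * B * ((-s.re)⁻¹) ^ 3) * 1 :=
            mul_le_mul (hRb s hs hs0) (hFi1 s hs hs0) (inv_nonneg.2 (norm_nonneg _))
              ((norm_nonneg _).trans (hRb s hs hs0))
        _ = _ := mul_one _
    have h5 : Q (Complex.exp (ζ - s)) / F t (Complex.exp (ζ - s)) =
        Kf l s - Rs s / F t (Complex.exp (ζ - s)) := by
      rw [hid s hs hs0]; ring
    have h6 : (-s.re)⁻¹ ≤ 2 * (-ζ.re)⁻¹ := by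
      have h7 : (2 : ℝ) * (-ζ.re)⁻¹ = ((-ζ.re) / 2)⁻¹ := by
        rw [inv_div]; ring
      rw [h7]
      exact inv_anti₀ (by linarith) (by linarith)
    have h8 : 0 ≤ (-s.re)⁻¹ := inv_nonneg.2 (by linarith)
    have h9 : ((-s.re)⁻¹) ^ 3 ≤ 8 * ((-ζ.re)⁻¹) ^ 3 := by
      calc ((-s.re)⁻¹) ^ 3 ≤ (2 * (-ζ.re)⁻¹) ^ 3 := pow_le_pow_left₀ h8 h6 3
        _ = _ := by ring
    have h10 : (-ζ.re)⁻¹ ≤ ((-ζ.re)⁻¹) ^ 3 := by
      calc (-ζ.re)⁻¹ = ((-ζ.re)⁻¹) ^ 1 := (pow_one _).symm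
        _ ≤ _ := pow_le_pow_right₀ hinv1 (by norm_num)
    rw [h5]
    refine (norm_sub_le _ _).trans ?_
    have h11 : 2 * L0 / (-s.re) ≤ 4 * L0 * ((-ζ.re)⁻¹) ^ 3 := by
      rw [div_eq_mul_inv]
      calc 2 * L0 * (-s.re)⁻¹ ≤ 2 * L0 * (2 * (-ζ.re)⁻¹) :=
            mul_le_mul_of_nonneg_left h6 (by linarith)
        _ ≤ 2 * L0 * (2 * ((-ζ.re)⁻¹) ^ 3) :=
            mul_le_mul_of_nonneg_left (by linarith) (by linarith)
        _ = _ := by ring
    have h12 : 16 * B * ((-s.re)⁻¹) ^ 3 ≤ 128 * B * ((-ζ.re)⁻¹) ^ 3 := by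
      calc 16 * B * ((-s.re)⁻¹) ^ 3 ≤ 16 * B * (8 * ((-ζ.re)⁻¹) ^ 3) :=
            mul_le_mul_of_nonneg_left h9 (by linarith)
        _ = _ := by ring
    have h13 : 4 * L0 + 128 * B ≤ 1000 * L0 * B := by nlinarith
    calc ‖Kf l s‖ + ‖Rs s / F t (Complex.exp (ζ - s))‖
        ≤ 4 * L0 * ((-ζ.re)⁻¹) ^ 3 + 128 * B * ((-ζ.re)⁻¹) ^ 3 := by linarith
      _ = (4 * L0 + 128 * B) * ((-ζ.re)⁻¹) ^ 3 := by ring
      _ ≤ _ := mul_le_mul_of_nonneg_right h13 hE0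
  have hG2 : ∀ s : ℂ, ζ.re < s.re →
      ‖Q (Complex.exp (ζ - s)) / F t (Complex.exp (ζ - s))‖ ≤
        1000 * L0 * B * ((-ζ.re)⁻¹) ^ 3 := by
    intro s hs
    by_cases hs2 : s.re ≤ ζ.re / 2
    · exact hG1 s hs hs2
    push Not at hs2
    have hr : Real.exp (ζ.re / 2) < 1 := by
      rw [Real.exp_lt_one_iff]; linarith
    have hr0 : 0 < Real.exp (ζ.re / 2) := Real.exp_pos _
    have hdc : DiffContOnCl ℂ (fun w => Q w / F t w) (ball 0 (Real.exp (ζ.re / 2))) :=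
      hqd.diffContOnCl_ball (closedBall_subset_ball hr)
    refine Complex.norm_le_of_forall_mem_frontier_norm_le (f := fun w => Q w / F t w)
      (U := ball 0 (Real.exp (ζ.re / 2))) isBounded_ball hdc ?_ ?_
    · intro w hw
      rw [frontier_ball _ hr0.ne', mem_sphere_zero_iff_norm] at hw
      have hw0 : w ≠ 0 := by
        intro h0
        rw [h0, norm_zero] at hw
        linarith
      have h3 : Complex.exp (ζ - (ζ - Complex.log w)) = w := by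
        rw [sub_sub_cancel, Complex.exp_log hw0]
      have h4 : (ζ - Complex.log w).re = ζ.re / 2 := by
        rw [Complex.sub_re, Complex.log_re, hw, Real.log_exp]; ring
      have h5 := hG1 (ζ - Complex.log w) (by rw [h4]; linarith) (by rw [h4])
      rw [h3] at h5
      exact h5
    · apply subset_closure
      rw [mem_ball_zero_iff, hwn, Real.exp_lt_exp]
      linarith
  refine ⟨fun s => Q (Complex.exp (ζ - s)) / F t (Complex.exp (ζ - s)), fun α => ?_⟩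
  have hre : (ζ + (α : ℂ) * Complex.I).re = ζ.re := by simp
  refine ⟨?_, ?_, ?_⟩
  · rw [hre]
    exact hqd.comp (by fun_prop) (fun s hs => hwb s hs)
  · rw [hre]
    exact hG2
  · rw [hre]
    intro s hs hs0
    refine (hdiff s hs hs0 α).trans ?_
    apply mul_le_mul_of_nonneg_right _ (Real.exp_pos _).le
    have h3 : 0 ≤ ((-s.re)⁻¹) ^ 3 := by
      have : 0 ≤ (-s.re)⁻¹ := inv_nonneg.2 (by linarith)
      positivity
    apply mul_le_mul_of_nonneg_right _ h3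
    have h4 : 1 ≤ ((-ζ.re)⁻¹) ^ 3 := one_le_pow₀ hinv1
    have h5 : 16 * B ≤ 1000 * L0 * B := by nlinarith
    calc 16 * B ≤ 1000 * L0 * B := h5
      _ = 1000 * L0 * B * 1 := (mul_one _).symm
      _ ≤ _ := mul_le_mul_of_nonneg_left h4 (by positivity)

end NM
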