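import Pool.Agent.Helper360.NM.Defs
import Pool.Agent.Helper360.NM.P_lemmaA



namespace NM
open Complex Metric Set Filter Topology MeasureTheory


theorem station2 (l : ℕ → ℂ) (L0 : ℝ) (hL0 : 1 ≤ L0) (hl : ∀ n, ‖l n‖ ≤ L0) (X m x y v : ℝ)
    (hX : 0 < X) (hm : 0 ≤ m) (hx : 0 < x) (hx1 : x ≤ 1) (hv : 0 ≤ v)
    (hG : Good l (Finsupp.single 0 1 + Finsupp.single X m) (Complex.exp ⟨-x, y⟩) (Real.exp v)) :
    ∃ G, Appr (Kf l) ⟨-x, y⟩ 1 (1000 * L0 * Real.exp v * (x⁻¹) ^ 3) G ∧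
      Appr (Kf l) ⟨-x, y + X⟩ m (1000 * L0 * Real.exp v * (x⁻¹) ^ 3) G := by
  classical
  have ht : ∀ α, 0 ≤ (Finsupp.single (0 : ℝ) (1 : ℝ) + Finsupp.single X m) α := by
    intro α
    rw [Finsupp.add_apply, Finsupp.single_apply, Finsupp.single_apply]
    split_ifs <;> linarith
  obtain ⟨G, hG'⟩ := lemmaA l L0 hL0 hl _ ht ⟨-x, y⟩ (by simpa using hx1) (by simpa using hx)
    (Real.exp v) (Real.one_le_exp hv) hG
  have e0 : (Finsupp.single (0 : ℝ) (1 : ℝ) + Finsupp.single X m) 0 = 1 := by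
    rw [Finsupp.add_apply, Finsupp.single_eq_same, Finsupp.single_apply, if_neg hX.ne', add_zero]
  have e1 : (Finsupp.single (0 : ℝ) (1 : ℝ) + Finsupp.single X m) X = m := by
    rw [Finsupp.add_apply, Finsupp.single_eq_same, Finsupp.single_apply, if_neg hX.ne, zero_add]
  refine ⟨G, ?_, ?_⟩
  · have h := hG' 0
    rw [e0] at h
    have e2 : ((⟨-x, y⟩ : ℂ) + ((0 : ℝ) : ℂ) * Complex.I) = ⟨-x, y⟩ := by simp
    rw [e2] at h
    simpa using h
  · have h := hG' X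
    rw [e1] at h
    have e2 : ((⟨-x, y⟩ : ℂ) + (X : ℂ) * Complex.I) = ⟨-x, y + X⟩ := by
      apply Complex.ext <;> simp
    rw [e2] at h
    simpa using h

end NM
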