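import Pool.Agent.Helper360.NM.Defs
import Pool.Agent.Helper360.NM.P_Appr_mono
import Pool.Agent.Helper360.NM.P_Appr_transl
import Pool.Agent.Helper360.NM.P_station2



namespace NM
open Complex Metric Set Filter Topology MeasureTheory


theorem St2_of_bound671 (L0 C' d ρ X : ℝ) (hL0 : 1 ≤ L0) (hC : 1 ≤ C') (hd : 0 < d)
    (hd1 : d ≤ 1 / (1000 * C')) (hρ : 0 < ρ) (hX : 0 < X)
    (hX1 : X * (24 * 1000 ^ 5 * L0) ≤ d ^ 4 * ρ ^ 3) :
    1000 * L0 * Real.exp (C' * d ^ 2 / X) * ((ρ * X)⁻¹) ^ 3 ≤ Real.exp (d / (500 * X)) := by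
  have h1 : C' * d ≤ 1 / 1000 := by
    rw [le_div_iff₀ (by positivity)] at hd1
    linarith
  have h2 : C' * d ^ 2 / X ≤ d / (1000 * X) := by
    rw [div_le_div_iff₀ hX (by positivity)]
    have : C' * d * (d * (1000 * X)) ≤ 1 / 1000 * (d * (1000 * X)) :=
      mul_le_mul_of_nonneg_right h1 (by positivity)
    nlinarith
  have h3 : Real.exp (C' * d ^ 2 / X) ≤ Real.exp (d / (1000 * X)) := Real.exp_le_exp.2 h2
  have h4 : 1000 * L0 * ((ρ * X)⁻¹) ^ 3 ≤ Real.exp (d / (1000 * X)) := by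
    have h5 := Real.pow_div_factorial_le_exp (d / (1000 * X)) (by positivity) 4
    refine le_trans ?_ h5
    have e1 : 1000 * L0 * ((ρ * X)⁻¹) ^ 3 = (1000 * L0) / (ρ ^ 3 * X ^ 3) := by
      field_simp
    have e2 : (d / (1000 * X)) ^ 4 / ((Nat.factorial 4 : ℕ) : ℝ) =
        d ^ 4 / (24 * 1000 ^ 4 * X ^ 4) := by
      have : ((Nat.factorial 4 : ℕ) : ℝ) = 24 := by norm_num [Nat.factorial]
      rw [this]
      field_simp
    rw [e1, e2, div_le_div_iff₀ (by positivity) (by positivity)]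
    have := mul_le_mul_of_nonneg_right hX1 (by positivity : (0 : ℝ) ≤ X ^ 3)
    nlinarith
  have h6 : Real.exp (d / (500 * X)) = Real.exp (d / (1000 * X)) * Real.exp (d / (1000 * X)) := by
    rw [← Real.exp_add]
    congr 1
    field_simp
    ring
  rw [h6]
  calc 1000 * L0 * Real.exp (C' * d ^ 2 / X) * ((ρ * X)⁻¹) ^ 3
      = (1000 * L0 * ((ρ * X)⁻¹) ^ 3) * Real.exp (C' * d ^ 2 / X) := by ring
    _ ≤ Real.exp (d / (1000 * X)) * Real.exp (d / (1000 * X)) := by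
      gcongr

theorem St2_of (l : ℕ → ℂ) (L0 : ℝ) (hL0 : 1 ≤ L0) (hl : ∀ n, ‖l n‖ ≤ L0)
    (C' d ρ θ X0 : ℝ) (hC : 1 ≤ C') (hd : 0 < d) (hd1 : d ≤ 1 / (1000 * C')) (hρ : 0 < ρ)
    (hρ1 : ρ ≤ 1 / 1000) (hX0 : 0 < X0)
    (hU : ∀ X : ℝ, 0 < X → X < X0 → ∃ h : ℝ, 1 / 4 ≤ h ∧ h ≤ 3 / 4 ∧
      Good l (Finsupp.single 0 1 + Finsupp.single X (d ^ 2))
        (Complex.exp ⟨-(ρ * X), θ - (1 - h) * X⟩) (Real.exp (C' * d ^ 2 / X))) :
    ∃ X1 : ℝ, 0 < X1 ∧ St2 (fun s => Kf l (s + (θ : ℂ) * Complex.I)) ρ d X1 := by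
  have hD : (0 : ℝ) < 24 * 1000 ^ 5 * L0 := by positivity
  refine ⟨min X0 (min 1 (d ^ 4 * ρ ^ 3 / (24 * 1000 ^ 5 * L0))),
    lt_min hX0 (lt_min one_pos (by positivity)), fun X hX hX1 => ?_⟩
  have hXX0 : X < X0 := hX1.trans_le (min_le_left _ _)
  have hX11 : X < 1 := hX1.trans_le ((min_le_right _ _).trans (min_le_left _ _))
  have hXb : X * (24 * 1000 ^ 5 * L0) ≤ d ^ 4 * ρ ^ 3 := by
    have := hX1.trans_le ((min_le_right _ _).trans (min_le_right _ _))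
    rw [lt_div_iff₀ hD] at this
    exact this.le
  obtain ⟨h, h1, h2, hG⟩ := hU X hX hXX0
  have hx1 : ρ * X ≤ 1 := by nlinarith
  obtain ⟨G, hG1, hG2⟩ := station2 l L0 hL0 hl X (d ^ 2) (ρ * X) (θ - (1 - h) * X)
    (C' * d ^ 2 / X) hX (by positivity) (by positivity) hx1 (by positivity) hG
  have hb := St2_of_bound671 L0 C' d ρ X hL0 hC hd hd1 hρ hX hXb
  refine ⟨h, h1, h2, fun s => G (s + (θ : ℂ) * Complex.I), ?_, ?_⟩
  · refine (Appr_transl (Kf l) G ⟨-(ρ * X), -((1 - h) * X)⟩ θ 1 _).1 ?_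
    have e : (⟨-(ρ * X), -((1 - h) * X)⟩ + (θ : ℂ) * Complex.I : ℂ) =
        ⟨-(ρ * X), θ - (1 - h) * X⟩ := by
      apply Complex.ext <;> simp
      ring
    rw [e]
    exact Appr_mono _ _ _ _ _ _ _ le_rfl hb (by positivity) hG1
  · refine (Appr_transl (Kf l) G ⟨-(ρ * X), h * X⟩ θ (d ^ 2) _).1 ?_
    have e : (⟨-(ρ * X), h * X⟩ + (θ : ℂ) * Complex.I : ℂ) =
        ⟨-(ρ * X), θ - (1 - h) * X + X⟩ := by
      apply Complex.ext <;> simp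
      ring
    rw [e]
    exact Appr_mono _ _ _ _ _ _ _ le_rfl hb (by positivity) hG2

end NM
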