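import Pool.Agent.Helper360.NM.Defs
import Pool.Agent.Helper360.NM.P_P_near
import Pool.Agent.Helper360.NM.P_P_far



namespace NM
open Complex Metric Set Filter Topology MeasureTheory


theorem V_split (σ : Measure (sphere (0:ℂ) 1)) (hσ : IsFiniteMeasure σ) (x y D D' : ℝ) (hx : 0 < x)
    (hx1 : x ≤ 1) (hD : 2 * x ≤ D) (hD' : 2 * x ≤ D') (A B : Set (sphere (0:ℂ) 1))
    (hA : MeasurableSet A) (hB : MeasurableSet B)
    (hBD : ∀ ω ∈ B, D ≤ ‖(ω : ℂ) - Complex.exp ((y : ℂ) * Complex.I)‖)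
    (hC : ∀ ω : sphere (0:ℂ) 1, ω ∉ A → ω ∉ B →
      D' ≤ ‖(ω : ℂ) - Complex.exp ((y : ℂ) * Complex.I)‖) :
    V σ (Complex.exp ⟨-x, y⟩) ≤ 4 / x * σ.real A + 8 * x / D ^ 2 * σ.real B
      + 8 * x / D' ^ 2 * σ.real univ := by
  set g : sphere (0:ℂ) 1 → ℝ := fun ω => A.indicator (fun _ => 4 / x) ω +
    B.indicator (fun _ => 8 * x / D ^ 2) ω + 8 * x / D' ^ 2 with hg
  have hi1 : Integrable (A.indicator (fun _ => 4 / x)) σ := (integrable_const _).indicator hA
  have hi2 : Integrable (B.indicator (fun _ => 8 * x / D ^ 2)) σ :=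
    (integrable_const _).indicator hB
  have hgi : Integrable g σ := (hi1.add hi2).add (integrable_const _)
  have hnn : ∀ ω : sphere (0:ℂ) 1, 0 ≤ (1 - ‖Complex.exp (⟨-x, y⟩ : ℂ)‖ ^ 2) /
      ‖(ω : ℂ) - Complex.exp (⟨-x, y⟩ : ℂ)‖ ^ 2 := by
    intro ω
    apply div_nonneg _ (by positivity)
    rw [Complex.norm_exp]
    have h1 : Real.exp (-x) ≤ 1 := Real.exp_le_one_iff.mpr (by linarith)
    have h2 : 0 < Real.exp (-x) := Real.exp_pos _
    show 0 ≤ 1 - Real.exp (-x) ^ 2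
    nlinarith
  have hle : ∀ ω : sphere (0:ℂ) 1, (1 - ‖Complex.exp (⟨-x, y⟩ : ℂ)‖ ^ 2) /
      ‖(ω : ℂ) - Complex.exp (⟨-x, y⟩ : ℂ)‖ ^ 2 ≤ g ω := by
    intro ω
    have hω : ‖(ω : ℂ)‖ = 1 := mem_sphere_zero_iff_norm.mp ω.2
    have p1 : 0 ≤ A.indicator (fun _ => 4 / x) ω :=
      Set.indicator_nonneg (fun _ _ => by positivity) _
    have p2 : 0 ≤ B.indicator (fun _ => 8 * x / D ^ 2) ω :=
      Set.indicator_nonneg (fun _ _ => by positivity) _
    have p3 : 0 ≤ 8 * x / D' ^ 2 := by positivity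
    simp only [hg]
    by_cases hωA : ω ∈ A
    · have := P_near x y hx hx1 ω hω
      rw [Set.indicator_of_mem hωA]
      linarith
    · by_cases hωB : ω ∈ B
      · have := P_far x y D hx hx1 ω hω hD (hBD ω hωB)
        rw [Set.indicator_of_mem hωB]
        linarith
      · have := P_far x y D' hx hx1 ω hω hD' (hC ω hωA hωB)
        linarith
  unfold V
  refine (integral_mono_of_nonneg (Eventually.of_forall hnn) hgi (Eventually.of_forall hle)).trans
    (le_of_eq ?_)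
  simp only [hg]
  rw [integral_add (f := fun ω => A.indicator (fun _ => 4 / x) ω +
    B.indicator (fun _ => 8 * x / D ^ 2) ω) (hi1.add hi2) (integrable_const _),
    integral_add hi1 hi2, integral_indicator_const _ hA, integral_indicator_const _ hB,
    integral_const, smul_eq_mul, smul_eq_mul, smul_eq_mul]
  ring

end NM
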