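import Pool.Agent.Helper360.NM.Defs
import Pool.Agent.Helper360.NM.P_V_split



namespace NM
open Complex Metric Set Filter Topology MeasureTheory


theorem Vloc_small (σ : Measure (sphere (0:ℂ) 1)) (hσ : IsFiniteMeasure σ)
    (p : sphere (0:ℂ) 1) (ε : ℝ) (hε : 0 < ε) :
    ∃ r : ℝ, 0 < r ∧ MeasurableSet {ω : sphere (0:ℂ) 1 | 0 < ‖(ω : ℂ) - p‖ ∧ ‖(ω : ℂ) - p‖ < r} ∧
      σ.real {ω : sphere (0:ℂ) 1 | 0 < ‖(ω : ℂ) - p‖ ∧ ‖(ω : ℂ) - p‖ < r} ≤ ε := by
  have hm : ∀ r : ℝ, MeasurableSet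
      {ω : sphere (0:ℂ) 1 | 0 < ‖(ω : ℂ) - p‖ ∧ ‖(ω : ℂ) - p‖ < r} := by
    intro r
    have hc : Continuous (fun ω : sphere (0:ℂ) 1 => ‖(ω : ℂ) - p‖) := by fun_prop
    exact (measurableSet_lt measurable_const hc.measurable).inter
      (measurableSet_lt hc.measurable measurable_const)
  let A : ℕ → Set (sphere (0:ℂ) 1) := fun n =>
    {ω : sphere (0:ℂ) 1 | 0 < ‖(ω : ℂ) - p‖ ∧ ‖(ω : ℂ) - p‖ < 1 / ((n : ℝ) + 1)}
  have hA : Antitone A := by
    intro m n hmn ω hω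
    refine ⟨hω.1, hω.2.trans_le ?_⟩
    apply one_div_le_one_div_of_le (by positivity)
    have : (m : ℝ) ≤ n := by exact_mod_cast hmn
    linarith
  have hI : ⋂ n, A n = ∅ := by
    rw [Set.eq_empty_iff_forall_notMem]
    intro ω hω
    rw [Set.mem_iInter] at hω
    obtain ⟨n, hn⟩ := exists_nat_one_div_lt (hω 0).1
    exact absurd (hω n).2 (not_lt.mpr hn.le)
  have ht := tendsto_measure_iInter_atTop (μ := σ) (s := A)
    (fun n => (hm _).nullMeasurableSet) hA ⟨0, measure_ne_top _ _⟩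
  rw [hI, measure_empty] at ht
  obtain ⟨n, hn⟩ := ((tendsto_order.1 ht).2 (ENNReal.ofReal ε) (by simpa using hε)).exists
  refine ⟨1 / ((n : ℝ) + 1), by positivity, hm _, ?_⟩
  rw [measureReal_def]
  exact ENNReal.toReal_le_of_le_ofReal hε.le (le_of_lt hn)

theorem Vloc_arc (θ y : ℝ) (hy : |y| ≤ 1) :
    |y| / 2 ≤ ‖Complex.exp ((θ : ℂ) * Complex.I) - Complex.exp (((θ + y : ℝ) : ℂ) * Complex.I)‖ ∧
    ‖Complex.exp ((θ : ℂ) * Complex.I) - Complex.exp (((θ + y : ℝ) : ℂ) * Complex.I)‖ ≤ |y| := by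
  have e : Complex.exp ((θ : ℂ) * Complex.I) - Complex.exp (((θ + y : ℝ) : ℂ) * Complex.I)
      = -(Complex.exp ((θ : ℂ) * Complex.I) * (Complex.exp (Complex.I * (y : ℂ)) - 1)) := by
    rw [mul_sub, ← Complex.exp_add, mul_one]
    push_cast
    rw [show (θ : ℂ) * Complex.I + Complex.I * y = ((θ : ℂ) + y) * Complex.I by ring]
    ring
  have e2 : ‖Complex.exp ((θ : ℂ) * Complex.I) - Complex.exp (((θ + y : ℝ) : ℂ) * Complex.I)‖
      = ‖Complex.exp (Complex.I * (y : ℂ)) - 1‖ := by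
    rw [e, norm_neg, norm_mul, Complex.norm_exp_ofReal_mul_I, one_mul]
  rw [e2]
  constructor
  · rw [Complex.norm_exp_I_mul_ofReal_sub_one, Real.norm_eq_abs, abs_mul, abs_two]
    have hpi := Real.pi_le_four
    have hpi3 := Real.pi_gt_three
    have h1 : ∀ t : ℝ, 0 ≤ t → t ≤ 1 → t / 2 ≤ 2 * |Real.sin (t / 2)| := by
      intro t ht ht1
      have h2 := Real.mul_le_sin (x := t / 2) (by linarith) (by linarith)
      have h3 : t / 4 ≤ 2 / Real.pi * (t / 2) := by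
        have h4 : 1 / 2 ≤ 2 / Real.pi := by
          rw [le_div_iff₀ Real.pi_pos]
          linarith
        nlinarith
      have h5 := le_abs_self (Real.sin (t / 2))
      linarith
    rcases le_total 0 y with h0 | h0
    · rw [abs_of_nonneg h0] at hy ⊢
      exact h1 y h0 hy
    · rw [abs_of_nonpos h0] at hy ⊢
      have := h1 (-y) (by linarith) hy
      rw [show (-y) / 2 = -(y / 2) by ring, Real.sin_neg, abs_neg] at this
      rw [show (-y) / 2 = -(y / 2) by ring]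
      exact this
  · have := @Real.norm_exp_I_mul_ofReal_sub_one_le y
    rwa [Real.norm_eq_abs] at this

theorem Vloc (σ : Measure (sphere (0:ℂ) 1)) (hσ : IsFiniteMeasure σ) (δ : ℝ) (hδ : 0 < δ) :
    ∃ ρd : ℝ, 0 < ρd ∧ ∀ ρ' : ℝ, 0 < ρ' → ρ' ≤ ρd → ∀ θ : ℝ, ∃ X0 : ℝ, 0 < X0 ∧
      ∀ X x y : ℝ, 0 < X → X < X0 → ρ' * X ≤ x → x ≤ ρd * X → (y = X ∨ y = -X) →
        V σ (Complex.exp ⟨-x, θ + y⟩) ≤ δ / X := by
  have hS : 0 ≤ σ.real univ := measureReal_nonneg
  refine ⟨min (1 / 100) (δ / (100 * (σ.real univ + 1))), by positivity, ?_⟩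
  intro ρ' hρ' hρ'd θ
  have hpn : Complex.exp ((θ : ℂ) * Complex.I) ∈ sphere (0:ℂ) 1 := by
    rw [mem_sphere_zero_iff_norm, Complex.norm_exp_ofReal_mul_I]
  obtain ⟨p, hp⟩ : ∃ p : sphere (0:ℂ) 1, (p : ℂ) = Complex.exp ((θ : ℂ) * Complex.I) :=
    ⟨⟨_, hpn⟩, rfl⟩
  obtain ⟨r, hr, hAm, hAs⟩ := Vloc_small σ hσ p (ρ' * δ / 100) (by positivity)
  refine ⟨min 1 (r / 2), by positivity, ?_⟩
  intro X x y hX hXX0 hx1 hx2 hy
  have hX1 : X < 1 := hXX0.trans_le (min_le_left _ _)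
  have hXr : X < r / 2 := hXX0.trans_le (min_le_right _ _)
  have hρ1 : min (1 / 100) (δ / (100 * (σ.real univ + 1))) ≤ 1 / 100 := min_le_left _ _
  have hρ2 : min (1 / 100) (δ / (100 * (σ.real univ + 1))) ≤ δ / (100 * (σ.real univ + 1)) :=
    min_le_right _ _
  obtain ⟨ρd, hρd⟩ : ∃ ρd : ℝ, ρd = min (1 / 100) (δ / (100 * (σ.real univ + 1))) := ⟨_, rfl⟩
  rw [← hρd] at hρ1 hρ2 hx2 hρ'd
  have hρdS : ρd * σ.real univ ≤ δ / 100 := by
    rw [le_div_iff₀ (by positivity)] at hρ2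
    nlinarith [hρ'.trans_le hρ'd]
  have hx0 : 0 < x := lt_of_lt_of_le (by positivity) hx1
  have hx3 : x ≤ X / 100 := by
    refine hx2.trans ?_
    have := mul_le_mul_of_nonneg_right hρ1 hX.le
    linarith
  have habs : |y| = X := by
    rcases hy with rfl | rfl
    · exact abs_of_pos hX
    · rw [abs_neg]; exact abs_of_pos hX
  have harc := Vloc_arc θ y (by rw [habs]; exact hX1.le)
  rw [habs] at harc
  have hsp := V_split σ hσ x (θ + y) (X / 2) (r / 2) hx0 (by linarith) (by linarith) (by linarith)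
    {ω : sphere (0:ℂ) 1 | 0 < ‖(ω : ℂ) - p‖ ∧ ‖(ω : ℂ) - p‖ < r} {p} hAm
    (measurableSet_singleton p) (by
      intro ω hω
      rw [Set.mem_singleton_iff] at hω
      rw [hω, hp]
      exact harc.1) (by
      intro ω hωA hωB
      have hne : (ω : ℂ) ≠ p := fun h => hωB (by
        rw [Set.mem_singleton_iff]
        exact Subtype.ext h)
      have hpos : 0 < ‖(ω : ℂ) - p‖ := norm_pos_iff.mpr (sub_ne_zero.mpr hne)
      have hge : r ≤ ‖(ω : ℂ) - p‖ := by
        by_contra hlt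
        exact hωA ⟨hpos, not_le.mp hlt⟩
      have h1 : ‖(ω : ℂ) - p‖ ≤ ‖(ω : ℂ) - Complex.exp (((θ + y : ℝ) : ℂ) * Complex.I)‖
          + ‖(p : ℂ) - Complex.exp (((θ + y : ℝ) : ℂ) * Complex.I)‖ := by
        have e : (ω : ℂ) - p = ((ω : ℂ) - Complex.exp (((θ + y : ℝ) : ℂ) * Complex.I))
          - ((p : ℂ) - Complex.exp (((θ + y : ℝ) : ℂ) * Complex.I)) := by ring
        rw [e]
        exact norm_sub_le _ _
      have h2 := harc.2
      rw [← hp] at h2
      linarith)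
  refine hsp.trans ?_
  have hB : σ.real {p} ≤ σ.real univ := measureReal_mono (Set.subset_univ _)
  have t1 : 4 / x * σ.real {ω : sphere (0:ℂ) 1 | 0 < ‖(ω : ℂ) - p‖ ∧ ‖(ω : ℂ) - p‖ < r}
      ≤ 4 / 100 * (δ / X) := by
    have h1 : 4 / x ≤ 4 / (ρ' * X) := by
      apply div_le_div_of_nonneg_left (by norm_num) (by positivity) hx1
    calc 4 / x * σ.real {ω : sphere (0:ℂ) 1 | 0 < ‖(ω : ℂ) - p‖ ∧ ‖(ω : ℂ) - p‖ < r}
        ≤ 4 / (ρ' * X) * (ρ' * δ / 100) := by
          apply mul_le_mul h1 hAs measureReal_nonneg (by positivity)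
      _ = 4 / 100 * (δ / X) := by field_simp
  have t2 : 8 * x / (X / 2) ^ 2 * σ.real {p} ≤ 32 / 100 * (δ / X) := by
    calc 8 * x / (X / 2) ^ 2 * σ.real {p} ≤ 8 * (ρd * X) / (X / 2) ^ 2 * σ.real univ := by
          apply mul_le_mul _ hB measureReal_nonneg
          · have := hρ'.trans_le hρ'd
            positivity
          · apply div_le_div_of_nonneg_right _ (by positivity)
            linarith
      _ = 32 / X * (ρd * σ.real univ) := by field_simp; ring
      _ ≤ 32 / X * (δ / 100) := by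
          apply mul_le_mul_of_nonneg_left hρdS (by positivity)
      _ = 32 / 100 * (δ / X) := by field_simp
  have t3 : 8 * x / (r / 2) ^ 2 * σ.real univ ≤ 32 / 100 * (δ / X) := by
    have hle : 8 * x / (r / 2) ^ 2 ≤ 8 * (ρd * X) / X ^ 2 := by
      apply div_le_div₀
      · have := hρ'.trans_le hρ'd
        positivity
      · linarith
      · positivity
      · nlinarith
    calc 8 * x / (r / 2) ^ 2 * σ.real univ ≤ 8 * (ρd * X) / X ^ 2 * σ.real univ :=
          mul_le_mul_of_nonneg_right hle hS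
      _ = 8 / X * (ρd * σ.real univ) := by field_simp
      _ ≤ 8 / X * (δ / 100) := by
          apply mul_le_mul_of_nonneg_left hρdS (by positivity)
      _ ≤ 32 / 100 * (δ / X) := by
          have : 0 < δ / X := by positivity
          have e : 8 / X * (δ / 100) = 8 / 100 * (δ / X) := by field_simp
          rw [e]
          linarith
  have : 0 < δ / X := by positivity
  linarith

end NM
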