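import Pool.Agent.Helper360.NM.Defs
import Pool.Agent.Helper360.NM.P_lemmaA



namespace NM
open Complex Metric Set Filter Topology MeasureTheory


theorem station (l : ℕ → ℂ) (L0 : ℝ) (hL0 : 1 ≤ L0) (hl : ∀ n, ‖l n‖ ≤ L0)
    (σ : Measure (sphere (0:ℂ) 1))
    (hG : ∀ z ∈ ball (0:ℂ) 1, Good l (Finsupp.single 0 1) z (2 * Real.exp (V σ z)))
    (x y v : ℝ) (hx : 0 < x) (hx1 : x ≤ 1) (hv : 0 ≤ v) (hV : V σ (Complex.exp ⟨-x, y⟩) ≤ v) :
    ∃ G, Appr (Kf l) ⟨-x, y⟩ 1 (2000 * L0 * Real.exp v * (x⁻¹) ^ 3) G := by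
  have hev : (1:ℝ) ≤ 2 * Real.exp v := by
    have := Real.one_le_exp hv
    linarith
  have hball : Complex.exp ⟨-x, y⟩ ∈ ball (0:ℂ) 1 := by
    rw [mem_ball, dist_zero_right, Complex.norm_exp]
    exact Real.exp_lt_one_iff.2 (by simpa using hx)
  have hgood : Good l (Finsupp.single 0 1) (Complex.exp ⟨-x, y⟩) (2 * Real.exp v) := by
    intro n
    refine (hG _ hball n).trans ?_
    gcongr
  obtain ⟨G, hGG⟩ := lemmaA l L0 hL0 hl (Finsupp.single 0 1)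
    (fun α => by
      rw [Finsupp.single_apply]
      split_ifs <;> norm_num) ⟨-x, y⟩ (by simpa using hx1) (by simpa using hx) (2 * Real.exp v) hev hgood
  refine ⟨G, ?_⟩
  have h0 := hGG 0
  have e1 : ((⟨-x, y⟩ : ℂ) + ((0:ℝ) : ℂ) * Complex.I) = ⟨-x, y⟩ := by simp
  have e2 : (Finsupp.single (0:ℝ) (1:ℝ)) 0 = 1 := by simp
  have e3 : 1000 * L0 * (2 * Real.exp v) * ((-(⟨-x, y⟩ : ℂ).re)⁻¹) ^ 3
      = 2000 * L0 * Real.exp v * (x⁻¹) ^ 3 := by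
    simp only [neg_neg]
    ring
  rw [e1, e2, e3] at h0
  exact h0

end NM
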