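import Pool.Agent.Helper360.NM.Defs
import Pool.Agent.Helper360.NM.P_Vloc
import Pool.Agent.Helper360.NM.P_Appr_mono
import Pool.Agent.Helper360.NM.P_Appr_transl
import Pool.Agent.Helper360.NM.P_station



namespace NM
open Complex Metric Set Filter Topology MeasureTheory


theorem St3_of_small (L0 ρ' e1 e2 : ℝ) (hL0 : 1 ≤ L0) (hρ : 0 < ρ') (he : e1 < e2) :
    ∃ X1 : ℝ, 0 < X1 ∧ ∀ X x : ℝ, 0 < X → X < X1 → ρ' * X ≤ x →
      2000 * L0 * Real.exp (e1 / X) * (x⁻¹) ^ 3 ≤ Real.exp (e2 / X) := by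
  set c := e2 - e1 with hc
  have hc0 : 0 < c := by linarith
  set C : ℝ := 2000 * L0 * (ρ'⁻¹) ^ 3 with hC
  have hC0 : 0 < C := by positivity
  refine ⟨c ^ 4 / (24 * C), by positivity, ?_⟩
  intro X x hX hX1 hx
  have hx0 : 0 < ρ' * X := by positivity
  have hxx : 0 < x := lt_of_lt_of_le hx0 hx
  have hxi : 0 ≤ x⁻¹ := (inv_pos.2 hxx).le
  have h1 : (x⁻¹) ^ 3 ≤ ((ρ' * X)⁻¹) ^ 3 :=
    pow_le_pow_left₀ hxi (inv_anti₀ hx0 hx) 3
  have hcx : 0 ≤ c / X := by positivity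
  have h2 := Real.pow_div_factorial_le_exp (c / X) hcx 4
  have h3 : C * (X⁻¹) ^ 3 ≤ (c / X) ^ 4 / ((Nat.factorial 4 : ℕ) : ℝ) := by
    have e4 : ((Nat.factorial 4 : ℕ) : ℝ) = 24 := by norm_num [Nat.factorial]
    rw [e4]
    have h4 : 24 * C * X ≤ c ^ 4 := by
      have := (lt_div_iff₀ (by positivity : (0:ℝ) < 24 * C)).1 hX1
      linarith
    have h5 : (c / X) ^ 4 / 24 = (c ^ 4 / 24) * X⁻¹ * (X⁻¹) ^ 3 := by
      field_simp
    rw [h5]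
    apply mul_le_mul_of_nonneg_right _ (by positivity)
    rw [← div_eq_mul_inv, le_div_iff₀ hX]
    linarith
  have h6 : e2 / X = e1 / X + c / X := by
    rw [hc]
    ring
  rw [h6, Real.exp_add]
  calc 2000 * L0 * Real.exp (e1 / X) * (x⁻¹) ^ 3
      ≤ 2000 * L0 * Real.exp (e1 / X) * ((ρ' * X)⁻¹) ^ 3 := by
        apply mul_le_mul_of_nonneg_left h1 (by positivity)
    _ = Real.exp (e1 / X) * (C * (X⁻¹) ^ 3) := by
        rw [hC, mul_inv, mul_pow]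
        ring
    _ ≤ Real.exp (e1 / X) * Real.exp (c / X) :=
        mul_le_mul_of_nonneg_left (h3.trans h2) (Real.exp_pos _).le

theorem St3_of (l : ℕ → ℂ) (L0 : ℝ) (hL0 : 1 ≤ L0) (hl : ∀ n, ‖l n‖ ≤ L0)
    (σ : Measure (sphere (0:ℂ) 1)) (hσ : IsFiniteMeasure σ)
    (hG : ∀ z ∈ ball (0:ℂ) 1, Good l (Finsupp.single 0 1) z (2 * Real.exp (V σ z)))
    (ε ρ ρd : ℝ) (hε : 0 < ε) (hρ : 0 < ρ) (hρ1 : ρ ≤ 1 / 1000) (hρd : ρ ≤ ρd)
    (hV : ∀ ρ' : ℝ, 0 < ρ' → ρ' ≤ ρd → ∀ θ : ℝ, ∃ X0 : ℝ, 0 < X0 ∧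
      ∀ X x y : ℝ, 0 < X → X < X0 → ρ' * X ≤ x → x ≤ ρd * X → (y = X ∨ y = -X) →
        V σ (Complex.exp ⟨-x, θ + y⟩) ≤ ε / X)
    (θ : ℝ) : St3 (fun s => Kf l (s + (θ : ℂ) * Complex.I)) ρ ε := by
  have key : ∀ (X x y v E : ℝ), 0 < x → x ≤ 1 → 0 ≤ v →
      V σ (Complex.exp ⟨-x, θ + y⟩) ≤ v → 2000 * L0 * Real.exp v * (x⁻¹) ^ 3 ≤ E →
      ∃ G, Appr (fun s => Kf l (s + (θ : ℂ) * Complex.I)) ⟨-x, y⟩ 1 E G := by
    intro X x y v E hx hx1 hv hVv hE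
    obtain ⟨G, hGa⟩ := station l L0 hL0 hl σ hG x (θ + y) v hx hx1 hv hVv
    have e : (⟨-x, θ + y⟩ : ℂ) = ⟨-x, y⟩ + (θ : ℂ) * Complex.I := by
      apply Complex.ext
      · simp
      · simp [add_comm]
    rw [e, Appr_transl] at hGa
    exact ⟨_, Appr_mono _ _ _ _ _ _ _ le_rfl hE (by positivity) hGa⟩
  intro δ hδ
  obtain ⟨ρ1, hρ10, hρ1V⟩ := Vloc σ hσ (δ / 4) (by positivity)
  refine ⟨min ρ1 ρ, lt_min hρ10 hρ, min_le_right _ _, ?_⟩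
  set ρ' := min ρ1 ρ with hρ'
  have hρ'0 : 0 < ρ' := lt_min hρ10 hρ
  have hρ'1 : ρ' ≤ ρ1 := min_le_left _ _
  have hρ'2 : ρ' ≤ ρ := min_le_right _ _
  obtain ⟨X0, hX0, hVX0⟩ := hV ρ' hρ'0 (hρ'2.trans hρd) θ
  obtain ⟨X2, hX2, hVX2⟩ := hρ1V ρ' hρ'0 hρ'1 θ
  obtain ⟨X3, hX3, hS3⟩ := St3_of_small L0 ρ' ε (2 * ε) hL0 hρ'0 (by linarith)
  obtain ⟨X4, hX4, hS4⟩ := St3_of_small L0 ρ' (δ / 4) δ hL0 hρ'0 (by linarith)
  refine ⟨min (min X0 X2) (min (min X3 X4) 1), by positivity, ?_⟩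
  intro X hX hXlt y hy
  have hl1 : X < X0 := hXlt.trans_le ((min_le_left _ _).trans (min_le_left _ _))
  have hl2 : X < X2 := hXlt.trans_le ((min_le_left _ _).trans (min_le_right _ _))
  have hl3 : X < X3 := hXlt.trans_le ((min_le_right _ _).trans ((min_le_left _ _).trans
    (min_le_left _ _)))
  have hl4 : X < X4 := hXlt.trans_le ((min_le_right _ _).trans ((min_le_left _ _).trans
    (min_le_right _ _)))
  have hl5 : X < 1 := hXlt.trans_le ((min_le_right _ _).trans (min_le_right _ _))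
  have hρX : ρ * X ≤ 1 := by nlinarith
  constructor
  · intro x hx1 hx2
    have hx0 : 0 < x := lt_of_lt_of_le (by positivity) hx1
    refine key X x y (ε / X) _ hx0 (hx2.trans hρX) (by positivity) ?_ ?_
    · exact hVX0 X x y hX hl1 hx1 (hx2.trans (by gcongr)) hy
    · exact hS3 X x hX hl3 hx1
  · have hx0 : 0 < ρ' * X := by positivity
    refine key X (ρ' * X) y (δ / 4 / X) _ hx0 ?_ (by positivity) ?_ ?_
    · exact le_trans (by gcongr) hρX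
    · exact hVX2 X (ρ' * X) y hX hl2 le_rfl (by gcongr) hy
    · exact hS4 X (ρ' * X) hX hl4 le_rfl

end NM
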