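import Pool.Agent.Helper360.NM.Defs



namespace NM
open Complex Metric Set Filter Topology MeasureTheory


theorem chord2 (θ y X : ℝ) (hX : 0 < X) (hX1 : X ≤ 1 / 10) (h1 : X / 10 ≤ |y|) (h2 : |y| ≤ 4 * X) :
    X / 20 ≤ ‖Complex.exp (((θ + y : ℝ) : ℂ) * Complex.I) - Complex.exp ((θ : ℂ) * Complex.I)‖ := by
  have e1 : Complex.exp (((θ + y : ℝ) : ℂ) * Complex.I) - Complex.exp ((θ : ℂ) * Complex.I)
      = Complex.exp ((θ : ℂ) * Complex.I) * (Complex.exp ((y : ℂ) * Complex.I) - 1) := by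
    push_cast
    rw [add_mul, Complex.exp_add]
    ring
  rw [e1, norm_mul, Complex.norm_exp_ofReal_mul_I, one_mul]
  have e2 : Complex.im (Complex.exp ((y : ℂ) * Complex.I) - 1) = Real.sin y := by
    simp [Complex.exp_ofReal_mul_I_im]
  have e3 : |Real.sin y| ≤ ‖Complex.exp ((y : ℂ) * Complex.I) - 1‖ := by
    rw [← e2]
    exact Complex.abs_im_le_norm _
  have hy : |y| ≤ 2 / 5 := by linarith
  have hy0 : 0 < |y| := by linarith [div_pos hX (by norm_num : (0:ℝ) < 10)]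
  have e4 : |Real.sin y| = Real.sin |y| := by
    rcases abs_cases y with ⟨h, h'⟩ | ⟨h, h'⟩
    · rw [h]
      apply abs_of_nonneg
      apply Real.sin_nonneg_of_nonneg_of_le_pi h'
      linarith [Real.pi_gt_three]
    · rw [h, Real.sin_neg]
      apply abs_of_nonpos
      apply Real.sin_nonpos_of_nonpos_of_neg_pi_le h'.le
      have := Real.pi_gt_three
      rw [h] at hy
      linarith
  have e5 : |y| - |y| ^ 3 / 6 < Real.sin |y| := Real.sin_gt_sub_cube hy0
  have e6 : |y| ^ 3 ≤ |y| * (2 / 5) ^ 2 := by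
    have : |y| ^ 2 ≤ (2 / 5 : ℝ) ^ 2 := pow_le_pow_left₀ hy0.le hy 2
    calc |y| ^ 3 = |y| * |y| ^ 2 := by ring
      _ ≤ _ := mul_le_mul_of_nonneg_left this hy0.le
  rw [e4] at e3
  nlinarith

end NM
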