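import Pool.Agent.Helper360.NM.Defs
import Pool.Agent.Helper360.NM.P_Appr_mono
import Pool.Agent.Helper360.NM.P_Appr_transl
import Pool.Agent.Helper360.NM.P_station
import Pool.Agent.Helper360.NM.P_chord2



namespace NM
open Complex Metric Set Filter Topology MeasureTheory


theorem St_of_gap (w0 : ℂ) (S : Finset ℂ) :
    ∃ Δ : ℝ, 0 < Δ ∧ ∀ w ∈ S, w ≠ w0 → Δ ≤ ‖w0 - w‖ := by
  induction S using Finset.induction_on with
  | empty => exact ⟨1, one_pos, fun w hw => by simp at hw⟩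
  | insert a s ha ih =>
    obtain ⟨Δ, hΔ, h⟩ := ih
    by_cases hb : a = w0
    · refine ⟨Δ, hΔ, fun w hw hne => ?_⟩
      rcases Finset.mem_insert.1 hw with h1 | h1
      · exact absurd (h1.trans hb) hne
      · exact h w h1 hne
    · have hp : 0 < ‖w0 - a‖ := by
        rw [norm_pos_iff, sub_ne_zero]
        exact fun h => hb h.symm
      refine ⟨min Δ ‖w0 - a‖, lt_min hΔ hp, fun w hw hne => ?_⟩
      rcases Finset.mem_insert.1 hw with h1 | h1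
      · rw [h1]; exact min_le_right _ _
      · exact (min_le_left _ _).trans (h w h1 hne)

theorem St_of (l : ℕ → ℂ) (L0 : ℝ) (hL0 : 1 ≤ L0) (hl : ∀ n, ‖l n‖ ≤ L0)
    (σ : Measure (sphere (0:ℂ) 1))
    (hG : ∀ z ∈ ball (0:ℂ) 1, Good l (Finsupp.single 0 1) z (2 * Real.exp (V σ z)))
    (ε ρ X0 : ℝ) (hε : 0 < ε) (hρ : 0 < ρ) (hρ1 : ρ ≤ 1 / 1000) (hX0 : 0 < X0) (Θ : Finset ℂ)
    (hV : ∀ X x y : ℝ, 0 < X → X < X0 → ρ * X / 10 ≤ x → x ≤ 4 * ρ * X →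
      (∀ θ ∈ Θ, X / 20 ≤ ‖Complex.exp ((y : ℂ) * Complex.I) - θ‖) →
      V σ (Complex.exp ⟨-x, y⟩) ≤ ε / X)
    (θ : ℝ) :
    ∃ X1 : ℝ, 0 < X1 ∧ St (fun s => Kf l (s + (θ : ℂ) * Complex.I)) ρ ε X1 := by
  obtain ⟨Δ, hΔ, hΔ'⟩ := St_of_gap (Complex.exp ((θ : ℂ) * Complex.I)) Θ
  have hC : 0 < 24 * (2000 * L0 * (10 / ρ) ^ 3) := by positivity
  refine ⟨min (min X0 (1 / 10)) (min (Δ / 5) (ε ^ 4 / (24 * (2000 * L0 * (10 / ρ) ^ 3)))), by positivity, ?_⟩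
  intro X x y hX hX1 hx1 hx2 hy1 hy2
  have h1 : X < X0 := lt_of_lt_of_le hX1 ((min_le_left _ _).trans (min_le_left _ _))
  have h2 : X < 1 / 10 := lt_of_lt_of_le hX1 ((min_le_left _ _).trans (min_le_right _ _))
  have h3 : X < Δ / 5 := lt_of_lt_of_le hX1 ((min_le_right _ _).trans (min_le_left _ _))
  have h4 : X < ε ^ 4 / (24 * (2000 * L0 * (10 / ρ) ^ 3)) :=
    lt_of_lt_of_le hX1 ((min_le_right _ _).trans (min_le_right _ _))
  rw [lt_div_iff₀ hC] at h4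
  have hx0 : 0 < x := lt_of_lt_of_le (by positivity) hx1
  have hxle : x ≤ 1 := by nlinarith
  have hVV : V σ (Complex.exp ⟨-x, θ + y⟩) ≤ ε / X := by
    refine hV X x (θ + y) hX h1 hx1 hx2 (fun w hw => ?_)
    by_cases hwe : w = Complex.exp ((θ : ℂ) * Complex.I)
    · rw [hwe]
      exact chord2 θ y X hX h2.le hy1 hy2
    · have hd := hΔ' w hw hwe
      have hc : ‖Complex.exp ((θ : ℂ) * Complex.I) - Complex.exp (((θ + y : ℝ) : ℂ) * Complex.I)‖ ≤ |y| := by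
        have e1 : Complex.exp ((θ : ℂ) * Complex.I) - Complex.exp (((θ + y : ℝ) : ℂ) * Complex.I)
            = -(Complex.exp ((θ : ℂ) * Complex.I) * (Complex.exp (Complex.I * (y:ℂ)) - 1)) := by
          rw [Complex.ofReal_add, add_mul, Complex.exp_add, mul_comm Complex.I (y:ℂ)]
          ring
        rw [e1, norm_neg, norm_mul, Complex.norm_exp_ofReal_mul_I, one_mul]
        simpa using Real.norm_exp_I_mul_ofReal_sub_one_le (x := y)
      have ht : ‖Complex.exp ((θ : ℂ) * Complex.I) - w‖ ≤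
          ‖Complex.exp ((θ : ℂ) * Complex.I) - Complex.exp (((θ + y : ℝ) : ℂ) * Complex.I)‖ +
          ‖Complex.exp (((θ + y : ℝ) : ℂ) * Complex.I) - w‖ := norm_sub_le_norm_sub_add_norm_sub _ _ _
      linarith
  obtain ⟨G, hGG⟩ := station l L0 hL0 hl σ hG x (θ + y) (ε / X) hx0 hxle (by positivity) hVV
  refine ⟨fun s => G (s + (θ : ℂ) * Complex.I), ?_⟩
  rw [← Appr_transl]
  have e2 : (⟨-x, y⟩ : ℂ) + (θ : ℂ) * Complex.I = ⟨-x, θ + y⟩ := by
    apply Complex.ext <;> simp [add_comm]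
  rw [e2]
  refine Appr_mono _ _ _ 1 1 _ _ le_rfl ?_ (by positivity) hGG
  have e3 : Real.exp (2 * ε / X) = Real.exp (ε / X) * Real.exp (ε / X) := by
    rw [← Real.exp_add]; congr 1; ring
  rw [e3]
  have e4 : x⁻¹ ≤ 10 / ρ / X := by
    rw [inv_le_comm₀ hx0 (by positivity)]
    rw [inv_div, div_div_eq_mul_div]
    linarith
  have e5 : (x⁻¹) ^ 3 ≤ (10 / ρ / X) ^ 3 := pow_le_pow_left₀ (by positivity) e4 3
  have e6 : (ε / X) ^ 4 / ((Nat.factorial 4 : ℕ) : ℝ) ≤ Real.exp (ε / X) :=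
    Real.pow_div_factorial_le_exp _ (by positivity) 4
  have e7 : 2000 * L0 * (10 / ρ / X) ^ 3 ≤ (ε / X) ^ 4 / ((Nat.factorial 4 : ℕ) : ℝ) := by
    have : ((Nat.factorial 4 : ℕ) : ℝ) = 24 := by norm_num [Nat.factorial]
    rw [this, div_pow, div_pow ε, le_div_iff₀ (by norm_num), ← mul_div_assoc, div_mul_eq_mul_div,
      div_le_div_iff₀ (by positivity) (by positivity)]
    have hX3 : 0 < X ^ 3 := by positivity
    calc 2000 * L0 * (10 / ρ) ^ 3 * 24 * X ^ 4 = (X * (24 * (2000 * L0 * (10 / ρ) ^ 3))) * X ^ 3 := by ring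
      _ ≤ ε ^ 4 * X ^ 3 := by
          apply mul_le_mul_of_nonneg_right h4.le hX3.le
  calc 2000 * L0 * Real.exp (ε / X) * (x⁻¹) ^ 3 = Real.exp (ε / X) * (2000 * L0 * (x⁻¹) ^ 3) := by ring
    _ ≤ Real.exp (ε / X) * Real.exp (ε / X) := by
        apply mul_le_mul_of_nonneg_left _ (Real.exp_pos _).le
        refine le_trans (mul_le_mul_of_nonneg_left e5 (by positivity)) (e7.trans e6)

end NM
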