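import Pool.Agent.Helper360.NM.Defs
import Pool.Agent.Helper360.NM.P_P_near



namespace NM
open Complex Metric Set Filter Topology MeasureTheory


noncomputable def PZ (x t : ℝ) (ω : ℂ) : ℝ :=
  (1 - ‖Complex.exp (⟨-x, t⟩ : ℂ)‖ ^ 2) / ‖ω - Complex.exp (⟨-x, t⟩ : ℂ)‖ ^ 2

theorem PZ_exp (x t : ℝ) : Complex.exp (⟨-x, t⟩ : ℂ) =
    ((Real.exp (-x) : ℝ) : ℂ) * Complex.exp ((t : ℂ) * Complex.I) := by
  rw [Complex.mk_eq_add_mul_I, Complex.exp_add, Complex.ofReal_exp]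

theorem PZ_norm (x t : ℝ) : ‖Complex.exp (⟨-x, t⟩ : ℂ)‖ = Real.exp (-x) := by
  rw [Complex.norm_exp]

theorem PZ_norm_lt (x t : ℝ) (hx : 0 < x) : ‖Complex.exp (⟨-x, t⟩ : ℂ)‖ < 1 := by
  rw [PZ_norm, Real.exp_lt_one_iff]
  linarith

theorem PZ_ne (x t : ℝ) (hx : 0 < x) (ω : ℂ) (hω : ‖ω‖ = 1) :
    ω - Complex.exp (⟨-x, t⟩ : ℂ) ≠ 0 := by
  intro h
  have h1 := PZ_norm_lt x t hx
  rw [← sub_eq_zero.1 h, hω] at h1
  exact lt_irrefl _ h1

theorem PZ_nonneg (x t : ℝ) (hx : 0 < x) (ω : ℂ) : 0 ≤ PZ x t ω := by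
  unfold PZ
  apply div_nonneg _ (by positivity)
  have h1 := PZ_norm_lt x t hx
  have h2 := norm_nonneg (Complex.exp (⟨-x, t⟩ : ℂ))
  nlinarith

theorem PZ_cont (x θ X : ℝ) (hx : 0 < x) :
    Continuous fun p : ℝ × sphere (0:ℂ) 1 => PZ x (θ - p.1 * X) (p.2 : ℂ) := by
  unfold PZ
  have h : ∀ p : ℝ × sphere (0:ℂ) 1, ‖(p.2 : ℂ) - Complex.exp (⟨-x, θ - p.1 * X⟩ : ℂ)‖ ^ 2 ≠ 0 := by
    intro p
    have := PZ_ne x (θ - p.1 * X) hx (p.2 : ℂ) (by simp)
    exact pow_ne_zero _ (norm_ne_zero_iff.2 this)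
  simp only [Complex.mk_eq_add_mul_I] at h ⊢
  apply Continuous.div _ _ h
  · fun_prop
  · fun_prop

theorem PZ_cont' (x : ℝ) (hx : 0 < x) (ω : ℂ) (hω : ‖ω‖ = 1) :
    Continuous fun t : ℝ => PZ x t ω := by
  unfold PZ
  have h : ∀ t : ℝ, ‖ω - Complex.exp (⟨-x, t⟩ : ℂ)‖ ^ 2 ≠ 0 := by
    intro t
    exact pow_ne_zero _ (norm_ne_zero_iff.2 (PZ_ne x t hx ω hω))
  simp only [Complex.mk_eq_add_mul_I] at h ⊢
  apply Continuous.div _ _ h
  · fun_prop
  · fun_prop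

theorem PZ_full (x : ℝ) (hx : 0 < x) (ω : ℂ) (hω : ‖ω‖ = 1) :
    ∫ t in (0:ℝ)..(2 * Real.pi), PZ x t ω = 2 * Real.pi := by
  have hR : 0 < Real.exp (-x) := Real.exp_pos _
  have hR1 : Real.exp (-x) < 1 := by
    rw [Real.exp_lt_one_iff]
    linarith
  have hd : DifferentiableOn ℂ (fun z : ℂ => (ω + z) / (ω - z)) (closedBall 0 (Real.exp (-x))) := by
    intro z hz
    have hz1 : ω - z ≠ 0 := by
      intro h
      have : ‖z‖ ≤ Real.exp (-x) := by simpa using hz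
      rw [← sub_eq_zero.1 h, hω] at this
      linarith
    exact (((differentiableAt_const _).add differentiableAt_id).div
      ((differentiableAt_const _).sub differentiableAt_id) hz1).differentiableWithinAt
  have hdc : DiffContOnCl ℂ (fun z : ℂ => (ω + z) / (ω - z)) (ball 0 |Real.exp (-x)|) := by
    rw [abs_of_pos hR]
    exact hd.diffContOnCl_ball (subset_refl _)
  have h1 := hdc.circleAverage
  have hci : CircleIntegrable (fun z : ℂ => (ω + z) / (ω - z)) 0 (Real.exp (-x)) := by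
    apply ContinuousOn.circleIntegrable hR.le
    exact hd.continuousOn.mono sphere_subset_closedBall
  have h2 := Complex.reCLM.circleAverage_comp_comm hci
  rw [h1] at h2
  have hω0 : ω ≠ 0 := by
    intro h
    rw [h, norm_zero] at hω
    exact zero_ne_one hω
  simp only [add_zero, sub_zero, div_self hω0, Complex.reCLM_apply, Complex.one_re] at h2
  unfold Real.circleAverage at h2
  have h3 : ∀ t : ℝ, (⇑Complex.reCLM ∘ fun z : ℂ => (ω + z) / (ω - z))
      (circleMap 0 (Real.exp (-x)) t) = PZ x t ω := by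
    intro t
    have h4 : circleMap 0 (Real.exp (-x)) t = Complex.exp ⟨-x, t⟩ := by
      rw [circleMap_zero, PZ_exp]
    rw [h4]
    simp only [Function.comp, Complex.reCLM_apply]
    unfold PZ
    generalize Complex.exp ⟨-x, t⟩ = z
    rw [Complex.div_re, ← add_div, Complex.normSq_eq_norm_sq]
    congr 1
    have h5 : (1:ℝ) = ω.re * ω.re + ω.im * ω.im := by
      rw [← Complex.normSq_apply, Complex.normSq_eq_norm_sq, hω]
      norm_num
    rw [← Complex.normSq_eq_norm_sq, Complex.normSq_apply]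
    simp only [Complex.add_re, Complex.sub_re, Complex.add_im, Complex.sub_im]
    linear_combination -h5
  simp only [h3, smul_eq_mul] at h2
  have hpi : (2 * Real.pi) ≠ 0 := by positivity
  field_simp at h2
  linarith

theorem PZ_per (x : ℝ) (ω : ℂ) : Function.Periodic (fun t => PZ x t ω) (2 * Real.pi) := by
  intro t
  simp only [PZ]
  have : Complex.exp (⟨-x, t + 2 * Real.pi⟩ : ℂ) = Complex.exp (⟨-x, t⟩ : ℂ) := by
    rw [PZ_exp, PZ_exp]
    congr 1
    rw [show (((t + 2 * Real.pi : ℝ) : ℂ)) * Complex.I = (t : ℂ) * Complex.I + 2 * Real.pi * Complex.I by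
      push_cast; ring]
    exact Complex.exp_periodic _
  rw [this]

theorem PZ_case1 (x X θ : ℝ) (hx : 0 < x) (hX : 0 < X) (hX1 : X ≤ 1 / 100) (ω : ℂ) (hω : ‖ω‖ = 1) :
    X * ∫ y in (1/4:ℝ)..(3/4), PZ x (θ - y * X) ω ≤ 7 := by
  have h1 : X * ∫ y in (1/4:ℝ)..(3/4), PZ x (θ - y * X) ω =
      ∫ t in (θ - X * (3/4))..(θ - X * (1/4)), PZ x t ω := by
    rw [← intervalIntegral.mul_integral_comp_sub_mul]
    congr 2
    funext y
    rw [mul_comm y X]
  rw [h1]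
  have h2 : ∫ t in (θ - X * (3/4))..(θ - X * (1/4)), PZ x t ω ≤
      ∫ t in (θ - X * (3/4))..(θ - X * (3/4) + 2 * Real.pi), PZ x t ω :=
    intervalIntegral.integral_mono_interval le_rfl (by nlinarith)
      (by nlinarith [Real.pi_gt_three]) (Filter.Eventually.of_forall fun t => PZ_nonneg x t hx ω)
      ((PZ_cont' x hx ω hω).intervalIntegrable _ _)
  rw [(PZ_per x ω).intervalIntegral_add_eq _ 0, zero_add, PZ_full x hx ω hω] at h2
  linarith [Real.pi_lt_d2]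

theorem PZ_dist (θ u : ℝ) (hu : 0 < u) (hu1 : u ≤ 1 / 100) :
    ‖Complex.exp (((θ - u : ℝ) : ℂ) * Complex.I) - Complex.exp ((θ : ℂ) * Complex.I)‖ ≤ u ∧
    (9999 / 10000) * u ≤
      ‖Complex.exp (((θ - u : ℝ) : ℂ) * Complex.I) - Complex.exp ((θ : ℂ) * Complex.I)‖ := by
  have h1 : Complex.exp (((θ - u : ℝ) : ℂ) * Complex.I) - Complex.exp ((θ : ℂ) * Complex.I) =
      -(Complex.exp (((θ - u : ℝ) : ℂ) * Complex.I) * (Complex.exp (Complex.I * (u : ℂ)) - 1)) := by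
    rw [mul_sub, ← Complex.exp_add, mul_one, neg_sub]
    congr 2
    push_cast
    ring
  have h2 : ‖Complex.exp (((θ - u : ℝ) : ℂ) * Complex.I)‖ = 1 := Complex.norm_exp_ofReal_mul_I _
  rw [h1, norm_neg, norm_mul, h2, one_mul, Complex.norm_exp_I_mul_ofReal_sub_one]
  have h3 : Real.sin (u / 2) ≤ u / 2 := Real.sin_le (by linarith)
  have h4' : u / 2 - (u / 2) ^ 3 / 6 < Real.sin (u / 2) := Real.sin_gt_sub_cube (by linarith)
  have h4 : u / 2 - (u / 2) ^ 3 / 4 < Real.sin (u / 2) := by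
    have : 0 < (u / 2) ^ 3 := by positivity
    linarith
  have h5 : (u / 2) ^ 3 / 4 ≤ (1 / 10000) * (u / 2) := by
    have : (u / 2) ^ 2 ≤ 4 / 10000 := by nlinarith
    nlinarith
  have h6 : 0 < Real.sin (u / 2) := by nlinarith
  rw [Real.norm_of_nonneg (by positivity)]
  constructor <;> linarith

theorem PZ_case2 (ρ X θ y : ℝ) (hρ : 0 < ρ) (hρ1 : ρ ≤ 1 / 1000) (hX : 0 < X) (hX1 : X ≤ 1 / 100)
    (ω : ℂ) (hr : ‖ω - Complex.exp ((θ : ℂ) * Complex.I)‖ < X / 8 ∨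
      X < ‖ω - Complex.exp ((θ : ℂ) * Complex.I)‖) (hy : 1 / 4 ≤ y) (hy1 : y ≤ 3 / 4) :
    PZ (ρ * X) (θ - y * X) ω ≤ 600 * ρ / X := by
  have hyX : 0 < y * X := by positivity
  have hyX1 : y * X ≤ 1 / 100 := by nlinarith
  obtain ⟨hd1, hd2⟩ := PZ_dist θ (y * X) hyX hyX1
  have hy2 : y * X ≤ (3 / 4) * X := by nlinarith
  have hy3 : (1 / 4) * X ≤ y * X := by nlinarith
  set e1 := Complex.exp (((θ - y * X : ℝ) : ℂ) * Complex.I) with he1
  set e0 := Complex.exp ((θ : ℂ) * Complex.I) with he0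
  have hx : 0 < ρ * X := by positivity
  have hxX : ρ * X ≤ X / 1000 := by nlinarith
  have hexp : 1 - ρ * X ≤ Real.exp (-(ρ * X)) := by
    have := Real.add_one_le_exp (-(ρ * X))
    linarith
  have hexp1 : Real.exp (-(ρ * X)) < 1 := by
    rw [Real.exp_lt_one_iff]
    linarith
  have hz : ‖e1 - Complex.exp (⟨-(ρ * X), θ - y * X⟩ : ℂ)‖ ≤ ρ * X := by
    rw [PZ_exp]
    have h1 : e1 - ((Real.exp (-(ρ * X)) : ℝ) : ℂ) * e1 = ((1 - Real.exp (-(ρ * X)) : ℝ) : ℂ) * e1 := by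
      push_cast
      ring
    rw [← he1, h1, norm_mul, Complex.norm_real]
    have h2 : ‖e1‖ = 1 := Complex.norm_exp_ofReal_mul_I _
    rw [h2, mul_one, Real.norm_of_nonneg (by linarith)]
    linarith
  have hdist : (12 / 100) * X ≤ ‖ω - Complex.exp (⟨-(ρ * X), θ - y * X⟩ : ℂ)‖ := by
    have h1 : ‖ω - e1‖ ≤ ‖ω - Complex.exp (⟨-(ρ * X), θ - y * X⟩ : ℂ)‖ +
        ‖e1 - Complex.exp (⟨-(ρ * X), θ - y * X⟩ : ℂ)‖ := by
      rw [norm_sub_rev e1]
      have := norm_add_le (ω - Complex.exp (⟨-(ρ * X), θ - y * X⟩ : ℂ))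
        (Complex.exp (⟨-(ρ * X), θ - y * X⟩ : ℂ) - e1)
      rwa [sub_add_sub_cancel] at this
    rcases hr with hr | hr
    · have h2 : ‖e1 - e0‖ ≤ ‖ω - e1‖ + ‖ω - e0‖ := by
        rw [norm_sub_rev ω e1]
        have := norm_add_le (e1 - ω) (ω - e0)
        rwa [sub_add_sub_cancel] at this
      linarith
    · have h2 : ‖ω - e0‖ ≤ ‖ω - e1‖ + ‖e1 - e0‖ := by
        have := norm_add_le (ω - e1) (e1 - e0)
        rwa [sub_add_sub_cancel] at this
      linarith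
  unfold PZ
  rw [PZ_norm]
  have hnum : 1 - Real.exp (-(ρ * X)) ^ 2 ≤ 2 * (ρ * X) := by
    have h0 := Real.exp_pos (-(ρ * X))
    nlinarith
  have hden : ((12 / 100) * X) ^ 2 ≤ ‖ω - Complex.exp (⟨-(ρ * X), θ - y * X⟩ : ℂ)‖ ^ 2 :=
    pow_le_pow_left₀ (by positivity) hdist 2
  calc (1 - Real.exp (-(ρ * X)) ^ 2) / ‖ω - Complex.exp (⟨-(ρ * X), θ - y * X⟩ : ℂ)‖ ^ 2
      ≤ (2 * (ρ * X)) / ((12 / 100) * X) ^ 2 := by
        apply div_le_div₀ (by positivity) hnum (by positivity) hden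
    _ ≤ 600 * ρ / X := by
        rw [div_le_div_iff₀ (by positivity) hX]
        nlinarith [mul_pos hρ (mul_pos hX hX)]

theorem PZ_case2' (ρ X θ : ℝ) (hρ : 0 < ρ) (hρ1 : ρ ≤ 1 / 1000) (hX : 0 < X) (hX1 : X ≤ 1 / 100)
    (ω : ℂ) (hω : ‖ω‖ = 1) (hr : ‖ω - Complex.exp ((θ : ℂ) * Complex.I)‖ < X / 8 ∨
      X < ‖ω - Complex.exp ((θ : ℂ) * Complex.I)‖) :
    X * ∫ y in (1/4:ℝ)..(3/4), PZ (ρ * X) (θ - y * X) ω ≤ 300 * ρ := by
  have hc : Continuous fun y : ℝ => PZ (ρ * X) (θ - y * X) ω :=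
    (PZ_cont' (ρ * X) (by positivity) ω hω).comp (by fun_prop)
  have h1 : ∫ y in (1/4:ℝ)..(3/4), PZ (ρ * X) (θ - y * X) ω ≤
      ∫ _y in (1/4:ℝ)..(3/4), 600 * ρ / X := by
    apply intervalIntegral.integral_mono_on (by norm_num) (hc.intervalIntegrable _ _)
      intervalIntegrable_const
    intro y hy
    exact PZ_case2 ρ X θ y hρ hρ1 hX hX1 ω hr hy.1 hy.2
  rw [intervalIntegral.integral_const, smul_eq_mul] at h1
  calc X * ∫ y in (1/4:ℝ)..(3/4), PZ (ρ * X) (θ - y * X) ω ≤ X * ((3/4 - 1/4) * (600 * ρ / X)) :=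
        mul_le_mul_of_nonneg_left h1 hX.le
    _ = 300 * ρ := by
        field_simp
        ring

theorem zones (σ : Measure (sphere (0:ℂ) 1)) (hσ : IsFiniteMeasure σ) (N : ℕ) (X : ℕ → ℝ)
    (ρ θ : ℝ) (hρ : 0 < ρ) (hρ1 : ρ ≤ 1 / 1000) (hX : ∀ i < N, 0 < X i ∧ X i ≤ 1 / 100)
    (hdec : ∀ i j, i < j → j < N → X j < X i / 8) :
    ∑ i ∈ Finset.range N, X i * (∫ y in (1/4 : ℝ)..(3/4), V σ (Complex.exp ⟨-(ρ * X i), θ - y * X i⟩))
      ≤ (7 + 300 * N * ρ) * σ.real univ := by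
  classical
  have hon : ∀ ω : sphere (0:ℂ) 1, ‖(ω : ℂ)‖ = 1 := fun ω => by simp
  have hset : Set.uIoc (1/4:ℝ) (3/4) = Set.Ioc (1/4) (3/4) := Set.uIoc_of_le (by norm_num)
  have hint : ∀ i < N, Integrable (Function.uncurry fun (y : ℝ) (ω : sphere (0:ℂ) 1) =>
      PZ (ρ * X i) (θ - y * X i) (ω:ℂ)) ((volume.restrict (Set.uIoc (1/4:ℝ) (3/4))).prod σ) := by
    intro i hi
    obtain ⟨hXi, hXi1⟩ := hX i hi
    have hpos : 0 < ρ * X i := by positivity
    have hc := (PZ_cont (ρ * X i) θ (X i) hpos)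
    rw [hset]
    apply Integrable.mono' (integrable_const (4 / (ρ * X i)))
    · exact hc.aestronglyMeasurable
    · refine Filter.Eventually.of_forall fun p => ?_
      simp only [Function.uncurry]
      rw [Real.norm_of_nonneg (PZ_nonneg _ _ hpos _)]
      exact P_near (ρ * X i) (θ - p.1 * X i) hpos (by nlinarith) p.2 (hon _)
  set g : ℕ → sphere (0:ℂ) 1 → ℝ := fun i ω =>
    X i * ∫ y in (1/4 : ℝ)..(3/4), PZ (ρ * X i) (θ - y * X i) (ω:ℂ) with hg
  have hgint : ∀ i < N, Integrable (g i) σ := by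
    intro i hi
    have h := (hint i hi).integral_prod_right
    have h2 := h.const_mul (X i)
    refine h2.congr (Filter.Eventually.of_forall fun ω => ?_)
    simp only [hg, Function.uncurry]
    rw [intervalIntegral.integral_of_le (by norm_num), hset]
  have hswap : ∀ i < N, X i * (∫ y in (1/4 : ℝ)..(3/4),
      V σ (Complex.exp ⟨-(ρ * X i), θ - y * X i⟩)) = ∫ ω, g i ω ∂σ := by
    intro i hi
    have h := MeasureTheory.intervalIntegral_integral_swap (hint i hi)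
    simp only [hg]
    rw [integral_const_mul, ← h]
    rfl
  have hsum : ∑ i ∈ Finset.range N, X i * (∫ y in (1/4 : ℝ)..(3/4),
      V σ (Complex.exp ⟨-(ρ * X i), θ - y * X i⟩)) = ∫ ω, ∑ i ∈ Finset.range N, g i ω ∂σ := by
    rw [integral_finsetSum _ (fun i hi => hgint i (Finset.mem_range.1 hi))]
    exact Finset.sum_congr rfl fun i hi => hswap i (Finset.mem_range.1 hi)
  rw [hsum]
  have hpt : ∀ ω : sphere (0:ℂ) 1, ∑ i ∈ Finset.range N, g i ω ≤ 7 + 300 * N * ρ := by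
    intro ω
    set r := ‖(ω : ℂ) - Complex.exp ((θ : ℂ) * Complex.I)‖ with hr
    obtain ⟨i0, hi0⟩ : ∃ i0 : ℕ, ∀ j < N, j ≠ i0 → ¬ (X j / 8 ≤ r ∧ r ≤ X j) := by
      by_cases hex : ∃ i < N, X i / 8 ≤ r ∧ r ≤ X i
      · obtain ⟨i, hi, h1, h2⟩ := hex
        refine ⟨i, fun j hj hji h => ?_⟩
        rcases lt_or_gt_of_ne hji with hlt | hlt
        · have := hdec j i hlt hi
          linarith [h.1]
        · have := hdec i j hlt hj
          linarith [h.2]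
      · push Not at hex
        refine ⟨0, fun j hj _ h => ?_⟩
        exact absurd (hex j hj h.1) (not_lt.2 h.2)
    have hb : ∀ j ∈ Finset.range N, g j ω ≤ (if j = i0 then 7 else 0) + 300 * ρ := by
      intro j hj
      have hjN := Finset.mem_range.1 hj
      obtain ⟨hXj, hXj1⟩ := hX j hjN
      split_ifs with hji
      · have h1 := PZ_case1 (ρ * X j) (X j) θ (by positivity) hXj hXj1 (ω:ℂ) (hon ω)
        have : g j ω ≤ 7 := h1
        linarith
      · have h2 := hi0 j hjN hji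
        have h3 : r < X j / 8 ∨ X j < r := by
          by_contra hcon
          push Not at hcon
          exact h2 hcon
        have h1 : g j ω ≤ 300 * ρ := PZ_case2' ρ (X j) θ hρ hρ1 hXj hXj1 (ω:ℂ) (hon ω) h3
        linarith
    refine (Finset.sum_le_sum hb).trans ?_
    rw [Finset.sum_add_distrib, Finset.sum_const, Finset.card_range, nsmul_eq_mul,
      Finset.sum_ite_eq']
    split_ifs
    · linarith
    · linarith
  have hmono : ∫ ω, ∑ i ∈ Finset.range N, g i ω ∂σ ≤ ∫ _ω : sphere (0:ℂ) 1, (7 + 300 * N * ρ) ∂σ := by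
    apply integral_mono
    · exact integrable_finsetSum _ fun i hi => hgint i (Finset.mem_range.1 hi)
    · exact integrable_const _
    · exact hpt
  refine hmono.trans ?_
  rw [integral_const, smul_eq_mul, mul_comm]

end NM
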