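import Pool.Agent.Helper360.NM.Defs
import Pool.Agent.Helper360.NM.P_Good_transfer
import Pool.Agent.Helper360.NM.P_zones



namespace NM
open Complex Metric Set Filter Topology MeasureTheory


theorem um_exp_bound (c ρ : ℝ) (hc : 0 < c) (hρ : 0 < ρ) :
    ∃ δ : ℝ, 0 < δ ∧ ∀ X : ℝ, 0 < X → X < δ → 32 / (ρ * X) ^ 3 ≤ Real.exp (c / X) := by
  refine ⟨c ^ 4 * ρ ^ 3 / 768, by positivity, fun X hX hXd => ?_⟩
  have h1 := Real.pow_div_factorial_le_exp (c / X) (by positivity) 4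
  refine le_trans ?_ h1
  have h2 : ((Nat.factorial 4 : ℕ) : ℝ) = 24 := by norm_num [Nat.factorial]
  rw [h2, div_pow, div_div, div_le_div_iff₀ (by positivity) (by positivity), mul_pow]
  rw [lt_div_iff₀ (by norm_num)] at hXd
  have h3 : 0 < X ^ 3 := by positivity
  nlinarith

theorem um_one_sub_exp (u : ℝ) (h0 : 0 < u) (h1 : u ≤ 1) : u / 2 ≤ 1 - Real.exp (-u) := by
  have h2 := Real.add_one_le_exp u
  have h3 : Real.exp (-u) * Real.exp u = 1 := by rw [← Real.exp_add]; simp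
  have h4 := Real.exp_pos (-u)
  have h5 : Real.exp (-u) * (u + 1) ≤ 1 := by
    calc Real.exp (-u) * (u + 1) ≤ Real.exp (-u) * Real.exp u :=
          mul_le_mul_of_nonneg_left h2 h4.le
      _ = 1 := h3
  nlinarith

theorem um_seq (P : ℝ → Prop) (h : ∀ X0 : ℝ, 0 < X0 → ∃ X, 0 < X ∧ X < X0 ∧ P X) (δ : ℝ)
    (hδ : 0 < δ) : ∃ X : ℕ → ℝ, (∀ i, 0 < X i ∧ X i < δ ∧ P (X i)) ∧
      ∀ i j, i < j → X j < X i / 8 := by
  choose! f hf using h
  let X : ℕ → ℝ := fun n => Nat.rec (f δ) (fun _ x => f (min δ (x / 8))) n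
  have h0 : X 0 = f δ := rfl
  have hs : ∀ n, X (n + 1) = f (min δ (X n / 8)) := fun n => rfl
  have hpos : ∀ i, 0 < X i ∧ X i < δ ∧ P (X i) := by
    intro i
    induction i with
    | zero => rw [h0]; exact hf δ hδ
    | succ n ih =>
      have hm : 0 < min δ (X n / 8) := lt_min hδ (by linarith [ih.1])
      rw [hs]
      exact ⟨(hf _ hm).1, (hf _ hm).2.1.trans_le (min_le_left _ _), (hf _ hm).2.2⟩
  have hstep : ∀ n, X (n + 1) < X n / 8 := by
    intro n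
    have hm : 0 < min δ (X n / 8) := lt_min hδ (by linarith [(hpos n).1])
    rw [hs]
    exact (hf _ hm).2.1.trans_le (min_le_right _ _)
  have hanti : Antitone X := antitone_nat_of_succ_le fun n => by
    have := hstep n
    have := (hpos n).1
    linarith
  refine ⟨X, hpos, fun i j hij => ?_⟩
  exact lt_of_le_of_lt (hanti (Nat.succ_le_of_lt hij)) (hstep i)

theorem um_V_cont (σ : Measure (sphere (0:ℂ) 1)) (hσ : IsFiniteMeasure σ) (r : ℝ) (hr : r < 1)
    (z : ℝ → ℂ) (hz : Continuous z) (hzr : ∀ y, ‖z y‖ = r) :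
    Continuous fun y => V σ (z y) := by
  have hr0 : 0 ≤ r := by rw [← hzr 0]; exact norm_nonneg _
  have hlow : ∀ (ω : sphere (0:ℂ) 1) (y : ℝ), 1 - r ≤ ‖(ω : ℂ) - z y‖ := by
    intro ω y
    have h1 : ‖(ω : ℂ)‖ = 1 := mem_sphere_zero_iff_norm.mp ω.2
    have h2 := norm_sub_norm_le (ω : ℂ) (z y)
    rw [h1, hzr] at h2
    exact h2
  have hne : ∀ (ω : sphere (0:ℂ) 1) (y : ℝ), ‖(ω : ℂ) - z y‖ ^ 2 ≠ 0 := by
    intro ω y
    have := hlow ω y
    have h3 : 0 < ‖(ω : ℂ) - z y‖ := by linarith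
    positivity
  unfold V
  apply continuous_of_dominated (bound := fun _ => 1 / (1 - r) ^ 2)
  · intro y
    apply Continuous.aestronglyMeasurable
    exact continuous_const.div (by fun_prop) (fun ω => hne ω y)
  · intro y
    refine Filter.Eventually.of_forall fun ω => ?_
    rw [Real.norm_eq_abs, abs_div, abs_of_nonneg (sq_nonneg ‖(ω : ℂ) - z y‖), hzr]
    have h1 : |1 - r ^ 2| ≤ 1 := by
      rw [abs_le]; constructor <;> nlinarith
    have h2 : (1 - r) ^ 2 ≤ ‖(ω : ℂ) - z y‖ ^ 2 :=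
      pow_le_pow_left₀ (by linarith) (hlow ω y) 2
    have h3 : 0 < (1 - r) ^ 2 := by
      have : 0 < 1 - r := by linarith
      positivity
    exact div_le_div₀ (by norm_num) h1 h3 h2
  · exact integrable_const _
  · refine Filter.Eventually.of_forall fun ω => ?_
    refine Continuous.div (by fun_prop) (by fun_prop) (fun y => hne ω y)

theorem um_Good_mono {l : ℕ → ℂ} {t : ℝ →₀ ℝ} {z : ℂ} {B B' : ℝ} (h : Good l t z B)
    (hB : B ≤ B') : Good l t z B' := by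
  intro n
  refine (h n).trans ?_
  exact mul_le_mul_of_nonneg_left hB (by positivity)

theorem um_mass (X : ℕ → ℝ) (c : ℝ) (s : Finset ℕ) :
    ((∑ i ∈ s, Finsupp.single (X i) c).sum fun _ m => m) = s.card * c := by
  induction s using Finset.induction_on with
  | empty => simp
  | insert a s ha ih =>
    rw [Finset.sum_insert ha, Finsupp.sum_add_index' (by simp) (by intros; rfl),
      Finsupp.sum_single_index rfl, ih, Finset.card_insert_of_notMem ha]
    push_cast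
    ring

theorem um_nonneg (X : ℕ → ℝ) (c : ℝ) (hc : 0 ≤ c) (s : Finset ℕ) (α : ℝ) :
    0 ≤ (∑ i ∈ s, Finsupp.single (X i) c) α := by
  rw [Finsupp.finsetSum_apply]
  refine Finset.sum_nonneg fun i _ => ?_
  rw [Finsupp.single_apply]
  split_ifs
  · exact hc
  · exact le_refl _

theorem Umain (l : ℕ → ℂ) (L0 : ℝ) (hL0 : 1 ≤ L0) (hl : ∀ n, ‖l n‖ ≤ L0) (eu K : ℝ)
    (heu : 0 < eu) (hK : 0 < K) (hM : Maj l eu K) :
    ∃ C' d0 : ℝ, 1 ≤ C' ∧ 0 < d0 ∧ ∀ d : ℝ, 0 < d → d ≤ d0 → ∃ ρ0 : ℝ, 0 < ρ0 ∧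
      ∀ ρ : ℝ, 0 < ρ → ρ ≤ ρ0 → ∀ θ : ℝ, ∃ X0 : ℝ, 0 < X0 ∧ ∀ X : ℝ, 0 < X → X < X0 →
        ∃ h : ℝ, 1 / 4 ≤ h ∧ h ≤ 3 / 4 ∧
          Good l (Finsupp.single 0 1 + Finsupp.single X (d ^ 2))
            (Complex.exp ⟨-(ρ * X), θ - (1 - h) * X⟩) (Real.exp (C' * d ^ 2 / X)) := by
  have hCpos : 0 ≤ 200 * (K + 1) / eu := by positivity
  refine ⟨1 + 200 * (K + 1) / eu, min 1 (Real.sqrt eu), by linarith,
    lt_min one_pos (Real.sqrt_pos.mpr heu), ?_⟩
  obtain ⟨C', hC'⟩ : ∃ C', C' = 1 + 200 * (K + 1) / eu := ⟨_, rfl⟩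
  rw [← hC']
  have hC1 : 1 ≤ C' := by rw [hC']; linarith
  have hCe : 200 * (K + 1) ≤ C' * eu := by
    rw [hC', add_mul, div_mul_cancel₀ _ heu.ne']
    linarith
  intro d hd hdd
  have hd1 : d ≤ 1 := hdd.trans (min_le_left _ _)
  have hd2 : d ^ 2 ≤ eu := by
    have h1 : d ≤ Real.sqrt eu := hdd.trans (min_le_right _ _)
    calc d ^ 2 ≤ (Real.sqrt eu) ^ 2 := pow_le_pow_left₀ hd.le h1 2
      _ = eu := Real.sq_sqrt heu.le
  have hdp : 0 < d ^ 2 := by positivity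
  refine ⟨min (1 / 1000) (d ^ 2 / (1000 * (eu + 1))), lt_min (by norm_num) (by positivity), ?_⟩
  intro ρ hρ hρ0 θ
  have hρ1 : ρ ≤ 1 / 1000 := hρ0.trans (min_le_left _ _)
  have hρ2 : ρ ≤ d ^ 2 / (1000 * (eu + 1)) := hρ0.trans (min_le_right _ _)
  by_contra hcon
  push Not at hcon
  -- number of atoms
  obtain ⟨N, hN⟩ : ∃ N : ℕ, N = ⌊eu / d ^ 2⌋₊ := ⟨_, rfl⟩
  have hN1 : (N : ℝ) * d ^ 2 ≤ eu := by
    have h1 : (N : ℝ) ≤ eu / d ^ 2 := by rw [hN]; exact Nat.floor_le (by positivity)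
    rwa [le_div_iff₀ hdp] at h1
  have hN2 : eu / 2 ≤ (N : ℝ) * d ^ 2 := by
    have h1 : eu / d ^ 2 < (N : ℝ) + 1 := by rw [hN]; exact Nat.lt_floor_add_one _
    have h2 : 1 ≤ N := by
      rw [hN, Nat.one_le_floor_iff]
      rw [le_div_iff₀ hdp]; linarith
    have h3 : (1 : ℝ) ≤ N := by exact_mod_cast h2
    rw [div_lt_iff₀ hdp] at h1
    nlinarith
  obtain ⟨δ, hδ, hδX⟩ := um_exp_bound (C' * d ^ 2 / 2) ρ (by positivity) hρ
  obtain ⟨X, hX, hdec⟩ := um_seq (fun X => ∀ h : ℝ, 1 / 4 ≤ h → h ≤ 3 / 4 →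
      ¬ Good l (Finsupp.single 0 1 + Finsupp.single X (d ^ 2))
            (Complex.exp ⟨-(ρ * X), θ - (1 - h) * X⟩) (Real.exp (C' * d ^ 2 / X))) hcon
    (min δ (1 / 100)) (lt_min hδ (by norm_num))
  have hX0 : ∀ i, 0 < X i := fun i => (hX i).1
  have hXδ : ∀ i, X i < δ := fun i => (hX i).2.1.trans_le (min_le_left _ _)
  have hX1 : ∀ i, X i ≤ 1 / 100 := fun i => ((hX i).2.1.trans_le (min_le_right _ _)).le
  obtain ⟨σ, hσ, hσK, hGood⟩ := hM (∑ i ∈ Finset.range N, Finsupp.single (X i) (d ^ 2))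
    (um_nonneg X _ hdp.le _) (by rw [um_mass, Finset.card_range]; exact hN1)
  have hzn : ∀ i y, ‖Complex.exp ⟨-(ρ * X i), θ - y * X i⟩‖ = Real.exp (-(ρ * X i)) := by
    intro i y
    rw [Complex.norm_exp]
  have hVlow : ∀ i < N, ∀ y : ℝ, 1 / 4 ≤ y → y ≤ 3 / 4 →
      C' * d ^ 2 / (2 * X i) ≤ V σ (Complex.exp ⟨-(ρ * X i), θ - y * X i⟩) := by
    intro i hi y hy1 hy2
    have hu : 0 < ρ * X i := mul_pos hρ (hX0 i)
    have hu1 : ρ * X i ≤ 1 := by nlinarith [hX1 i, hX0 i]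
    have hz1 : ‖Complex.exp ⟨-(ρ * X i), θ - y * X i⟩‖ < 1 := by
      rw [hzn, Real.exp_lt_one_iff]; linarith
    have h1 := hGood _ (mem_ball_zero_iff.mpr hz1)
    have hsplit : Finsupp.single 0 1 + ∑ i ∈ Finset.range N, Finsupp.single (X i) (d ^ 2)
        = (Finsupp.single 0 1 + Finsupp.single (X i) (d ^ 2))
          + ∑ j ∈ (Finset.range N).erase i, Finsupp.single (X j) (d ^ 2) := by
      rw [add_assoc, Finset.add_sum_erase _ (fun j => Finsupp.single (X j) (d ^ 2))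
        (Finset.mem_range.mpr hi)]
    rw [hsplit] at h1
    have ht : ∀ α, 0 ≤ (Finsupp.single 0 1 + Finsupp.single (X i) (d ^ 2) : ℝ →₀ ℝ) α := by
      intro α
      rw [Finsupp.add_apply, Finsupp.single_apply, Finsupp.single_apply]
      split_ifs <;> positivity
    have h2 := Good_transfer l L0 hl _ _ ht (um_nonneg X _ hdp.le _) _ hz1 _ (by positivity) h1
    have h3 : ¬ Good l (Finsupp.single 0 1 + Finsupp.single (X i) (d ^ 2))
        (Complex.exp ⟨-(ρ * X i), θ - y * X i⟩) (Real.exp (C' * d ^ 2 / X i)) := by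
      have h4 := (hX i).2.2 (1 - y) (by linarith) (by linarith)
      rwa [show (1 - (1 - y)) = y by ring] at h4
    have h4 : Real.exp (C' * d ^ 2 / X i) <
        2 * ((1 - ‖Complex.exp ⟨-(ρ * X i), θ - y * X i⟩‖)⁻¹) ^ 3
          * (2 * Real.exp (V σ (Complex.exp ⟨-(ρ * X i), θ - y * X i⟩))) := by
      by_contra h5
      push Not at h5
      exact h3 (um_Good_mono h2 h5)
    rw [hzn] at h4
    have h5 := um_one_sub_exp (ρ * X i) hu hu1
    have h6 : (1 - Real.exp (-(ρ * X i)))⁻¹ ≤ 2 / (ρ * X i) := by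
      rw [inv_le_comm₀ (by linarith) (by positivity), inv_div]
      exact h5
    have h7 : ((1 - Real.exp (-(ρ * X i)))⁻¹) ^ 3 ≤ 8 / (ρ * X i) ^ 3 := by
      have h8 : 0 ≤ (1 - Real.exp (-(ρ * X i)))⁻¹ := inv_nonneg.mpr (by linarith)
      calc ((1 - Real.exp (-(ρ * X i)))⁻¹) ^ 3 ≤ (2 / (ρ * X i)) ^ 3 := pow_le_pow_left₀ h8 h6 3
        _ = 8 / (ρ * X i) ^ 3 := by rw [div_pow]; norm_num
    set W := V σ (Complex.exp ⟨-(ρ * X i), θ - y * X i⟩) with hW
    have h8 := Real.exp_pos W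
    have h9 : Real.exp (C' * d ^ 2 / X i) < 32 / (ρ * X i) ^ 3 * Real.exp W := by
      refine lt_of_lt_of_le h4 ?_
      have h10 : 32 / (ρ * X i) ^ 3 = 4 * (8 / (ρ * X i) ^ 3) := by ring
      rw [h10]
      nlinarith
    have h10 := hδX (X i) (hX0 i) (hXδ i)
    have h11 : Real.exp (C' * d ^ 2 / X i) <
        Real.exp (C' * d ^ 2 / 2 / X i) * Real.exp W :=
      lt_of_lt_of_le h9 (mul_le_mul_of_nonneg_right h10 h8.le)
    rw [← Real.exp_add, Real.exp_lt_exp] at h11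
    have h12 : C' * d ^ 2 / X i = C' * d ^ 2 / 2 / X i + C' * d ^ 2 / (2 * X i) := by
      have := (hX0 i).ne'
      field_simp
      ring
    linarith
  -- integrate
  have hint : ∀ i < N, C' * d ^ 2 / 4 ≤
      X i * ∫ y in (1/4 : ℝ)..(3/4), V σ (Complex.exp ⟨-(ρ * X i), θ - y * X i⟩) := by
    intro i hi
    have hcont : Continuous fun y : ℝ => V σ (Complex.exp ⟨-(ρ * X i), θ - y * X i⟩) := by
      apply um_V_cont σ hσ (Real.exp (-(ρ * X i)))
      · rw [Real.exp_lt_one_iff]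
        have := mul_pos hρ (hX0 i)
        linarith
      · have he : (fun y : ℝ => Complex.exp ⟨-(ρ * X i), θ - y * X i⟩)
            = fun y : ℝ => Complex.exp ((-(ρ * X i) : ℝ) + ((θ - y * X i : ℝ) : ℂ) * Complex.I) := by
          funext y
          congr 1
          exact Complex.mk_eq_add_mul_I _ _
        rw [he]
        fun_prop
      · exact hzn i
    have h1 : ∫ y in (1/4 : ℝ)..(3/4), C' * d ^ 2 / (2 * X i) ≤
        ∫ y in (1/4 : ℝ)..(3/4), V σ (Complex.exp ⟨-(ρ * X i), θ - y * X i⟩) := by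
      apply intervalIntegral.integral_mono_on (by norm_num)
      · exact intervalIntegrable_const
      · exact hcont.intervalIntegrable _ _
      · intro y hy
        exact hVlow i hi y hy.1 hy.2
    rw [intervalIntegral.integral_const, smul_eq_mul] at h1
    have h2 := mul_le_mul_of_nonneg_left h1 (hX0 i).le
    refine le_trans (le_of_eq ?_) h2
    have := (hX0 i).ne'
    field_simp
    ring
  have hz := zones σ hσ N X ρ θ hρ hρ1 (fun i _ => ⟨hX0 i, hX1 i⟩) (fun i j hij _ => hdec i j hij)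
  have hsum : (N : ℝ) * (C' * d ^ 2 / 4) ≤ (7 + 300 * N * ρ) * σ.real univ := by
    refine le_trans ?_ hz
    calc (N : ℝ) * (C' * d ^ 2 / 4) = ∑ i ∈ Finset.range N, C' * d ^ 2 / 4 := by simp
      _ ≤ _ := Finset.sum_le_sum fun i hi => hint i (Finset.mem_range.mp hi)
  have hNρ : (N : ℝ) * ρ ≤ 1 / 1000 := by
    have h1 : (N : ℝ) * ρ ≤ N * (d ^ 2 / (1000 * (eu + 1))) :=
      mul_le_mul_of_nonneg_left hρ2 (by positivity)
    have h2 : (N : ℝ) * (d ^ 2 / (1000 * (eu + 1))) = (N * d ^ 2) / (1000 * (eu + 1)) := by ring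
    rw [h2] at h1
    refine h1.trans ?_
    rw [div_le_div_iff₀ (by positivity) (by norm_num)]
    nlinarith
  have hσ0 : 0 ≤ σ.real univ := measureReal_nonneg
  have hr : (7 + 300 * N * ρ) * σ.real univ ≤ 8 * K := by
    have h1 : 7 + 300 * (N : ℝ) * ρ ≤ 8 := by nlinarith
    have h2 : 0 ≤ 7 + 300 * (N : ℝ) * ρ := by positivity
    nlinarith
  have hl1 : C' * (eu / 2) ≤ C' * (N * d ^ 2) := mul_le_mul_of_nonneg_left hN2 (by linarith)
  nlinarith

/-! ## Part D (local analysis at a point) -/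

end NM
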