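import Pool.Agent.Helper360.NM.Defs



namespace NM
open Complex Metric Set Filter Topology MeasureTheory


theorem small_arcs (σ : Measure (sphere (0:ℂ) 1)) (hσ : IsFiniteMeasure σ) (η : ℝ) (hη : 0 < η) :
    ∃ Θ : Finset (sphere (0:ℂ) 1), ∃ δ : ℝ, 0 < δ ∧ ∀ ω0 : sphere (0:ℂ) 1,
      σ.real ({ω | ‖(ω : ℂ) - (ω0 : ℂ)‖ < δ} \ (Θ : Set (sphere (0:ℂ) 1))) ≤ η := by
  classical
  have hη2 : 0 < ENNReal.ofReal (η / 2) := ENNReal.ofReal_pos.mpr (by linarith)
  have hfin : Set.Finite {ω : sphere (0:ℂ) 1 | ENNReal.ofReal (η / 2) ≤ σ {ω}} := by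
    refine Measure.finite_const_le_meas_of_disjoint_iUnion σ hη2
      (As := fun ω : sphere (0:ℂ) 1 => ({ω} : Set (sphere (0:ℂ) 1)))
      (fun ω => measurableSet_singleton ω) ?_ (measure_ne_top _ _)
    intro a b hab
    exact Set.disjoint_singleton.mpr hab
  have hloc : ∀ ω0 : sphere (0:ℂ) 1, ∃ d : ℝ, 0 < d ∧
      σ (ball ω0 d \ (hfin.toFinset : Set (sphere (0:ℂ) 1))) ≤ ENNReal.ofReal η := by
    intro ω0
    have hanti : Antitone (fun n : ℕ => ball ω0 (1 / ((n : ℝ) + 1)) \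
        (hfin.toFinset : Set (sphere (0:ℂ) 1))) := by
      intro m n hmn
      exact Set.sdiff_subset_sdiff_left (ball_subset_ball (Nat.one_div_le_one_div hmn))
    have ht := tendsto_measure_iInter_atTop (μ := σ) (s := fun n : ℕ =>
      ball ω0 (1 / ((n : ℝ) + 1)) \ (hfin.toFinset : Set (sphere (0:ℂ) 1)))
      (fun n => (isOpen_ball.measurableSet.diff
        (hfin.toFinset.measurableSet)).nullMeasurableSet) hanti ⟨0, measure_ne_top _ _⟩
    have hsub : (⋂ n : ℕ, ball ω0 (1 / ((n : ℝ) + 1)) \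
        (hfin.toFinset : Set (sphere (0:ℂ) 1))) ⊆ {ω0} \ (hfin.toFinset : Set (sphere (0:ℂ) 1)) := by
      intro ω hω
      rw [Set.mem_iInter] at hω
      refine ⟨?_, (hω 0).2⟩
      by_contra hne
      have hd : 0 < dist ω ω0 := dist_pos.mpr hne
      obtain ⟨n, hn⟩ := exists_nat_one_div_lt hd
      have h1 : dist ω ω0 < 1 / ((n : ℝ) + 1) := (hω n).1
      linarith
    have hlt : σ (⋂ n : ℕ, ball ω0 (1 / ((n : ℝ) + 1)) \
        (hfin.toFinset : Set (sphere (0:ℂ) 1))) < ENNReal.ofReal η := by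
      by_cases h0 : ω0 ∈ (hfin.toFinset : Set (sphere (0:ℂ) 1))
      · have h1 : ({ω0} : Set (sphere (0:ℂ) 1)) \ (hfin.toFinset : Set (sphere (0:ℂ) 1)) = ∅ := by
          rw [Set.sdiff_eq_empty]
          exact Set.singleton_subset_iff.mpr h0
        rw [h1] at hsub
        rw [Set.subset_empty_iff.mp hsub, measure_empty]
        exact ENNReal.ofReal_pos.mpr hη
      · have h1 : ¬ (ENNReal.ofReal (η / 2) ≤ σ {ω0}) := by
          intro h
          exact h0 (by simpa using h)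
        push Not at h1
        calc σ (⋂ n : ℕ, ball ω0 (1 / ((n : ℝ) + 1)) \
              (hfin.toFinset : Set (sphere (0:ℂ) 1))) ≤ σ {ω0} :=
              measure_mono (hsub.trans Set.sdiff_subset)
          _ < ENNReal.ofReal (η / 2) := h1
          _ ≤ ENNReal.ofReal η := ENNReal.ofReal_le_ofReal (by linarith)
    obtain ⟨n, hn⟩ := (ht.eventually (gt_mem_nhds hlt)).exists
    exact ⟨1 / ((n : ℝ) + 1), by positivity, hn.le⟩
  choose d hd0 hd using hloc
  obtain ⟨δ, hδ, hball⟩ := lebesgue_number_lemma_of_metric (s := (univ : Set (sphere (0:ℂ) 1)))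
    (c := fun ω0 => ball ω0 (d ω0)) isCompact_univ (fun _ => isOpen_ball)
    (fun ω _ => Set.mem_iUnion.mpr ⟨ω, mem_ball_self (hd0 ω)⟩)
  refine ⟨hfin.toFinset, δ, hδ, fun ω0 => ?_⟩
  obtain ⟨ω1, hω1⟩ := hball ω0 (mem_univ _)
  have hset : {ω : sphere (0:ℂ) 1 | ‖(ω : ℂ) - (ω0 : ℂ)‖ < δ} = ball ω0 δ := by
    ext ω
    rw [mem_ball, Subtype.dist_eq, Complex.dist_eq]
    rfl
  rw [hset]
  refine ENNReal.toReal_le_of_le_ofReal hη.le ?_
  exact (measure_mono (Set.sdiff_subset_sdiff_left hω1)).trans (hd ω1)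

end NM
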