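import Pool.Agent.Helper360.NM.Defs
import Pool.Agent.Helper360.NM.P_V_split
import Pool.Agent.Helper360.NM.P_small_arcs



namespace NM
open Complex Metric Set Filter Topology MeasureTheory


theorem Vglob (σ : Measure (sphere (0:ℂ) 1)) (hσ : IsFiniteMeasure σ) (ε : ℝ) (hε : 0 < ε) :
    ∃ ρ0 : ℝ, 0 < ρ0 ∧ ρ0 ≤ 1 / 1000 ∧ ∀ ρ : ℝ, 0 < ρ → ρ ≤ ρ0 →
      ∃ Θ : Finset ℂ, Θ.Nonempty ∧ (∀ θ ∈ Θ, ‖θ‖ = 1) ∧ ∃ X0 : ℝ, 0 < X0 ∧ X0 ≤ 1 / 100 ∧
        ∀ X x y : ℝ, 0 < X → X < X0 → ρ * X / 10 ≤ x → x ≤ 4 * ρ * X →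
          (∀ θ ∈ Θ, X / 20 ≤ ‖Complex.exp ((y : ℂ) * Complex.I) - θ‖) →
          V σ (Complex.exp ⟨-x, y⟩) ≤ ε / X := by
  classical
  obtain ⟨S, hS⟩ : ∃ S, S = σ.real univ := ⟨_, rfl⟩
  have hS0 : 0 ≤ S := by rw [hS]; exact measureReal_nonneg
  have hS1 : 0 < S + 1 := by linarith
  refine ⟨min (1 / 1000) (ε / (102400 * (S + 1))), lt_min (by norm_num) (by positivity),
    min_le_left _ _, fun ρ hρ hρ0 => ?_⟩
  have hρ1 : ρ ≤ 1 / 1000 := hρ0.trans (min_le_left _ _)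
  have hρ2 : 12800 * ρ * S ≤ ε / 8 := by
    have h1 : ρ ≤ ε / (102400 * (S + 1)) := hρ0.trans (min_le_right _ _)
    rw [le_div_iff₀ (by positivity)] at h1
    nlinarith
  obtain ⟨Θ0, δ, hδ, harc⟩ := small_arcs σ hσ (ρ * ε / 1000) (by positivity)
  refine ⟨insert 1 (Finset.image (Subtype.val : sphere (0:ℂ) 1 → ℂ) Θ0), ⟨1, Finset.mem_insert_self _ _⟩, ?_,
    min (1 / 100) (min δ (ε * δ ^ 2 / (8 * (S + 1)))),
    lt_min (by norm_num) (lt_min hδ (by positivity)), min_le_left _ _, ?_⟩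
  · intro θ hθ
    rw [Finset.mem_insert, Finset.mem_image] at hθ
    rcases hθ with rfl | ⟨ω, -, rfl⟩
    · exact norm_one
    · exact mem_sphere_zero_iff_norm.1 ω.2
  intro X x y hX hXX hx1 hx2 hdist
  have hX1 : X < 1 / 100 := lt_of_lt_of_le hXX (min_le_left _ _)
  have hX2 : X < δ := lt_of_lt_of_le hXX ((min_le_right _ _).trans (min_le_left _ _))
  have hX3 : X < ε * δ ^ 2 / (8 * (S + 1)) :=
    lt_of_lt_of_le hXX ((min_le_right _ _).trans (min_le_right _ _))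
  have hx0 : 0 < x := lt_of_lt_of_le (by positivity) hx1
  have hρX : ρ * X ≤ X / 1000 := by
    have := mul_le_mul_of_nonneg_right hρ1 hX.le
    linarith
  obtain ⟨ω0, hω0⟩ : ∃ ω0 : sphere (0:ℂ) 1, (ω0 : ℂ) = Complex.exp ((y : ℂ) * Complex.I) :=
    ⟨⟨Complex.exp ((y : ℂ) * Complex.I), by
      rw [mem_sphere_zero_iff_norm, Complex.norm_exp_ofReal_mul_I]⟩, rfl⟩
  have hsplit := V_split σ hσ x y (X / 20) δ hx0 (by nlinarith) (by nlinarith) (by nlinarith)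
    ({ω : sphere (0:ℂ) 1 | ‖(ω : ℂ) - (ω0 : ℂ)‖ < δ} \ (Θ0 : Set (sphere (0:ℂ) 1)))
    (Θ0 : Set (sphere (0:ℂ) 1))
    ((isOpen_lt (by fun_prop) continuous_const).measurableSet.diff Θ0.measurableSet)
    Θ0.measurableSet
    (fun ω hω => by
      have h1 := hdist (ω : ℂ) (Finset.mem_insert_of_mem (Finset.mem_image_of_mem _ hω))
      rwa [norm_sub_rev] at h1)
    (fun ω h1 h2 => by
      rw [← hω0]
      by_contra h3
      exact h1 ⟨not_le.1 h3, h2⟩)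
  refine hsplit.trans ?_
  rw [← hS]
  -- first term
  have t1 : 4 / x * σ.real ({ω : sphere (0:ℂ) 1 | ‖(ω : ℂ) - (ω0 : ℂ)‖ < δ} \
      (Θ0 : Set (sphere (0:ℂ) 1))) ≤ ε / 8 / X := by
    have h1 : 4 / x ≤ 4 / (ρ * X / 10) := div_le_div_of_nonneg_left (by norm_num) (by positivity) hx1
    calc
      _ ≤ 4 / (ρ * X / 10) * (ρ * ε / 1000) :=
        mul_le_mul h1 (harc ω0) measureReal_nonneg (by positivity)
      _ = ε / 25 / X := by
        field_simp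
        norm_num
      _ ≤ ε / 8 / X := by
        refine div_le_div_of_nonneg_right ?_ hX.le
        linarith
  have t2 : 8 * x / (X / 20) ^ 2 * σ.real (Θ0 : Set (sphere (0:ℂ) 1)) ≤ ε / 8 / X := by
    have h1 : σ.real (Θ0 : Set (sphere (0:ℂ) 1)) ≤ S := by
      rw [hS]
      exact measureReal_mono (subset_univ _)
    have h2 : 8 * x / (X / 20) ^ 2 ≤ 12800 * ρ / X := by
      rw [div_le_div_iff₀ (by positivity) hX]
      calc
        8 * x * X ≤ 8 * (4 * ρ * X) * X := by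
          refine mul_le_mul_of_nonneg_right ?_ hX.le
          linarith
        _ = _ := by ring
    calc
      _ ≤ 12800 * ρ / X * S := mul_le_mul h2 h1 measureReal_nonneg (by positivity)
      _ = 12800 * ρ * S / X := by ring
      _ ≤ _ := div_le_div_of_nonneg_right hρ2 hX.le
  have t3 : 8 * x / δ ^ 2 * S ≤ ε / 8 / X := by
    rw [lt_div_iff₀ (by positivity)] at hX3
    have h1 : 8 * x * S * X ≤ ε / 8 * δ ^ 2 := by
      have e1 : 8 * x ≤ 1 / 4 := by nlinarith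
      have e2 : 8 * x * (S * X) ≤ 1 * (S * X) :=
        mul_le_mul_of_nonneg_right (by linarith) (by positivity)
      nlinarith
    rw [div_mul_eq_mul_div, div_le_div_iff₀ (by positivity) hX]
    exact h1
  calc
    _ ≤ ε / 8 / X + ε / 8 / X + ε / 8 / X := add_le_add (add_le_add t1 t2) t3
    _ = (3 * ε / 8) / X := by ring
    _ ≤ ε / X := div_le_div_of_nonneg_right (by linarith) hX.le

end NM
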