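import Pool.Agent.Helper360.NM.Defs



namespace NM
open Complex Metric Set Filter Topology MeasureTheory


theorem coeff_term (c : ℂ) (k : ℤ) (hk : k ≠ 0) (x y0 : ℝ) :
    (∫ v in y0..(y0 + 2 * Real.pi), c * Complex.exp ((k : ℂ) * ⟨-x, v⟩)) = 0 := by
  have hck : ((k : ℂ) * Complex.I) ≠ 0 :=
    mul_ne_zero (by exact_mod_cast hk) Complex.I_ne_zero
  have h1 : ∀ v : ℝ, c * Complex.exp ((k : ℂ) * (⟨-x, v⟩ : ℂ)) =
      (c * Complex.exp ((k : ℂ) * (-(x : ℂ)))) * Complex.exp (((k : ℂ) * Complex.I) * v) := by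
    intro v
    rw [mul_assoc, ← Complex.exp_add]
    congr 2
    rw [Complex.mk_eq_add_mul_I]
    push_cast
    ring
  simp_rw [h1]
  rw [intervalIntegral.integral_const_mul, integral_exp_mul_complex hck]
  have h2 : Complex.exp ((k : ℂ) * Complex.I * ((y0 + 2 * Real.pi : ℝ) : ℂ)) =
      Complex.exp ((k : ℂ) * Complex.I * (y0 : ℂ)) := by
    have : (k : ℂ) * Complex.I * ((y0 + 2 * Real.pi : ℝ) : ℂ) =
        (k : ℂ) * Complex.I * (y0 : ℂ) + (k : ℂ) * (2 * Real.pi * Complex.I) := by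
      push_cast; ring
    rw [this, Complex.exp_add, Complex.exp_int_mul_two_pi_mul_I, mul_one]
  rw [h2, sub_self, zero_div, mul_zero]

theorem coeff (l : ℕ → ℂ) (L0 : ℝ) (hl : ∀ n, ‖l n‖ ≤ L0) (x y0 : ℝ) (hx : 0 < x) (n : ℕ) :
    (∫ v in y0..(y0 + 2 * Real.pi), Complex.I * (Kf l ⟨-x, v⟩ * Complex.exp (-((n : ℂ) * ⟨-x, v⟩))))
      = 2 * Real.pi * Complex.I * l n := by
  have hL0 : 0 ≤ L0 := le_trans (norm_nonneg _) (hl 0)
  have hnorm : ∀ (m : ℕ) (v : ℝ), ‖Complex.exp ((m : ℂ) * (⟨-x, v⟩ : ℂ))‖ = (Real.exp (-x)) ^ m := by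
    intro m v
    rw [Complex.norm_exp, ← Real.exp_nat_mul]
    congr 1
    simp
  have hgeo : Summable (fun m : ℕ => (Real.exp (-x)) ^ m) := by
    apply summable_geometric_of_lt_one (Real.exp_pos _).le
    rw [Real.exp_lt_one_iff]
    linarith
  have hsum : ∀ v : ℝ, Summable (fun m : ℕ => l m * Complex.exp ((m : ℂ) * (⟨-x, v⟩ : ℂ))) := by
    intro v
    apply Summable.of_norm_bounded (g := fun m : ℕ => L0 * (Real.exp (-x)) ^ m) (hgeo.mul_left L0)
    intro m
    rw [norm_mul, hnorm]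
    exact mul_le_mul_of_nonneg_right (hl m) (pow_nonneg (Real.exp_pos _).le _)
  set F : ℕ → ℝ → ℂ := fun m v =>
    Complex.I * ((l m * Complex.exp ((m : ℂ) * (⟨-x, v⟩ : ℂ))) *
      Complex.exp (-((n : ℂ) * (⟨-x, v⟩ : ℂ)))) with hF
  have hmk : Continuous (fun v : ℝ => (⟨-x, v⟩ : ℂ)) := by
    have : (fun v : ℝ => (⟨-x, v⟩ : ℂ)) = fun v : ℝ => ((-x : ℝ) : ℂ) + (v : ℂ) * Complex.I := by
      funext v
      rw [Complex.mk_eq_add_mul_I]
    rw [this]
    fun_prop
  have hFcont : ∀ m, Continuous (F m) := by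
    intro m
    simp only [hF]
    fun_prop
  have hn2 : ∀ v : ℝ, ‖Complex.exp (-((n : ℂ) * (⟨-x, v⟩ : ℂ)))‖ = Real.exp (n * x) := by
    intro v
    rw [Complex.norm_exp]
    congr 1
    simp
  have hbound : ∀ (m : ℕ) (v : ℝ), ‖F m v‖ ≤ L0 * (Real.exp (-x)) ^ m * Real.exp (n * x) := by
    intro m v
    simp only [hF]
    rw [norm_mul, norm_mul, norm_mul, Complex.norm_I, one_mul, hnorm, hn2]
    apply mul_le_mul_of_nonneg_right _ (Real.exp_pos _).le
    exact mul_le_mul_of_nonneg_right (hl m) (pow_nonneg (Real.exp_pos _).le _)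
  have hHS := intervalIntegral.hasSum_integral_of_dominated_convergence (μ := volume)
    (a := y0) (b := y0 + 2 * Real.pi) (F := F)
    (f := fun v => Complex.I * (Kf l ⟨-x, v⟩ * Complex.exp (-((n : ℂ) * ⟨-x, v⟩))))
    (fun m _ => L0 * (Real.exp (-x)) ^ m * Real.exp (n * x))
    (fun m => (hFcont m).aestronglyMeasurable)
    (fun m => Filter.Eventually.of_forall fun v _ => hbound m v)
    (Filter.Eventually.of_forall fun v _ => (hgeo.mul_left L0).mul_right _)
    (by exact intervalIntegrable_const)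
    (Filter.Eventually.of_forall fun v _ => by
      exact ((hsum v).hasSum.mul_right _).mul_left _)
  have hval : ∀ m, m ≠ n → (∫ v in y0..(y0 + 2 * Real.pi), F m v) = 0 := by
    intro m hm
    have hk : ((m : ℤ) - n) ≠ 0 := by
      intro h
      apply hm
      omega
    have := coeff_term (Complex.I * l m) ((m : ℤ) - n) hk x y0
    rw [← this]
    apply intervalIntegral.integral_congr
    intro v _
    simp only [hF]
    have : Complex.exp ((((m : ℤ) - (n : ℤ) : ℤ) : ℂ) * (⟨-x, v⟩ : ℂ)) =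
        Complex.exp ((m : ℂ) * (⟨-x, v⟩ : ℂ)) * Complex.exp (-((n : ℂ) * (⟨-x, v⟩ : ℂ))) := by
      rw [← Complex.exp_add]
      congr 1
      push_cast
      ring
    rw [this]
    ring
  have hvaln : (∫ v in y0..(y0 + 2 * Real.pi), F n v) = 2 * Real.pi * Complex.I * l n := by
    have h1 : ∀ v : ℝ, F n v = Complex.I * l n := by
      intro v
      simp only [hF]
      rw [mul_assoc, ← Complex.exp_add, add_neg_cancel, Complex.exp_zero, mul_one]
    simp_rw [h1]
    rw [intervalIntegral.integral_const]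
    simp only [add_sub_cancel_left, Complex.real_smul]
    push_cast
    ring
  have h3 := hasSum_single (f := fun m => ∫ v in y0..(y0 + 2 * Real.pi), F m v) n hval
  rw [hvaln] at h3
  exact hHS.unique h3

end NM
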