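import Pool.Agent.Helper360.NM.Defs
import Pool.Agent.Helper360.NM.P_CL
import Pool.Agent.Helper360.NM.P_sm_one
import Pool.Agent.Helper360.NM.P_closeK



namespace NM
open Complex Metric Set Filter Topology MeasureTheory


theorem glue_cx (u v : ℝ) : (⟨u, v⟩ : ℂ) = (u : ℂ) + (v : ℂ) * Complex.I :=
  Complex.mk_eq_add_mul_I u v

theorem glue_cu (v : ℝ) : Continuous (fun u : ℝ => (⟨u, v⟩ : ℂ)) := by
  simp only [glue_cx]
  fun_prop

theorem glue_cv (u : ℝ) : Continuous (fun v : ℝ => (⟨u, v⟩ : ℂ)) := by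
  simp only [glue_cx]
  fun_prop

theorem glue_norm (n : ℕ) (s : ℂ) : ‖Complex.exp (-((n : ℂ) * s))‖ = Real.exp (-(n * s.re)) := by
  rw [Complex.norm_exp]
  simp

theorem glue_rect (f : ℂ → ℂ) (x0 x1 v0 v1 : ℝ)
    (hf : DifferentiableOn ℂ f (Set.uIcc x0 x1 ×ℂ Set.uIcc v0 v1)) :
    (∫ u in x0..x1, f ⟨u, v0⟩) - (∫ u in x0..x1, f ⟨u, v1⟩)
      + (∫ v in v0..v1, Complex.I * f ⟨x1, v⟩) - (∫ v in v0..v1, Complex.I * f ⟨x0, v⟩) = 0 := by
  have h := Complex.integral_boundary_rect_eq_zero_of_differentiableOn f ⟨x0, v0⟩ ⟨x1, v1⟩ hf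
  simp only [glue_cx, intervalIntegral.integral_const_mul, smul_eq_mul] at h ⊢
  simpa using h

theorem glue_contu {a X : ℝ} (ha : 0 < a) (haX : 0 < X) {G : ℂ → ℂ}
    (hG : DifferentiableOn ℂ G {s | -a < s.re}) (v : ℝ) (n : ℕ) :
    IntervalIntegrable (fun u : ℝ => G ⟨u, v⟩ * Complex.exp (-((n : ℂ) * ⟨u, v⟩))) volume
      (-(a / 2)) X := by
  apply ContinuousOn.intervalIntegrable
  apply ContinuousOn.mul
  · apply hG.continuousOn.comp (glue_cu v).continuousOn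
    intro u hu
    rw [Set.uIcc_of_le (by linarith)] at hu
    show -a < u
    linarith [hu.1]
  · have : Continuous (fun u : ℝ => Complex.exp (-((n : ℂ) * ⟨u, v⟩))) := by
      simp only [glue_cx]
      fun_prop
    exact this.continuousOn

theorem glue_contv {G : ℂ → ℂ} {S : Set ℂ} (hG : ContinuousOn G S) (u : ℝ)
    (hS : ∀ v : ℝ, (⟨u, v⟩ : ℂ) ∈ S) (n : ℕ) :
    Continuous (fun v : ℝ => Complex.I * (G ⟨u, v⟩ * Complex.exp (-((n : ℂ) * ⟨u, v⟩)))) := by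
  have h1 : Continuous (fun v : ℝ => G ⟨u, v⟩) :=
    hG.comp_continuous (glue_cv u) hS
  have : Continuous (fun v : ℝ => Complex.exp (-((n : ℂ) * ⟨u, v⟩))) := by
    simp only [glue_cx]
    fun_prop
  exact continuous_const.mul (h1.mul this)

theorem glue_h (K G G' : ℂ → ℂ) (a X E v v' : ℝ) (n : ℕ) (ha : 0 < a) (ha1 : a ≤ 1 / 100)
    (haX : 16 * a ≤ X) (hE : 1 ≤ E) (hv : |v - v'| ≤ a / 16)
    (hG : Appr K ⟨-a, v⟩ 1 E G) (hG' : Appr K ⟨-a, v'⟩ 1 E G') :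
    ‖(∫ u in (-(a / 2))..X, G ⟨u, v⟩ * Complex.exp (-((n : ℂ) * ⟨u, v⟩)))
      - (∫ u in (-(a / 2))..X, G' ⟨u, v⟩ * Complex.exp (-((n : ℂ) * ⟨u, v⟩)))‖ ≤
      (2 * E * Real.exp (-(1 / (17 * X))) * Real.exp (n * (a / 2))) * (X + a / 2) := by
  have hX : 0 < X := by linarith
  have hcl := CL K G G' ⟨-a, v⟩ ⟨-a, v'⟩ 1 E a one_pos le_rfl hE ha rfl (sm_one a ha ha1) (by
    have e1 : (⟨-a, v⟩ : ℂ) - ⟨-a, v'⟩ = ((v - v' : ℝ) : ℂ) * Complex.I := by
      apply Complex.ext <;> simp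
    rw [e1, norm_mul, Complex.norm_I, mul_one, Complex.norm_real, Real.norm_eq_abs]
    exact hv) hG hG'
  have hi1 := glue_contu ha hX hG.1 v n
  have hi2 := glue_contu ha hX hG'.1 v n
  rw [← intervalIntegral.integral_sub hi1 hi2]
  have hb : ∀ u ∈ Set.uIoc (-(a / 2)) X,
      ‖G ⟨u, v⟩ * Complex.exp (-((n : ℂ) * ⟨u, v⟩)) - G' ⟨u, v⟩ * Complex.exp (-((n : ℂ) * ⟨u, v⟩))‖
        ≤ 2 * E * Real.exp (-(1 / (17 * X))) * Real.exp (n * (a / 2)) := by
    intro u hu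
    rw [Set.uIoc_of_le (by linarith)] at hu
    have hua : 0 < u + a := by linarith [hu.1]
    rw [← sub_mul, norm_mul, glue_norm]
    have h1 := hcl ⟨u, v⟩ (by show -(a / 2) ≤ u; exact hu.1.le)
    have e2 : (⟨u, v⟩ : ℂ) - ⟨-a, v⟩ = ((u + a : ℝ) : ℂ) := by
      apply Complex.ext <;> simp
    rw [e2, Complex.norm_real, Real.norm_eq_abs, abs_of_pos hua] at h1
    have h2 : -(1 * ((⟨u, v⟩ : ℂ).re + a) / (16 * (u + a) ^ 2)) ≤ -(1 / (17 * X)) := by
      show -(1 * (u + a) / (16 * (u + a) ^ 2)) ≤ -(1 / (17 * X))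
      have e3 : 1 * (u + a) / (16 * (u + a) ^ 2) = 1 / (16 * (u + a)) := by
        field_simp
      rw [e3]
      apply neg_le_neg
      apply one_div_le_one_div_of_le (by positivity)
      linarith [hu.2]
    have h3 : ‖G ⟨u, v⟩ - G' ⟨u, v⟩‖ ≤ 2 * E * Real.exp (-(1 / (17 * X))) :=
      h1.trans (mul_le_mul_of_nonneg_left (Real.exp_le_exp.2 h2) (by linarith))
    have h4 : Real.exp (-(n * (⟨u, v⟩ : ℂ).re)) ≤ Real.exp (n * (a / 2)) := by
      apply Real.exp_le_exp.2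
      show -(n * u) ≤ n * (a / 2)
      have : (0 : ℝ) ≤ n := Nat.cast_nonneg n
      nlinarith [hu.1]
    exact mul_le_mul h3 h4 (Real.exp_pos _).le (by positivity)
  have := intervalIntegral.norm_integral_le_of_norm_le_const hb
  rwa [abs_of_pos (by linarith), show X - -(a / 2) = X + a / 2 by ring] at this

theorem glue_c (K G' : ℂ → ℂ) (a E v v' : ℝ) (n : ℕ) (ha : 0 < a)
    (hE : 1 ≤ E) (hv0 : v' ≤ v) (hv : v - v' ≤ a / 16)
    (hK : DifferentiableOn ℂ K {s | s.re < 0}) (hG' : Appr K ⟨-a, v'⟩ 1 E G') :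
    ‖(∫ y in v'..v, Complex.I * (K ⟨-(a / 2), y⟩ * Complex.exp (-((n : ℂ) * ⟨-(a / 2), y⟩))))
      - (∫ y in v'..v, Complex.I * (G' ⟨-(a / 2), y⟩ * Complex.exp (-((n : ℂ) * ⟨-(a / 2), y⟩))))‖ ≤
      (E * 64 * (a⁻¹) ^ 3 * Real.exp (-(1 / a)) * Real.exp (n * (a / 2))) * (a / 16) := by
  have hc1 : Continuous (fun y : ℝ => Complex.I *
      (K ⟨-(a / 2), y⟩ * Complex.exp (-((n : ℂ) * ⟨-(a / 2), y⟩)))) :=
    glue_contv hK.continuousOn (-(a / 2)) (fun y => by show -(a / 2) < 0; linarith) n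
  have hc2 : Continuous (fun y : ℝ => Complex.I *
      (G' ⟨-(a / 2), y⟩ * Complex.exp (-((n : ℂ) * ⟨-(a / 2), y⟩)))) :=
    glue_contv hG'.1.continuousOn (-(a / 2)) (fun y => by show -a < -(a / 2); linarith) n
  rw [← intervalIntegral.integral_sub (hc1.intervalIntegrable _ _) (hc2.intervalIntegrable _ _)]
  have hb : ∀ y ∈ Set.uIoc v' v,
      ‖Complex.I * (K ⟨-(a / 2), y⟩ * Complex.exp (-((n : ℂ) * ⟨-(a / 2), y⟩))) -
        Complex.I * (G' ⟨-(a / 2), y⟩ * Complex.exp (-((n : ℂ) * ⟨-(a / 2), y⟩)))‖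
        ≤ E * 64 * (a⁻¹) ^ 3 * Real.exp (-(1 / a)) * Real.exp (n * (a / 2)) := by
    intro y hy
    rw [Set.uIoc_of_le hv0] at hy
    rw [← mul_sub, ← sub_mul, norm_mul, norm_mul, Complex.norm_I, one_mul, glue_norm]
    have h1 := closeK K G' ⟨-a, v'⟩ E a ha rfl (by linarith) hG' ⟨-(a / 2), y⟩
      (by show -(3 * a / 4) ≤ -(a / 2); linarith) (by show -(a / 2) ≤ -(a / 4); linarith)
      (by
        show |y - v'| ≤ a / 8
        rw [abs_le]
        constructor <;> linarith [hy.1, hy.2])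
    have h2 : Real.exp (-(n * (⟨-(a / 2), y⟩ : ℂ).re)) = Real.exp (n * (a / 2)) := by
      congr 1
      show -(n * (-(a / 2))) = n * (a / 2)
      ring
    rw [h2]
    exact mul_le_mul_of_nonneg_right h1 (Real.exp_pos _).le
  have := intervalIntegral.norm_integral_le_of_norm_le_const hb
  refine this.trans ?_
  apply mul_le_mul_of_nonneg_left _ (by positivity)
  rw [abs_of_nonneg (by linarith)]
  exact hv

theorem glue_r (K G' : ℂ → ℂ) (a X E v v' : ℝ) (n : ℕ) (ha : 0 < a) (hX : 0 < X)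
    (hE : 1 ≤ E) (hv0 : v' ≤ v) (hG' : Appr K ⟨-a, v'⟩ 1 E G') :
    ‖∫ y in v'..v, Complex.I * (G' ⟨X, y⟩ * Complex.exp (-((n : ℂ) * ⟨X, y⟩)))‖ ≤
      (E * Real.exp (-(n * X))) * (v - v') := by
  have hb : ∀ y ∈ Set.uIoc v' v,
      ‖Complex.I * (G' ⟨X, y⟩ * Complex.exp (-((n : ℂ) * ⟨X, y⟩)))‖ ≤ E * Real.exp (-(n * X)) := by
    intro y _
    rw [norm_mul, norm_mul, Complex.norm_I, one_mul, glue_norm]
    exact mul_le_mul_of_nonneg_right (hG'.2.1 ⟨X, y⟩ (by show -a < X; linarith)) (Real.exp_pos _).le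
  have := intervalIntegral.norm_integral_le_of_norm_le_const hb
  rwa [abs_of_nonneg (by linarith)] at this

theorem glue_ind (K : ℂ → ℂ) (a X E y0 y1 : ℝ) (n : ℕ) (ha : 0 < a) (ha1 : a ≤ 1 / 100)
    (haX : 16 * a ≤ X) (hE : 1 ≤ E)
    (hK : DifferentiableOn ℂ K {s | s.re < 0})
    (hst : ∀ y : ℝ, y0 ≤ y → y ≤ y1 → ∃ G, Appr K ⟨-a, y⟩ 1 E G)
    (U : ℂ → ℂ) (hU : Appr K ⟨-a, y0⟩ 1 E U) (B : ℝ)
    (hB : B = (2 * E * Real.exp (-(1 / (17 * X))) * Real.exp (n * (a / 2))) * (X + a / 2) +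
      (E * 64 * (a⁻¹) ^ 3 * Real.exp (-(1 / a)) * Real.exp (n * (a / 2))) * (a / 16)) (k : ℕ) :
    ∀ (v : ℝ) (G : ℂ → ℂ), y0 ≤ v → v ≤ y1 → v - y0 ≤ k * (a / 16) → Appr K ⟨-a, v⟩ 1 E G →
    ‖(∫ y in y0..v, Complex.I * (K ⟨-(a / 2), y⟩ * Complex.exp (-((n : ℂ) * ⟨-(a / 2), y⟩))))
      - (∫ u in (-(a / 2))..X, U ⟨u, y0⟩ * Complex.exp (-((n : ℂ) * ⟨u, y0⟩)))
      + (∫ u in (-(a / 2))..X, G ⟨u, v⟩ * Complex.exp (-((n : ℂ) * ⟨u, v⟩)))‖
    ≤ (k + 1) * B + (E * Real.exp (-(n * X))) * (v - y0) := by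
  have hX : 0 < X := by linarith
  have hB1 : 0 ≤ (E * 64 * (a⁻¹) ^ 3 * Real.exp (-(1 / a)) * Real.exp (n * (a / 2))) * (a / 16) := by
    positivity
  induction k with
  | zero =>
    intro v G hv0 hv1 hvk hG
    have hv : v = y0 := by
      rw [Nat.cast_zero, zero_mul] at hvk
      linarith
    subst hv
    rw [intervalIntegral.integral_same, zero_sub, neg_add_eq_sub, sub_self, mul_zero, add_zero,
      Nat.cast_zero, zero_add, one_mul]
    have h1 := glue_h K G U a X E v v n ha ha1 haX hE (by rw [sub_self, abs_zero]; positivity) hG hU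
    linarith
  | succ k ih =>
    intro v G hv0 hv1 hvk hG
    obtain ⟨v', hv'⟩ : ∃ v', v' = max y0 (v - a / 16) := ⟨_, rfl⟩
    have h1 : y0 ≤ v' := by rw [hv']; exact le_max_left _ _
    have h2 : v' ≤ v := by rw [hv']; exact max_le hv0 (by linarith)
    have h3 : v - v' ≤ a / 16 := by
      have : v - a / 16 ≤ v' := by rw [hv']; exact le_max_right _ _
      linarith
    have h4 : v' - y0 ≤ k * (a / 16) := by
      rw [hv', sub_le_iff_le_add]
      apply max_le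
      · have : (0 : ℝ) ≤ k * (a / 16) := by positivity
        linarith
      · push_cast at hvk
        linarith
    obtain ⟨G', hG'⟩ := hst v' h1 (h2.trans hv1)
    have hih := ih v' G' h1 (h2.trans hv1) h4 hG'
    have hh := glue_h K G G' a X E v v' n ha ha1 haX hE
      (by rw [abs_of_nonneg (by linarith)]; exact h3) hG hG'
    have hc := glue_c K G' a E v v' n ha hE h2 h3 hK hG'
    have hr := glue_r K G' a X E v v' n ha hX hE h2 hG'
    have hrect := glue_rect (fun s => G' s * Complex.exp (-((n : ℂ) * s))) (-(a / 2)) X v' v (by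
      have hd : DifferentiableOn ℂ (fun s => G' s * Complex.exp (-((n : ℂ) * s))) {s | -a < s.re} := by
        apply DifferentiableOn.mul hG'.1
        have : Differentiable ℂ (fun s : ℂ => Complex.exp (-((n : ℂ) * s))) := by fun_prop
        exact this.differentiableOn
      apply hd.mono
      intro s hs
      have hs1 := hs.1
      rw [Set.uIcc_of_le (by linarith)] at hs1
      have hs2 : -(a / 2) ≤ s.re := hs1.1
      show -a < s.re
      linarith)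
    have hKc : Continuous (fun y : ℝ => Complex.I *
        (K ⟨-(a / 2), y⟩ * Complex.exp (-((n : ℂ) * ⟨-(a / 2), y⟩)))) :=
      glue_contv hK.continuousOn (-(a / 2)) (fun y => by show -(a / 2) < 0; linarith) n
    have hsplit := intervalIntegral.integral_add_adjacent_intervals (μ := volume)
      (hKc.intervalIntegrable y0 v') (hKc.intervalIntegrable v' v)
    rw [← hsplit]
    have hB2 : (2 * E * Real.exp (-(1 / (17 * X))) * Real.exp (n * (a / 2))) * (X + a / 2) +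
      (E * 64 * (a⁻¹) ^ 3 * Real.exp (-(1 / a)) * Real.exp (n * (a / 2))) * (a / 16) = B := hB.symm
    clear hB hsplit
    revert hih hh hc hr hrect
    generalize (∫ y in y0..v', Complex.I *
      (K ⟨-(a / 2), y⟩ * Complex.exp (-((n : ℂ) * ⟨-(a / 2), y⟩)))) = A1
    generalize (∫ y in v'..v, Complex.I *
      (K ⟨-(a / 2), y⟩ * Complex.exp (-((n : ℂ) * ⟨-(a / 2), y⟩)))) = A2
    generalize (∫ u in (-(a / 2))..X, U ⟨u, y0⟩ * Complex.exp (-((n : ℂ) * ⟨u, y0⟩))) = A3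
    generalize (∫ u in (-(a / 2))..X, G ⟨u, v⟩ * Complex.exp (-((n : ℂ) * ⟨u, v⟩))) = A4
    generalize (∫ u in (-(a / 2))..X, G' ⟨u, v'⟩ * Complex.exp (-((n : ℂ) * ⟨u, v'⟩))) = A5
    generalize (∫ u in (-(a / 2))..X, G' ⟨u, v⟩ * Complex.exp (-((n : ℂ) * ⟨u, v⟩))) = A6
    generalize (∫ y in v'..v, Complex.I *
      (G' ⟨-(a / 2), y⟩ * Complex.exp (-((n : ℂ) * ⟨-(a / 2), y⟩)))) = A7
    generalize (∫ y in v'..v, Complex.I * (G' ⟨X, y⟩ * Complex.exp (-((n : ℂ) * ⟨X, y⟩)))) = A8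
    intro hih hh hc hr hrect
    have e1 : A1 + A2 - A3 + A4 = (A1 - A3 + A5) + (A4 - A6) + (A2 - A7) + A8 := by
      linear_combination (-1 : ℂ) * hrect
    rw [e1]
    have n1 := norm_add_le ((A1 - A3 + A5) + (A4 - A6) + (A2 - A7)) A8
    have n2 := norm_add_le ((A1 - A3 + A5) + (A4 - A6)) (A2 - A7)
    have n3 := norm_add_le (A1 - A3 + A5) (A4 - A6)
    push_cast
    have e2 : E * Real.exp (-(n * X)) * (v - y0) =
      E * Real.exp (-(n * X)) * (v' - y0) + E * Real.exp (-(n * X)) * (v - v') := by ring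
    rw [e2]
    linarith

theorem glue_num (a X : ℝ) (k : ℕ) (ha : 0 < a) (hX : 0 < X) (hX1 : X ≤ 1 / 100)
    (haX : a ≤ X / 1000) (hk : (k : ℝ) ≤ 112 / a + 1) :
    ((k : ℝ) + 1) * ((2 * Real.exp (-(1 / (17 * X)))) * (X + a / 2) +
      (64 * (a⁻¹) ^ 3 * Real.exp (-(1 / a))) * (a / 16)) ≤
      1000 / a * Real.exp (-(1 / (20 * X))) := by
  have ha5 : a ≤ 1 / 100000 := by linarith
  have hy : 100000 ≤ 1 / a := by
    rw [le_div_iff₀ ha]
    linarith
  have hyX : 1 / (20 * X) ≤ (1 / a) / 4 := by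
    rw [div_div]
    apply one_div_le_one_div_of_le (by positivity)
    linarith
  have h1 : Real.exp (-(1 / (17 * X))) ≤ Real.exp (-(1 / (20 * X))) := by
    apply Real.exp_le_exp.2
    apply neg_le_neg
    apply one_div_le_one_div_of_le (by positivity)
    linarith
  obtain ⟨y, hyd⟩ : ∃ y, y = 1 / a := ⟨_, rfl⟩
  have hainv : a⁻¹ = y := by rw [hyd, one_div]
  have hay : a * y = 1 := by rw [hyd]; field_simp
  rw [← hyd] at hy hyX
  have h2 : y ^ 2 * Real.exp (-y) ≤ (1 / 1000) * Real.exp (-(1 / (20 * X))) := by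
    have h3 : Real.exp (-(y / 4)) ≤ Real.exp (-(1 / (20 * X))) :=
      Real.exp_le_exp.2 (neg_le_neg hyX)
    have h4 : (y / 4) ^ 2 / 2 ≤ Real.exp (y / 4) := by
      have := Real.quadratic_le_exp_of_nonneg (x := y / 4) (by linarith)
      have hy0 : 0 ≤ y / 4 := by linarith
      linarith
    have h5 : y / 2 + 1 ≤ Real.exp (y / 2) := Real.add_one_le_exp _
    have h6 : y ^ 2 * 1000 ≤ Real.exp (y / 4) * Real.exp (y / 2) := by
      have h7 : ((y / 4) ^ 2 / 2) * (y / 2 + 1) ≤ Real.exp (y / 4) * Real.exp (y / 2) :=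
        mul_le_mul h4 h5 (by linarith) (Real.exp_pos _).le
      refine le_trans ?_ h7
      nlinarith [sq_nonneg y]
    have e1 : Real.exp (-y) * (Real.exp (y / 4) * Real.exp (y / 2)) = Real.exp (-(y / 4)) := by
      rw [← Real.exp_add, ← Real.exp_add]
      congr 1
      ring
    have h8 : Real.exp (-y) * (y ^ 2 * 1000) ≤ Real.exp (-(y / 4)) := by
      rw [← e1]
      exact mul_le_mul_of_nonneg_left h6 (Real.exp_pos _).le
    nlinarith
  have e2 : (64 * (a⁻¹) ^ 3 * Real.exp (-(1 / a))) * (a / 16) = 4 * (y ^ 2 * Real.exp (-y)) := by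
    rw [hainv, ← hyd]
    calc (64 * y ^ 3 * Real.exp (-y)) * (a / 16) = 4 * (y ^ 2 * Real.exp (-y)) * (a * y) := by ring
      _ = _ := by rw [hay, mul_one]
  have e3 : (1000 : ℝ) / a = 1000 * y := by rw [hyd]; ring
  have e4 : (112 : ℝ) / a = 112 * y := by rw [hyd]; ring
  rw [e4] at hk
  rw [e2, e3]
  have hex := Real.exp_pos (-(1 / (20 * X)))
  have h9 : (2 * Real.exp (-(1 / (17 * X)))) * (X + a / 2) ≤ Real.exp (-(1 / (20 * X))) := by
    have h10 : X + a / 2 ≤ 1 / 2 := by linarith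
    have h11 := Real.exp_pos (-(1 / (17 * X)))
    nlinarith
  have h12 : (2 * Real.exp (-(1 / (17 * X)))) * (X + a / 2) + 4 * (y ^ 2 * Real.exp (-y)) ≤
      2 * Real.exp (-(1 / (20 * X))) := by linarith
  have h13 : (k : ℝ) + 1 ≤ 113 * y := by linarith
  calc ((k : ℝ) + 1) * ((2 * Real.exp (-(1 / (17 * X)))) * (X + a / 2) +
        4 * (y ^ 2 * Real.exp (-y)))
      ≤ (113 * y) * (2 * Real.exp (-(1 / (20 * X)))) := by
        apply mul_le_mul h13 h12 _ (by linarith)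
        positivity
    _ ≤ 1000 * y * Real.exp (-(1 / (20 * X))) := by
        have : 0 < y * Real.exp (-(1 / (20 * X))) := mul_pos (by linarith) hex
        linarith

theorem glue (K : ℂ → ℂ) (ρ X ε y0 y1 : ℝ) (n : ℕ) (hX : 0 < X) (hX1 : X ≤ 1 / 100) (hρ : 0 < ρ)
    (hρ1 : ρ ≤ 1 / 1000) (hε : 0 < ε) (hε2 : ε ≤ 1 / 10 ^ 9) (hy : y0 ≤ y1) (hy1 : y1 ≤ y0 + 7)
    (hK : DifferentiableOn ℂ K {s | s.re < 0})
    (hst : ∀ y : ℝ, y0 ≤ y → y ≤ y1 → ∃ G, Appr K ⟨-(ρ * X), y⟩ 1 (Real.exp (2 * ε / X)) G)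
    (U L : ℂ → ℂ) (hU : Appr K ⟨-(ρ * X), y0⟩ 1 (Real.exp (2 * ε / X)) U)
    (hL : Appr K ⟨-(ρ * X), y1⟩ 1 (Real.exp (2 * ε / X)) L) :
    ‖(∫ v in y0..y1, Complex.I * (K ⟨-(ρ * X / 2), v⟩ * Complex.exp (-((n : ℂ) * ⟨-(ρ * X / 2), v⟩))))
      - (∫ u in (-(ρ * X / 2))..X, U ⟨u, y0⟩ * Complex.exp (-((n : ℂ) * ⟨u, y0⟩)))
      + (∫ u in (-(ρ * X / 2))..X, L ⟨u, y1⟩ * Complex.exp (-((n : ℂ) * ⟨u, y1⟩)))‖
    ≤ 1000 / (ρ * X) * Real.exp (2 * ε / X + n * ρ * X - 1 / (20 * X))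
      + 7 * Real.exp (2 * ε / X - n * X) := by
  obtain ⟨a, ha⟩ : ∃ a, a = ρ * X := ⟨_, rfl⟩
  have ha0 : 0 < a := by rw [ha]; positivity
  have haX : a ≤ X / 1000 := by rw [ha]; nlinarith
  have e0 : 2 * ε / X + n * ρ * X - 1 / (20 * X) = 2 * ε / X + n * a + -(1 / (20 * X)) := by
    rw [ha]; ring
  rw [e0]
  rw [← ha] at hst hU hL ⊢
  have hE : 1 ≤ Real.exp (2 * ε / X) := Real.one_le_exp (by positivity)
  obtain ⟨k, hk⟩ : ∃ k : ℕ, k = ⌈112 / a⌉₊ := ⟨_, rfl⟩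
  have hk1 : 112 / a ≤ k := by rw [hk]; exact Nat.le_ceil _
  have hk2 : (k : ℝ) ≤ 112 / a + 1 := by
    rw [hk]
    exact (Nat.ceil_lt_add_one (by positivity)).le
  have hkk : y1 - y0 ≤ k * (a / 16) := by
    have h1 : 112 / a * (a / 16) ≤ k * (a / 16) := mul_le_mul_of_nonneg_right hk1 (by positivity)
    have h2 : 112 / a * (a / 16) = 7 := by
      field_simp
      norm_num
    linarith
  have hmain := glue_ind K a X (Real.exp (2 * ε / X)) y0 y1 n ha0 (by linarith) (by linarith) hE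
    hK hst U hU _ rfl k y1 L hy le_rfl hkk hL
  refine hmain.trans ?_
  have hnum := glue_num a X k ha0 hX hX1 haX hk2
  have hn0 : (0 : ℝ) ≤ n := Nat.cast_nonneg n
  apply add_le_add
  · have e1 : ((k : ℝ) + 1) * ((2 * Real.exp (2 * ε / X) * Real.exp (-(1 / (17 * X))) *
        Real.exp (n * (a / 2))) * (X + a / 2) +
        (Real.exp (2 * ε / X) * 64 * (a⁻¹) ^ 3 * Real.exp (-(1 / a)) * Real.exp (n * (a / 2))) *
          (a / 16)) = (Real.exp (2 * ε / X) * Real.exp (n * (a / 2))) *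
        (((k : ℝ) + 1) * ((2 * Real.exp (-(1 / (17 * X)))) * (X + a / 2) +
          (64 * (a⁻¹) ^ 3 * Real.exp (-(1 / a))) * (a / 16))) := by ring
    rw [e1]
    have e2 : Real.exp (2 * ε / X + n * a + -(1 / (20 * X))) =
        (Real.exp (2 * ε / X) * Real.exp (n * a)) * Real.exp (-(1 / (20 * X))) := by
      rw [Real.exp_add, Real.exp_add]
    rw [e2]
    have h1 : Real.exp (n * (a / 2)) ≤ Real.exp (n * a) := by
      apply Real.exp_le_exp.2
      nlinarith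
    calc (Real.exp (2 * ε / X) * Real.exp (n * (a / 2))) *
        (((k : ℝ) + 1) * ((2 * Real.exp (-(1 / (17 * X)))) * (X + a / 2) +
          (64 * (a⁻¹) ^ 3 * Real.exp (-(1 / a))) * (a / 16)))
        ≤ (Real.exp (2 * ε / X) * Real.exp (n * a)) *
          (1000 / a * Real.exp (-(1 / (20 * X)))) := by
          apply mul_le_mul _ hnum (by positivity) (by positivity)
          exact mul_le_mul_of_nonneg_left h1 (Real.exp_pos _).le
      _ = _ := by ring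
  · have e3 : Real.exp (2 * ε / X - n * X) = Real.exp (2 * ε / X) * Real.exp (-(n * X)) := by
      rw [← Real.exp_add]
      congr 1
    rw [e3]
    have h2 : y1 - y0 ≤ 7 := by linarith
    have h3 : 0 ≤ Real.exp (2 * ε / X) * Real.exp (-(n * X)) := by positivity
    nlinarith

end NM
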