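import Pool.Agent.Helper360.NM.Defs



namespace NM
open Complex Metric Set Filter Topology MeasureTheory


theorem ringSplit (κ U L : ℂ → ℂ) (X x : ℝ) (hx : 0 < x) (hxX : x ≤ X)
    (hκ : ∀ s : ℂ, -X ≤ s.re → s.re ≤ -x → |s.im| ≤ X → DifferentiableAt ℂ κ s) :
    ring κ U L X x = (∫ v in (0:ℝ)..X, Complex.I * U ⟨X, v⟩) + (∫ v in (-X)..(0:ℝ), Complex.I * L ⟨X, v⟩)
      - (∫ u in (-x)..X, U ⟨u, X⟩) + (∫ u in (-x)..X, L ⟨u, -X⟩)
      - ∫ v in (-X)..X, Complex.I * κ ⟨-x, v⟩ := by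
  have hX : 0 < X := lt_of_lt_of_le hx hxX
  have h := Complex.integral_boundary_rect_eq_zero_of_differentiableOn κ ⟨-X, -X⟩ ⟨-x, X⟩ (by
    intro s hs
    rw [Complex.mem_reProdIm] at hs
    obtain ⟨h1, h2⟩ := hs
    simp only at h1 h2
    rw [Set.uIcc_of_le (by linarith)] at h1
    rw [Set.uIcc_of_le (by linarith)] at h2
    exact (hκ s h1.1 h1.2 (abs_le.mpr ⟨h2.1, h2.2⟩)).differentiableWithinAt)
  have conv : ∀ a b : ℝ, (a : ℂ) + b * Complex.I = ⟨a, b⟩ := fun a b =>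
    (Complex.mk_eq_add_mul_I a b).symm
  simp only [conv, smul_eq_mul] at h
  unfold ring
  have e1 : ∀ c : ℝ, (∫ v in (-X)..X, Complex.I * κ ⟨c, v⟩)
      = Complex.I * ∫ v in (-X)..X, κ ⟨c, v⟩ := fun c => intervalIntegral.integral_const_mul _ _
  rw [e1, e1]
  linear_combination h

end NM

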