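import Pool.Agent.Helper360.NM.Defs
import Pool.Agent.Helper360.NM.P_LocK_Kf
import Pool.Agent.Helper360.NM.P_glue
import Pool.Agent.Helper360.NM.P_ringSplit
import Pool.Agent.Helper360.NM.P_coeff
import Pool.Agent.Helper360.NM.P_Appr_transl
import Pool.Agent.Helper360.NM.P_Kf_periodic



namespace NM
open Complex Metric Set Filter Topology MeasureTheory


theorem arcsum_exp_split (n : ℕ) (s : ℂ) (t : ℝ) :
    Complex.exp (-((n : ℂ) * (s + (t : ℂ) * Complex.I))) =
      Complex.exp (-((t : ℂ) * Complex.I)) ^ n * Complex.exp (-((n : ℂ) * s)) := by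
  rw [← Complex.exp_nat_mul, ← Complex.exp_add]
  congr 1
  ring

theorem arcsum_pt (u t v : ℝ) : (⟨u, t + v⟩ : ℂ) = ⟨u, v⟩ + (t : ℂ) * Complex.I := by
  apply Complex.ext <;> simp [add_comm]

theorem arcsum_line (x : ℝ) : Continuous (fun v : ℝ => (⟨x, v⟩ : ℂ)) := by
  have h : (fun v : ℝ => (⟨x, v⟩ : ℂ)) = fun v : ℝ => ((x : ℝ) : ℂ) + (v : ℂ) * Complex.I := by
    funext v
    apply Complex.ext <;> simp
  rw [h]
  fun_prop

theorem arcsum_norm_exp (n : ℕ) (X v : ℝ) :
    ‖Complex.exp (-((n : ℂ) * (⟨X, v⟩ : ℂ)))‖ = Real.exp (-(n * X)) := by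
  rw [Complex.norm_exp]
  congr 1
  simp

theorem arcsum_side (G : ℂ → ℂ) (E X a b : ℝ) (n : ℕ) (hE : 0 ≤ E)
    (hG : ∀ v : ℝ, ‖G ⟨X, v⟩‖ ≤ E) (hab : a ≤ b) (hb : b - a = X) :
    ‖∫ v in a..b, Complex.I * (G ⟨X, v⟩ * Complex.exp (-((n : ℂ) * (⟨X, v⟩ : ℂ))))‖
      ≤ E * Real.exp (-(n * X)) * X := by
  have h := intervalIntegral.norm_integral_le_of_norm_le_const
    (a := a) (b := b) (C := E * Real.exp (-(n * X)))
    (f := fun v => Complex.I * (G ⟨X, v⟩ * Complex.exp (-((n : ℂ) * (⟨X, v⟩ : ℂ))))) (by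
      intro v _
      rw [norm_mul, norm_mul, Complex.norm_I, one_mul, arcsum_norm_exp]
      exact mul_le_mul_of_nonneg_right (hG v) (Real.exp_pos _).le)
  rwa [abs_of_nonneg (by linarith), hb] at h

theorem arcsum (l : ℕ → ℂ) (L0 : ℝ) (hL0 : 1 ≤ L0) (hl : ∀ n, ‖l n‖ ≤ L0) (ρ ε X0 : ℝ)
    (hX0 : 0 < X0) (hX01 : X0 ≤ 1 / 100) (hε : 0 < ε) (hε2 : ε ≤ 1 / 10 ^ 9)
    (hρ : 0 < ρ) (hρ1 : ρ ≤ 1 / 1000) (J : ℕ) (hJ : 0 < J) (θ : ℕ → ℝ)
    (hθ : ∀ j < J, θ j < θ (j + 1)) (hper : θ J = θ 0 + 2 * Real.pi)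
    (U L : ℕ → ℝ → ℂ → ℂ)
    (hf : ∀ j < J, Fam (fun s => Kf l (s + (θ j : ℂ) * Complex.I)) ρ ε X0 (U j) (L j))
    (hst : ∀ X y : ℝ, 0 < X → X < X0 → (∀ j : ℕ, j < J → ∀ k : ℤ, X ≤ |y - θ j - 2 * Real.pi * k|) →
      ∃ G, Appr (Kf l) ⟨-(ρ * X), y⟩ 1 (Real.exp (2 * ε / X)) G)
    (X : ℝ) (hX : 0 < X) (hXX : X < X0) (hgap : ∀ j < J, 2 * X ≤ θ (j + 1) - θ j) (n : ℕ) :
    ‖2 * Real.pi * Complex.I * l n + ∑ j ∈ Finset.range J, Complex.exp (-((θ j : ℂ) * Complex.I)) ^ n *
      RX (fun s => Kf l (s + (θ j : ℂ) * Complex.I)) (U j) (L j) ρ X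
        (fun s => Complex.exp (-((n : ℂ) * s)))‖
    ≤ J * (1000 / (ρ * X) * Real.exp (2 * ε / X + n * ρ * X - 1 / (20 * X))
      + 10 * Real.exp (2 * ε / X - n * X)) := by
  have hKd : DifferentiableOn ℂ (Kf l) {s | s.re < 0} := (LocK_Kf l L0 hL0 hl).1
  have hKat : ∀ s : ℂ, s.re < 0 → DifferentiableAt ℂ (Kf l) s := fun s hs =>
    (hKd s hs).differentiableAt ((isOpen_lt Complex.continuous_re continuous_const).mem_nhds hs)
  have hx : 0 < ρ * X / 2 := by positivity
  have hρX : ρ * X ≤ X := by nlinarith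
  have hxX : ρ * X / 2 ≤ X := by linarith
  have hX100 : X ≤ 1 / 100 := by linarith
  have hpi : Real.pi < 3.15 := Real.pi_lt_d2
  have hpi0 := Real.pi_pos
  -- monotonicity of the angles
  have hmono : ∀ i j : ℕ, i ≤ j → j ≤ J → θ i ≤ θ j := by
    intro i j hij
    induction j, hij using Nat.le_induction with
    | base => intro _; exact le_rfl
    | succ j hj ih =>
      intro hjJ
      exact (ih (by omega)).trans (hθ j (by omega)).le
  -- the lower stations
  set LL : ℕ → ℂ → ℂ := fun j => if j < J then L j X else L 0 X with hLLdef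
  have hLL : ∀ j ≤ J, Appr (fun s => Kf l (s + (θ j : ℂ) * Complex.I)) ⟨-(ρ * X), -X⟩ 1
      (Real.exp (2 * ε / X)) (LL j) := by
    intro j hj
    rcases lt_or_eq_of_le hj with h | h
    · have h1 := (hf j h X hX hXX).2
      have h2 : LL j = L j X := by simp only [hLLdef]; rw [if_pos h]
      rw [h2]; exact h1
    · have h1 := (hf 0 hJ X hX hXX).2
      have h2 : LL j = L 0 X := by simp only [hLLdef]; rw [if_neg (by omega)]
      have h3 : (fun s => Kf l (s + (θ j : ℂ) * Complex.I)) =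
          fun s => Kf l (s + (θ 0 : ℂ) * Complex.I) := by
        funext s
        rw [h, hper]
        have h4 : s + ((θ 0 + 2 * Real.pi : ℝ) : ℂ) * Complex.I =
            (s + (θ 0 : ℂ) * Complex.I) + 2 * Real.pi * Complex.I := by
          push_cast; ring
        rw [h4, Kf_periodic]
      rw [h2, h3]; exact h1
  have hUU : ∀ j < J, Appr (Kf l) ⟨-(ρ * X), θ j + X⟩ 1 (Real.exp (2 * ε / X))
      (fun s => U j X (s - (θ j : ℂ) * Complex.I)) := by
    intro j hj
    rw [arcsum_pt, Appr_transl]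
    have h1 := (hf j hj X hX hXX).1
    have h2 : (fun s : ℂ => U j X (s + (θ j : ℂ) * Complex.I - (θ j : ℂ) * Complex.I)) = U j X := by
      funext s; rw [add_sub_cancel_right]
    rw [h2]; exact h1
  have hLL' : ∀ j ≤ J, Appr (Kf l) ⟨-(ρ * X), θ j - X⟩ 1 (Real.exp (2 * ε / X))
      (fun s => LL j (s - (θ j : ℂ) * Complex.I)) := by
    intro j hj
    rw [sub_eq_add_neg (θ j) X, arcsum_pt, Appr_transl]
    have h2 : (fun s : ℂ => LL j (s + (θ j : ℂ) * Complex.I - (θ j : ℂ) * Complex.I)) = LL j := by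
      funext s; rw [add_sub_cancel_right]
    rw [h2]; exact hLL j hj
  -- names
  set e : ℕ → ℂ := fun j => Complex.exp (-((θ j : ℂ) * Complex.I)) ^ n with he
  set f : ℝ → ℂ := fun v => Complex.I * (Kf l ⟨-(ρ * X / 2), v⟩ *
    Complex.exp (-((n : ℂ) * ⟨-(ρ * X / 2), v⟩))) with hfdef
  set UP : ℕ → ℂ := fun j => ∫ u in (-(ρ * X / 2))..X, U j X ⟨u, X⟩ *
    Complex.exp (-((n : ℂ) * ⟨u, X⟩)) with hUP
  set LP : ℕ → ℂ := fun j => ∫ u in (-(ρ * X / 2))..X, LL j ⟨u, -X⟩ *
    Complex.exp (-((n : ℂ) * ⟨u, -X⟩)) with hLP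
  set RS : ℕ → ℂ := fun j =>
    (∫ v in (0:ℝ)..X, Complex.I * (U j X ⟨X, v⟩ * Complex.exp (-((n : ℂ) * (⟨X, v⟩ : ℂ))))) +
    (∫ v in (-X)..(0:ℝ), Complex.I * (L j X ⟨X, v⟩ * Complex.exp (-((n : ℂ) * (⟨X, v⟩ : ℂ)))))
    with hRS
  set ARC : ℕ → ℂ := fun j => ∫ v in (-X)..X, Complex.I *
    (Kf l (⟨-(ρ * X / 2), v⟩ + (θ j : ℂ) * Complex.I) *
      Complex.exp (-((n : ℂ) * ⟨-(ρ * X / 2), v⟩))) with hARC
  have hfc : Continuous f := by
    have h1 : Continuous (fun v : ℝ => Kf l ⟨-(ρ * X / 2), v⟩) := by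
      rw [continuous_iff_continuousAt]
      intro v
      have h2 : ContinuousAt (Kf l) (⟨-(ρ * X / 2), v⟩ : ℂ) :=
        (hKat _ (by show -(ρ * X / 2) < 0; linarith)).continuousAt
      exact ContinuousAt.comp (f := fun v : ℝ => (⟨-(ρ * X / 2), v⟩ : ℂ)) h2
        (arcsum_line _).continuousAt
    have h3 : Continuous (fun v : ℝ => Complex.exp (-((n : ℂ) * ⟨-(ρ * X / 2), v⟩))) :=
      Complex.continuous_exp.comp ((continuous_const.mul (arcsum_line _)).neg)
    exact continuous_const.mul (h1.mul h3)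
  have hfi : ∀ a b : ℝ, IntervalIntegrable f MeasureTheory.volume a b :=
    fun a b => hfc.intervalIntegrable a b
  -- the arcs
  have harc : ∀ j, ∫ v in (θ j - X)..(θ j + X), f v = e j * ARC j := by
    intro j
    have h1 : ∫ v in (-X)..X, f (v + θ j) = ∫ v in (-X + θ j)..(X + θ j), f v :=
      intervalIntegral.integral_comp_add_right f (θ j)
    rw [show θ j - X = -X + θ j by ring, show θ j + X = X + θ j by ring, ← h1, hARC,
      ← intervalIntegral.integral_const_mul]
    refine intervalIntegral.integral_congr fun v _ => ?_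
    simp only [hfdef, he]
    rw [add_comm v (θ j), arcsum_pt, arcsum_exp_split]
    ring
  -- the ring functionals
  have hring : ∀ j < J, RX (fun s => Kf l (s + (θ j : ℂ) * Complex.I)) (U j) (L j) ρ X
        (fun s => Complex.exp (-((n : ℂ) * s))) = RS j - UP j + LP j - ARC j := by
    intro j hj
    have h2 : LL j = L j X := by simp only [hLLdef]; rw [if_pos hj]
    unfold RX
    rw [ringSplit _ _ _ X (ρ * X / 2) hx hxX (by
      intro s _ hs _
      have h3 : (s + (θ j : ℂ) * Complex.I).re < 0 := by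
        have : (s + (θ j : ℂ) * Complex.I).re = s.re := by simp
        rw [this]; linarith
      have h4 : DifferentiableAt ℂ (fun s => Kf l (s + (θ j : ℂ) * Complex.I)) s :=
        DifferentiableAt.comp (f := fun s : ℂ => s + (θ j : ℂ) * Complex.I) s (hKat _ h3)
          (by fun_prop)
      exact h4.mul (by fun_prop))]
    simp only [hRS, hUP, hLP, hARC, h2]
  -- the gaps
  have hend : ∀ j < J, θ (j + 1) ≤ θ j + 2 * Real.pi := by
    intro j hj
    have h1 := hmono (j + 1) J (by omega) le_rfl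
    have h2 := hmono 0 j (by omega) (by omega)
    linarith
  have hgapb : ∀ j < J, ‖(∫ v in (θ j + X)..(θ (j + 1) - X), f v) - e j * UP j
      + e (j + 1) * LP (j + 1)‖ ≤
      1000 / (ρ * X) * Real.exp (2 * ε / X + n * ρ * X - 1 / (20 * X))
      + 7 * Real.exp (2 * ε / X - n * X) := by
    intro j hj
    have hg := hgap j hj
    have he1 := hend j hj
    have h := glue (Kf l) ρ X ε (θ j + X) (θ (j + 1) - X) n hX hX100 hρ hρ1 hε hε2
      (by linarith) (by linarith) hKd (by
        intro y hy0 hy1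
        refine hst X y hX hXX ?_
        intro i hi k
        rcases lt_trichotomy k 0 with hk | hk | hk
        · have h1 : (k : ℝ) ≤ -1 := by exact_mod_cast (by omega : k ≤ -1)
          have h2 := hmono i J (by omega) le_rfl
          have h3 := hmono 0 j (by omega) (by omega)
          have h4 : 2 * Real.pi * k ≤ 2 * Real.pi * (-1) :=
            mul_le_mul_of_nonneg_left h1 (by linarith)
          refine le_trans ?_ (le_abs_self _)
          linarith
        · subst hk
          rcases Nat.lt_or_ge j i with hji | hji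
          · have h3 := hmono (j + 1) i (by omega) (by omega)
            refine le_trans ?_ (neg_le_abs _)
            simp only [Int.cast_zero, mul_zero, sub_zero]
            linarith
          · have h3 := hmono i j (by omega) (by omega)
            refine le_trans ?_ (le_abs_self _)
            simp only [Int.cast_zero, mul_zero, sub_zero]
            linarith
        · have h1 : (1 : ℝ) ≤ (k : ℝ) := by exact_mod_cast (by omega : 1 ≤ k)
          have h2 := hmono 0 i (by omega) (by omega)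
          have h3 := hmono (j + 1) J (by omega) le_rfl
          have h4 : 2 * Real.pi * 1 ≤ 2 * Real.pi * k :=
            mul_le_mul_of_nonneg_left h1 (by linarith)
          refine le_trans ?_ (neg_le_abs _)
          linarith)
      (fun s => U j X (s - (θ j : ℂ) * Complex.I))
      (fun s => LL (j + 1) (s - (θ (j + 1) : ℂ) * Complex.I)) (hUU j hj) (hLL' (j + 1) hj)
    have h1 : (∫ u in (-(ρ * X / 2))..X, (fun s => U j X (s - (θ j : ℂ) * Complex.I))
        ⟨u, θ j + X⟩ * Complex.exp (-((n : ℂ) * ⟨u, θ j + X⟩))) = e j * UP j := by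
      rw [hUP, ← intervalIntegral.integral_const_mul]
      refine intervalIntegral.integral_congr fun u _ => ?_
      simp only [he]
      rw [arcsum_pt, arcsum_exp_split, add_sub_cancel_right]
      ring
    have h2 : (∫ u in (-(ρ * X / 2))..X, (fun s => LL (j + 1) (s - (θ (j + 1) : ℂ) * Complex.I))
        ⟨u, θ (j + 1) - X⟩ * Complex.exp (-((n : ℂ) * ⟨u, θ (j + 1) - X⟩))) =
        e (j + 1) * LP (j + 1) := by
      rw [hLP, ← intervalIntegral.integral_const_mul]
      refine intervalIntegral.integral_congr fun u _ => ?_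
      simp only [he]
      rw [sub_eq_add_neg (θ (j + 1)) X, arcsum_pt, arcsum_exp_split, add_sub_cancel_right]
      ring
    rw [h1, h2] at h
    exact h
  -- the whole period
  have htot : 2 * Real.pi * Complex.I * l n = ∑ j ∈ Finset.range J,
      ((∫ v in (θ j - X)..(θ j + X), f v) + ∫ v in (θ j + X)..(θ (j + 1) - X), f v) := by
    have h1 := coeff l L0 hl (ρ * X / 2) (θ 0 - X) hx n
    rw [← h1]
    have h2 : ∀ j ∈ Finset.range J,
        ((∫ v in (θ j - X)..(θ j + X), f v) + ∫ v in (θ j + X)..(θ (j + 1) - X), f v) =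
        (∫ v in (θ 0 - X)..(θ (j + 1) - X), f v) - ∫ v in (θ 0 - X)..(θ j - X), f v := by
      intro j _
      rw [intervalIntegral.integral_add_adjacent_intervals (hfi _ _) (hfi _ _),
        intervalIntegral.integral_interval_sub_left (hfi _ _) (hfi _ _)]
    rw [Finset.sum_congr rfl h2,
      Finset.sum_range_sub (fun j => ∫ v in (θ 0 - X)..(θ j - X), f v) J,
      intervalIntegral.integral_same, sub_zero, hper,
      show θ 0 + 2 * Real.pi - X = θ 0 - X + 2 * Real.pi by ring]
  have hcyc : e J * LP J = e 0 * LP 0 := by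
    have h1 : e J = e 0 := by
      simp only [he]
      congr 1
      rw [hper]
      have h4 : -(((θ 0 + 2 * Real.pi : ℝ) : ℂ) * Complex.I) =
          -((θ 0 : ℂ) * Complex.I) + ((-1 : ℤ) : ℂ) * (2 * Real.pi * Complex.I) := by
        push_cast; ring
      rw [h4, Complex.exp_add, Complex.exp_int_mul_two_pi_mul_I, mul_one]
    have h2 : LL J = LL 0 := by
      simp only [hLLdef]
      rw [if_neg (lt_irrefl J), if_pos hJ]
    rw [h1]
    simp only [hLP, h2]
  have hmain : 2 * Real.pi * Complex.I * l n + ∑ j ∈ Finset.range J,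
      e j * RX (fun s => Kf l (s + (θ j : ℂ) * Complex.I)) (U j) (L j) ρ X
        (fun s => Complex.exp (-((n : ℂ) * s))) =
      ∑ j ∈ Finset.range J, (((∫ v in (θ j + X)..(θ (j + 1) - X), f v) - e j * UP j
        + e (j + 1) * LP (j + 1)) + e j * RS j) := by
    have h1 : ∑ j ∈ Finset.range J, (e (j + 1) * LP (j + 1) - e j * LP j) = 0 := by
      rw [Finset.sum_range_sub (fun j => e j * LP j) J, hcyc, sub_self]
    rw [htot, ← Finset.sum_add_distrib]
    have h2 : ∀ j ∈ Finset.range J,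
        ((∫ v in (θ j - X)..(θ j + X), f v) + ∫ v in (θ j + X)..(θ (j + 1) - X), f v) +
        e j * RX (fun s => Kf l (s + (θ j : ℂ) * Complex.I)) (U j) (L j) ρ X
        (fun s => Complex.exp (-((n : ℂ) * s))) =
        (((∫ v in (θ j + X)..(θ (j + 1) - X), f v) - e j * UP j
        + e (j + 1) * LP (j + 1)) + e j * RS j) - (e (j + 1) * LP (j + 1) - e j * LP j) := by
      intro j hj
      rw [harc j, hring j (Finset.mem_range.1 hj)]
      ring
    rw [Finset.sum_congr rfl h2, Finset.sum_sub_distrib, h1, sub_zero]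
  rw [hmain]
  refine (norm_sum_le _ _).trans ?_
  have hRSb : ∀ j < J, ‖e j * RS j‖ ≤ 3 * Real.exp (2 * ε / X - n * X) := by
    intro j hj
    have h1 : ‖e j‖ = 1 := by
      simp only [he]
      rw [norm_pow, Complex.norm_exp]
      simp
    have hfam := hf j hj X hX hXX
    have hU := arcsum_side (U j X) (Real.exp (2 * ε / X)) X 0 X n (Real.exp_pos _).le
      (fun v => hfam.1.2.1 _ (by show -(ρ * X) < X; nlinarith [mul_pos hρ hX])) hX.le (by ring)
    have hL := arcsum_side (L j X) (Real.exp (2 * ε / X)) X (-X) 0 n (Real.exp_pos _).le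
      (fun v => hfam.2.2.1 _ (by show -(ρ * X) < X; nlinarith [mul_pos hρ hX])) (by linarith)
      (by ring)
    have hE : Real.exp (2 * ε / X) * Real.exp (-(n * X)) = Real.exp (2 * ε / X - n * X) := by
      rw [← Real.exp_add]; congr 1
    rw [hE] at hU hL
    rw [norm_mul, h1, one_mul]
    have h2 : ‖RS j‖ ≤ Real.exp (2 * ε / X - n * X) * X + Real.exp (2 * ε / X - n * X) * X := by
      simp only [hRS]
      exact (norm_add_le _ _).trans (add_le_add hU hL)
    have h3 := Real.exp_pos (2 * ε / X - n * X)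
    nlinarith
  calc ∑ j ∈ Finset.range J, ‖((∫ v in (θ j + X)..(θ (j + 1) - X), f v) - e j * UP j
        + e (j + 1) * LP (j + 1)) + e j * RS j‖
      ≤ ∑ j ∈ Finset.range J, (1000 / (ρ * X) * Real.exp (2 * ε / X + n * ρ * X - 1 / (20 * X))
      + 10 * Real.exp (2 * ε / X - n * X)) := by
        refine Finset.sum_le_sum fun j hj => ?_
        have hj' := Finset.mem_range.1 hj
        refine (norm_add_le _ _).trans ?_
        have h1 := hgapb j hj'
        have h2 := hRSb j hj'
        linarith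
    _ = J * (1000 / (ρ * X) * Real.exp (2 * ε / X + n * ρ * X - 1 / (20 * X))
      + 10 * Real.exp (2 * ε / X - n * X)) := by
        rw [Finset.sum_const, Finset.card_range, nsmul_eq_mul]

end NM
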