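import Pool.Agent.Helper360.NM.Defs
import Pool.Agent.Helper360.NM.P_arcsum



namespace NM
open Complex Metric Set Filter Topology MeasureTheory


theorem assembly (l : ℕ → ℂ) (L0 : ℝ) (hL0 : 1 ≤ L0) (hl : ∀ n, ‖l n‖ ≤ L0) (ρ ε X0 : ℝ)
    (hX0 : 0 < X0) (hX01 : X0 ≤ 1 / 100) (hε : 0 < ε) (hε2 : ε ≤ 1 / 10 ^ 9)
    (hρ : 0 < ρ) (hρ1 : ρ ≤ 1 / 1000) (J : ℕ) (hJ : 0 < J) (θ : ℕ → ℝ)
    (hθ : ∀ j < J, θ j < θ (j + 1)) (hper : θ J = θ 0 + 2 * Real.pi)
    (U L : ℕ → ℝ → ℂ → ℂ)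
    (hf : ∀ j < J, Fam (fun s => Kf l (s + (θ j : ℂ) * Complex.I)) ρ ε X0 (U j) (L j))
    (hst : ∀ X y : ℝ, 0 < X → X < X0 → (∀ j : ℕ, j < J → ∀ k : ℤ, X ≤ |y - θ j - 2 * Real.pi * k|) →
      ∃ G, Appr (Kf l) ⟨-(ρ * X), y⟩ 1 (Real.exp (2 * ε / X)) G)
    (q : ℕ → ℂ)
    (hq : ∀ j < J, ∀ X : ℝ, 0 < X → X < X0 → ∀ n : ℕ,
      ‖RX (fun s => Kf l (s + (θ j : ℂ) * Complex.I)) (U j) (L j) ρ X
        (fun s => Complex.exp (-((n : ℂ) * s))) - q j‖ ≤ Real.exp (2 * n * X - 1 / (10 ^ 7 * X))) :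
    ∃ A : ℝ, ∀ n : ℕ,
      ‖l n - ∑ j ∈ Finset.range J, (-(q j) / (2 * Real.pi * Complex.I)) *
        Complex.exp (-((θ j : ℂ) * Complex.I)) ^ n‖ ≤ A * Real.exp (-(Real.sqrt n / 10 ^ 5)) := by
  have hpi := Real.pi_pos
  have hpi3 := Real.pi_gt_three
  obtain ⟨j0, hj0, hmin⟩ := Finset.exists_min_image (Finset.range J) (fun j => θ (j + 1) - θ j)
    ⟨0, Finset.mem_range.2 hJ⟩
  set g : ℝ := θ (j0 + 1) - θ j0 with hg
  have hgpos : 0 < g := by
    have := hθ j0 (Finset.mem_range.1 hj0)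
    rw [hg]; linarith
  set M : ℝ := 1 / X0 + 1 / g with hM
  have hMpos : 0 < M := by positivity
  obtain ⟨n0, hn0⟩ := exists_nat_ge (M ^ 2)
  have hexp1 : ∀ (j n : ℕ), ‖Complex.exp (-((θ j : ℂ) * Complex.I)) ^ n‖ = 1 := by
    intro j n
    rw [norm_pow, Complex.norm_exp]
    simp
  set B0 : ℝ := L0 + ∑ j ∈ Finset.range J, ‖q j‖ with hB0
  have hB0n : 0 ≤ B0 := by
    have : 0 ≤ ∑ j ∈ Finset.range J, ‖q j‖ := Finset.sum_nonneg (fun _ _ => norm_nonneg _)
    rw [hB0]; linarith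
  have h2pi : ‖(2 * Real.pi * Complex.I : ℂ)‖ = 2 * Real.pi := by
    rw [norm_mul, norm_mul, Complex.norm_I, mul_one, Complex.norm_real,
      Real.norm_of_nonneg hpi.le]
    simp
  have h2pine : (2 * Real.pi * Complex.I : ℂ) ≠ 0 := by
    intro h
    rw [h, norm_zero] at h2pi
    linarith
  have hJr : (1 : ℝ) ≤ J := by exact_mod_cast hJ
  refine ⟨J * (10 ^ 7 / ρ + 10) + J + B0 * Real.exp (Real.sqrt n0 / 10 ^ 5), ?_⟩
  intro n
  have hE : 0 < Real.exp (-(Real.sqrt n / 10 ^ 5)) := Real.exp_pos _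
  have hmain0 : 0 ≤ (J : ℝ) * (10 ^ 7 / ρ + 10) + J := by positivity
  have hcn0 : 0 ≤ B0 * Real.exp (Real.sqrt n0 / 10 ^ 5) := by positivity
  by_cases hn : n < n0
  · -- small n
    have h1 : ‖l n - ∑ j ∈ Finset.range J, (-(q j) / (2 * Real.pi * Complex.I)) *
        Complex.exp (-((θ j : ℂ) * Complex.I)) ^ n‖ ≤ B0 := by
      refine (norm_sub_le _ _).trans ?_
      rw [hB0]
      refine add_le_add (hl n) ((norm_sum_le _ _).trans (Finset.sum_le_sum (fun j _ => ?_)))
      rw [norm_mul, hexp1, mul_one, norm_div, norm_neg, h2pi]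
      apply div_le_self (norm_nonneg _)
      linarith
    have h2 : 1 ≤ Real.exp (Real.sqrt n0 / 10 ^ 5) * Real.exp (-(Real.sqrt n / 10 ^ 5)) := by
      rw [← Real.exp_add]
      apply Real.one_le_exp
      have h3 : Real.sqrt n ≤ Real.sqrt n0 := Real.sqrt_le_sqrt (by exact_mod_cast hn.le)
      have h4 : Real.sqrt n / 10 ^ 5 ≤ Real.sqrt n0 / 10 ^ 5 :=
        div_le_div_of_nonneg_right h3 (by positivity)
      linarith
    calc ‖l n - ∑ j ∈ Finset.range J, (-(q j) / (2 * Real.pi * Complex.I)) *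
          Complex.exp (-((θ j : ℂ) * Complex.I)) ^ n‖ ≤ B0 := h1
      _ = B0 * 1 := (mul_one _).symm
      _ ≤ B0 * (Real.exp (Real.sqrt n0 / 10 ^ 5) * Real.exp (-(Real.sqrt n / 10 ^ 5))) :=
          mul_le_mul_of_nonneg_left h2 hB0n
      _ = (0 + B0 * Real.exp (Real.sqrt n0 / 10 ^ 5)) * Real.exp (-(Real.sqrt n / 10 ^ 5)) := by
          ring
      _ ≤ _ := mul_le_mul_of_nonneg_right (add_le_add_left hmain0 _) hE.le
  · -- large n
    have hn' : n0 ≤ n := not_lt.1 hn
    set s : ℝ := Real.sqrt n with hs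
    have hsM : M ≤ s := by
      rw [hs]
      apply Real.le_sqrt_of_sq_le
      exact hn0.trans (by exact_mod_cast hn')
    have hspos : 0 < s := lt_of_lt_of_le hMpos hsM
    have hss : s * s = n := Real.mul_self_sqrt (Nat.cast_nonneg n)
    set X : ℝ := 1 / (10 ^ 4 * s) with hX
    have hXpos : 0 < X := by positivity
    have hnX : (n : ℝ) * X = s / 10 ^ 4 := by
      rw [← hss, hX]; field_simp
    have hXinv : 1 / X = 10 ^ 4 * s := by rw [hX, one_div_one_div]
    have hX0s : 1 / X0 ≤ s := by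
      have : 0 < 1 / g := by positivity
      rw [hM] at hsM; linarith
    have hgs : 1 / g ≤ s := by
      have : 0 < 1 / X0 := by positivity
      rw [hM] at hsM; linarith
    have hX0s' : 1 ≤ X0 * s := by
      rw [div_le_iff₀ hX0] at hX0s
      linarith
    have hgs' : 1 ≤ g * s := by
      rw [div_le_iff₀ hgpos] at hgs
      linarith
    have hXX : X < X0 := by
      rw [hX, div_lt_iff₀ (by positivity)]
      nlinarith
    have hgap : ∀ j < J, 2 * X ≤ θ (j + 1) - θ j := by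
      intro j hj
      have h1 : g ≤ θ (j + 1) - θ j := hmin j (Finset.mem_range.2 hj)
      have h2 : 2 * X ≤ g := by
        rw [hX, mul_one_div, div_le_iff₀ (by positivity)]
        nlinarith
      linarith
    have harc := arcsum l L0 hL0 hl ρ ε X0 hX0 hX01 hε hε2 hρ hρ1 J hJ θ hθ hper U L hf hst X
      hXpos hXX hgap n
    set E : ℝ := Real.exp (-(s / 10 ^ 5)) with hEd
    have hb1 : 1000 / (ρ * X) * Real.exp (2 * ε / X + n * ρ * X - 1 / (20 * X)) ≤
        10 ^ 7 / ρ * E := by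
      have e1 : 1000 / (ρ * X) = 10 ^ 7 / ρ * s := by
        rw [hX]; field_simp; norm_num
      have e2 : 2 * ε / X + n * ρ * X - 1 / (20 * X) ≤ -(499 * s) := by
        have a1 : 2 * ε / X = 2 * ε * (10 ^ 4 * s) := by rw [← hXinv]; ring
        have a2 : (n : ℝ) * ρ * X = ρ * (s / 10 ^ 4) := by rw [← hnX]; ring
        have a3 : 1 / (20 * X) = 500 * s := by rw [hX]; field_simp; norm_num
        rw [a1, a2, a3]
        have b1 : 2 * ε * (10 ^ 4 * s) ≤ 2 * (1 / 10 ^ 9) * (10 ^ 4 * s) :=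
          mul_le_mul_of_nonneg_right (by linarith) (by positivity)
        have b2 : ρ * (s / 10 ^ 4) ≤ 1 / 1000 * (s / 10 ^ 4) :=
          mul_le_mul_of_nonneg_right hρ1 (by positivity)
        linarith
      rw [e1]
      have e3 : s ≤ Real.exp s := by
        have := Real.add_one_le_exp s; linarith
      calc 10 ^ 7 / ρ * s * Real.exp (2 * ε / X + n * ρ * X - 1 / (20 * X))
          ≤ 10 ^ 7 / ρ * Real.exp s * Real.exp (-(499 * s)) := by
            apply mul_le_mul _ (Real.exp_le_exp.2 e2) (Real.exp_pos _).le (by positivity)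
            exact mul_le_mul_of_nonneg_left e3 (by positivity)
        _ = 10 ^ 7 / ρ * Real.exp (s + -(499 * s)) := by rw [Real.exp_add]; ring
        _ ≤ 10 ^ 7 / ρ * E := by
            apply mul_le_mul_of_nonneg_left _ (by positivity)
            apply Real.exp_le_exp.2
            linarith
    have hb2 : Real.exp (2 * ε / X - n * X) ≤ E := by
      apply Real.exp_le_exp.2
      have a1 : 2 * ε / X = 2 * ε * (10 ^ 4 * s) := by rw [← hXinv]; ring
      rw [a1, hnX]
      have b1 : 2 * ε * (10 ^ 4 * s) ≤ 2 * (1 / 10 ^ 9) * (10 ^ 4 * s) :=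
        mul_le_mul_of_nonneg_right (by linarith) (by positivity)
      linarith
    have hb3 : Real.exp (2 * n * X - 1 / (10 ^ 7 * X)) ≤ E := by
      apply Real.exp_le_exp.2
      have a1 : 2 * (n : ℝ) * X = 2 * (s / 10 ^ 4) := by rw [← hnX]; ring
      have a2 : 1 / (10 ^ 7 * X) = s / 10 ^ 3 := by rw [hX]; field_simp
      rw [a1, a2]
      linarith
    have harc2 : ‖2 * Real.pi * Complex.I * l n + ∑ j ∈ Finset.range J,
        Complex.exp (-((θ j : ℂ) * Complex.I)) ^ n *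
        RX (fun s => Kf l (s + (θ j : ℂ) * Complex.I)) (U j) (L j) ρ X
        (fun s => Complex.exp (-((n : ℂ) * s)))‖ ≤ J * (10 ^ 7 / ρ + 10) * E := by
      refine harc.trans ?_
      have e5 : (J : ℝ) * (10 ^ 7 / ρ + 10) * E = J * ((10 ^ 7 / ρ + 10) * E) := by ring
      rw [e5]
      apply mul_le_mul_of_nonneg_left _ (by positivity)
      linarith
    have hdiff : ‖∑ j ∈ Finset.range J, Complex.exp (-((θ j : ℂ) * Complex.I)) ^ n *
        (q j - RX (fun s => Kf l (s + (θ j : ℂ) * Complex.I)) (U j) (L j) ρ X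
        (fun s => Complex.exp (-((n : ℂ) * s))))‖ ≤ J * E := by
      refine (norm_sum_le _ _).trans ?_
      have : ∑ j ∈ Finset.range J, E = J * E := by
        rw [Finset.sum_const, Finset.card_range, nsmul_eq_mul]
      rw [← this]
      apply Finset.sum_le_sum
      intro j hj
      rw [norm_mul, hexp1, one_mul, norm_sub_rev]
      exact (hq j (Finset.mem_range.1 hj) X hXpos hXX n).trans hb3
    have hid : l n - ∑ j ∈ Finset.range J, (-(q j) / (2 * Real.pi * Complex.I)) *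
        Complex.exp (-((θ j : ℂ) * Complex.I)) ^ n =
        ((2 * Real.pi * Complex.I * l n + ∑ j ∈ Finset.range J,
        Complex.exp (-((θ j : ℂ) * Complex.I)) ^ n *
        RX (fun s => Kf l (s + (θ j : ℂ) * Complex.I)) (U j) (L j) ρ X
        (fun s => Complex.exp (-((n : ℂ) * s)))) +
        ∑ j ∈ Finset.range J, Complex.exp (-((θ j : ℂ) * Complex.I)) ^ n *
        (q j - RX (fun s => Kf l (s + (θ j : ℂ) * Complex.I)) (U j) (L j) ρ X
        (fun s => Complex.exp (-((n : ℂ) * s))))) / (2 * Real.pi * Complex.I) := by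
      rw [eq_div_iff h2pine, sub_mul, Finset.sum_mul, add_assoc, ← Finset.sum_add_distrib,
        sub_eq_add_neg, ← Finset.sum_neg_distrib]
      congr 1
      · ring
      · refine Finset.sum_congr rfl (fun j _ => ?_)
        field_simp
        ring
    rw [hid, norm_div, h2pi]
    have hfin : ‖(2 * Real.pi * Complex.I * l n + ∑ j ∈ Finset.range J,
        Complex.exp (-((θ j : ℂ) * Complex.I)) ^ n *
        RX (fun s => Kf l (s + (θ j : ℂ) * Complex.I)) (U j) (L j) ρ X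
        (fun s => Complex.exp (-((n : ℂ) * s)))) +
        ∑ j ∈ Finset.range J, Complex.exp (-((θ j : ℂ) * Complex.I)) ^ n *
        (q j - RX (fun s => Kf l (s + (θ j : ℂ) * Complex.I)) (U j) (L j) ρ X
        (fun s => Complex.exp (-((n : ℂ) * s))))‖ ≤
        (J * (10 ^ 7 / ρ + 10) + J) * E := by
      refine (norm_add_le _ _).trans ?_
      rw [add_mul]
      exact add_le_add harc2 hdiff
    refine (div_le_self (norm_nonneg _) (by linarith)).trans (hfin.trans ?_)
    apply mul_le_mul_of_nonneg_right _ hE.le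
    linarith

/-! ## Part F (conclusion) -/

end NM
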