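import Pool.Agent.Helper360.NM.Defs



namespace NM
open Complex Metric Set Filter Topology MeasureTheory


theorem chord (y θ X : ℝ) (hX : 0 < X) (hX1 : X ≤ 1) (h : ∀ k : ℤ, X ≤ |y - θ - 2 * Real.pi * k|) :
    X / 2 ≤ ‖Complex.exp ((y : ℂ) * Complex.I) - Complex.exp ((θ : ℂ) * Complex.I)‖ := by
  set k : ℤ := round ((y - θ) / (2 * Real.pi)) with hk
  have hpi := Real.pi_pos
  set u : ℝ := y - θ - 2 * Real.pi * k with hu
  have h1 : X ≤ |u| := h k
  have h2 : |u| ≤ Real.pi := by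
    have h3 := abs_sub_round ((y - θ) / (2 * Real.pi))
    have h4 : u = (2 * Real.pi) * ((y - θ) / (2 * Real.pi) - (k : ℝ)) := by
      rw [hu]; field_simp
    rw [h4, abs_mul, abs_of_pos (by positivity : 0 < 2 * Real.pi)]
    calc 2 * Real.pi * |(y - θ) / (2 * Real.pi) - (k : ℝ)| ≤ 2 * Real.pi * (1 / 2) :=
          mul_le_mul_of_nonneg_left h3 (by positivity)
      _ = Real.pi := by ring
  have h5 : ‖Complex.exp ((y : ℂ) * Complex.I) - Complex.exp ((θ : ℂ) * Complex.I)‖ =
      ‖Complex.exp (Complex.I * (u : ℂ)) - 1‖ := by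
    have h6 : Complex.exp ((y : ℂ) * Complex.I) =
        Complex.exp (Complex.I * (u : ℂ)) * Complex.exp ((θ : ℂ) * Complex.I) := by
      rw [← Complex.exp_add]
      rw [Complex.exp_eq_exp_iff_exists_int]
      refine ⟨k, ?_⟩
      rw [hu]
      push_cast
      ring1
    rw [h6, ← sub_one_mul, norm_mul, Complex.norm_exp_ofReal_mul_I, mul_one]
  rw [h5, Complex.norm_exp_I_mul_ofReal_sub_one, norm_mul, Real.norm_eq_abs, Real.norm_eq_abs, abs_two]
  have h7 : |u / 2| ≤ Real.pi / 2 := by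
    rw [abs_div, abs_two]; linarith
  have h8 := Real.mul_abs_le_abs_sin h7
  rw [abs_div, abs_two] at h8
  have h9 : X / 4 ≤ 2 / Real.pi * (|u| / 2) := by
    rw [div_mul_div_comm, div_le_div_iff₀ (by norm_num) (by positivity)]
    nlinarith [Real.pi_le_four]
  linarith

end NM
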