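import Pool.Agent.Helper360.NM.Defs



namespace NM
open Complex Metric Set Filter Topology MeasureTheory


theorem ringBound (κ U L : ℂ → ℂ) (X x M : ℝ) (hx : 0 ≤ x) (hxX : x ≤ X)
    (hκ : ∀ s ∈ Ann X X, s.re ≤ -x → ‖κ s‖ ≤ M)
    (hU : ∀ s ∈ Ann X X, -x ≤ s.re → 0 ≤ s.im → ‖U s‖ ≤ M)
    (hL : ∀ s ∈ Ann X X, -x ≤ s.re → s.im ≤ 0 → ‖L s‖ ≤ M) :
    ‖ring κ U L X x‖ ≤ 8 * X * M := by
  have hX : 0 ≤ X := hx.trans hxX
  have key : ∀ (f : ℝ → ℂ) (a b : ℝ), a ≤ b → (∀ t, a ≤ t → t ≤ b → ‖f t‖ ≤ M) →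
      ‖∫ t in a..b, f t‖ ≤ M * (b - a) := by
    intro f a b hab hf
    have h := intervalIntegral.norm_integral_le_of_norm_le_const (a := a) (b := b) (f := f)
      (C := M) (by
        intro t ht
        rw [Set.uIoc_of_le hab] at ht
        exact hf t ht.1.le ht.2)
    rwa [abs_of_nonneg (by linarith)] at h
  have aX : |X| = X := abs_of_nonneg hX
  have aX' : |(-X)| = X := by rw [abs_neg, aX]
  have h1 := key (fun v => Complex.I * U ⟨X, v⟩) 0 X hX (by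
    intro t ht0 ht1
    rw [norm_mul, Complex.norm_I, one_mul]
    exact hU _ ⟨by simp [aX], by simpa [abs_of_nonneg ht0] using ht1, Or.inl (by simp [aX])⟩
      (by simp; linarith) ht0)
  have h2 := key (fun u => U ⟨u, X⟩) (-x) X (by linarith) (by
    intro t ht0 ht1
    exact hU _ ⟨by simp only; rw [abs_le]; constructor <;> linarith, by simp [aX],
      Or.inr (by simp [aX])⟩ ht0 hX)
  have h3 := key (fun u => κ ⟨u, X⟩) (-X) (-x) (by linarith) (by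
    intro t ht0 ht1
    exact hκ _ ⟨by simp only; rw [abs_le]; constructor <;> linarith, by simp [aX],
      Or.inr (by simp [aX])⟩ ht1)
  have h4 := key (fun v => Complex.I * κ ⟨-X, v⟩) (-X) X (by linarith) (by
    intro t ht0 ht1
    rw [norm_mul, Complex.norm_I, one_mul]
    exact hκ _ ⟨by simp [aX], by simp only; rw [abs_le]; constructor <;> linarith,
      Or.inl (by simp [aX])⟩ (by simp; linarith))
  have h5 := key (fun u => κ ⟨u, -X⟩) (-X) (-x) (by linarith) (by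
    intro t ht0 ht1
    exact hκ _ ⟨by simp only; rw [abs_le]; constructor <;> linarith, by simp [aX],
      Or.inr (by simp [aX])⟩ ht1)
  have h6 := key (fun u => L ⟨u, -X⟩) (-x) X (by linarith) (by
    intro t ht0 ht1
    exact hL _ ⟨by simp only; rw [abs_le]; constructor <;> linarith, by simp [aX],
      Or.inr (by simp [aX])⟩ ht0 (by simp; linarith))
  have h7 := key (fun v => Complex.I * L ⟨X, v⟩) (-X) 0 (by linarith) (by
    intro t ht0 ht1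
    rw [norm_mul, Complex.norm_I, one_mul]
    exact hL _ ⟨by simp [aX], by simp only; rw [abs_le]; constructor <;> linarith,
      Or.inl (by simp [aX])⟩ (by simp; linarith) ht1)
  unfold ring
  refine (norm_add_le _ _).trans ?_
  have e1 := norm_add_le ((∫ v in (0:ℝ)..X, Complex.I * U ⟨X, v⟩) - (∫ u in (-x)..X, U ⟨u, X⟩)
    - (∫ u in (-X)..(-x), κ ⟨u, X⟩) - (∫ v in (-X)..X, Complex.I * κ ⟨-X, v⟩)
    + (∫ u in (-X)..(-x), κ ⟨u, -X⟩)) (∫ u in (-x)..X, L ⟨u, -X⟩)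
  have e2 := norm_add_le ((∫ v in (0:ℝ)..X, Complex.I * U ⟨X, v⟩) - (∫ u in (-x)..X, U ⟨u, X⟩)
    - (∫ u in (-X)..(-x), κ ⟨u, X⟩) - (∫ v in (-X)..X, Complex.I * κ ⟨-X, v⟩))
    (∫ u in (-X)..(-x), κ ⟨u, -X⟩)
  have e3 := norm_sub_le ((∫ v in (0:ℝ)..X, Complex.I * U ⟨X, v⟩) - (∫ u in (-x)..X, U ⟨u, X⟩)
    - (∫ u in (-X)..(-x), κ ⟨u, X⟩)) (∫ v in (-X)..X, Complex.I * κ ⟨-X, v⟩)
  have e4 := norm_sub_le ((∫ v in (0:ℝ)..X, Complex.I * U ⟨X, v⟩) - (∫ u in (-x)..X, U ⟨u, X⟩))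
    (∫ u in (-X)..(-x), κ ⟨u, X⟩)
  have e5 := norm_sub_le (∫ v in (0:ℝ)..X, Complex.I * U ⟨X, v⟩) (∫ u in (-x)..X, U ⟨u, X⟩)
  linarith

end NM
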