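import Pool.Agent.Helper360.NM.Defs
import Pool.Agent.Helper360.NM.P_RingStep
import Pool.Agent.Helper360.NM.P_ringBound



namespace NM
open Complex Metric Set Filter Topology MeasureTheory


theorem cC_mk1 (a : ℝ) : Continuous (fun v : ℝ => (⟨a, v⟩ : ℂ)) := by
  have h : (fun v : ℝ => (⟨a, v⟩ : ℂ)) = fun v : ℝ => (a : ℂ) + (v : ℂ) * Complex.I := by
    funext v; apply Complex.ext <;> simp
  rw [h]; fun_prop

theorem cC_mk2 (b : ℝ) : Continuous (fun u : ℝ => (⟨u, b⟩ : ℂ)) := by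
  have h : (fun v : ℝ => (⟨v, b⟩ : ℂ)) = fun v : ℝ => (v : ℂ) + (b : ℂ) * Complex.I := by
    funext v; apply Complex.ext <;> simp
  rw [h]; fun_prop

/-- continuity on the ring -/
def RCont (κ U L : ℂ → ℂ) (X x : ℝ) : Prop :=
  (∀ s ∈ Ann X X, s.re ≤ -x → ContinuousAt κ s) ∧
  (∀ s ∈ Ann X X, -x ≤ s.re → 0 ≤ s.im → ContinuousAt U s) ∧
  (∀ s ∈ Ann X X, -x ≤ s.re → s.im ≤ 0 → ContinuousAt L s)

theorem cC_ii {f : ℂ → ℂ} {g : ℝ → ℂ} (hg : Continuous g) {a b : ℝ} (hab : a ≤ b)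
    (h : ∀ t, a ≤ t → t ≤ b → ContinuousAt f (g t)) :
    IntervalIntegrable (fun t => f (g t)) volume a b := by
  apply ContinuousOn.intervalIntegrable
  rw [uIcc_of_le hab]
  intro t ht
  exact ((h t ht.1 ht.2).comp (f := g) hg.continuousAt).continuousWithinAt

theorem cC_ann1 {X v : ℝ} (hX : 0 ≤ X) (h1 : -X ≤ v) (h2 : v ≤ X) :
    (⟨X, v⟩ : ℂ) ∈ Ann X X := by
  refine ⟨?_, ?_, Or.inl ?_⟩
  · show |X| ≤ X
    rw [abs_of_nonneg hX]
  · show |v| ≤ X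
    exact abs_le.2 ⟨h1, h2⟩
  · show X ≤ |X|
    exact le_abs_self X

theorem cC_ann2 {X v : ℝ} (hX : 0 ≤ X) (h1 : -X ≤ v) (h2 : v ≤ X) :
    (⟨-X, v⟩ : ℂ) ∈ Ann X X := by
  refine ⟨?_, ?_, Or.inl ?_⟩
  · show |(-X)| ≤ X
    rw [abs_neg, abs_of_nonneg hX]
  · show |v| ≤ X
    exact abs_le.2 ⟨h1, h2⟩
  · show X ≤ |(-X)|
    rw [abs_neg]
    exact le_abs_self X

theorem cC_ann3 {X v : ℝ} (hX : 0 ≤ X) (h1 : -X ≤ v) (h2 : v ≤ X) :
    (⟨v, X⟩ : ℂ) ∈ Ann X X := by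
  refine ⟨?_, ?_, Or.inr ?_⟩
  · show |v| ≤ X
    exact abs_le.2 ⟨h1, h2⟩
  · show |X| ≤ X
    rw [abs_of_nonneg hX]
  · show X ≤ |X|
    exact le_abs_self X

theorem cC_ann4 {X v : ℝ} (hX : 0 ≤ X) (h1 : -X ≤ v) (h2 : v ≤ X) :
    (⟨v, -X⟩ : ℂ) ∈ Ann X X := by
  refine ⟨?_, ?_, Or.inr ?_⟩
  · show |v| ≤ X
    exact abs_le.2 ⟨h1, h2⟩
  · show |(-X)| ≤ X
    rw [abs_neg, abs_of_nonneg hX]
  · show X ≤ |(-X)|
    rw [abs_neg]
    exact le_abs_self X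

theorem cC_add (κ U L κ' U' L' : ℂ → ℂ) (X x : ℝ) (hx : 0 ≤ x) (hxX : x ≤ X)
    (h : RCont κ U L X x) (h' : RCont κ' U' L' X x) :
    ring (fun s => κ s + κ' s) (fun s => U s + U' s) (fun s => L s + L' s) X x
      = ring κ U L X x + ring κ' U' L' X x := by
  have hX : 0 ≤ X := hx.trans hxX
  obtain ⟨hk, hu, hl⟩ := h
  obtain ⟨hk', hu', hl'⟩ := h'
  have a1 : ∀ f : ℂ → ℂ, (∀ s ∈ Ann X X, -x ≤ s.re → 0 ≤ s.im → ContinuousAt f s) →
      IntervalIntegrable (fun v : ℝ => Complex.I * f ⟨X, v⟩) volume 0 X := fun f hf =>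
    (cC_ii (cC_mk1 X) hX fun t h1 h2 => hf _ (cC_ann1 hX (by linarith) h2)
      (by show -x ≤ X; linarith) h1).const_mul _
  have a2 : ∀ f : ℂ → ℂ, (∀ s ∈ Ann X X, -x ≤ s.re → 0 ≤ s.im → ContinuousAt f s) →
      IntervalIntegrable (fun u : ℝ => f ⟨u, X⟩) volume (-x) X := fun f hf =>
    (cC_ii (cC_mk2 X) (by linarith) fun t h1 h2 => hf _ (cC_ann3 hX (by linarith) h2)
      h1 hX)
  have a3 : ∀ f : ℂ → ℂ, (∀ s ∈ Ann X X, s.re ≤ -x → ContinuousAt f s) →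
      IntervalIntegrable (fun u : ℝ => f ⟨u, X⟩) volume (-X) (-x) := fun f hf =>
    (cC_ii (cC_mk2 X) (by linarith) fun t h1 h2 => hf _ (cC_ann3 hX h1 (by linarith))
      h2)
  have a4 : ∀ f : ℂ → ℂ, (∀ s ∈ Ann X X, s.re ≤ -x → ContinuousAt f s) →
      IntervalIntegrable (fun v : ℝ => Complex.I * f ⟨-X, v⟩) volume (-X) X := fun f hf =>
    (cC_ii (cC_mk1 (-X)) (by linarith) fun t h1 h2 => hf _ (cC_ann2 hX h1 h2)
      (by show -X ≤ -x; linarith)).const_mul _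
  have a5 : ∀ f : ℂ → ℂ, (∀ s ∈ Ann X X, s.re ≤ -x → ContinuousAt f s) →
      IntervalIntegrable (fun u : ℝ => f ⟨u, -X⟩) volume (-X) (-x) := fun f hf =>
    (cC_ii (cC_mk2 (-X)) (by linarith) fun t h1 h2 => hf _ (cC_ann4 hX h1 (by linarith))
      h2)
  have a6 : ∀ f : ℂ → ℂ, (∀ s ∈ Ann X X, -x ≤ s.re → s.im ≤ 0 → ContinuousAt f s) →
      IntervalIntegrable (fun u : ℝ => f ⟨u, -X⟩) volume (-x) X := fun f hf =>
    (cC_ii (cC_mk2 (-X)) (by linarith) fun t h1 h2 => hf _ (cC_ann4 hX (by linarith) h2)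
      h1 (by show -X ≤ 0; linarith))
  have a7 : ∀ f : ℂ → ℂ, (∀ s ∈ Ann X X, -x ≤ s.re → s.im ≤ 0 → ContinuousAt f s) →
      IntervalIntegrable (fun v : ℝ => Complex.I * f ⟨X, v⟩) volume (-X) 0 := fun f hf =>
    (cC_ii (cC_mk1 X) (by linarith) fun t h1 h2 => hf _ (cC_ann1 hX h1 (by linarith))
      (by show -x ≤ X; linarith) h2).const_mul _
  unfold ring
  simp only [mul_add]
  rw [intervalIntegral.integral_add (a1 U hu) (a1 U' hu'),
    intervalIntegral.integral_add (a2 U hu) (a2 U' hu'),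
    intervalIntegral.integral_add (a3 κ hk) (a3 κ' hk'),
    intervalIntegral.integral_add (a4 κ hk) (a4 κ' hk'),
    intervalIntegral.integral_add (a5 κ hk) (a5 κ' hk'),
    intervalIntegral.integral_add (a6 L hl) (a6 L' hl'),
    intervalIntegral.integral_add (a7 L hl) (a7 L' hl')]
  abel

theorem cC_congr (κ U L κ' U' L' : ℂ → ℂ) (X x : ℝ) (hx : 0 ≤ x) (hxX : x ≤ X)
    (h1 : ∀ s ∈ Ann X X, κ s = κ' s) (h2 : ∀ s ∈ Ann X X, U s = U' s)
    (h3 : ∀ s ∈ Ann X X, L s = L' s) :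
    ring κ U L X x = ring κ' U' L' X x := by
  have hX : 0 ≤ X := hx.trans hxX
  unfold ring
  congr 1
  · congr 1
    · congr 1
      · congr 1
        · congr 1
          · congr 1
            · apply intervalIntegral.integral_congr
              intro v hv
              rw [uIcc_of_le hX] at hv
              show Complex.I * U ⟨X, v⟩ = Complex.I * U' ⟨X, v⟩
              rw [h2 _ (cC_ann1 hX (by linarith [hv.1]) hv.2)]
            · apply intervalIntegral.integral_congr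
              intro v hv
              rw [uIcc_of_le (by linarith)] at hv
              exact h2 _ (cC_ann3 hX (by linarith [hv.1]) hv.2)
          · apply intervalIntegral.integral_congr
            intro v hv
            rw [uIcc_of_le (by linarith)] at hv
            exact h1 _ (cC_ann3 hX hv.1 (by linarith [hv.2]))
        · apply intervalIntegral.integral_congr
          intro v hv
          rw [uIcc_of_le (by linarith)] at hv
          show Complex.I * κ ⟨-X, v⟩ = Complex.I * κ' ⟨-X, v⟩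
          rw [h1 _ (cC_ann2 hX hv.1 hv.2)]
      · apply intervalIntegral.integral_congr
        intro v hv
        rw [uIcc_of_le (by linarith)] at hv
        exact h1 _ (cC_ann4 hX hv.1 (by linarith [hv.2]))
    · apply intervalIntegral.integral_congr
      intro v hv
      rw [uIcc_of_le (by linarith)] at hv
      exact h3 _ (cC_ann4 hX (by linarith [hv.1]) hv.2)
  · apply intervalIntegral.integral_congr
    intro v hv
    rw [uIcc_of_le (by linarith)] at hv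
    show Complex.I * L ⟨X, v⟩ = Complex.I * L' ⟨X, v⟩
    rw [h3 _ (cC_ann1 hX hv.1 (by linarith [hv.2]))]

theorem cC_gen (K U L U' L' κ1 U1 L1 : ℂ → ℂ) (X X' x y τ e : ℝ) (σ c : ℂ) (hx : 0 < x)
    (hxX : x < X')
    (hX : X' < X) (hy : x < y) (he : 0 ≤ e) (hτ : 0 < τ) (hτX : τ ≤ X')
    (hK : DifferentiableOn ℂ K {s | s.re < 0})
    (hU : DifferentiableOn ℂ U {s | -y < s.re}) (hL : DifferentiableOn ℂ L {s | -y < s.re})
    (hU' : DifferentiableOn ℂ U' {s | -y < s.re}) (hL' : DifferentiableOn ℂ L' {s | -y < s.re})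
    (hσ0 : σ.re < 0)
    (hd1 : ∀ s ∈ Ann X X, τ ≤ ‖σ - s‖) (hd2 : ∀ s ∈ Ann X' X', τ ≤ ‖σ - s‖)
    (hd3 : ∀ s : ℂ, s.re = -x → τ ≤ ‖σ - s‖)
    (e2 : ∀ v : ℝ, X' ≤ v → v ≤ X → ‖K ⟨-x, v⟩ - U ⟨-x, v⟩‖ ≤ e ∧ ‖K ⟨-x, -v⟩ - L ⟨-x, -v⟩‖ ≤ e)
    (e3 : ∀ u : ℝ, -x ≤ u → u ≤ X' →
      ‖U ⟨u, X'⟩ - U' ⟨u, X'⟩‖ ≤ e ∧ ‖L ⟨u, -X'⟩ - L' ⟨u, -X'⟩‖ ≤ e)
    (e3b : ∀ v : ℝ, 0 ≤ v → v ≤ X' →
      ‖U ⟨X', v⟩ - U' ⟨X', v⟩‖ ≤ e ∧ ‖L ⟨X', -v⟩ - L' ⟨X', -v⟩‖ ≤ e)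
    (e4 : ∀ u : ℝ, X' ≤ u → u ≤ X → ‖U ⟨u, 0⟩ - L ⟨u, 0⟩‖ ≤ e)
    (hκ1 : ∀ s, s ≠ σ → κ1 s = (K s - c) * (1 / (σ - s)))
    (hU1 : ∀ s, s ≠ σ → U1 s = (U s - c) * (1 / (σ - s)))
    (hL1 : ∀ s, s ≠ σ → L1 s = (L s - c) * (1 / (σ - s)))
    (dκ : ∀ s : ℂ, s.re < 0 → (s ≠ σ ∨ c = K σ) → DifferentiableAt ℂ κ1 s)
    (dU : ∀ s : ℂ, -y < s.re → (s ≠ σ ∨ c = U σ) → DifferentiableAt ℂ U1 s)
    (dL : ∀ s : ℂ, -y < s.re → (s ≠ σ ∨ c = L σ) → DifferentiableAt ℂ L1 s)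
    (hc : (σ.re < -x ∧ c = K σ) ∨ (-x < σ.re ∧ 0 < σ.im ∧ c = U σ) ∨
      (-x < σ.re ∧ σ.im < 0 ∧ c = L σ)) :
    ‖RY K U L X x (fun s => 1 / (σ - s)) - RY K U' L' X' x (fun s => 1 / (σ - s))‖ ≤
      14 * X * (e / τ) + 16 * X * (‖c‖ / τ) := by
  have hX0 : 0 < X' := hx.trans hxX
  have hX1 : 0 < X := hX0.trans hX
  have n1 : ∀ s : ℂ, τ ≤ ‖σ - s‖ → s ≠ σ := by
    intro s hs h
    rw [h, sub_self, norm_zero] at hs
    linarith
  have n2 : ∀ s : ℂ, τ ≤ ‖σ - s‖ → ‖1 / (σ - s)‖ ≤ 1 / τ := by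
    intro s hs
    rw [norm_div, norm_one]
    exact one_div_le_one_div_of_le hτ hs
  have n3 : ∀ s a b : ℂ, τ ≤ ‖σ - s‖ → ‖a - b‖ ≤ e →
      ‖(a - c) * (1 / (σ - s)) - (b - c) * (1 / (σ - s))‖ ≤ e / τ := by
    intro s a b hs hab
    have : (a - c) * (1 / (σ - s)) - (b - c) * (1 / (σ - s)) = (a - b) * (1 / (σ - s)) := by ring
    rw [this, norm_mul]
    calc ‖a - b‖ * ‖1 / (σ - s)‖ ≤ e * (1 / τ) :=
          mul_le_mul hab (n2 s hs) (norm_nonneg _) he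
      _ = e / τ := by ring
  have phiC : ∀ s : ℂ, s ≠ σ → ContinuousAt (fun s : ℂ => 1 / (σ - s)) s := by
    intro s hs
    have : σ - s ≠ 0 := sub_ne_zero.2 (Ne.symm hs)
    exact continuousAt_const.div (continuousAt_const.sub continuousAt_id) this
  have hKd : ∀ s : ℂ, s.re < 0 → DifferentiableAt ℂ K s := fun s hs =>
    hK.differentiableAt ((isOpen_lt Complex.continuous_re continuous_const).mem_nhds hs)
  have hyd : ∀ f : ℂ → ℂ, DifferentiableOn ℂ f {s | -y < s.re} → ∀ s : ℂ, -y < s.re →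
      DifferentiableAt ℂ f s := fun f hf s hs =>
    hf.differentiableAt ((isOpen_lt continuous_const Complex.continuous_re).mem_nhds hs)
  have annre : ∀ s : ℂ, -x ≤ s.re → -y < s.re := fun s hs => by linarith
  -- the three inner functions
  set κ2 : ℂ → ℂ := fun s => (K s - c) * (1 / (σ - s)) with hκ2
  set U2 : ℂ → ℂ := fun s => (U' s - c) * (1 / (σ - s)) with hU2
  set L2 : ℂ → ℂ := fun s => (L' s - c) * (1 / (σ - s)) with hL2
  set C : ℂ → ℂ := fun s => c * (1 / (σ - s)) with hC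
  have Cc : ∀ Y, (∀ s ∈ Ann Y Y, τ ≤ ‖σ - s‖) → RCont C C C Y x := fun Y hY =>
    ⟨fun s hs _ => continuousAt_const.mul (phiC s (n1 s (hY s hs))),
      fun s hs _ _ => continuousAt_const.mul (phiC s (n1 s (hY s hs))),
      fun s hs _ _ => continuousAt_const.mul (phiC s (n1 s (hY s hs)))⟩
  have hout : RY K U L X x (fun s => 1 / (σ - s)) = ring κ1 U1 L1 X x + ring C C C X x := by
    rw [← cC_add κ1 U1 L1 C C C X x hx.le (by linarith) ?_ (Cc X hd1)]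
    · unfold RY
      apply cC_congr _ _ _ _ _ _ X x hx.le (by linarith)
      · intro s hs
        show K s * (1 / (σ - s)) = κ1 s + C s
        rw [hκ1 s (n1 s (hd1 s hs)), hC]
        ring
      · intro s hs
        show U s * (1 / (σ - s)) = U1 s + C s
        rw [hU1 s (n1 s (hd1 s hs)), hC]
        ring
      · intro s hs
        show L s * (1 / (σ - s)) = L1 s + C s
        rw [hL1 s (n1 s (hd1 s hs)), hC]
        ring
    · refine ⟨fun s hs h => ?_, fun s hs h _ => ?_, fun s hs h _ => ?_⟩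
      · exact (dκ s (by linarith) (Or.inl (n1 s (hd1 s hs)))).continuousAt
      · exact (dU s (by linarith) (Or.inl (n1 s (hd1 s hs)))).continuousAt
      · exact (dL s (by linarith) (Or.inl (n1 s (hd1 s hs)))).continuousAt
  have hin : RY K U' L' X' x (fun s => 1 / (σ - s)) = ring κ1 U2 L2 X' x + ring C C C X' x := by
    rw [← cC_add κ1 U2 L2 C C C X' x hx.le (by linarith) ?_ (Cc X' hd2)]
    · unfold RY
      apply cC_congr _ _ _ _ _ _ X' x hx.le (by linarith)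
      · intro s hs
        show K s * (1 / (σ - s)) = κ1 s + C s
        rw [hκ1 s (n1 s (hd2 s hs)), hC]
        ring
      · intro s hs
        show U' s * (1 / (σ - s)) = U2 s + C s
        rw [hU2, hC]
        ring
      · intro s hs
        show L' s * (1 / (σ - s)) = L2 s + C s
        rw [hL2, hC]
        ring
    · refine ⟨fun s hs h => ?_, fun s hs h _ => ?_, fun s hs h _ => ?_⟩
      · exact (dκ s (by linarith) (Or.inl (n1 s (hd2 s hs)))).continuousAt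
      · exact ((hyd U' hU' s (by linarith)).continuousAt.sub continuousAt_const).mul
          (phiC s (n1 s (hd2 s hs)))
      · exact ((hyd L' hL' s (by linarith)).continuousAt.sub continuousAt_const).mul
          (phiC s (n1 s (hd2 s hs)))
  have hb : ∀ Y, x ≤ Y → (∀ s ∈ Ann Y Y, τ ≤ ‖σ - s‖) → ‖ring C C C Y x‖ ≤ 8 * Y * (‖c‖ / τ) := by
    intro Y hY hYd
    have hh : ∀ s ∈ Ann Y Y, ‖C s‖ ≤ ‖c‖ / τ := by
      intro s hs
      rw [hC]
      show ‖c * (1 / (σ - s))‖ ≤ ‖c‖ / τ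
      rw [norm_mul]
      calc ‖c‖ * ‖1 / (σ - s)‖ ≤ ‖c‖ * (1 / τ) :=
            mul_le_mul_of_nonneg_left (n2 s (hYd s hs)) (norm_nonneg _)
        _ = ‖c‖ / τ := by ring
    exact ringBound C C C Y x (‖c‖ / τ) hx.le hY (fun s hs _ => hh s hs)
      (fun s hs _ _ => hh s hs) (fun s hs _ _ => hh s hs)
  have hstep : ‖ring κ1 U1 L1 X x - ring κ1 U2 L2 X' x‖ ≤ 14 * X * (e / τ) := by
    refine RingStep κ1 U1 L1 U2 L2 X X' x x (e / τ) hx le_rfl hxX.le hX.le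
      (div_nonneg he hτ.le) ?_ ?_ ?_ ?_ ?_ ?_ ?_ ?_ ?_ ?_ ?_ ?_ ?_ ?_ ?_ ?_
    · intro s h1 h2 h3 h4
      apply dκ s (by linarith)
      rcases hc with h | h | h
      · exact Or.inr h.2
      · left
        rintro rfl
        linarith [h.1]
      · left
        rintro rfl
        linarith [h.1]
    · intro s h1 h2 h3 h4 h5
      apply dU s (by linarith)
      rcases hc with h | h | h
      · left
        rintro rfl
        linarith [h.1]
      · exact Or.inr h.2.2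
      · left
        rintro rfl
        linarith [h.2.1]
    · intro s h1 h2 h3 h4 h5
      apply dL s (by linarith)
      rcases hc with h | h | h
      · left
        rintro rfl
        linarith [h.1]
      · left
        rintro rfl
        linarith [h.2.1]
      · exact Or.inr h.2.2
    · intro u h1 h2
      exact ((hyd U' hU' _ (by show -y < u; linarith)).continuousAt.sub continuousAt_const).mul
          (phiC _ (n1 _ (hd2 _ (cC_ann3 hX0.le (by linarith) h2))))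
    · intro v h1 h2
      exact ((hyd U' hU' _ (by show -y < X'; linarith)).continuousAt.sub continuousAt_const).mul
          (phiC _ (n1 _ (hd2 _ (cC_ann1 hX0.le (by linarith) h2))))
    · intro u h1 h2
      exact ((hyd L' hL' _ (by show -y < u; linarith)).continuousAt.sub continuousAt_const).mul
          (phiC _ (n1 _ (hd2 _ (cC_ann4 hX0.le (by linarith) h2))))
    · intro v h1 h2
      exact ((hyd L' hL' _ (by show -y < X'; linarith)).continuousAt.sub continuousAt_const).mul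
          (phiC _ (n1 _ (hd2 _ (cC_ann1 hX0.le h1 (by linarith)))))
    · intro u h1 h2
      have hu : u = -x := le_antisymm h2 h1
      subst hu
      have hd := hd3 (⟨-x, X⟩ : ℂ) rfl
      rw [hκ1 _ (n1 _ hd), hU1 _ (n1 _ hd)]
      exact n3 _ _ _ hd (e2 X hX.le le_rfl).1
    · intro u h1 h2
      have hu : u = -x := le_antisymm h2 h1
      subst hu
      have hd := hd3 (⟨-x, -X⟩ : ℂ) rfl
      rw [hκ1 _ (n1 _ hd), hL1 _ (n1 _ hd)]
      exact n3 _ _ _ hd (e2 X hX.le le_rfl).2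
    · intro v h1 h2
      have hd := hd3 (⟨-x, v⟩ : ℂ) rfl
      rw [hκ1 _ (n1 _ hd), hU1 _ (n1 _ hd)]
      exact n3 _ _ _ hd (e2 v h1 h2).1
    · intro v h1 h2
      have hd := hd3 (⟨-x, -v⟩ : ℂ) rfl
      rw [hκ1 _ (n1 _ hd), hL1 _ (n1 _ hd)]
      exact n3 _ _ _ hd (e2 v h1 h2).2
    · intro u h1 h2
      have hd := hd2 _ (cC_ann3 (v := u) hX0.le (by linarith) h2)
      rw [hU1 _ (n1 _ hd)]
      exact n3 _ _ _ hd (e3 u h1 h2).1
    · intro v h1 h2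
      have hd := hd2 _ (cC_ann1 (v := v) hX0.le (by linarith) h2)
      rw [hU1 _ (n1 _ hd)]
      exact n3 _ _ _ hd (e3b v h1 h2).1
    · intro u h1 h2
      have hd := hd2 _ (cC_ann4 (v := u) hX0.le (by linarith) h2)
      rw [hL1 _ (n1 _ hd)]
      exact n3 _ _ _ hd (e3 u h1 h2).2
    · intro v h1 h2
      have hd := hd2 _ (cC_ann1 (v := v) hX0.le h1 (by linarith))
      rw [hL1 _ (n1 _ hd)]
      have h := (e3b (-v) (by linarith) (by linarith)).2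
      rw [neg_neg] at h
      exact n3 _ _ _ hd h
    · intro u h1 h2
      have hd : τ ≤ ‖σ - (⟨u, 0⟩ : ℂ)‖ := by
        have h := Complex.abs_re_le_norm (σ - (⟨u, 0⟩ : ℂ))
        have h' : (σ - (⟨u, 0⟩ : ℂ)).re = σ.re - u := rfl
        rw [h'] at h
        have h'' : -(σ.re - u) ≤ |σ.re - u| := neg_le_abs _
        linarith
      rw [hU1 _ (n1 _ hd), hL1 _ (n1 _ hd)]
      exact n3 _ _ _ hd (e4 u h1 h2)
  rw [hout, hin]
  have e0 : ring κ1 U1 L1 X x + ring C C C X x - (ring κ1 U2 L2 X' x + ring C C C X' x)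
      = (ring κ1 U1 L1 X x - ring κ1 U2 L2 X' x) + (ring C C C X x - ring C C C X' x) := by ring
  rw [e0]
  have hb1 := hb X (by linarith) hd1
  have hb2 := hb X' hxX.le hd2
  have hq : 0 ≤ ‖c‖ / τ := div_nonneg (norm_nonneg _) hτ.le
  have hb3 : 8 * X' * (‖c‖ / τ) ≤ 8 * X * (‖c‖ / τ) := by
    apply mul_le_mul_of_nonneg_right _ hq
    linarith
  calc _ ≤ ‖ring κ1 U1 L1 X x - ring κ1 U2 L2 X' x‖ + ‖ring C C C X x - ring C C C X' x‖ :=
        norm_add_le _ _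
    _ ≤ 14 * X * (e / τ) + (8 * X * (‖c‖ / τ) + 8 * X * (‖c‖ / τ)) := by
        gcongr
        exact (norm_sub_le _ _).trans (add_le_add hb1 (hb2.trans hb3))
    _ = _ := by ring

theorem cC_dslope (f : ℂ → ℂ) (σ : ℂ) (S : Set ℂ) (hS : IsOpen S) (hσ : σ ∈ S)
    (hf : DifferentiableOn ℂ f S) :
    (∀ s, s ≠ σ → -dslope f σ s = (f s - f σ) * (1 / (σ - s))) ∧
    ∀ s ∈ S, DifferentiableAt ℂ (fun s => -dslope f σ s) s := by
  constructor
  · intro s hs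
    rw [dslope_of_ne f hs, slope_def_field]
    have h1 : σ - s ≠ 0 := sub_ne_zero.2 (Ne.symm hs)
    have h2 : s - σ ≠ 0 := sub_ne_zero.2 hs
    field_simp
    ring
  · intro s hs
    have h := (Complex.differentiableOn_dslope (hS.mem_nhds hσ)).2 hf
    exact (h.differentiableAt (hS.mem_nhds hs)).neg

theorem cC_mul (f : ℂ → ℂ) (σ c s : ℂ) (hf : DifferentiableAt ℂ f s) (hs : s ≠ σ) :
    DifferentiableAt ℂ (fun s => (f s - c) * (1 / (σ - s))) s := by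
  have h1 : σ - s ≠ 0 := sub_ne_zero.2 (Ne.symm hs)
  apply DifferentiableAt.mul (hf.sub_const c)
  exact (differentiableAt_const _).div ((differentiableAt_const _).sub differentiableAt_id) h1

/-- the modified function -/
theorem cC_ex (f : ℂ → ℂ) (σ c : ℂ) (S : Set ℂ) (hS : IsOpen S)
    (hf : DifferentiableOn ℂ f S) (hσ : c = f σ → σ ∈ S) :
    ∃ g : ℂ → ℂ, (∀ s, s ≠ σ → g s = (f s - c) * (1 / (σ - s))) ∧
      ∀ s ∈ S, (s ≠ σ ∨ c = f σ) → DifferentiableAt ℂ g s := by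
  by_cases hc : c = f σ
  · obtain ⟨h1, h2⟩ := cC_dslope f σ S hS (hσ hc) hf
    refine ⟨fun s => -dslope f σ s, ?_, fun s hs _ => h2 s hs⟩
    rw [hc]
    exact h1
  · refine ⟨fun s => (f s - c) * (1 / (σ - s)), fun _ _ => rfl, fun s hs h => ?_⟩
    exact cC_mul f σ c s (hf.differentiableAt (hS.mem_nhds hs)) (h.resolve_right hc)

theorem crossCase (K U L U' L' : ℂ → ℂ) (X X' x y τ e : ℝ) (σ c : ℂ) (hx : 0 < x) (hxX : x < X')
    (hX : X' < X) (hy : x < y) (he : 0 ≤ e) (hτ : 0 < τ) (hτX : τ ≤ X')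
    (hK : DifferentiableOn ℂ K {s | s.re < 0})
    (hU : DifferentiableOn ℂ U {s | -y < s.re}) (hL : DifferentiableOn ℂ L {s | -y < s.re})
    (hU' : DifferentiableOn ℂ U' {s | -y < s.re}) (hL' : DifferentiableOn ℂ L' {s | -y < s.re})
    (hσ0 : σ.re < 0) (hσ1 : X' < max |σ.re| |σ.im|) (hσ2 : max |σ.re| |σ.im| < X)
    (hd1 : ∀ s ∈ Ann X X, τ ≤ ‖σ - s‖) (hd2 : ∀ s ∈ Ann X' X', τ ≤ ‖σ - s‖)
    (hd3 : ∀ s : ℂ, s.re = -x → τ ≤ ‖σ - s‖)
    (e2 : ∀ v : ℝ, X' ≤ v → v ≤ X → ‖K ⟨-x, v⟩ - U ⟨-x, v⟩‖ ≤ e ∧ ‖K ⟨-x, -v⟩ - L ⟨-x, -v⟩‖ ≤ e)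
    (e3 : ∀ u : ℝ, -x ≤ u → u ≤ X' →
      ‖U ⟨u, X'⟩ - U' ⟨u, X'⟩‖ ≤ e ∧ ‖L ⟨u, -X'⟩ - L' ⟨u, -X'⟩‖ ≤ e)
    (e3b : ∀ v : ℝ, 0 ≤ v → v ≤ X' →
      ‖U ⟨X', v⟩ - U' ⟨X', v⟩‖ ≤ e ∧ ‖L ⟨X', -v⟩ - L' ⟨X', -v⟩‖ ≤ e)
    (e4 : ∀ u : ℝ, X' ≤ u → u ≤ X → ‖U ⟨u, 0⟩ - L ⟨u, 0⟩‖ ≤ e)
    (hc : (σ.re < -x ∧ c = K σ) ∨ (-x < σ.re ∧ 0 < σ.im ∧ c = U σ) ∨
      (-x < σ.re ∧ σ.im < 0 ∧ c = L σ)) :
    ‖RY K U L X x (fun s => 1 / (σ - s)) - RY K U' L' X' x (fun s => 1 / (σ - s))‖ ≤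
      14 * X * (e / τ) + 16 * X * (‖c‖ / τ) := by
  have oK : IsOpen {s : ℂ | s.re < 0} := isOpen_lt Complex.continuous_re continuous_const
  have oU : IsOpen {s : ℂ | -y < s.re} := isOpen_lt continuous_const Complex.continuous_re
  obtain ⟨κ1, k1, k2⟩ := cC_ex K σ c _ oK hK (fun _ => hσ0)
  by_cases hy1 : -y < σ.re
  · obtain ⟨U1, u1, u2⟩ := cC_ex U σ c _ oU hU (fun _ => hy1)
    obtain ⟨L1, l1, l2⟩ := cC_ex L σ c _ oU hL (fun _ => hy1)
    exact cC_gen K U L U' L' κ1 U1 L1 X X' x y τ e σ c hx hxX hX hy he hτ hτX hK hU hL hU' hL'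
      hσ0 hd1 hd2 hd3 e2 e3 e3b e4 k1 u1 l1 k2 u2 l2 hc
  · have hns : ∀ s : ℂ, -y < s.re → s ≠ σ := by
      rintro s hs rfl
      exact hy1 hs
    exact cC_gen K U L U' L' κ1 (fun s => (U s - c) * (1 / (σ - s)))
      (fun s => (L s - c) * (1 / (σ - s))) X X' x y τ e σ c hx hxX hX hy he hτ hτX hK hU hL hU' hL'
      hσ0 hd1 hd2 hd3 e2 e3 e3b e4 k1 (fun _ _ => rfl) (fun _ _ => rfl) k2
      (fun s hs _ => cC_mul U σ c s (hU.differentiableAt (oU.mem_nhds hs)) (hns s hs))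
      (fun s hs _ => cC_mul L σ c s (hL.differentiableAt (oU.mem_nhds hs)) (hns s hs)) hc

end NM
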