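import Pool.Agent.Helper360.NM.Defs



namespace NM
open Complex Metric Set Filter Topology MeasureTheory


theorem ringDiv_cont (f : ℂ → ℂ) (c a b : ℝ) (hab : a ≤ b)
    (h : ∀ u : ℝ, a ≤ u → u ≤ b → ContinuousAt f ⟨u, c⟩) :
    IntervalIntegrable (fun u : ℝ => f ⟨u, c⟩) volume a b := by
  apply ContinuousOn.intervalIntegrable
  rw [uIcc_of_le hab]
  intro u hu
  have hc : Continuous (fun u : ℝ => (⟨u, c⟩ : ℂ)) := by
    have : (fun u : ℝ => (⟨u, c⟩ : ℂ)) = fun u : ℝ => (u : ℂ) + (c : ℂ) * Complex.I := by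
      funext u
      apply Complex.ext <;> simp
    rw [this]
    fun_prop
  exact (ContinuousAt.comp (f := fun u : ℝ => (⟨u, c⟩ : ℂ)) (g := f) (x := u)
    (h u hu.1 hu.2) hc.continuousAt).continuousWithinAt

theorem ringDiv (κ U L : ℂ → ℂ) (X x1 x2 e : ℝ) (h0 : 0 < x1) (h1 : x1 ≤ x2) (h2 : x2 ≤ X)
    (hκ : ∀ u : ℝ, -X ≤ u → u ≤ -x1 → ContinuousAt κ ⟨u, X⟩ ∧ ContinuousAt κ ⟨u, -X⟩)
    (hU : ∀ u : ℝ, -x2 ≤ u → u ≤ X → ContinuousAt U ⟨u, X⟩ ∧ ContinuousAt L ⟨u, -X⟩)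
    (e1 : ∀ u : ℝ, -x2 ≤ u → u ≤ -x1 → ‖κ ⟨u, X⟩ - U ⟨u, X⟩‖ ≤ e)
    (e2 : ∀ u : ℝ, -x2 ≤ u → u ≤ -x1 → ‖κ ⟨u, -X⟩ - L ⟨u, -X⟩‖ ≤ e) :
    ‖ring κ U L X x1 - ring κ U L X x2‖ ≤ 2 * (x2 - x1) * e := by
  have a1 := ringDiv_cont κ X (-X) (-x2) (by linarith) (fun u hu hu' => (hκ u hu (by linarith)).1)
  have a2 := ringDiv_cont κ X (-x2) (-x1) (by linarith)
    (fun u hu hu' => (hκ u (by linarith) hu').1)
  have b1 := ringDiv_cont κ (-X) (-X) (-x2) (by linarith)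
    (fun u hu hu' => (hκ u hu (by linarith)).2)
  have b2 := ringDiv_cont κ (-X) (-x2) (-x1) (by linarith)
    (fun u hu hu' => (hκ u (by linarith) hu').2)
  have c1 := ringDiv_cont U X (-x2) (-x1) (by linarith)
    (fun u hu hu' => (hU u hu (by linarith)).1)
  have c2 := ringDiv_cont U X (-x1) X (by linarith)
    (fun u hu hu' => (hU u (by linarith) hu').1)
  have d1 := ringDiv_cont L (-X) (-x2) (-x1) (by linarith)
    (fun u hu hu' => (hU u hu (by linarith)).2)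
  have d2 := ringDiv_cont L (-X) (-x1) X (by linarith)
    (fun u hu hu' => (hU u (by linarith) hu').2)
  have ea := intervalIntegral.integral_add_adjacent_intervals a1 a2
  have eb := intervalIntegral.integral_add_adjacent_intervals b1 b2
  have ec := intervalIntegral.integral_add_adjacent_intervals c1 c2
  have ed := intervalIntegral.integral_add_adjacent_intervals d1 d2
  have key : ring κ U L X x1 - ring κ U L X x2 =
      -(∫ u in (-x2)..(-x1), (κ ⟨u, X⟩ - U ⟨u, X⟩)) +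
        ∫ u in (-x2)..(-x1), (κ ⟨u, -X⟩ - L ⟨u, -X⟩) := by
    rw [intervalIntegral.integral_sub a2 c1, intervalIntegral.integral_sub b2 d1]
    unfold ring
    rw [← ea, ← eb, ← ec, ← ed]
    ring
  have n1 : ‖∫ u in (-x2)..(-x1), (κ ⟨u, X⟩ - U ⟨u, X⟩)‖ ≤ e * |(-x1) - (-x2)| := by
    apply intervalIntegral.norm_integral_le_of_norm_le_const
    intro u hu
    rw [uIoc_of_le (by linarith)] at hu
    exact e1 u hu.1.le hu.2
  have n2 : ‖∫ u in (-x2)..(-x1), (κ ⟨u, -X⟩ - L ⟨u, -X⟩)‖ ≤ e * |(-x1) - (-x2)| := by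
    apply intervalIntegral.norm_integral_le_of_norm_le_const
    intro u hu
    rw [uIoc_of_le (by linarith)] at hu
    exact e2 u hu.1.le hu.2
  rw [abs_of_nonneg (by linarith)] at n1 n2
  rw [key]
  calc _ ≤ ‖-(∫ u in (-x2)..(-x1), (κ ⟨u, X⟩ - U ⟨u, X⟩))‖ +
        ‖∫ u in (-x2)..(-x1), (κ ⟨u, -X⟩ - L ⟨u, -X⟩)‖ := norm_add_le _ _
    _ ≤ e * ((-x1) - (-x2)) + e * ((-x1) - (-x2)) := by
        rw [norm_neg]; exact add_le_add n1 n2
    _ = 2 * (x2 - x1) * e := by ring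

end NM
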