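import Pool.Agent.Helper360.NM.Defs
import Pool.Agent.Helper360.NM.P_Appr_mono
import Pool.Agent.Helper360.NM.P_closeK
import Pool.Agent.Helper360.NM.P_CLring
import Pool.Agent.Helper360.NM.P_ringDiv
import Pool.Agent.Helper360.NM.P_crossCase



namespace NM
open Complex Metric Set Filter Topology MeasureTheory


theorem crs_pow (r : ℝ) (hr : 0 < r) : (r / 8) ^ 4 ≤ Real.exp (r / 2) := by
  have h4 : r / 8 ≤ Real.exp (r / 8) := by linarith [Real.add_one_le_exp (r / 8)]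
  have h5 : Real.exp (r / 2) = Real.exp (r / 8) ^ 4 := by
    rw [← Real.exp_nat_mul]; congr 1; push_cast; ring
  rw [h5]
  exact pow_le_pow_left₀ (by positivity) h4 4

theorem crs_E (ε ρ Z E a : ℝ) (hε2 : ε ≤ 1 / 10 ^ 9) (hρ : 0 < ρ)
    (hρ1 : ρ ≤ 1 / 1000) (hZ : 0 < Z) (hE : E ≤ Real.exp (3 * ε / Z)) (ha : 9 / 10 ≤ a) :
    E * Real.exp (-(a * (ρ * Z)⁻¹)) ≤ Real.exp (-((ρ * Z)⁻¹ / 2)) := by
  obtain ⟨r, hr⟩ : ∃ r, r = (ρ * Z)⁻¹ := ⟨_, rfl⟩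
  have hρZ : 0 < ρ * Z := mul_pos hρ hZ
  have hr0 : 0 < r := by rw [hr]; exact inv_pos.2 hρZ
  rw [← hr]
  have h1 : 3 * ε / Z = 3 * ε * ρ * r := by rw [hr]; field_simp
  have h2 : 3 * ε * ρ ≤ 1 / 10 := by nlinarith
  have h3 : 3 * ε * ρ * r ≤ 1 / 10 * r := mul_le_mul_of_nonneg_right h2 hr0.le
  have h4 : 9 / 10 * r ≤ a * r := mul_le_mul_of_nonneg_right ha hr0.le
  calc E * Real.exp (-(a * r)) ≤ Real.exp (3 * ε / Z) * Real.exp (-(a * r)) :=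
        mul_le_mul_of_nonneg_right hE (Real.exp_pos _).le
    _ = Real.exp (3 * ε / Z + -(a * r)) := by rw [← Real.exp_add]
    _ ≤ _ := Real.exp_le_exp.2 (by rw [h1]; linarith)

theorem crs_exp (ε ρ Z E : ℝ) (hε2 : ε ≤ 1 / 10 ^ 9) (hρ : 0 < ρ)
    (hρ1 : ρ ≤ 1 / 1000) (hZ : 0 < Z) (hZ1 : Z ≤ 1 / 1000)
    (hE : E ≤ Real.exp (3 * ε / Z)) :
    E * 64 * ((ρ * Z)⁻¹) ^ 3 * Real.exp (-(1 / (ρ * Z))) ≤ 1 := by
  have h2 := crs_E ε ρ Z E 1 hε2 hρ hρ1 hZ hE (by norm_num)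
  rw [one_mul] at h2
  obtain ⟨r, hr⟩ : ∃ r, r = (ρ * Z)⁻¹ := ⟨_, rfl⟩
  have hρZ : 0 < ρ * Z := mul_pos hρ hZ
  have hr0 : 0 < r := by rw [hr]; exact inv_pos.2 hρZ
  have hr1 : 1000000 ≤ r := by
    rw [hr, le_inv_comm₀ (by norm_num) hρZ]
    calc ρ * Z ≤ (1 / 1000) * (1 / 1000) := mul_le_mul hρ1 hZ1 hZ.le (by norm_num)
      _ = _ := by norm_num
  rw [one_div, ← hr]
  rw [← hr] at h2
  have h3 : 64 * r ^ 3 ≤ Real.exp (r / 2) := by
    refine le_trans ?_ (crs_pow r hr0)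
    have h6 : 0 < r ^ 3 := by positivity
    have h7 : (r / 8) ^ 4 = r ^ 3 * r / 4096 := by ring
    rw [h7]
    nlinarith
  calc E * 64 * r ^ 3 * Real.exp (-r) = (E * Real.exp (-r)) * (64 * r ^ 3) := by ring
    _ ≤ Real.exp (-(r / 2)) * Real.exp (r / 2) :=
        mul_le_mul h2 h3 (by positivity) (Real.exp_pos _).le
    _ = 1 := by rw [← Real.exp_add]; simp

/-- bound for the station at the point itself -/
theorem crs_c (K U : ℂ → ℂ) (Λ ρ ε X Y E sg : ℝ) (σ : ℂ) (hK : LocK K Λ)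
    (hε2 : ε ≤ 1 / 10 ^ 9) (hρ : 0 < ρ) (hρ1 : ρ ≤ 1 / 1000) (hY : 0 < Y)
    (hX : X = Y * (1 + ρ / 128)) (hsg : sg = 1 ∨ sg = -1) (hE0 : 0 ≤ E)
    (hE : E ≤ Real.exp (3 * ε / X))
    (hU : Appr K ⟨-(ρ * X), sg * X⟩ 1 E U)
    (hσ0 : σ.re < 0) (hσ2 : ‖σ‖ ^ 2 ≤ -σ.re) (hσY : Y ≤ ‖σ‖) (hσ1 : -(5 / 8 * ρ * Y) ≤ σ.re)
    (hσi : σ.im = sg * Y) (hre : -1 ≤ σ.re) : ‖U σ‖ ≤ (Λ + 1) / (-σ.re) := by
  have hX0 : 0 < X := by rw [hX]; positivity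
  have hρY : 0 < ρ * Y := mul_pos hρ hY
  have hρX : 0 < ρ * X := mul_pos hρ hX0
  have hYX : Y ≤ X := by rw [hX]; nlinarith
  have hX2 : X ≤ 2 * Y := by rw [hX]; nlinarith
  have hρYX : ρ * Y ≤ ρ * X := mul_le_mul_of_nonneg_left hYX hρ.le
  have hw : 0 < -σ.re := by linarith
  have hu1 : 3 / 8 * (ρ * Y) ≤ σ.re + ρ * X := by nlinarith
  have hu2 : σ.re + ρ * X ≤ ρ * X := by linarith
  obtain ⟨u, hu⟩ : ∃ u, u = σ.re + ρ * X := ⟨_, rfl⟩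
  rw [← hu] at hu1 hu2
  have hu0 : 0 < u := lt_of_lt_of_le (by positivity) hu1
  have h1 := hU.2.2 σ (by show -(ρ * X) < σ.re; linarith) hσ0
  have hq : ‖σ - (⟨-(ρ * X), sg * X⟩ : ℂ)‖ ^ 2 = u ^ 2 + (ρ * Y / 128) ^ 2 := by
    rw [← Complex.normSq_eq_norm_sq, Complex.normSq_apply]
    simp only [Complex.sub_re, Complex.sub_im]
    rw [hσi, hu, hX]
    rcases hsg with h | h <;> rw [h] <;> ring
  rw [hq] at h1
  have hq1 : 9 / 10 * (ρ * X)⁻¹ ≤ 1 * (σ.re - -(ρ * X)) / (u ^ 2 + (ρ * Y / 128) ^ 2) := by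
    have h2 : 1 * (σ.re - -(ρ * X)) = u := by rw [hu]; ring
    rw [h2, le_div_iff₀ (by positivity)]
    have h3 : 9 / 10 * (ρ * X)⁻¹ * (u ^ 2 + (ρ * Y / 128) ^ 2) =
        (9 / 10 * (u ^ 2 + (ρ * Y / 128) ^ 2)) / (ρ * X) := by ring
    rw [h3, div_le_iff₀ hρX]
    have h4 : u ^ 2 ≤ u * (ρ * X) := by nlinarith
    have h5 : (ρ * Y) ^ 2 ≤ 8 / 3 * u * (ρ * X) := by
      have h6 : ρ * Y ≤ 8 / 3 * u := by linarith
      calc (ρ * Y) ^ 2 = (ρ * Y) * (ρ * Y) := by ring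
        _ ≤ 8 / 3 * u * (ρ * X) := mul_le_mul h6 hρYX hρY.le (by positivity)
    have h6 : 0 < u * (ρ * X) := by positivity
    nlinarith
  have h2 : E * Real.exp (-(1 * (σ.re - -(ρ * X)) / (u ^ 2 + (ρ * Y / 128) ^ 2))) ≤
      Real.exp (-((ρ * X)⁻¹ / 2)) := by
    refine le_trans ?_ (crs_E ε ρ X E (9 / 10) hε2 hρ hρ1 hX0 hE le_rfl)
    exact mul_le_mul_of_nonneg_left (Real.exp_le_exp.2 (by linarith)) hE0
  have hwY : Y ^ 2 ≤ -σ.re := le_trans (pow_le_pow_left₀ hY.le hσY 2) hσ2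
  have h3 : ((-σ.re)⁻¹) ^ 3 ≤ (-σ.re)⁻¹ * Real.exp ((ρ * X)⁻¹ / 2) := by
    have h4 : ((-σ.re)⁻¹) ^ 3 = (-σ.re)⁻¹ * ((-σ.re)⁻¹) ^ 2 := by ring
    rw [h4]
    refine mul_le_mul_of_nonneg_left ?_ (inv_pos.2 hw).le
    have h5 : (-σ.re)⁻¹ ≤ (Y ^ 2)⁻¹ := inv_anti₀ (by positivity) hwY
    have h6 : ((-σ.re)⁻¹) ^ 2 ≤ ((Y ^ 2)⁻¹) ^ 2 := pow_le_pow_left₀ (inv_pos.2 hw).le h5 2
    have h7 : ((Y ^ 2)⁻¹) ^ 2 = (Y⁻¹) ^ 4 := by ring
    rw [h7] at h6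
    refine h6.trans (le_trans ?_ (crs_pow _ (inv_pos.2 hρX)))
    refine pow_le_pow_left₀ (inv_pos.2 hY).le ?_ 4
    have h8 : (ρ * X)⁻¹ / 8 = (8 * (ρ * X))⁻¹ := by rw [mul_inv]; ring
    rw [h8]
    refine inv_anti₀ (by positivity) ?_
    nlinarith
  have h5 : ‖K σ - U σ‖ ≤ (-σ.re)⁻¹ := by
    refine h1.trans ?_
    calc E * ((-σ.re)⁻¹) ^ 3 * Real.exp (-(1 * (σ.re - -(ρ * X)) / (u ^ 2 + (ρ * Y / 128) ^ 2)))
        = (E * Real.exp (-(1 * (σ.re - -(ρ * X)) / (u ^ 2 + (ρ * Y / 128) ^ 2)))) *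
            ((-σ.re)⁻¹) ^ 3 := by ring
      _ ≤ Real.exp (-((ρ * X)⁻¹ / 2)) * ((-σ.re)⁻¹ * Real.exp ((ρ * X)⁻¹ / 2)) :=
          mul_le_mul h2 h3 (by positivity) (Real.exp_pos _).le
      _ = (-σ.re)⁻¹ * (Real.exp (-((ρ * X)⁻¹ / 2)) * Real.exp ((ρ * X)⁻¹ / 2)) := by ring
      _ = (-σ.re)⁻¹ := by rw [← Real.exp_add]; simp
  have h6 := hK.2 σ hre hσ0
  calc ‖U σ‖ = ‖K σ - (K σ - U σ)‖ := by congr 1; ring
    _ ≤ ‖K σ‖ + ‖K σ - U σ‖ := norm_sub_le _ _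
    _ ≤ Λ / (-σ.re) + (-σ.re)⁻¹ := add_le_add h6 h5
    _ = (Λ + 1) / (-σ.re) := by rw [add_div, one_div]

/-- moving the dividing line -/
theorem crs_div0 (K U L : ℂ → ℂ) (Z ρ E x1 x2 τ : ℝ) (σ : ℂ) (hZ : 0 < Z) (hρ : 0 < ρ)
    (hρ1 : ρ ≤ 1 / 1000) (hx1 : ρ * Z / 4 ≤ x1) (hx12 : x1 ≤ x2) (hx2 : x2 ≤ 3 * (ρ * Z) / 4)
    (hK : DifferentiableOn ℂ K {s | s.re < 0})
    (hU : Appr K ⟨-(ρ * Z), Z⟩ 1 E U) (hL : Appr K ⟨-(ρ * Z), -Z⟩ 1 E L) (hE : 0 ≤ E)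
    (hE1 : E * 64 * ((ρ * Z)⁻¹) ^ 3 * Real.exp (-(1 / (ρ * Z))) ≤ 1) (hτ : 0 < τ)
    (hd : ∀ s ∈ Ann Z Z, τ ≤ ‖σ - s‖) :
    ‖ring (fun s => K s * (1 / (σ - s))) (fun s => U s * (1 / (σ - s)))
        (fun s => L s * (1 / (σ - s))) Z x1 -
      ring (fun s => K s * (1 / (σ - s))) (fun s => U s * (1 / (σ - s)))
        (fun s => L s * (1 / (σ - s))) Z x2‖ ≤ 2 * (ρ * Z) * (1 / τ) := by
  have hρZ : 0 < ρ * Z := mul_pos hρ hZ
  have hρZ2 : ρ * Z ≤ Z := by nlinarith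
  have hm1 : ∀ u : ℝ, -Z ≤ u → u ≤ Z → (⟨u, Z⟩ : ℂ) ∈ Ann Z Z := by
    intro u h1 h2
    exact ⟨abs_le.2 ⟨h1, h2⟩, (abs_of_pos hZ).le, Or.inr (abs_of_pos hZ).ge⟩
  have hm2 : ∀ u : ℝ, -Z ≤ u → u ≤ Z → (⟨u, -Z⟩ : ℂ) ∈ Ann Z Z := by
    intro u h1 h2
    refine ⟨abs_le.2 ⟨h1, h2⟩, ?_, Or.inr ?_⟩
    · show |(-Z)| ≤ Z
      rw [abs_neg, abs_of_pos hZ]
    · show Z ≤ |(-Z)|
      rw [abs_neg, abs_of_pos hZ]
  have hne : ∀ s ∈ Ann Z Z, σ - s ≠ 0 := by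
    intro s hs h
    have := hd s hs
    rw [h, norm_zero] at this
    linarith
  have hcφ : ∀ s ∈ Ann Z Z, ContinuousAt (fun s : ℂ => 1 / (σ - s)) s := by
    intro s hs
    exact continuousAt_const.div (continuousAt_const.sub continuousAt_id) (hne s hs)
  have ho1 : IsOpen {s : ℂ | s.re < 0} := isOpen_lt Complex.continuous_re continuous_const
  have ho2 : IsOpen {s : ℂ | -(ρ * Z) < s.re} := isOpen_lt continuous_const Complex.continuous_re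
  have hcK : ∀ s : ℂ, s.re < 0 → ContinuousAt K s := fun s hs =>
    (hK.differentiableAt (ho1.mem_nhds hs)).continuousAt
  have hcU : ∀ s : ℂ, -(ρ * Z) < s.re → ContinuousAt U s := fun s hs =>
    (hU.1.differentiableAt (ho2.mem_nhds hs)).continuousAt
  have hcL : ∀ s : ℂ, -(ρ * Z) < s.re → ContinuousAt L s := fun s hs =>
    (hL.1.differentiableAt (ho2.mem_nhds hs)).continuousAt
  have hφ : ∀ s ∈ Ann Z Z, ‖1 / (σ - s)‖ ≤ 1 / τ := by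
    intro s hs
    rw [norm_div, norm_one]
    exact one_div_le_one_div_of_le hτ (hd s hs)
  have hkey : ∀ (G : ℂ → ℂ) (s : ℂ), s ∈ Ann Z Z → ‖K s - G s‖ ≤ 1 →
      ‖K s * (1 / (σ - s)) - G s * (1 / (σ - s))‖ ≤ 1 / τ := by
    intro G s hs hG
    rw [← sub_mul, norm_mul]
    calc ‖K s - G s‖ * ‖1 / (σ - s)‖ ≤ 1 * (1 / τ) :=
          mul_le_mul hG (hφ s hs) (norm_nonneg _) zero_le_one
      _ = 1 / τ := one_mul _
  have h := ringDiv (fun s => K s * (1 / (σ - s))) (fun s => U s * (1 / (σ - s)))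
        (fun s => L s * (1 / (σ - s))) Z x1 x2 (1 / τ) (by linarith) hx12 (by linarith)
        (fun u h1 h2 => ⟨(hcK _ (by show u < 0; linarith)).mul (hcφ _ (hm1 u h1 (by linarith))),
          (hcK _ (by show u < 0; linarith)).mul (hcφ _ (hm2 u h1 (by linarith)))⟩)
        (fun u h1 h2 => ⟨(hcU _ (by show -(ρ * Z) < u; linarith)).mul
            (hcφ _ (hm1 u (by linarith) h2)),
          (hcL _ (by show -(ρ * Z) < u; linarith)).mul (hcφ _ (hm2 u (by linarith) h2))⟩)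
        (fun u h1 h2 => hkey U _ (hm1 u (by linarith) (by linarith))
          ((closeK K U ⟨-(ρ * Z), Z⟩ E (ρ * Z) hρZ rfl hE hU ⟨u, Z⟩
            (by show -(3 * (ρ * Z) / 4) ≤ u; linarith) (by show u ≤ -((ρ * Z) / 4); linarith)
            (by show |Z - Z| ≤ _; rw [sub_self, abs_zero]; positivity)).trans hE1))
        (fun u h1 h2 => hkey L _ (hm2 u (by linarith) (by linarith))
          ((closeK K L ⟨-(ρ * Z), -Z⟩ E (ρ * Z) hρZ rfl hE hL ⟨u, -Z⟩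
            (by show -(3 * (ρ * Z) / 4) ≤ u; linarith) (by show u ≤ -((ρ * Z) / 4); linarith)
            (by show |(-Z) - (-Z)| ≤ _; rw [sub_self, abs_zero]; positivity)).trans hE1))
  refine h.trans ?_
  refine mul_le_mul_of_nonneg_right ?_ (by positivity)
  linarith

theorem crs_div (K U L : ℂ → ℂ) (Z ρ E x τ : ℝ) (σ : ℂ) (hZ : 0 < Z) (hρ : 0 < ρ)
    (hρ1 : ρ ≤ 1 / 1000) (hx1 : ρ * Z / 4 ≤ x) (hx2 : x ≤ 3 * (ρ * Z) / 4)
    (hK : DifferentiableOn ℂ K {s | s.re < 0})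
    (hU : Appr K ⟨-(ρ * Z), Z⟩ 1 E U) (hL : Appr K ⟨-(ρ * Z), -Z⟩ 1 E L) (hE : 0 ≤ E)
    (hE1 : E * 64 * ((ρ * Z)⁻¹) ^ 3 * Real.exp (-(1 / (ρ * Z))) ≤ 1) (hτ : 0 < τ)
    (hd : ∀ s ∈ Ann Z Z, τ ≤ ‖σ - s‖) :
    ‖ring (fun s => K s * (1 / (σ - s))) (fun s => U s * (1 / (σ - s)))
        (fun s => L s * (1 / (σ - s))) Z (ρ * Z / 2) -
      ring (fun s => K s * (1 / (σ - s))) (fun s => U s * (1 / (σ - s)))
        (fun s => L s * (1 / (σ - s))) Z x‖ ≤ 2 * (ρ * Z) * (1 / τ) := by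
  have hρZ : 0 < ρ * Z := mul_pos hρ hZ
  rcases le_total (ρ * Z / 2) x with h | h
  · exact crs_div0 K U L Z ρ E (ρ * Z / 2) x τ σ hZ hρ hρ1 (by linarith) h hx2 hK hU hL hE hE1
      hτ hd
  · rw [norm_sub_rev]
    exact crs_div0 K U L Z ρ E x (ρ * Z / 2) τ σ hZ hρ hρ1 hx1 h (by linarith) hK hU hL hE hE1
      hτ hd

theorem crossing (K : ℂ → ℂ) (Λ ρ ε X0 XJ : ℝ) (hΛ : 1 ≤ Λ) (hK : LocK K Λ) (hX0 : 0 < X0)
    (hε : 0 < ε) (hε2 : ε ≤ 1 / 10 ^ 9) (hρ : 0 < ρ) (hρ1 : ρ ≤ 1 / 1000)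
    (U L : ℝ → ℂ → ℂ) (hf : Fam K ρ ε X0 U L) (hXJ : 0 < XJ)
    (hJ : ∀ X : ℝ, 0 < X → X < XJ → ∀ u : ℝ, X / 2 ≤ u → u ≤ X →
      ‖U X (u : ℂ) - L X (u : ℂ)‖ ≤ Real.exp (-(4 / (10 ^ 7 * X)))) :
    ∃ C X2 : ℝ, 0 < C ∧ 0 < X2 ∧ ∀ σ : ℂ, σ.re < 0 → ‖σ‖ ^ 2 ≤ -σ.re → ∀ Y : ℝ,
      Y = max |σ.re| |σ.im| → Y < X2 →
      ‖RX K U L ρ (Y * (1 + ρ / 128)) (fun s => 1 / (σ - s)) -
        RX K U L ρ (Y * (1 - ρ / 128)) (fun s => 1 / (σ - s))‖ ≤ C / (-σ.re) := by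
  refine ⟨2000 + 8000 / ρ + 4000 * (Λ + 1) / ρ, min (min (X0 / 2) (XJ / 2)) (1 / 2000),
    by positivity, lt_min (lt_min (by linarith) (by linarith)) (by norm_num), ?_⟩
  intro σ hσ0 hσ2 Y hY hYX2
  obtain ⟨⟨hY1, hY2⟩, hY3⟩ : (Y < X0 / 2 ∧ Y < XJ / 2) ∧ Y < 1 / 2000 := by
    rw [lt_min_iff, lt_min_iff] at hYX2; exact hYX2
  have hY0 : 0 < Y := by rw [hY]; exact lt_max_of_lt_left (abs_pos.2 hσ0.ne)
  have hρY : 0 < ρ * Y := mul_pos hρ hY0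
  have hre : |σ.re| ≤ Y := by rw [hY]; exact le_max_left _ _
  have him : |σ.im| ≤ Y := by rw [hY]; exact le_max_right _ _
  have hre1 : -Y ≤ σ.re := (abs_le.1 hre).1
  have hw : 0 < -σ.re := by linarith
  have hw1 : -σ.re ≤ 1 := by linarith
  obtain ⟨X, hX⟩ : ∃ X, X = Y * (1 + ρ / 128) := ⟨_, rfl⟩
  obtain ⟨X', hX'⟩ : ∃ X', X' = Y * (1 - ρ / 128) := ⟨_, rfl⟩
  rw [← hX, ← hX']
  have a1 : X - Y = ρ * Y / 128 := by rw [hX]; ring
  have a2 : Y - X' = ρ * Y / 128 := by rw [hX']; ring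
  have a3 : ρ * Y ≤ Y / 1000 := by nlinarith
  have b1 : 0 < X' := by linarith
  have b2 : X' < Y := by linarith
  have b3 : Y < X := by linarith
  have b0 : 0 < X := by linarith
  have b4 : X < X0 := by linarith
  have b5 : X < XJ := by linarith
  have b6 : X ≤ 1 / 1000 := by linarith
  have c1 : ρ * X = ρ * Y + ρ * (ρ * Y) / 128 := by rw [hX]; ring
  have c2 : ρ * X' = ρ * Y - ρ * (ρ * Y) / 128 := by rw [hX']; ring
  have c3 : ρ * (ρ * Y) ≤ ρ * Y / 1000 := by nlinarith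
  have c4 : 0 < ρ * (ρ * Y) := mul_pos hρ hρY
  have c5 : 0 < ρ * X := mul_pos hρ b0
  have c6 : 0 < ρ * X' := mul_pos hρ b1
  obtain ⟨x, hx1, hx2, hx3⟩ : ∃ x, 3 / 8 * (ρ * Y) ≤ x ∧ x ≤ 5 / 8 * (ρ * Y) ∧
      ρ * Y / 8 ≤ |σ.re + x| := by
    by_cases h : ρ * Y / 8 ≤ |σ.re + 3 / 8 * (ρ * Y)|
    · exact ⟨_, le_rfl, by linarith, h⟩
    · refine ⟨5 / 8 * (ρ * Y), by linarith, le_rfl, ?_⟩
      push Not at h
      rw [abs_lt] at h
      rw [le_abs]; left; linarith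
  obtain ⟨E, hE⟩ : ∃ E, E = Real.exp (3 * ε / X) := ⟨_, rfl⟩
  have hE1 : 1 ≤ E := by rw [hE]; exact Real.one_le_exp (by positivity)
  have hE0 : 0 ≤ E := by linarith
  have hEX : Real.exp (2 * ε / X) ≤ E := by
    rw [hE]
    exact Real.exp_le_exp.2 (div_le_div_of_nonneg_right (by linarith) b0.le)
  have hEX' : Real.exp (2 * ε / X') ≤ E := by
    rw [hE]; refine Real.exp_le_exp.2 ?_
    rw [div_le_div_iff₀ b1 b0]
    have : 2 * X ≤ 3 * X' := by linarith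
    nlinarith
  have hE3 : E ≤ Real.exp (3 * ε / X') := by
    rw [hE]
    exact Real.exp_le_exp.2 (div_le_div_of_nonneg_left (by positivity) b1 (by linarith))
  obtain ⟨hUX0, hLX0⟩ := hf X b0 b4
  obtain ⟨hUX0', hLX0'⟩ := hf X' b1 (by linarith)
  have hUX := Appr_mono K (U X) ⟨-(ρ * X), X⟩ 1 1 _ E le_rfl hEX (Real.exp_pos _).le hUX0
  have hLX := Appr_mono K (L X) ⟨-(ρ * X), -X⟩ 1 1 _ E le_rfl hEX (Real.exp_pos _).le hLX0
  have hUX' := Appr_mono K (U X') ⟨-(ρ * X'), X'⟩ 1 1 _ E le_rfl hEX' (Real.exp_pos _).le hUX0'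
  have hLX' := Appr_mono K (L X') ⟨-(ρ * X'), -X'⟩ 1 1 _ E le_rfl hEX' (Real.exp_pos _).le hLX0'
  have g1 := crs_exp ε ρ X E hε2 hρ hρ1 b0 b6 hE.le
  have g2 := crs_exp ε ρ X' E hε2 hρ hρ1 b1 (by linarith) hE3
  have g3 : 2 * E * Real.exp (-(1 / (34 * X))) ≤ 2 := by
    have h1 : E * Real.exp (-(1 / (34 * X))) ≤ 1 := by
      rw [hE, ← Real.exp_add, Real.exp_le_one_iff]
      have h2 : 1 / (34 * X) = (1 / 34) / X := by rw [div_div]
      rw [h2, ← sub_eq_add_neg, ← sub_div]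
      exact div_nonpos_of_nonpos_of_nonneg (by linarith) b0.le
    linarith
  have hmax : ∀ s : ℂ, |σ.re - s.re| ≤ ‖σ - s‖ ∧ |σ.im - s.im| ≤ ‖σ - s‖ := by
    intro s
    have h1 := Complex.abs_re_le_norm (σ - s)
    have h2 := Complex.abs_im_le_norm (σ - s)
    rw [Complex.sub_re] at h1
    rw [Complex.sub_im] at h2
    exact ⟨h1, h2⟩
  have hτ : 0 < ρ * Y / 128 := by positivity
  have hd1 : ∀ s ∈ Ann X X, ρ * Y / 128 ≤ ‖σ - s‖ := by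
    rintro s ⟨-, -, h | h⟩
    · refine le_trans ?_ (hmax s).1
      have := abs_sub_abs_le_abs_sub s.re σ.re
      rw [abs_sub_comm] at this
      linarith
    · refine le_trans ?_ (hmax s).2
      have := abs_sub_abs_le_abs_sub s.im σ.im
      rw [abs_sub_comm] at this
      linarith
  have hd2 : ∀ s ∈ Ann X' X', ρ * Y / 128 ≤ ‖σ - s‖ := by
    rintro s ⟨h1, h2, -⟩
    rcases max_choice |σ.re| |σ.im| with h | h
    · rw [h] at hY
      refine le_trans ?_ (hmax s).1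
      have := abs_sub_abs_le_abs_sub σ.re s.re
      linarith
    · rw [h] at hY
      refine le_trans ?_ (hmax s).2
      have := abs_sub_abs_le_abs_sub σ.im s.im
      linarith
  have hd3 : ∀ s : ℂ, s.re = -x → ρ * Y / 128 ≤ ‖σ - s‖ := by
    intro s hs
    refine le_trans ?_ (hmax s).1
    rw [hs, sub_neg_eq_add]
    linarith
  have hYσ : Y ≤ ‖σ‖ := by
    rw [hY]; exact max_le (Complex.abs_re_le_norm σ) (Complex.abs_im_le_norm σ)
  obtain ⟨c, hc, hcb⟩ : ∃ c, ((σ.re < -x ∧ c = K σ) ∨ (-x < σ.re ∧ 0 < σ.im ∧ c = U X σ) ∨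
      (-x < σ.re ∧ σ.im < 0 ∧ c = L X σ)) ∧ ‖c‖ ≤ (Λ + 1) / (-σ.re) := by
    rcases lt_trichotomy σ.re (-x) with h | h | h
    · exact ⟨K σ, Or.inl ⟨h, rfl⟩, (hK.2 σ (by linarith) hσ0).trans
        (div_le_div_of_nonneg_right (by linarith) hw.le)⟩
    · exfalso
      rw [h, neg_add_cancel, abs_zero] at hx3
      linarith
    · have h1 : |σ.im| = Y := by
        rcases max_choice |σ.re| |σ.im| with h2 | h2
        · exfalso
          rw [h2, abs_of_neg hσ0] at hY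
          linarith
        · rw [hY, h2]
      rcases (abs_eq hY0.le).1 h1 with h2 | h2
      · refine ⟨U X σ, Or.inr (Or.inl ⟨h, by linarith, rfl⟩), ?_⟩
        exact crs_c K (U X) Λ ρ ε X Y E 1 σ hK hε2 hρ hρ1 hY0 hX (Or.inl rfl) hE0 hE.le
          (by rw [one_mul]; exact hUX) hσ0 hσ2 hYσ (by linarith) (by rw [h2, one_mul])
          (by linarith)
      · refine ⟨L X σ, Or.inr (Or.inr ⟨h, by linarith, rfl⟩), ?_⟩
        exact crs_c K (L X) Λ ρ ε X Y E (-1) σ hK hε2 hρ hρ1 hY0 hX (Or.inr rfl) hE0 hE.le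
          (by rw [neg_one_mul]; exact hLX) hσ0 hσ2 hYσ (by linarith) (by rw [h2, neg_one_mul])
          (by linarith)
  have hU1 : Appr K ⟨-(ρ * X), 1 * X⟩ 1 E (U X) := by rw [one_mul]; exact hUX
  have hU1' : Appr K ⟨-(ρ * X'), 1 * X'⟩ 1 E (U X') := by rw [one_mul]; exact hUX'
  have hL1 : Appr K ⟨-(ρ * X), (-1) * X⟩ 1 E (L X) := by rw [neg_one_mul]; exact hLX
  have hL1' : Appr K ⟨-(ρ * X'), (-1) * X'⟩ 1 E (L X') := by rw [neg_one_mul]; exact hLX'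
  have hXX : X * (1 - ρ / 32) ≤ X' := by
    rw [hX, hX']
    nlinarith [mul_pos hρ hρY]
  have hcross := crossCase K (U X) (L X) (U X') (L X') X X' x (ρ * X') (ρ * Y / 128) 2 σ c
    (by linarith) (by linarith) (by linarith) (by linarith) (by norm_num) hτ (by linarith) hK.1
    (hUX.1.mono fun s hs => by
      show -(ρ * X) < s.re
      have h : -(ρ * X') < s.re := hs
      linarith)
    (hLX.1.mono fun s hs => by
      show -(ρ * X) < s.re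
      have h : -(ρ * X') < s.re := hs
      linarith) hUX'.1 hLX'.1 hσ0 (by rw [← hY]; exact b2) (by rw [← hY]; exact b3) hd1 hd2 hd3
    (fun v h1 h2 => by
      constructor
      · refine (closeK K (U X) ⟨-(ρ * X), X⟩ E (ρ * X) c5 rfl hE0 hUX ⟨-x, v⟩
          (by show -(3 * (ρ * X) / 4) ≤ -x; linarith) (by show -x ≤ -((ρ * X) / 4); linarith)
          (by show |v - X| ≤ _; rw [abs_le]; constructor <;> linarith)).trans (g1.trans ?_)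
        norm_num
      · refine (closeK K (L X) ⟨-(ρ * X), -X⟩ E (ρ * X) c5 rfl hE0 hLX ⟨-x, -v⟩
          (by show -(3 * (ρ * X) / 4) ≤ -x; linarith) (by show -x ≤ -((ρ * X) / 4); linarith)
          (by show |(-v) - (-X)| ≤ _; rw [abs_le]; constructor <;> linarith)).trans (g1.trans ?_)
        norm_num)
    (fun u h1 h2 => by
      by_cases h : -(ρ * X / 2) ≤ u
      · constructor
        · exact (CLring K (U X) (U X') ρ X X' E 1 hE1 hρ hρ1 b0 (by linarith) hXX (by linarith)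
            (Or.inl rfl) hU1 hU1' ⟨u, X'⟩ (Or.inl ⟨h, by show u ≤ X; linarith,
              (one_mul X').symm⟩)).trans g3
        · exact (CLring K (L X) (L X') ρ X X' E (-1) hE1 hρ hρ1 b0 (by linarith) hXX (by linarith)
            (Or.inr rfl) hL1 hL1' ⟨u, -X'⟩ (Or.inl ⟨h, by show u ≤ X; linarith,
              (neg_one_mul X').symm⟩)).trans g3
      · push Not at h
        constructor
        · have k1 := (closeK K (U X) ⟨-(ρ * X), X⟩ E (ρ * X) c5 rfl hE0 hUX ⟨u, X'⟩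
            (by show -(3 * (ρ * X) / 4) ≤ u; linarith) (by show u ≤ -((ρ * X) / 4); linarith)
            (by show |X' - X| ≤ _; rw [abs_le]; constructor <;> linarith)).trans g1
          have k2 := (closeK K (U X') ⟨-(ρ * X'), X'⟩ E (ρ * X') c6 rfl hE0 hUX' ⟨u, X'⟩
            (by show -(3 * (ρ * X') / 4) ≤ u; linarith) (by show u ≤ -((ρ * X') / 4); linarith)
            (by show |X' - X'| ≤ _; rw [sub_self, abs_zero]; positivity)).trans g2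
          have k3 : U X ⟨u, X'⟩ - U X' ⟨u, X'⟩ = (K ⟨u, X'⟩ - U X' ⟨u, X'⟩) -
            (K ⟨u, X'⟩ - U X ⟨u, X'⟩) := by ring
          rw [k3]
          refine (norm_sub_le _ _).trans ?_
          linarith
        · have k1 := (closeK K (L X) ⟨-(ρ * X), -X⟩ E (ρ * X) c5 rfl hE0 hLX ⟨u, -X'⟩
            (by show -(3 * (ρ * X) / 4) ≤ u; linarith) (by show u ≤ -((ρ * X) / 4); linarith)
            (by show |(-X') - (-X)| ≤ _; rw [abs_le]; constructor <;> linarith)).trans g1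
          have k2 := (closeK K (L X') ⟨-(ρ * X'), -X'⟩ E (ρ * X') c6 rfl hE0 hLX' ⟨u, -X'⟩
            (by show -(3 * (ρ * X') / 4) ≤ u; linarith) (by show u ≤ -((ρ * X') / 4); linarith)
            (by show |(-X') - (-X')| ≤ _; rw [sub_self, abs_zero]; positivity)).trans g2
          have k3 : L X ⟨u, -X'⟩ - L X' ⟨u, -X'⟩ = (K ⟨u, -X'⟩ - L X' ⟨u, -X'⟩) -
            (K ⟨u, -X'⟩ - L X ⟨u, -X'⟩) := by ring
          rw [k3]
          refine (norm_sub_le _ _).trans ?_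
          linarith)
    (fun v h1 h2 => by
      constructor
      · exact (CLring K (U X) (U X') ρ X X' E 1 hE1 hρ hρ1 b0 (by linarith) hXX (by linarith)
            (Or.inl rfl) hU1 hU1' ⟨X', v⟩ (Or.inr ⟨rfl, by
              show |v| ≤ X'; rw [abs_of_nonneg h1]; exact h2, by
              show 0 ≤ 1 * v; linarith⟩)).trans g3
      · exact (CLring K (L X) (L X') ρ X X' E (-1) hE1 hρ hρ1 b0 (by linarith) hXX (by linarith)
            (Or.inr rfl) hL1 hL1' ⟨X', -v⟩ (Or.inr ⟨rfl, by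
              show |(-v)| ≤ X'; rw [abs_neg, abs_of_nonneg h1]; exact h2, by
              show 0 ≤ -1 * -v; linarith⟩)).trans g3)
    (fun u h1 h2 => by
      refine (hJ X b0 b5 u (by linarith) h2).trans (le_trans (Real.exp_le_one_iff.2 ?_)
        (by norm_num))
      rw [neg_nonpos]
      positivity) hc
  have hdX := crs_div K (U X) (L X) X ρ E x (ρ * Y / 128) σ b0 hρ hρ1 (by linarith)
    (by linarith) hK.1 hUX hLX hE0 g1 hτ hd1
  have hdX' := crs_div K (U X') (L X') X' ρ E x (ρ * Y / 128) σ b1 hρ hρ1 (by linarith)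
    (by linarith) hK.1 hUX' hLX' hE0 g2 hτ hd2
  have hT : X * (1 / (ρ * Y / 128)) ≤ 129 / ρ := by
    rw [mul_one_div, div_le_div_iff₀ hτ hρ]
    nlinarith
  have hT2 : 2 * (ρ * X) * (1 / (ρ * Y / 128)) ≤ 258 := by
    have h1 : 2 * (ρ * X) * (1 / (ρ * Y / 128)) = 2 * ρ * (X * (1 / (ρ * Y / 128))) := by ring
    rw [h1]
    calc 2 * ρ * (X * (1 / (ρ * Y / 128))) ≤ 2 * ρ * (129 / ρ) :=
          mul_le_mul_of_nonneg_left hT (by positivity)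
      _ = 258 := by field_simp; norm_num
  have hT3 : 2 * (ρ * X') * (1 / (ρ * Y / 128)) ≤ 258 := by
    refine le_trans ?_ hT2
    refine mul_le_mul_of_nonneg_right ?_ (by positivity)
    linarith
  have hT4 : 14 * X * (2 / (ρ * Y / 128)) ≤ 3612 / ρ := by
    have h1 : 14 * X * (2 / (ρ * Y / 128)) = 28 * (X * (1 / (ρ * Y / 128))) := by ring
    rw [h1]
    calc 28 * (X * (1 / (ρ * Y / 128))) ≤ 28 * (129 / ρ) :=
          mul_le_mul_of_nonneg_left hT (by norm_num)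
      _ = 3612 / ρ := by ring
  have hT5 : 16 * X * (‖c‖ / (ρ * Y / 128)) ≤ 2064 * (Λ + 1) / ρ * (1 / (-σ.re)) := by
    have h1 : 16 * X * (‖c‖ / (ρ * Y / 128)) = 16 * (X * (1 / (ρ * Y / 128))) * ‖c‖ := by ring
    rw [h1]
    calc 16 * (X * (1 / (ρ * Y / 128))) * ‖c‖ ≤ 16 * (129 / ρ) * ((Λ + 1) / (-σ.re)) :=
          mul_le_mul (mul_le_mul_of_nonneg_left hT (by norm_num)) hcb (norm_nonneg _)
            (by positivity)
      _ = _ := by ring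
  have h1w : 1 ≤ 1 / (-σ.re) := by rw [le_div_iff₀ hw]; linarith
  have hfin : RX K U L ρ X (fun s => 1 / (σ - s)) - RX K U L ρ X' (fun s => 1 / (σ - s)) =
      (RX K U L ρ X (fun s => 1 / (σ - s)) - RY K (U X) (L X) X x (fun s => 1 / (σ - s))) +
      (RY K (U X) (L X) X x (fun s => 1 / (σ - s)) -
        RY K (U X') (L X') X' x (fun s => 1 / (σ - s))) -
      (RX K U L ρ X' (fun s => 1 / (σ - s)) -
        RY K (U X') (L X') X' x (fun s => 1 / (σ - s))) := by ring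
  rw [hfin]
  have hA : ‖RX K U L ρ X (fun s => 1 / (σ - s)) -
      RY K (U X) (L X) X x (fun s => 1 / (σ - s))‖ ≤ 258 := hdX.trans hT2
  have hB : ‖RX K U L ρ X' (fun s => 1 / (σ - s)) -
      RY K (U X') (L X') X' x (fun s => 1 / (σ - s))‖ ≤ 258 := hdX'.trans hT3
  have hD : (516 + 3612 / ρ) * 1 ≤ (516 + 3612 / ρ) * (1 / (-σ.re)) :=
    mul_le_mul_of_nonneg_left h1w (by positivity)
  have hF : (2000 + 8000 / ρ + 4000 * (Λ + 1) / ρ) / (-σ.re) =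
      (516 + 3612 / ρ) * (1 / (-σ.re)) + 2064 * (Λ + 1) / ρ * (1 / (-σ.re)) +
      (1484 + 4388 / ρ + 1936 * (Λ + 1) / ρ) * (1 / (-σ.re)) := by ring
  have hG : 0 ≤ (1484 + 4388 / ρ + 1936 * (Λ + 1) / ρ) * (1 / (-σ.re)) := by positivity
  calc _ ≤ ‖(RX K U L ρ X (fun s => 1 / (σ - s)) -
        RY K (U X) (L X) X x (fun s => 1 / (σ - s))) +
      (RY K (U X) (L X) X x (fun s => 1 / (σ - s)) -
        RY K (U X') (L X') X' x (fun s => 1 / (σ - s)))‖ +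
      ‖RX K U L ρ X' (fun s => 1 / (σ - s)) -
        RY K (U X') (L X') X' x (fun s => 1 / (σ - s))‖ := norm_sub_le _ _
    _ ≤ (‖RX K U L ρ X (fun s => 1 / (σ - s)) -
        RY K (U X) (L X) X x (fun s => 1 / (σ - s))‖ +
      ‖RY K (U X) (L X) X x (fun s => 1 / (σ - s)) -
        RY K (U X') (L X') X' x (fun s => 1 / (σ - s))‖) +
      ‖RX K U L ρ X' (fun s => 1 / (σ - s)) -
        RY K (U X') (L X') X' x (fun s => 1 / (σ - s))‖ := by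
        have := norm_add_le (RX K U L ρ X (fun s => 1 / (σ - s)) -
          RY K (U X) (L X) X x (fun s => 1 / (σ - s)))
          (RY K (U X) (L X) X x (fun s => 1 / (σ - s)) -
            RY K (U X') (L X') X' x (fun s => 1 / (σ - s)))
        linarith
    _ ≤ _ := by
        rw [hF]
        linarith

end NM
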