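import Pool.Agent.Helper360.NM.Defs
import Pool.Agent.Helper360.NM.P_RX_hasSum
import Pool.Agent.Helper360.NM.P_ringBound



namespace NM
open Complex Metric Set Filter Topology MeasureTheory


theorem annR' {X v : ℝ} (hX : 0 < X) (h1 : -X ≤ v) (h2 : v ≤ X) : (⟨X, v⟩ : ℂ) ∈ Ann X X := by
  refine ⟨?_, ?_, ?_⟩
  · simp only; rw [abs_of_pos hX]
  · simp only; exact abs_le.2 ⟨h1, h2⟩
  · left; simp only; rw [abs_of_pos hX]

theorem annL' {X v : ℝ} (hX : 0 < X) (h1 : -X ≤ v) (h2 : v ≤ X) : (⟨-X, v⟩ : ℂ) ∈ Ann X X := by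
  refine ⟨?_, ?_, ?_⟩
  · simp only; rw [abs_neg, abs_of_pos hX]
  · simp only; exact abs_le.2 ⟨h1, h2⟩
  · left; simp only; rw [abs_neg, abs_of_pos hX]

theorem annT' {X v : ℝ} (hX : 0 < X) (h1 : -X ≤ v) (h2 : v ≤ X) : (⟨v, X⟩ : ℂ) ∈ Ann X X := by
  refine ⟨?_, ?_, ?_⟩
  · simp only; exact abs_le.2 ⟨h1, h2⟩
  · simp only; rw [abs_of_pos hX]
  · right; simp only; rw [abs_of_pos hX]

theorem annB' {X v : ℝ} (hX : 0 < X) (h1 : -X ≤ v) (h2 : v ≤ X) : (⟨v, -X⟩ : ℂ) ∈ Ann X X := by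
  refine ⟨?_, ?_, ?_⟩
  · simp only; exact abs_le.2 ⟨h1, h2⟩
  · simp only; rw [abs_neg, abs_of_pos hX]
  · right; simp only; rw [abs_neg, abs_of_pos hX]

theorem RX_congr' (K : ℂ → ℂ) (U L : ℝ → ℂ → ℂ) (ρ X : ℝ) (hX : 0 < X) (hρ : 0 < ρ) (hρ1 : ρ ≤ 1)
    (φ ψ : ℂ → ℂ) (h : ∀ s ∈ Ann X X, φ s = ψ s) : RX K U L ρ X φ = RX K U L ρ X ψ := by
  have hx0 : 0 ≤ ρ * X / 2 := by positivity
  have hxX : ρ * X / 2 ≤ X := by nlinarith
  unfold RX ring
  simp only
  congr 1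
  · congr 1
    · congr 1
      · congr 1
        · congr 1
          · congr 1
            · apply intervalIntegral.integral_congr
              intro v hv
              rw [uIcc_of_le hX.le] at hv
              simp only
              rw [h _ (annR' hX (by linarith [hv.1]) hv.2)]
            · apply intervalIntegral.integral_congr
              intro v hv
              rw [uIcc_of_le (by linarith)] at hv
              simp only
              rw [h _ (annT' hX (by linarith [hv.1]) hv.2)]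
          · apply intervalIntegral.integral_congr
            intro v hv
            rw [uIcc_of_le (by linarith)] at hv
            simp only
            rw [h _ (annT' hX hv.1 (by linarith [hv.2]))]
        · apply intervalIntegral.integral_congr
          intro v hv
          rw [uIcc_of_le (by linarith)] at hv
          simp only
          rw [h _ (annL' hX hv.1 hv.2)]
      · apply intervalIntegral.integral_congr
        intro v hv
        rw [uIcc_of_le (by linarith)] at hv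
        simp only
        rw [h _ (annB' hX hv.1 (by linarith [hv.2]))]
    · apply intervalIntegral.integral_congr
      intro v hv
      rw [uIcc_of_le (by linarith)] at hv
      simp only
      rw [h _ (annB' hX (by linarith [hv.1]) hv.2)]
  · apply intervalIntegral.integral_congr
    intro v hv
    rw [uIcc_of_le (by linarith)] at hv
    simp only
    rw [h _ (annR' hX hv.1 (by linarith [hv.2]))]

theorem leftbound (K : ℂ → ℂ) (U L : ℝ → ℂ → ℂ) (Λ ρ ε X0 C X1 X2 : ℝ) (hX0 : 0 < X0)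
    (hρ : 0 < ρ) (hρ1 : ρ ≤ 1 / 1000) (hC : 0 < C) (hX1 : 0 < X1) (hX2 : 0 < X2)
    (hK : LocK K Λ) (hf : Fam K ρ ε X0 U L)
    (hcomp : ∀ X X' : ℝ, 0 < X' → X' ≤ X → X < X1 →
      ∀ (φ : ℂ → ℂ) (Φ : ℝ), 0 ≤ Φ → (∀ s ∈ Ann X' X, DifferentiableAt ℂ φ s) →
        (∀ s ∈ Ann X' X, ‖φ s‖ ≤ Φ) →
        ‖RX K U L ρ X φ - RX K U L ρ X' φ‖ ≤ Φ * Real.exp (-(2 / (10 ^ 7 * X))))
    (q : ℕ → ℂ)
    (hq : ∀ X : ℝ, 0 < X → X < X1 → ∀ l : ℕ,
      ‖RX K U L ρ X (fun s => s ^ l) - q l‖ ≤ (2 * X) ^ l * Real.exp (-(2 / (10 ^ 7 * X))))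
    (hcross : ∀ σ : ℂ, σ.re < 0 → ‖σ‖ ^ 2 ≤ -σ.re → ∀ Y : ℝ,
      Y = max |σ.re| |σ.im| → Y < X2 →
      ‖RX K U L ρ (Y * (1 + ρ / 128)) (fun s => 1 / (σ - s)) -
        RX K U L ρ (Y * (1 - ρ / 128)) (fun s => 1 / (σ - s))‖ ≤ C / (-σ.re)) :
    ∃ C' r0 : ℝ, 0 < C' ∧ 0 < r0 ∧ ∀ σ : ℂ, σ.re < 0 → ‖σ‖ ^ 2 ≤ -σ.re → ‖σ‖ < r0 →
      ‖∑' l, q l / σ ^ (l + 1)‖ ≤ C' / (-σ.re) := by
  -- constants
  obtain ⟨X3, hX3, hX30, hX31, hX3o⟩ : ∃ X3 : ℝ, 0 < X3 ∧ X3 < X0 ∧ X3 < X1 ∧ X3 ≤ 1 := by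
    refine ⟨min (min X0 X1) 1 / 2, by positivity, ?_, ?_, ?_⟩
    · have h1 : min (min X0 X1) 1 ≤ X0 := (min_le_left _ _).trans (min_le_left _ _)
      linarith
    · have h1 : min (min X0 X1) 1 ≤ X1 := (min_le_left _ _).trans (min_le_right _ _)
      linarith
    · have h1 : min (min X0 X1) 1 ≤ 1 := min_le_right _ _
      linarith
  obtain ⟨hKd, hKb⟩ := hK
  obtain ⟨⟨hUd, hUb, -⟩, ⟨hLd, hLb, -⟩⟩ := hf X3 hX3 hX30
  simp only at hUb hLb hUd hLd
  have hΛ : 0 ≤ Λ := by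
    have h := hKb (⟨-1, 0⟩ : ℂ) (by simp) (by simp)
    simp only [neg_neg, div_one] at h
    exact (norm_nonneg _).trans h
  set M : ℝ := (2 * Λ / (ρ * X3) + Real.exp (2 * ε / X3)) * (2 / X3) with hM
  have hM0 : 0 ≤ M := by positivity
  set C3 : ℝ := 8 * X3 * M with hC3
  have hC30 : 0 ≤ C3 := by positivity
  -- step A
  have hA : ∀ σ : ℂ, ‖σ‖ ≤ X3 / 2 → ‖RX K U L ρ X3 (fun s => 1 / (σ - s))‖ ≤ C3 := by
    intro σ hσ
    have hφ : ∀ s ∈ Ann X3 X3, ‖1 / (σ - s)‖ ≤ 2 / X3 := by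
      intro s hs
      have hs1 : X3 ≤ ‖s‖ := by
        rcases hs.2.2 with h | h
        · exact h.trans (Complex.abs_re_le_norm s)
        · exact h.trans (Complex.abs_im_le_norm s)
      have h2 : X3 / 2 ≤ ‖σ - s‖ := by
        have h3 : ‖s‖ - ‖σ‖ ≤ ‖s - σ‖ := norm_sub_norm_le s σ
        rw [norm_sub_rev] at h3
        linarith
      rw [norm_div, norm_one]
      calc 1 / ‖σ - s‖ ≤ 1 / (X3 / 2) := one_div_le_one_div_of_le (by positivity) h2
        _ = 2 / X3 := by field_simp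
    unfold RX
    apply ringBound
    · positivity
    · nlinarith
    · intro s hs hre
      have hre0 : s.re < 0 := by
        have : 0 < ρ * X3 := by positivity
        linarith
      have h1 : -1 ≤ s.re := by
        have := (abs_le.1 hs.1).1
        linarith
      have h2 := hKb s h1 hre0
      have h3 : Λ / (-s.re) ≤ 2 * Λ / (ρ * X3) := by
        have h4 : Λ / (-s.re) ≤ Λ / (ρ * X3 / 2) :=
          div_le_div_of_nonneg_left hΛ (by positivity) (by linarith)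
        have h5 : Λ / (ρ * X3 / 2) = 2 * Λ / (ρ * X3) := by field_simp
        linarith
      rw [norm_mul]
      apply mul_le_mul _ (hφ s hs) (norm_nonneg _) (by positivity)
      have := Real.exp_pos (2 * ε / X3)
      linarith
    · intro s hs hre _
      have hp : 0 < ρ * X3 := by positivity
      have h2 := hUb s (by linarith)
      rw [norm_mul]
      apply mul_le_mul _ (hφ s hs) (norm_nonneg _) (by positivity)
      have : 0 ≤ 2 * Λ / (ρ * X3) := by positivity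
      linarith
    · intro s hs hre _
      have hp : 0 < ρ * X3 := by positivity
      have h2 := hLb s (by linarith)
      rw [norm_mul]
      apply mul_le_mul _ (hφ s hs) (norm_nonneg _) (by positivity)
      have : 0 ≤ 2 * Λ / (ρ * X3) := by positivity
      linarith
  refine ⟨C3 + C + 256 / ρ + 2, min (X3 / 2) X2, by positivity, by positivity, ?_⟩
  intro σ hσre hσq hσr
  have hσ1 : ‖σ‖ < X3 / 2 := lt_of_lt_of_le hσr (min_le_left _ _)
  have hσ2 : ‖σ‖ < X2 := lt_of_lt_of_le hσr (min_le_right _ _)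
  have hσ0 : 0 < ‖σ‖ := by
    apply norm_pos_iff.2
    intro h
    rw [h] at hσre
    simp at hσre
  have hσne : σ ≠ 0 := norm_pos_iff.1 hσ0
  obtain ⟨Y, hY⟩ : ∃ Y : ℝ, Y = max |σ.re| |σ.im| := ⟨_, rfl⟩
  have hYre : |σ.re| ≤ Y := by rw [hY]; exact le_max_left _ _
  have hYim : |σ.im| ≤ Y := by rw [hY]; exact le_max_right _ _
  have hYσ : Y ≤ ‖σ‖ := by
    rw [hY]
    exact max_le (Complex.abs_re_le_norm σ) (Complex.abs_im_le_norm σ)
  have hreY : -σ.re ≤ Y := (neg_le_abs _).trans hYre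
  have hY0 : 0 < Y := by linarith
  have hσY : ‖σ‖ ≤ 2 * Y := by
    have h1 := Complex.norm_le_abs_re_add_abs_im σ
    linarith
  have hinvY : 1 / Y ≤ 1 / (-σ.re) := one_div_le_one_div_of_le (by linarith) hreY
  have hexp1 : ∀ X : ℝ, 0 < X → Real.exp (-(2 / (10 ^ 7 * X))) ≤ 1 := by
    intro X hX
    apply Real.exp_le_one_iff.2
    have : 0 < 2 / (10 ^ 7 * X) := by positivity
    linarith
  -- distances
  have hphiY : ∀ s : ℂ, Y * (ρ / 128) ≤ ‖σ - s‖ → ‖1 / (σ - s)‖ ≤ 128 / (ρ * Y) := by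
    intro s hs
    rw [norm_div, norm_one]
    calc 1 / ‖σ - s‖ ≤ 1 / (Y * (ρ / 128)) := one_div_le_one_div_of_le (by positivity) hs
      _ = 128 / (ρ * Y) := by field_simp
  have hne : ∀ s : ℂ, Y * (ρ / 128) ≤ ‖σ - s‖ → DifferentiableAt ℂ (fun s => 1 / (σ - s)) s := by
    intro s hs
    have h1 : σ - s ≠ 0 := by
      intro h
      rw [h, norm_zero] at hs
      have : 0 < Y * (ρ / 128) := by positivity
      linarith
    exact (differentiableAt_const _).div ((differentiableAt_const _).sub differentiableAt_id) h1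
  have hout : ∀ s ∈ Ann (Y * (1 + ρ / 128)) X3, Y * (ρ / 128) ≤ ‖σ - s‖ := by
    intro s hs
    rcases hs.2.2 with h | h
    · have h1 := Complex.abs_re_le_norm (s - σ)
      rw [norm_sub_rev]
      have h2 : |s.re| - |σ.re| ≤ |s.re - σ.re| := abs_sub_abs_le_abs_sub _ _
      rw [Complex.sub_re] at h1
      nlinarith
    · have h1 := Complex.abs_im_le_norm (s - σ)
      rw [norm_sub_rev]
      have h2 : |s.im| - |σ.im| ≤ |s.im - σ.im| := abs_sub_abs_le_abs_sub _ _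
      rw [Complex.sub_im] at h1
      nlinarith
  have hin : ∀ s ∈ Ann (‖σ‖ / 8) (Y * (1 - ρ / 128)), Y * (ρ / 128) ≤ ‖σ - s‖ := by
    intro s hs
    rcases max_choice |σ.re| |σ.im| with h | h
    · have hy : Y = |σ.re| := by rw [hY, h]
      have h1 := Complex.abs_re_le_norm (σ - s)
      have h2 : |σ.re| - |s.re| ≤ |σ.re - s.re| := abs_sub_abs_le_abs_sub _ _
      rw [Complex.sub_re] at h1
      have h3 := hs.1
      nlinarith
    · have hy : Y = |σ.im| := by rw [hY, h]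
      have h1 := Complex.abs_im_le_norm (σ - s)
      have h2 : |σ.im| - |s.im| ≤ |σ.im - s.im| := abs_sub_abs_le_abs_sub _ _
      rw [Complex.sub_im] at h1
      have h3 := hs.2.1
      nlinarith
  have hX4 : 0 < ‖σ‖ / 8 := by positivity
  -- steps
  have hB := hcomp X3 (Y * (1 + ρ / 128)) (by positivity) (by nlinarith) hX31
    (fun s => 1 / (σ - s)) (128 / (ρ * Y)) (by positivity)
    (fun s hs => hne s (hout s hs)) (fun s hs => hphiY s (hout s hs))
  have hCr := hcross σ hσre hσq Y hY (by linarith)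
  have hD := hcomp (Y * (1 - ρ / 128)) (‖σ‖ / 8) hX4 (by nlinarith) (by nlinarith)
    (fun s => 1 / (σ - s)) (128 / (ρ * Y)) (by positivity)
    (fun s hs => hne s (hin s hs)) (fun s hs => hphiY s (hin s hs))
  have hΦ : 128 / (ρ * Y) ≤ (128 / ρ) * (1 / (-σ.re)) := by
    have : 128 / (ρ * Y) = (128 / ρ) * (1 / Y) := by field_simp
    rw [this]
    exact mul_le_mul_of_nonneg_left hinvY (by positivity)
  have hΦ0 : 0 ≤ 128 / (ρ * Y) := by positivity
  have hB' : ‖RX K U L ρ X3 (fun s => 1 / (σ - s)) -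
      RX K U L ρ (Y * (1 + ρ / 128)) (fun s => 1 / (σ - s))‖ ≤ (128 / ρ) * (1 / (-σ.re)) := by
    refine hB.trans ?_
    have h1 := hexp1 X3 hX3
    nlinarith
  have hD' : ‖RX K U L ρ (Y * (1 - ρ / 128)) (fun s => 1 / (σ - s)) -
      RX K U L ρ (‖σ‖ / 8) (fun s => 1 / (σ - s))‖ ≤ (128 / ρ) * (1 / (-σ.re)) := by
    refine hD.trans ?_
    have h1 := hexp1 (Y * (1 - ρ / 128)) (by nlinarith)
    nlinarith
  -- series at X4
  obtain ⟨⟨hUd4, -, -⟩, ⟨hLd4, -, -⟩⟩ := hf (‖σ‖ / 8) hX4 (by linarith)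
  simp only at hUd4 hLd4
  have hterm : ∀ l : ℕ, ‖(1 / σ ^ (l + 1) : ℂ)‖ * (2 * (‖σ‖ / 8)) ^ l = (1 / ‖σ‖) * (1 / 4 : ℝ) ^ l := by
    intro l
    rw [norm_div, norm_one, norm_pow, pow_succ, show 2 * (‖σ‖ / 8) = ‖σ‖ * (1 / 4) by ring, mul_pow]
    have : ‖σ‖ ^ l ≠ 0 := pow_ne_zero _ hσ0.ne'
    field_simp
  have hgeo : Summable fun l : ℕ => (1 / ‖σ‖) * (1 / 4 : ℝ) ^ l :=
    (summable_geometric_of_lt_one (by norm_num) (by norm_num)).mul_left _
  have hsum := RX_hasSum K U L ρ (‖σ‖ / 8) hX4 hρ (by linarith) hKd hUd4 hLd4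
    (fun l => 1 / σ ^ (l + 1)) (by simpa only [hterm] using hgeo)
  have hcong : RX K U L ρ (‖σ‖ / 8) (fun s => ∑' l : ℕ, 1 / σ ^ (l + 1) * s ^ l) =
      RX K U L ρ (‖σ‖ / 8) (fun s => 1 / (σ - s)) := by
    apply RX_congr' K U L ρ (‖σ‖ / 8) hX4 hρ (by linarith)
    intro s hs
    have hs1 : ‖s‖ < ‖σ‖ := by
      have h1 := Complex.norm_le_abs_re_add_abs_im s
      have h2 := hs.1
      have h3 := hs.2.1
      linarith
    have h1 : ∀ l : ℕ, 1 / σ ^ (l + 1) * s ^ l = (1 / σ) * (s / σ) ^ l := by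
      intro l
      rw [div_pow, pow_succ]
      field_simp
    simp only [h1]
    rw [tsum_mul_left, tsum_geometric_of_norm_lt_one]
    · have h2 : σ - s ≠ 0 := by
        intro h
        have : σ = s := sub_eq_zero.1 h
        rw [this] at hs1
        exact lt_irrefl _ hs1
      have h3 : 1 - s / σ ≠ 0 := by
        intro h
        apply h2
        have h4 : s / σ = 1 := (sub_eq_zero.1 h).symm
        have h5 : s = σ := by
          rw [div_eq_one_iff_eq hσne] at h4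
          exact h4
        rw [h5, sub_self]
      rw [show 1 - s / σ = (σ - s) / σ by field_simp]
      field_simp
    · rw [norm_div, div_lt_one hσ0]
      exact hs1
  rw [hcong] at hsum
  -- difference
  have hdiff : ∀ l : ℕ, ‖1 / σ ^ (l + 1) * (RX K U L ρ (‖σ‖ / 8) (fun s => s ^ l) - q l)‖ ≤
      (1 / ‖σ‖) * (1 / 4 : ℝ) ^ l := by
    intro l
    rw [norm_mul, ← hterm l]
    apply mul_le_mul_of_nonneg_left _ (norm_nonneg _)
    refine (hq (‖σ‖ / 8) hX4 (by linarith) l).trans ?_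
    have h1 := hexp1 (‖σ‖ / 8) hX4
    have h2 : 0 ≤ (2 * (‖σ‖ / 8)) ^ l := by positivity
    nlinarith
  have hsd : Summable fun l : ℕ => 1 / σ ^ (l + 1) * (RX K U L ρ (‖σ‖ / 8) (fun s => s ^ l) - q l) :=
    Summable.of_norm_bounded hgeo hdiff
  have hqs : HasSum (fun l : ℕ => q l / σ ^ (l + 1))
      (RX K U L ρ (‖σ‖ / 8) (fun s => 1 / (σ - s)) -
        ∑' l : ℕ, 1 / σ ^ (l + 1) * (RX K U L ρ (‖σ‖ / 8) (fun s => s ^ l) - q l)) := by
    have h := hsum.sub hsd.hasSum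
    have hfe : (fun l : ℕ => q l / σ ^ (l + 1)) = fun b : ℕ =>
        1 / σ ^ (b + 1) * RX K U L ρ (‖σ‖ / 8) (fun s => s ^ b) -
          1 / σ ^ (b + 1) * (RX K U L ρ (‖σ‖ / 8) (fun s => s ^ b) - q b) := by
      funext l
      ring
    rw [hfe]
    exact h
  rw [hqs.tsum_eq]
  have hE : ‖∑' l : ℕ, 1 / σ ^ (l + 1) * (RX K U L ρ (‖σ‖ / 8) (fun s => s ^ l) - q l)‖ ≤
      2 * (1 / (-σ.re)) := by
    have h1 := tsum_of_norm_bounded (hgeo.hasSum) hdiff
    refine h1.trans ?_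
    rw [tsum_mul_left, tsum_geometric_of_lt_one (by norm_num) (by norm_num)]
    have h2 : 1 / ‖σ‖ ≤ 1 / (-σ.re) := one_div_le_one_div_of_le (by linarith) (by linarith)
    have h3 : 0 < 1 / ‖σ‖ := by positivity
    have h4 : (1 - (1/4:ℝ))⁻¹ = 4 / 3 := by norm_num
    rw [h4]
    nlinarith
  have hA' := hA σ hσ1.le
  have hA'' : C3 ≤ C3 * (1 / (-σ.re)) := by
    have h1 : 1 ≤ 1 / (-σ.re) := by
      rw [le_div_iff₀ (by linarith)]
      linarith
    nlinarith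
  -- combine
  set R3 := RX K U L ρ X3 (fun s => 1 / (σ - s))
  set Ro := RX K U L ρ (Y * (1 + ρ / 128)) (fun s => 1 / (σ - s))
  set Ri := RX K U L ρ (Y * (1 - ρ / 128)) (fun s => 1 / (σ - s))
  set R4 := RX K U L ρ (‖σ‖ / 8) (fun s => 1 / (σ - s))
  set S := ∑' l : ℕ, 1 / σ ^ (l + 1) * (RX K U L ρ (‖σ‖ / 8) (fun s => s ^ l) - q l)
  have hdec : R4 - S = R3 - (R3 - Ro) - (Ro - Ri) - (Ri - R4) - S := by ring
  rw [hdec]
  have t1 := norm_sub_le (R3 - (R3 - Ro) - (Ro - Ri) - (Ri - R4)) S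
  have t2 := norm_sub_le (R3 - (R3 - Ro) - (Ro - Ri)) (Ri - R4)
  have t3 := norm_sub_le (R3 - (R3 - Ro)) (Ro - Ri)
  have t4 := norm_sub_le R3 (R3 - Ro)
  have hCr' : ‖Ro - Ri‖ ≤ C * (1 / (-σ.re)) := by
    have : C * (1 / (-σ.re)) = C / (-σ.re) := by ring
    rw [this]
    exact hCr
  have hfin : (C3 + C + 256 / ρ + 2) / (-σ.re) =
      C3 * (1 / (-σ.re)) + C * (1 / (-σ.re)) + (128 / ρ) * (1 / (-σ.re)) +
        (128 / ρ) * (1 / (-σ.re)) + 2 * (1 / (-σ.re)) := by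
    field_simp
    ring
  rw [hfin]
  linarith

end NM
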