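import Pool.Agent.Helper360.NM.Defs



namespace NM
open Complex Metric Set Filter Topology MeasureTheory


theorem moments (R : ℝ → (ℂ → ℂ) → ℂ) (X2 : ℝ) (hX2 : 0 < X2)
    (h : ∀ X X' : ℝ, 0 < X' → X' ≤ X → X < X2 →
      ∀ (φ : ℂ → ℂ) (Φ : ℝ), 0 ≤ Φ → (∀ s ∈ Ann X' X, DifferentiableAt ℂ φ s) →
        (∀ s ∈ Ann X' X, ‖φ s‖ ≤ Φ) →
        ‖R X φ - R X' φ‖ ≤ Φ * Real.exp (-(2 / (10 ^ 7 * X)))) :
    ∃ q : ℕ → ℂ, ∀ X : ℝ, 0 < X → X < X2 → ∀ l : ℕ,
      ‖R X (fun s => s ^ l) - q l‖ ≤ (2 * X) ^ l * Real.exp (-(2 / (10 ^ 7 * X))) := by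
  have key : ∀ (l : ℕ) (X X' : ℝ), 0 < X' → X' ≤ X → X < X2 →
      ‖R X (fun s => s ^ l) - R X' (fun s => s ^ l)‖ ≤
        (2 * X) ^ l * Real.exp (-(2 / (10 ^ 7 * X))) := by
    intro l X X' hX' hXX hX
    have hX0 : 0 < X := lt_of_lt_of_le hX' hXX
    refine h X X' hX' hXX hX (fun s => s ^ l) ((2 * X) ^ l) (by positivity) ?_ ?_
    · intro s _
      exact (differentiableAt_id).pow l
    · intro s hs
      rw [norm_pow]
      refine pow_le_pow_left₀ (norm_nonneg s) ?_ l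
      have h1 := Complex.norm_le_abs_re_add_abs_im s
      linarith [hs.1, hs.2.1]
  obtain ⟨Y, hY⟩ : ∃ Y : ℕ → ℝ, Y = fun k => X2 / 2 ^ (k + 1) := ⟨_, rfl⟩
  have hYpos : ∀ k, 0 < Y k := by
    intro k
    rw [hY]
    positivity
  have hYlt : ∀ k, Y k < X2 := by
    intro k
    have h1 : (1 : ℝ) < 2 ^ (k + 1) := one_lt_pow₀ (by norm_num) (by omega)
    have h2 : X2 / 2 ^ (k + 1) < X2 := div_lt_self hX2 h1
    rw [hY]
    exact h2
  have hYanti : ∀ k m, k ≤ m → Y m ≤ Y k := by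
    intro k m hkm
    have h1 : (2 : ℝ) ^ (k + 1) ≤ 2 ^ (m + 1) := pow_le_pow_right₀ (by norm_num) (by omega)
    have h2 : X2 / 2 ^ (m + 1) ≤ X2 / 2 ^ (k + 1) :=
      div_le_div_of_nonneg_left hX2.le (by positivity) h1
    rw [hY]
    exact h2
  have hpow : Tendsto (fun k : ℕ => (2 : ℝ) ^ (k + 1)) atTop atTop :=
    (tendsto_pow_atTop_atTop_of_one_lt (by norm_num : (1 : ℝ) < 2)).comp (tendsto_add_atTop_nat 1)
  have hYlim : Tendsto Y atTop (𝓝 0) := by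
    rw [hY]
    exact tendsto_const_nhds.div_atTop hpow
  have hexp : Tendsto (fun k => Real.exp (-(2 / (10 ^ 7 * Y k)))) atTop (𝓝 0) := by
    have h1 : (fun k => Real.exp (-(2 / (10 ^ 7 * Y k)))) =
        fun k => Real.exp (-((2 / (10 ^ 7 * X2)) * 2 ^ (k + 1))) := by
      funext k
      rw [hY]
      congr 2
      field_simp
    rw [h1]
    exact Real.tendsto_exp_neg_atTop_nhds_zero.comp
      (hpow.const_mul_atTop (by positivity : (0 : ℝ) < 2 / (10 ^ 7 * X2)))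
  have hb : ∀ l : ℕ, Tendsto (fun k => (2 * Y k) ^ l * Real.exp (-(2 / (10 ^ 7 * Y k))))
      atTop (𝓝 0) := by
    intro l
    have h1 : Tendsto (fun k => (2 * X2) ^ l * Real.exp (-(2 / (10 ^ 7 * Y k)))) atTop (𝓝 0) := by
      have h2 := hexp.const_mul ((2 * X2) ^ l)
      rwa [mul_zero] at h2
    refine squeeze_zero (fun k => ?_) (fun k => ?_) h1
    · have := hYpos k
      positivity
    · refine mul_le_mul_of_nonneg_right ?_ (Real.exp_pos _).le
      exact pow_le_pow_left₀ (by linarith [hYpos k]) (by linarith [hYlt k]) l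
  have hlim : ∀ l : ℕ, ∃ a : ℂ, Tendsto (fun k => R (Y k) (fun s => s ^ l)) atTop (𝓝 a) := by
    intro l
    refine cauchySeq_tendsto_of_complete ?_
    rw [Metric.cauchySeq_iff']
    intro ε hε
    have h1 := (hb l).eventually (gt_mem_nhds hε)
    obtain ⟨N, hN⟩ := h1.exists
    refine ⟨N, fun n hn => ?_⟩
    rw [dist_comm, dist_eq_norm]
    exact lt_of_le_of_lt (key l (Y N) (Y n) (hYpos n) (hYanti N n hn) (hYlt N)) hN
  choose q hq using hlim
  refine ⟨q, fun X hX hXX l => ?_⟩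
  have h1 : Tendsto (fun k => ‖R X (fun s => s ^ l) - R (Y k) (fun s => s ^ l)‖) atTop
      (𝓝 ‖R X (fun s => s ^ l) - q l‖) := (tendsto_const_nhds.sub (hq l)).norm
  refine le_of_tendsto h1 ?_
  have h2 := hYlim.eventually (gt_mem_nhds hX)
  filter_upwards [h2] with k hk
  exact key l X (Y k) (hYpos k) hk.le hXX

end NM
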