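import Pool.Agent.Helper360.NM.Defs
import Pool.Agent.Helper360.NM.P_Appr_mono
import Pool.Agent.Helper360.NM.P_chain
import Pool.Agent.Helper360.NM.P_closeK
import Pool.Agent.Helper360.NM.P_ringBound



namespace NM
open Complex Metric Set Filter Topology MeasureTheory


theorem typezero_half (K : ℂ → ℂ) (Λ ρ ρ' ε δ X y : ℝ) (N : ℕ) (hΛ : 1 ≤ Λ) (hK : LocK K Λ)
    (hε : 0 < ε) (hε2 : ε ≤ 1 / 10 ^ 9) (hρ1 : ρ ≤ 1 / 1000) (hρ' : 0 < ρ') (hρρ : ρ' ≤ ρ)
    (hδ : 0 < δ) (hX : 0 < X) (hX1 : X ≤ 1 / 8) (hN : 16 * ρ / ρ' ≤ N) (hN0 : 0 < N)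
    (h3 : 2 * Λ / (ρ' * X) + (2 / (ρ' * X)) ^ 3 ≤ Real.exp (δ / X))
    (h4 : Real.exp (δ / 2 / X) + 2 * ((N : ℝ) + 2) ≤ Real.exp (δ / X))
    (W : ℂ → ℂ) (hW : Appr K ⟨-(ρ * X), y⟩ 1 (Real.exp (2 * ε / X)) W)
    (hst : ∀ x : ℝ, ρ' * X ≤ x → x ≤ ρ * X → ∃ G, Appr K ⟨-x, y⟩ 1 (Real.exp (2 * ε / X)) G)
    (hGb : ∃ G, Appr K ⟨-(ρ' * X), y⟩ 1 (Real.exp (δ / 2 / X)) G) (s : ℂ)
    (hs1 : -(ρ * X / 2) ≤ s.re) (hs2 : |s.re| ≤ X) (hs3 : |s.im - y| ≤ X) (hs : s.re = X ∨ s.im = y) :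
    ‖W s‖ ≤ Real.exp (δ / X) := by
  have hρ : 0 < ρ := hρ'.trans_le hρρ
  have hρX : 0 < ρ * X := mul_pos hρ hX
  have hρX' : 0 < ρ' * X := mul_pos hρ' hX
  have hρρX : ρ' * X ≤ ρ * X := mul_le_mul_of_nonneg_right hρρ hX.le
  have hρXX : ρ * X ≤ 1 / 1000 * X := mul_le_mul_of_nonneg_right hρ1 hX.le
  have hWb : ‖W s‖ ≤ Real.exp (2 * ε / X) := hW.2.1 s (by show -(ρ * X) < s.re; linarith)
  by_cases hδε : 2 * ε ≤ δ
  · refine hWb.trans (Real.exp_le_exp.2 ?_)
    exact div_le_div_of_nonneg_right hδε hX.le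
  push Not at hδε
  have hexp1 : (2 * ε / X) ≤ 1 / 10 ^ 8 / X := by
    apply div_le_div_of_nonneg_right _ hX.le
    norm_num at hε2 ⊢
    linarith
  by_cases hu : s.re ≤ -(ρ' * X / 2)
  · -- close to K
    have hre0 : s.re < 0 := by linarith
    have him : s.im = y := by
      rcases hs with h | h
      · linarith
      · exact h
    have hK1 : ‖K s‖ ≤ Λ / (-s.re) := hK.2 s (by linarith) hre0
    have hK2 : Λ / (-s.re) ≤ 2 * Λ / (ρ' * X) := by
      rw [div_le_div_iff₀ (by linarith) hρX']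
      nlinarith
    have hKW := hW.2.2 s (by show -(ρ * X) < s.re; linarith) hre0
    have hn : ‖s - (⟨-(ρ * X), y⟩ : ℂ)‖ ^ 2 = (s.re + ρ * X) ^ 2 := by
      rw [← Complex.normSq_eq_norm_sq, Complex.normSq_apply]
      simp only [Complex.sub_re, Complex.sub_im, him, sub_neg_eq_add, sub_self]
      ring
    have hpos : 0 < s.re + ρ * X := by linarith
    have hE2 : Real.exp (2 * ε / X) * Real.exp (-(1 * (s.re - (⟨-(ρ * X), y⟩ : ℂ).re) / ‖s - (⟨-(ρ * X), y⟩ : ℂ)‖ ^ 2)) ≤ 1 := by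
      rw [← Real.exp_add, Real.exp_le_one_iff, hn]
      simp only [sub_neg_eq_add, one_mul]
      have h5 : (s.re + ρ * X) / (s.re + ρ * X) ^ 2 = 1 / (s.re + ρ * X) := by
        field_simp
      rw [h5]
      have h6 : 1 / (1 / 1000 * X) ≤ 1 / (s.re + ρ * X) := by
        apply one_div_le_one_div_of_le hpos
        linarith
      have h7 : 1 / (1 / 1000 * X) = 1000 / X := by field_simp
      have h8 : (1 / 10 ^ 8 : ℝ) / X ≤ 1000 / X := div_le_div_of_nonneg_right (by norm_num) hX.le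
      linarith
    have hcube : ((-s.re)⁻¹) ^ 3 ≤ (2 / (ρ' * X)) ^ 3 := by
      apply pow_le_pow_left₀ (inv_nonneg.2 (by linarith))
      rw [inv_eq_one_div, div_le_div_iff₀ (by linarith) hρX']
      linarith
    have hKW2 : ‖K s - W s‖ ≤ (2 / (ρ' * X)) ^ 3 := by
      refine hKW.trans ?_
      have e : Real.exp (2 * ε / X) * ((-s.re)⁻¹) ^ 3 *
          Real.exp (-(1 * (s.re - (⟨-(ρ * X), y⟩ : ℂ).re) / ‖s - (⟨-(ρ * X), y⟩ : ℂ)‖ ^ 2)) =
          (Real.exp (2 * ε / X) * Real.exp (-(1 * (s.re - (⟨-(ρ * X), y⟩ : ℂ).re) / ‖s - (⟨-(ρ * X), y⟩ : ℂ)‖ ^ 2)))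
            * ((-s.re)⁻¹) ^ 3 := by ring
      rw [e]
      calc _ ≤ 1 * ((-s.re)⁻¹) ^ 3 :=
            mul_le_mul_of_nonneg_right hE2 (pow_nonneg (inv_nonneg.2 (by linarith)) 3)
        _ ≤ _ := by rw [one_mul]; exact hcube
    have h9 : ‖W s‖ ≤ ‖K s‖ + ‖K s - W s‖ := by
      have : W s = K s - (K s - W s) := by ring
      calc ‖W s‖ = ‖K s - (K s - W s)‖ := by rw [← this]
        _ ≤ _ := norm_sub_le _ _
    linarith
  · push Not at hu
    obtain ⟨Gb, hGb⟩ := hGb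
    have hEle : Real.exp (δ / 2 / X) ≤ Real.exp (2 * ε / X) := by
      apply Real.exp_le_exp.2
      apply div_le_div_of_nonneg_right _ hX.le
      linarith
    have hGb' : Appr K ⟨-(ρ' * X), y⟩ 1 (Real.exp (2 * ε / X)) Gb :=
      Appr_mono K Gb _ 1 1 _ _ le_rfl hEle (Real.exp_pos _).le hGb
    have hline : ∀ t : ℝ, (⟨-(ρ * X), y⟩ : ℂ) + (t : ℂ) * ((⟨-(ρ' * X), y⟩ : ℂ) - ⟨-(ρ * X), y⟩) =
        ⟨-(ρ * X - t * (ρ * X - ρ' * X)), y⟩ := by
      intro t
      apply Complex.ext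
      · simp; ring
      · simp
    have hxt : ∀ t : ℝ, 0 ≤ t → t ≤ 1 → ρ' * X ≤ ρ * X - t * (ρ * X - ρ' * X) ∧
        ρ * X - t * (ρ * X - ρ' * X) ≤ ρ * X := by
      intro t ht0 ht1
      constructor
      · nlinarith
      · nlinarith
    have hch := chain K W Gb ⟨-(ρ * X), y⟩ ⟨-(ρ' * X), y⟩ (Real.exp (2 * ε / X)) (ρ' * X) (1 / (11 / 5 * X)) N
      (Real.one_le_exp (by positivity)) hρX'
      (fun t ht0 ht1 => by
        rw [hline]
        exact hst _ (hxt t ht0 ht1).1 (hxt t ht0 ht1).2)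
      (fun t ht0 ht1 => by
        rw [hline]
        have := hxt t ht0 ht1
        constructor
        · show -(ρ * X - t * (ρ * X - ρ' * X)) ≤ -(ρ' * X)
          linarith
        · show -(1 / 100) ≤ -(ρ * X - t * (ρ * X - ρ' * X))
          linarith)
      hW hGb'
      (by
        have e : (⟨-(ρ' * X), y⟩ : ℂ) - ⟨-(ρ * X), y⟩ = ((ρ * X - ρ' * X : ℝ) : ℂ) := by
          apply Complex.ext
          · simp; ring
          · simp
        rw [e, Complex.norm_real, Real.norm_eq_abs, abs_of_nonneg (by linarith)]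
        rw [div_le_iff₀ hρ'] at hN
        have : 16 * ρ * X ≤ N * ρ' * X := mul_le_mul_of_nonneg_right hN hX.le
        linarith)
      hN0 s (by linarith)
      (fun t ht0 ht1 => by
        rw [hline]
        obtain ⟨hx1, hx2⟩ := hxt t ht0 ht1
        set xt := ρ * X - t * (ρ * X - ρ' * X) with hxtdef
        have hn : ‖s - (⟨-xt, y⟩ : ℂ)‖ ^ 2 = (s.re + xt) ^ 2 + (s.im - y) ^ 2 := by
          rw [← Complex.normSq_eq_norm_sq, Complex.normSq_apply]
          simp only [Complex.sub_re, Complex.sub_im, sub_neg_eq_add]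
          ring
        rw [hn]
        show 1 / (11 / 5 * X) * ((s.re + xt) ^ 2 + (s.im - y) ^ 2) ≤ s.re - -xt
        rw [sub_neg_eq_add, one_div, inv_mul_le_iff₀ (by positivity)]
        have hsre := abs_le.1 hs2
        have hsim := abs_le.1 hs3
        have hpos : 0 < s.re + xt := by linarith
        rcases hs with h | h
        · rw [h]
          have h1 : (X + xt) ^ 2 ≤ (1001 / 1000 * X) * (X + xt) := by
            rw [pow_two]
            apply mul_le_mul_of_nonneg_right _ (by linarith)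
            linarith
          have h2 : (s.im - y) ^ 2 ≤ X ^ 2 := by
            apply sq_le_sq'
            · linarith [hsim.1]
            · exact hsim.2
          have h5 : 0 ≤ X * xt := mul_nonneg hX.le (by linarith)
          have h6 : 0 ≤ X * X := mul_nonneg hX.le hX.le
          have h7 : 11 / 5 * X * (X + xt) = 11 / 5 * (X * X) + 11 / 5 * (X * xt) := by ring
          have h8 : (1001 / 1000 * X) * (X + xt) = 1001 / 1000 * (X * X) + 1001 / 1000 * (X * xt) := by ring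
          rw [h8] at h1
          rw [h7]
          rw [pow_two X] at h2
          linarith
        · rw [h, sub_self]
          have h1 : (s.re + xt) ^ 2 ≤ (1001 / 1000 * X) * (s.re + xt) := by
            rw [pow_two]
            apply mul_le_mul_of_nonneg_right _ (by linarith)
            linarith [hsre.2]
          have h5 : 0 ≤ X * (s.re + xt) := mul_nonneg hX.le hpos.le
          have h7 : 11 / 5 * X * (s.re + xt) = 11 / 5 * (X * (s.re + xt)) := by ring
          have h8 : (1001 / 1000 * X) * (s.re + xt) = 1001 / 1000 * (X * (s.re + xt)) := by ring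
          rw [h8] at h1
          rw [h7]
          have h9 : (0 : ℝ) ^ 2 = 0 := by norm_num
          rw [h9]
          linarith)
    have hGs : ‖Gb s‖ ≤ Real.exp (δ / 2 / X) := hGb.2.1 s (by show -(ρ' * X) < s.re; linarith)
    have hsmall : Real.exp (2 * ε / X) * Real.exp (-(1 / (11 / 5 * X) / 16)) ≤ 1 := by
      rw [← Real.exp_add, Real.exp_le_one_iff]
      have h5 : (1 / (11 / 5 * X) / 16 : ℝ) = (5 / 176) / X := by
        field_simp
        norm_num
      rw [h5]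
      have h8 : (1 / 10 ^ 8 : ℝ) / X ≤ (5 / 176) / X := div_le_div_of_nonneg_right (by norm_num) hX.le
      linarith
    have h10 : ((N : ℝ) + 2) * (2 * Real.exp (2 * ε / X) * Real.exp (-(1 / (11 / 5 * X) / 16))) ≤ 2 * ((N : ℝ) + 2) := by
      have : ((N : ℝ) + 2) * (2 * Real.exp (2 * ε / X) * Real.exp (-(1 / (11 / 5 * X) / 16))) =
        2 * ((N : ℝ) + 2) * (Real.exp (2 * ε / X) * Real.exp (-(1 / (11 / 5 * X) / 16))) := by ring
      rw [this]
      exact mul_le_of_le_one_right (by positivity) hsmall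
    have h9 : ‖W s‖ ≤ ‖Gb s‖ + ‖W s - Gb s‖ := by
      have : W s = Gb s + (W s - Gb s) := by ring
      calc ‖W s‖ = ‖Gb s + (W s - Gb s)‖ := by rw [← this]
        _ ≤ _ := norm_add_le _ _
    linarith

theorem typezero (K : ℂ → ℂ) (Λ ρ ε X0 : ℝ) (hΛ : 1 ≤ Λ) (hK : LocK K Λ) (hX0 : 0 < X0)
    (hε : 0 < ε) (hε2 : ε ≤ 1 / 10 ^ 9) (hρ : 0 < ρ) (hρ1 : ρ ≤ 1 / 1000)
    (U L : ℝ → ℂ → ℂ) (hf : Fam K ρ ε X0 U L) (h3 : St3 K ρ ε) (δ : ℝ) (hδ : 0 < δ) :
    ∃ X1 : ℝ, 0 < X1 ∧ ∀ X : ℝ, 0 < X → X < X1 → ∀ (φ : ℂ → ℂ) (Φ : ℝ), 0 ≤ Φ →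
      (∀ s ∈ Ann X X, ContinuousAt φ s) → (∀ s ∈ Ann X X, ‖φ s‖ ≤ Φ) →
      ‖RX K U L ρ X φ‖ ≤ Φ * Real.exp (δ / X) := by
  obtain ⟨ρ', hρ', hρρ, X1', hX1', hst⟩ := h3 (δ / 2) (by linarith)
  obtain ⟨N, hN⟩ := exists_nat_ge (max 1 (16 * ρ / ρ'))
  have hN1 : (1 : ℝ) ≤ N := (le_max_left _ _).trans hN
  have hN2 : 16 * ρ / ρ' ≤ N := (le_max_right _ _).trans hN
  have hN0 : 0 < N := by exact_mod_cast (lt_of_lt_of_le one_pos hN1)
  set C := 2 * Λ / ρ' + 8 / ρ' ^ 3 with hC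
  have hC0 : 0 < C := by positivity
  refine ⟨min (min X0 X1') (min (1 / 8) (min (δ ^ 4 / (24 * C)) (δ / (2 * (2 * ((N : ℝ) + 2) + 1))))), ?_, ?_⟩
  · refine lt_min (lt_min hX0 hX1') (lt_min (by norm_num) (lt_min (by positivity) (by positivity)))
  intro X hX hXlt φ Φ hΦ _ hφ
  have hXX0 : X < X0 := hXlt.trans_le ((min_le_left _ _).trans (min_le_left _ _))
  have hXX1 : X < X1' := hXlt.trans_le ((min_le_left _ _).trans (min_le_right _ _))
  have hX8 : X ≤ 1 / 8 := (hXlt.trans_le ((min_le_right _ _).trans (min_le_left _ _))).le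
  have hXC : X ≤ δ ^ 4 / (24 * C) :=
    (hXlt.trans_le ((min_le_right _ _).trans ((min_le_right _ _).trans (min_le_left _ _)))).le
  have hXN : X ≤ δ / (2 * (2 * ((N : ℝ) + 2) + 1)) :=
    (hXlt.trans_le ((min_le_right _ _).trans ((min_le_right _ _).trans (min_le_right _ _)))).le
  have h3' : 2 * Λ / (ρ' * X) + (2 / (ρ' * X)) ^ 3 ≤ Real.exp (δ / X) := by
    have h1 := Real.pow_div_factorial_le_exp (δ / X) (by positivity) 4
    have h2 : ((4 : ℕ).factorial : ℝ) = 24 := by norm_num [Nat.factorial]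
    rw [h2] at h1
    refine le_trans ?_ h1
    have h4 : 2 * Λ / (ρ' * X) + (2 / (ρ' * X)) ^ 3 ≤ C / X ^ 3 := by
      rw [hC, add_div]
      apply add_le_add
      · rw [div_div]
        apply div_le_div_of_nonneg_left (by positivity) (by positivity)
        apply mul_le_mul_of_nonneg_left _ hρ'.le
        have : X ^ 2 ≤ 1 := by nlinarith
        calc X ^ 3 = X ^ 2 * X := by ring
          _ ≤ 1 * X := mul_le_mul_of_nonneg_right this hX.le
          _ = X := one_mul X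
      · rw [div_div, div_pow, mul_pow]
        norm_num
    refine h4.trans ?_
    rw [div_pow, div_div, div_le_div_iff₀ (by positivity) (by positivity)]
    rw [le_div_iff₀ (by positivity)] at hXC
    have : X ^ 4 = X * X ^ 3 := by ring
    rw [this]
    have h5 : 0 < X ^ 3 := by positivity
    calc C * (X * X ^ 3 * 24) = (X * (24 * C)) * X ^ 3 := by ring
      _ ≤ δ ^ 4 * X ^ 3 := mul_le_mul_of_nonneg_right hXC h5.le
  have h4' : Real.exp (δ / 2 / X) + 2 * ((N : ℝ) + 2) ≤ Real.exp (δ / X) := by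
    set w := Real.exp (δ / 2 / X) with hw
    have e : Real.exp (δ / X) = w * w := by
      rw [hw, ← Real.exp_add]
      congr 1
      field_simp
      norm_num
    have h1 : 2 * ((N : ℝ) + 2) + 1 ≤ w := by
      have h2 : δ / 2 / X + 1 ≤ w := Real.add_one_le_exp _
      have h3 : 2 * ((N : ℝ) + 2) + 1 ≤ δ / 2 / X := by
        rw [le_div_iff₀ (by positivity)] at hXN
        rw [le_div_iff₀ hX]
        linarith
      linarith
    rw [e]
    have hNN : (0 : ℝ) ≤ N := by linarith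
    nlinarith
  have hfX := hf X hX hXX0
  have hU : ∀ s ∈ Ann X X, -(ρ * X / 2) ≤ s.re → 0 ≤ s.im → ‖U X s‖ ≤ Real.exp (δ / X) := by
    rintro s ⟨hs1, hs2, hs3⟩ hs4 hs5
    refine typezero_half K Λ ρ ρ' ε δ X X N hΛ hK hε hε2 hρ1 hρ' hρρ hδ hX hX8 hN2 hN0 h3' h4' (U X) hfX.1
      (hst X hX hXX1 X (Or.inl rfl)).1 (hst X hX hXX1 X (Or.inl rfl)).2 s hs4 hs1 ?_ ?_
    · rw [abs_of_nonneg hs5] at hs2
      rw [abs_le]; constructor <;> linarith
    · rcases hs3 with h | h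
      · left
        have hρX : ρ * X / 2 < X := by nlinarith
        rcases le_abs.1 h with h' | h'
        · exact le_antisymm (abs_le.1 hs1).2 h'
        · linarith
      · right
        rw [abs_of_nonneg hs5] at h hs2
        linarith
  have hL : ∀ s ∈ Ann X X, -(ρ * X / 2) ≤ s.re → s.im ≤ 0 → ‖L X s‖ ≤ Real.exp (δ / X) := by
    rintro s ⟨hs1, hs2, hs3⟩ hs4 hs5
    refine typezero_half K Λ ρ ρ' ε δ X (-X) N hΛ hK hε hε2 hρ1 hρ' hρρ hδ hX hX8 hN2 hN0 h3' h4' (L X) hfX.2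
      (hst X hX hXX1 (-X) (Or.inr rfl)).1 (hst X hX hXX1 (-X) (Or.inr rfl)).2 s hs4 hs1 ?_ ?_
    · rw [abs_of_nonpos hs5] at hs2
      rw [abs_le]; constructor <;> linarith
    · rcases hs3 with h | h
      · left
        have hρX : ρ * X / 2 < X := by nlinarith
        rcases le_abs.1 h with h' | h'
        · exact le_antisymm (abs_le.1 hs1).2 h'
        · linarith
      · right
        rw [abs_of_nonpos hs5] at h hs2
        linarith
  have hKb : ∀ s ∈ Ann X X, s.re ≤ -(ρ * X / 2) → ‖K s‖ ≤ Real.exp (δ / X) := by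
    rintro s ⟨hs1, hs2, hs3⟩ hs4
    have hρX : 0 < ρ * X := mul_pos hρ hX
    have hρρX : ρ' * X ≤ ρ * X := mul_le_mul_of_nonneg_right hρρ hX.le
    have hρX' : 0 < ρ' * X := mul_pos hρ' hX
    have h1 := hK.2 s (by linarith [(abs_le.1 hs1).1]) (by linarith)
    have h2 : Λ / (-s.re) ≤ 2 * Λ / (ρ' * X) := by
      rw [div_le_div_iff₀ (by linarith) hρX']
      nlinarith
    have h5 : 0 ≤ (2 / (ρ' * X)) ^ 3 := by positivity
    linarith
  have hring := ringBound (fun s => K s * φ s) (fun s => U X s * φ s) (fun s => L X s * φ s) X (ρ * X / 2)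
    (Φ * Real.exp (δ / X)) (by positivity) (by nlinarith)
    (fun s hs h => by
      rw [norm_mul, mul_comm]
      exact mul_le_mul (hφ s hs) (hKb s hs h) (norm_nonneg _) hΦ)
    (fun s hs h h' => by
      rw [norm_mul, mul_comm]
      exact mul_le_mul (hφ s hs) (hU s hs h h') (norm_nonneg _) hΦ)
    (fun s hs h h' => by
      rw [norm_mul, mul_comm]
      exact mul_le_mul (hφ s hs) (hL s hs h h') (norm_nonneg _) hΦ)
  unfold RX
  refine hring.trans ?_
  have h8 : 8 * X ≤ 1 := by linarith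
  exact mul_le_of_le_one_left (by positivity) h8

end NM
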