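import Pool.Agent.Helper360.NM.Defs
import Pool.Agent.Helper360.NM.P_PPfinal
import Pool.Agent.Helper360.NM.P_Radj
import Pool.Agent.Helper360.NM.P_Rcomp
import Pool.Agent.Helper360.NM.P_moments
import Pool.Agent.Helper360.NM.P_RX_hasSum
import Pool.Agent.Helper360.NM.P_typezero
import Pool.Agent.Helper360.NM.P_crossing
import Pool.Agent.Helper360.NM.P_leftbound
import Pool.Agent.Helper360.NM.P_PLq



namespace NM
open Complex Metric Set Filter Topology MeasureTheory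


theorem local_main (d : ℝ) (hd : 0 < d) (hd1 : d ≤ 1 / 100) :
    ∃ ε0 : ℝ, 0 < ε0 ∧ ε0 ≤ 1 / 10 ^ 9 ∧ ∀ (K : ℂ → ℂ) (Λ ρ ε X0 : ℝ), 1 ≤ Λ → LocK K Λ → 0 < X0 →
      0 < ε → ε ≤ ε0 → 0 < ρ → ρ ≤ 1 / 1000 → ρ ≤ d / 10 → St K ρ ε X0 → St2 K ρ d X0 →
      St3 K ρ ε → ∀ (U L : ℝ → ℂ → ℂ), Fam K ρ ε X0 U L →
    ∃ (q : ℂ) (X1 : ℝ), 0 < X1 ∧ X1 ≤ X0 ∧ ∀ X : ℝ, 0 < X → X < X1 → ∀ n : ℕ,
      ‖RX K U L ρ X (fun s => Complex.exp (-((n : ℂ) * s))) - q‖ ≤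
        Real.exp (2 * n * X - 1 / (10 ^ 7 * X)) := by
  obtain ⟨ε1, hε1, hPP⟩ := PPfinal d hd hd1
  refine ⟨min ε1 (1 / 10 ^ 9), by positivity, min_le_right _ _, ?_⟩
  intro K Λ ρ ε X0 hΛ hK hX0 hε hεε hρ hρ1 hρd hSt hSt2 hSt3 U L hf
  have hε2 : ε ≤ 1 / 10 ^ 9 := hεε.trans (min_le_right _ _)
  obtain ⟨XJ0, hXJ0, hJ0⟩ := hPP K ρ ε X0 hX0 hε (hεε.trans (min_le_left _ _)) hρ hρ1 hρd hSt hSt2
  have hXJ : 0 < min XJ0 X0 := lt_min hXJ0 hX0
  have hJ : ∀ X : ℝ, 0 < X → X < min XJ0 X0 → ∀ u : ℝ, X / 2 ≤ u → u ≤ X →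
      ‖U X (u : ℂ) - L X (u : ℂ)‖ ≤ Real.exp (-(4 / (10 ^ 7 * X))) := by
    intro X hX hXX u hu1 hu2
    have hF := hf X hX (hXX.trans_le (min_le_right _ _))
    exact hJ0 X hX (hXX.trans_le (min_le_left _ _)) (U X) (L X) hF.1 hF.2 u hu1 hu2
  obtain ⟨X1, hX1, hadj⟩ := Radj K Λ ρ ε X0 _ hΛ hK hX0 hε hε2 hρ hρ1 U L hf hXJ hJ
  obtain ⟨X2, hX2, hX21, hcomp⟩ := Rcomp (RX K U L ρ) ρ X1 hρ hρ1 hX1 hadj
  obtain ⟨q, hq⟩ := moments (RX K U L ρ) X2 hX2 hcomp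
  obtain ⟨C, X3, hC, hX3, hcross⟩ := crossing K Λ ρ ε X0 _ hΛ hK hX0 hε hε2 hρ hρ1 U L hf hXJ hJ
  obtain ⟨C', r0, hC', hr0, hleft⟩ := leftbound K U L Λ ρ ε X0 C X2 X3 hX0 hρ hρ1 hC hX2 hX3 hK hf
    hcomp q hq hcross
  have h0 : ∀ δ : ℝ, 0 < δ → ∃ X1 : ℝ, 0 < X1 ∧ ∀ X : ℝ, 0 < X → X < X1 → ∀ l : ℕ,
      ‖q l‖ ≤ (2 * X) ^ l * Real.exp (δ / X) := by
    intro δ hδ
    obtain ⟨X5, hX5, ht⟩ := typezero K Λ ρ ε X0 hΛ hK hX0 hε hε2 hρ hρ1 U L hf hSt3 (δ / 2)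
      (by positivity)
    refine ⟨min X5 (min X2 (δ / 2)), by positivity, ?_⟩
    intro X hX hXX l
    have hXX5 : X < X5 := hXX.trans_le (min_le_left _ _)
    have hXX2 : X < X2 := hXX.trans_le ((min_le_right _ _).trans (min_le_left _ _))
    have hXd : X < δ / 2 := hXX.trans_le ((min_le_right _ _).trans (min_le_right _ _))
    have h1 : ‖RX K U L ρ X (fun s => s ^ l)‖ ≤ (2 * X) ^ l * Real.exp (δ / 2 / X) := by
      apply ht X hX hXX5 (fun s => s ^ l) ((2 * X) ^ l) (by positivity)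
      · intro s _
        fun_prop
      · intro s hs
        rw [norm_pow]
        apply pow_le_pow_left₀ (norm_nonneg _)
        have := Complex.norm_le_abs_re_add_abs_im s
        have h1 := hs.1
        have h2 := hs.2.1
        linarith
    have h2 := hq X hX hXX2 l
    have h3 : ‖q l‖ ≤ ‖RX K U L ρ X (fun s => s ^ l)‖ + ‖RX K U L ρ X (fun s => s ^ l) - q l‖ := by
      have e : q l = RX K U L ρ X (fun s => s ^ l) - (RX K U L ρ X (fun s => s ^ l) - q l) := by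
        ring
      calc ‖q l‖ = ‖RX K U L ρ X (fun s => s ^ l) - (RX K U L ρ X (fun s => s ^ l) - q l)‖ := by
            rw [← e]
        _ ≤ _ := norm_sub_le _ _
    have h4 : Real.exp (-(2 / (10 ^ 7 * X))) ≤ 1 := by
      rw [Real.exp_le_one_iff]
      have : 0 < 2 / (10 ^ 7 * X) := by positivity
      linarith
    have h5 : (2 : ℝ) ≤ Real.exp (δ / 2 / X) := by
      have h6 : 1 ≤ δ / 2 / X := by
        rw [le_div_iff₀ hX]
        linarith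
      have := Real.add_one_le_exp (δ / 2 / X)
      linarith
    have h6 : Real.exp (δ / X) = Real.exp (δ / 2 / X) * Real.exp (δ / 2 / X) := by
      rw [← Real.exp_add]
      congr 1
      ring
    have h7 : (0 : ℝ) ≤ (2 * X) ^ l := by positivity
    rw [h6]
    have h8 : Real.exp (δ / 2 / X) + Real.exp (-(2 / (10 ^ 7 * X)))
        ≤ Real.exp (δ / 2 / X) * Real.exp (δ / 2 / X) := by nlinarith
    calc ‖q l‖ ≤ (2 * X) ^ l * Real.exp (δ / 2 / X) + (2 * X) ^ l * Real.exp (-(2 / (10 ^ 7 * X))) :=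
          h3.trans (add_le_add h1 h2)
      _ = (2 * X) ^ l * (Real.exp (δ / 2 / X) + Real.exp (-(2 / (10 ^ 7 * X)))) := by ring
      _ ≤ _ := mul_le_mul_of_nonneg_left h8 h7
  have hql := PLq q h0 C' r0 hC' hr0 hleft
  refine ⟨q 0, min X0 X2, by positivity, min_le_left _ _, ?_⟩
  intro X hX hXX n
  have hXX0 : X < X0 := hXX.trans_le (min_le_left _ _)
  have hXX2 : X < X2 := hXX.trans_le (min_le_right _ _)
  have hF := hf X hX hXX0
  obtain ⟨c, hc⟩ : ∃ c : ℕ → ℂ, c = fun l => (-(n : ℂ)) ^ l / (l.factorial : ℂ) := ⟨_, rfl⟩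
  have hcn : ∀ l, ‖c l‖ = (n : ℝ) ^ l / (l.factorial : ℝ) := by
    intro l
    rw [hc]
    simp
  have hexp : HasSum (fun l => (2 * n * X) ^ l / (l.factorial : ℝ)) (Real.exp (2 * n * X)) := by
    rw [Real.exp_eq_exp_ℝ]
    exact NormedSpace.expSeries_div_hasSum_exp (2 * n * X)
  have hcs : Summable fun l => ‖c l‖ * (2 * X) ^ l := by
    refine hexp.summable.congr ?_
    intro l
    rw [hcn]
    rw [show 2 * (n : ℝ) * X = n * (2 * X) by ring, mul_pow]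
    ring
  have hs1 := RX_hasSum K U L ρ X hX hρ (by linarith) hK.1 hF.1.1 hF.2.1 c hcs
  have hfun : (fun s : ℂ => ∑' l, c l * s ^ l) = fun s => Complex.exp (-((n : ℂ) * s)) := by
    funext s
    rw [Complex.exp_eq_exp_ℂ, NormedSpace.exp_eq_tsum_div]
    apply tsum_congr
    intro l
    rw [hc]
    simp only
    rw [show -((n : ℂ) * s) = (-(n : ℂ)) * s by ring, mul_pow]
    ring
  rw [hfun] at hs1
  have hs2 : HasSum (fun l => c l * q l) (q 0) := by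
    have h1 : HasSum (fun l => c l * q l) (c 0 * q 0) := by
      apply hasSum_single 0
      intro l hl
      rw [hql l (Nat.one_le_iff_ne_zero.mpr hl), mul_zero]
    have h2 : c 0 = 1 := by rw [hc]; simp
    rwa [h2, one_mul] at h1
  have hs3 := hs1.sub hs2
  have hbd := hexp.mul_right (Real.exp (-(2 / (10 ^ 7 * X))))
  have hfin := hs3.norm_le_of_bounded hbd (by
    intro l
    rw [← mul_sub, norm_mul, hcn]
    have h1 := hq X hX hXX2 l
    calc (n : ℝ) ^ l / (l.factorial : ℝ) * ‖RX K U L ρ X (fun s => s ^ l) - q l‖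
        ≤ (n : ℝ) ^ l / (l.factorial : ℝ) * ((2 * X) ^ l * Real.exp (-(2 / (10 ^ 7 * X)))) :=
          mul_le_mul_of_nonneg_left h1 (by positivity)
      _ = (2 * n * X) ^ l / (l.factorial : ℝ) * Real.exp (-(2 / (10 ^ 7 * X))) := by
          rw [show 2 * (n : ℝ) * X = n * (2 * X) by ring, mul_pow]
          ring)
  refine hfin.trans ?_
  rw [← Real.exp_add, Real.exp_le_exp]
  have h1 : 0 < 1 / (10 ^ 7 * X) := by positivity
  have h2 : 2 / (10 ^ 7 * X) = 2 * (1 / (10 ^ 7 * X)) := by ring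
  rw [h2]
  linarith

/-! ## Part E (assembly of the arcs) -/

end NM
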