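import Pool.Agent.Helper694.NMA.Main

namespace NM

open Complex Metric Set Filter Topology MeasureTheory

theorem sufficiency (l : ℕ → ℂ) (m : ℕ) (c w : Fin m → ℂ) (hw : ∀ j, ‖w j‖ = 1)
    (h : ∀ C : ℝ, ∃ A : ℝ, ∀ n : ℕ, ‖l n - ∑ j, c j * w j ^ n‖ ≤ A * Real.exp (-(C * Real.sqrt n))) :
    IsMul l := NMA.sufficiency l m c w hw h

theorem majorant (l : ℕ → ℂ) (hl : IsMul l) :
    (∃ L0 : ℝ, 1 ≤ L0 ∧ ∀ n, ‖l n‖ ≤ L0) ∧ ∃ eu K : ℝ, 0 < eu ∧ 0 < K ∧ Maj l eu K :=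
  NMA.majorant l hl

theorem undec (l : ℕ → ℂ) (hl : IsMul l) (q : ℕ) (hq : 0 < q) : IsMul (fun n => l (n / q)) :=
  NMA.undec l hl q hq

theorem uniq_exp (m : ℕ) (c w : Fin m → ℂ) (hw : ∀ j, ‖w j‖ = 1)
    (h : Tendsto (fun n : ℕ => ∑ j, c j * w j ^ n) atTop (𝓝 0)) :
    ∀ n : ℕ, ∑ j, c j * w j ^ n = 0 := NMA.uniq_exp m c w hw h

end NM
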