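import Pool.Agent.Helper360.NM.Defs
import Pool.Agent.Helper360.NM.P_majorant
import Pool.Agent.Helper360.NM.P_LocK_Kf
import Pool.Agent.Helper360.NM.P_Vglob
import Pool.Agent.Helper360.NM.P_Vloc
import Pool.Agent.Helper360.NM.P_Umain
import Pool.Agent.Helper360.NM.P_local_main
import Pool.Agent.Helper360.NM.P_assembly
import Pool.Agent.Helper360.NM.P_Appr_mono
import Pool.Agent.Helper360.NM.P_station
import Pool.Agent.Helper360.NM.P_enumT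
import Pool.Agent.Helper360.NM.P_chord
import Pool.Agent.Helper360.NM.P_St_of
import Pool.Agent.Helper360.NM.P_St2_of
import Pool.Agent.Helper360.NM.P_St3_of



namespace NM
open Complex Metric Set Filter Topology MeasureTheory


theorem asym_min (X1 : ℕ → ℝ) (h : ∀ j, 0 < X1 j) (B : ℝ) (hB : 0 < B) (J : ℕ) :
    ∃ X0 : ℝ, 0 < X0 ∧ X0 ≤ B ∧ ∀ j < J, X0 ≤ X1 j := by
  induction J with
  | zero => exact ⟨B, hB, le_rfl, fun j hj => absurd hj (Nat.not_lt_zero j)⟩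
  | succ J ih =>
    obtain ⟨X0, h0, h1, h2⟩ := ih
    refine ⟨min X0 (X1 J), lt_min h0 (h J), (min_le_left _ _).trans h1, fun j hj => ?_⟩
    rcases Nat.lt_succ_iff_lt_or_eq.mp hj with h3 | h3
    · exact (min_le_left _ _).trans (h2 j h3)
    · subst h3
      exact min_le_right _ _

theorem asym_LocK (K : ℂ → ℂ) (Λ θ : ℝ) (h : LocK K Λ) :
    LocK (fun s => K (s + (θ : ℂ) * Complex.I)) Λ := by
  obtain ⟨h1, h2⟩ := h
  have hre : ∀ s : ℂ, (s + (θ : ℂ) * Complex.I).re = s.re := by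
    intro s
    simp
  refine ⟨?_, ?_⟩
  · have : DifferentiableOn ℂ (fun s : ℂ => s + (θ : ℂ) * Complex.I) {s | s.re < 0} :=
      (differentiable_id.add (differentiable_const _)).differentiableOn
    refine h1.comp this ?_
    intro s hs
    simp only [Set.mem_setOf_eq] at hs ⊢
    rw [hre]
    exact hs
  · intro s hs1 hs2
    have := h2 (s + (θ : ℂ) * Complex.I) (by rw [hre]; exact hs1) (by rw [hre]; exact hs2)
    rw [hre] at this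
    exact this

theorem asym_exp4 (t : ℝ) (ht : 0 ≤ t) : t ^ 4 / 24 ≤ Real.exp t := by
  have := Real.pow_div_factorial_le_exp t ht 4
  have h24 : ((Nat.factorial 4 : ℕ) : ℝ) = 24 := by norm_num [Nat.factorial]
  rw [h24] at this
  exact this

theorem asym_small (L0 ρ ε X : ℝ) (hL0 : 1 ≤ L0) (hρ : 0 < ρ) (hε : 0 < ε) (hX : 0 < X)
    (hXs : X ≤ ρ ^ 3 * ε ^ 4 / (48000 * L0)) :
    2000 * L0 * Real.exp (ε / X) * ((ρ * X)⁻¹) ^ 3 ≤ Real.exp (2 * ε / X) := by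
  have hL : 0 < L0 := by linarith
  have h1 : (ε / X) ^ 4 / 24 ≤ Real.exp (ε / X) := asym_exp4 _ (by positivity)
  have h2 : 2000 * L0 * ((ρ * X)⁻¹) ^ 3 ≤ (ε / X) ^ 4 / 24 := by
    rw [le_div_iff₀ (by positivity)] at hXs
    have e1 : 2000 * L0 * ((ρ * X)⁻¹) ^ 3 = (X * (48000 * L0)) / (24 * ρ ^ 3 * X ^ 4) := by
      field_simp
      norm_num
    have e2 : (ε / X) ^ 4 / 24 = (ρ ^ 3 * ε ^ 4) / (24 * ρ ^ 3 * X ^ 4) := by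
      field_simp
    rw [e1, e2]
    exact div_le_div_of_nonneg_right hXs (by positivity)
  have h3 : 2 * ε / X = ε / X + ε / X := by ring
  rw [h3, Real.exp_add]
  calc 2000 * L0 * Real.exp (ε / X) * ((ρ * X)⁻¹) ^ 3
      = Real.exp (ε / X) * (2000 * L0 * ((ρ * X)⁻¹) ^ 3) := by ring
    _ ≤ Real.exp (ε / X) * Real.exp (ε / X) :=
        mul_le_mul_of_nonneg_left (h2.trans h1) (Real.exp_pos _).le

theorem asym_local (K : ℂ → ℂ) (Λ ρ ε ε0 d Xa Xb : ℝ)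
    (hLM : ∀ (K : ℂ → ℂ) (Λ ρ ε X0 : ℝ), 1 ≤ Λ → LocK K Λ → 0 < X0 →
      0 < ε → ε ≤ ε0 → 0 < ρ → ρ ≤ 1 / 1000 → ρ ≤ d / 10 → St K ρ ε X0 → St2 K ρ d X0 →
      St3 K ρ ε → ∀ (U L : ℝ → ℂ → ℂ), Fam K ρ ε X0 U L →
    ∃ (q : ℂ) (X1 : ℝ), 0 < X1 ∧ X1 ≤ X0 ∧ ∀ X : ℝ, 0 < X → X < X1 → ∀ n : ℕ,
      ‖RX K U L ρ X (fun s => Complex.exp (-((n : ℂ) * s))) - q‖ ≤
        Real.exp (2 * n * X - 1 / (10 ^ 7 * X)))
    (hΛ : 1 ≤ Λ) (hK : LocK K Λ) (hXa : 0 < Xa) (hXb : 0 < Xb) (hε : 0 < ε) (hεε : ε ≤ ε0)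
    (hρ : 0 < ρ) (hρ1 : ρ ≤ 1 / 1000) (hρd : ρ ≤ d / 10) (hSt : St K ρ ε Xa)
    (hSt2 : St2 K ρ d Xb) (hSt3 : St3 K ρ ε) :
    ∃ (U L : ℝ → ℂ → ℂ) (q : ℂ) (X1 : ℝ), 0 < X1 ∧ Fam K ρ ε X1 U L ∧
      ∀ X : ℝ, 0 < X → X < X1 → ∀ n : ℕ,
      ‖RX K U L ρ X (fun s => Complex.exp (-((n : ℂ) * s))) - q‖ ≤
        Real.exp (2 * n * X - 1 / (10 ^ 7 * X)) := by
  have hX0 : 0 < min Xa Xb := lt_min hXa hXb
  have hSt' : St K ρ ε (min Xa Xb) := by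
    intro X x y h1 h2 h3 h4 h5 h6
    exact hSt X x y h1 (h2.trans_le (min_le_left _ _)) h3 h4 h5 h6
  have hSt2' : St2 K ρ d (min Xa Xb) := by
    intro X h1 h2
    exact hSt2 X h1 (h2.trans_le (min_le_right _ _))
  have hU : ∀ X : ℝ, ∃ G : ℂ → ℂ, 0 < X → X < min Xa Xb →
      Appr K ⟨-(ρ * X), X⟩ 1 (Real.exp (2 * ε / X)) G := by
    intro X
    by_cases h : 0 < X ∧ X < min Xa Xb
    · obtain ⟨G, hG⟩ := hSt' X (ρ * X) X h.1 h.2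
        (by have := mul_pos hρ h.1; linarith) (by have := mul_pos hρ h.1; linarith)
        (by rw [abs_of_pos h.1]; linarith [h.1]) (by rw [abs_of_pos h.1]; linarith [h.1])
      exact ⟨G, fun _ _ => hG⟩
    · exact ⟨0, fun h1 h2 => absurd ⟨h1, h2⟩ h⟩
  have hL : ∀ X : ℝ, ∃ G : ℂ → ℂ, 0 < X → X < min Xa Xb →
      Appr K ⟨-(ρ * X), -X⟩ 1 (Real.exp (2 * ε / X)) G := by
    intro X
    by_cases h : 0 < X ∧ X < min Xa Xb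
    · obtain ⟨G, hG⟩ := hSt' X (ρ * X) (-X) h.1 h.2
        (by have := mul_pos hρ h.1; linarith) (by have := mul_pos hρ h.1; linarith)
        (by rw [abs_neg, abs_of_pos h.1]; linarith [h.1])
        (by rw [abs_neg, abs_of_pos h.1]; linarith [h.1])
      exact ⟨G, fun _ _ => hG⟩
    · exact ⟨0, fun h1 h2 => absurd ⟨h1, h2⟩ h⟩
  choose U hU using hU
  choose L hL using hL
  have hFam : Fam K ρ ε (min Xa Xb) U L := by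
    intro X h1 h2
    exact ⟨hU X h1 h2, hL X h1 h2⟩
  obtain ⟨q, X1, hX1, hX1', hq⟩ := hLM K Λ ρ ε (min Xa Xb) hΛ hK hX0 hε hεε hρ hρ1 hρd hSt' hSt2'
    hSt3 U L hFam
  refine ⟨U, L, q, X1, hX1, ?_, hq⟩
  intro X h1 h2
  exact hFam X h1 (h2.trans_le hX1')

theorem asym_station (l : ℕ → ℂ) (L0 : ℝ) (hL0 : 1 ≤ L0) (hl : ∀ n, ‖l n‖ ≤ L0)
    (σ : Measure (sphere (0:ℂ) 1))
    (hG : ∀ z ∈ ball (0:ℂ) 1, Good l (Finsupp.single 0 1) z (2 * Real.exp (V σ z)))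
    (ε ρ X0 : ℝ) (hε : 0 < ε) (hρ : 0 < ρ) (hρ1 : ρ ≤ 1 / 1000) (hX01 : X0 ≤ 1 / 100)
    (Θ : Finset ℂ)
    (hV : ∀ X x y : ℝ, 0 < X → X < X0 → ρ * X / 10 ≤ x → x ≤ 4 * ρ * X →
      (∀ θ ∈ Θ, X / 20 ≤ ‖Complex.exp ((y : ℂ) * Complex.I) - θ‖) →
      V σ (Complex.exp ⟨-x, y⟩) ≤ ε / X)
    (J : ℕ) (θ : ℕ → ℝ)
    (hsurj : ∀ w ∈ Θ, ∃ j < J, w = Complex.exp ((θ j : ℂ) * Complex.I))
    (X y : ℝ) (hX : 0 < X) (hXX0 : X < X0) (hXs : X ≤ ρ ^ 3 * ε ^ 4 / (48000 * L0))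
    (hy : ∀ j : ℕ, j < J → ∀ k : ℤ, X ≤ |y - θ j - 2 * Real.pi * k|) :
    ∃ G, Appr (Kf l) ⟨-(ρ * X), y⟩ 1 (Real.exp (2 * ε / X)) G := by
  have hρX : 0 < ρ * X := mul_pos hρ hX
  have hX1 : X ≤ 1 := by linarith
  have h1 : V σ (Complex.exp ⟨-(ρ * X), y⟩) ≤ ε / X := by
    apply hV X (ρ * X) y hX hXX0 (by linarith) (by linarith)
    intro w hw
    obtain ⟨j, hj, rfl⟩ := hsurj w hw
    have := chord y (θ j) X hX hX1 (hy j hj)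
    linarith
  have hρX1 : ρ * X ≤ 1 := by
    have : ρ * X ≤ 1 * 1 := mul_le_mul (by linarith) hX1 hX.le (by norm_num)
    linarith
  obtain ⟨G, hG'⟩ := station l L0 hL0 hl σ hG (ρ * X) y (ε / X) hρX hρX1 (by positivity) h1
  refine ⟨G, Appr_mono _ _ _ 1 1 _ _ le_rfl (asym_small L0 ρ ε X hL0 hρ hε hX hXs) ?_ hG'⟩
  have hL : 0 < L0 := by linarith
  positivity

theorem asym (l : ℕ → ℂ) (hl : IsMul l) :
    ∃ (m : ℕ) (c w : Fin m → ℂ), (∀ j, ‖w j‖ = 1) ∧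
      ∃ A : ℝ, ∀ n : ℕ, ‖l n - ∑ j, c j * w j ^ n‖ ≤ A * Real.exp (-(Real.sqrt n / 10 ^ 5)) := by
  obtain ⟨⟨L0, hL0, hlb⟩, eu, K, heu, hK, hMaj⟩ := majorant l hl
  obtain ⟨σ, hσ, -, hG⟩ := hMaj 0 (fun α => le_rfl) (by simpa using heu.le)
  have hG' : ∀ z ∈ ball (0:ℂ) 1, Good l (Finsupp.single 0 1) z (2 * Real.exp (V σ z)) := by
    intro z hz
    have := hG z hz
    rw [add_zero] at this
    exact this
  obtain ⟨C', d0, hC', hd0, hU⟩ := Umain l L0 hL0 hlb eu K heu hK hMaj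
  obtain ⟨d, hd, hdd0, hd1, hdC⟩ : ∃ d : ℝ, 0 < d ∧ d ≤ d0 ∧ d ≤ 1 / 100 ∧
      d ≤ 1 / (1000 * C') :=
    ⟨min d0 (min (1 / 100) (1 / (1000 * C'))),
      lt_min hd0 (lt_min (by norm_num) (by positivity)), min_le_left _ _,
      (min_le_right _ _).trans (min_le_left _ _), (min_le_right _ _).trans (min_le_right _ _)⟩
  obtain ⟨ε, hε, hε2, hLM⟩ := local_main d hd hd1
  obtain ⟨ρ0, hρ0, hρ01, hVg⟩ := Vglob σ hσ ε hε
  obtain ⟨ρd, hρd, hVl⟩ := Vloc σ hσ ε hε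
  obtain ⟨ρU, hρU, hUU⟩ := hU d hd hdd0
  obtain ⟨ρ, hρ, hρρ0, hρρd, hρρU, hρ1, hρd10⟩ : ∃ ρ : ℝ, 0 < ρ ∧ ρ ≤ ρ0 ∧ ρ ≤ ρd ∧
      ρ ≤ ρU ∧ ρ ≤ 1 / 1000 ∧ ρ ≤ d / 10 :=
    ⟨min (min ρ0 ρd) (min ρU (min (1 / 1000) (d / 10))),
      lt_min (lt_min hρ0 hρd) (lt_min hρU (lt_min (by norm_num) (by positivity))),
      (min_le_left _ _).trans (min_le_left _ _), (min_le_left _ _).trans (min_le_right _ _),
      (min_le_right _ _).trans (min_le_left _ _),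
      ((min_le_right _ _).trans (min_le_right _ _)).trans (min_le_left _ _),
      ((min_le_right _ _).trans (min_le_right _ _)).trans (min_le_right _ _)⟩
  obtain ⟨Θ, hΘne, hΘ1, Xg, hXg, hXg1, hVV⟩ := hVg ρ hρ hρρ0
  obtain ⟨J, θ, hJ, hθ, hper, -, hsurj, -⟩ := enumT Θ hΘne hΘ1
  have hloc : ∀ j : ℕ, ∃ (U L : ℝ → ℂ → ℂ) (q : ℂ) (X1 : ℝ), 0 < X1 ∧
      Fam (fun s => Kf l (s + (θ j : ℂ) * Complex.I)) ρ ε X1 U L ∧
      ∀ X : ℝ, 0 < X → X < X1 → ∀ n : ℕ,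
      ‖RX (fun s => Kf l (s + (θ j : ℂ) * Complex.I)) U L ρ X
        (fun s => Complex.exp (-((n : ℂ) * s))) - q‖ ≤
        Real.exp (2 * n * X - 1 / (10 ^ 7 * X)) := by
    intro j
    obtain ⟨Xa, hXa, hSt⟩ := St_of l L0 hL0 hlb σ hG' ε ρ Xg hε hρ hρ1 hXg Θ hVV (θ j)
    obtain ⟨Xu, hXu, hUX⟩ := hUU ρ hρ hρρU (θ j)
    obtain ⟨Xb, hXb, hSt2⟩ := St2_of l L0 hL0 hlb C' d ρ (θ j) Xu hC' hd hdC hρ hρ1 hXu hUX
    have hSt3 := St3_of l L0 hL0 hlb σ hσ hG' ε ρ ρd hε hρ hρ1 hρρd hVl (θ j)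
    have hLocK := asym_LocK (Kf l) (2 * L0) (θ j) (LocK_Kf l L0 hL0 hlb)
    exact asym_local _ (2 * L0) ρ ε ε d Xa Xb hLM (by linarith) hLocK hXa hXb hε le_rfl hρ hρ1
      hρd10 hSt hSt2 hSt3
  choose U L q X1 hX1 hFam hq using hloc
  have hXs : 0 < ρ ^ 3 * ε ^ 4 / (48000 * L0) := by
    have hL : 0 < L0 := by linarith
    positivity
  obtain ⟨X0, hX0, hX0B, hX0J⟩ := asym_min X1 hX1 (min Xg (ρ ^ 3 * ε ^ 4 / (48000 * L0)))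
    (lt_min hXg hXs) J
  have hX0g : X0 ≤ Xg := hX0B.trans (min_le_left _ _)
  have hX0s : X0 ≤ ρ ^ 3 * ε ^ 4 / (48000 * L0) := hX0B.trans (min_le_right _ _)
  obtain ⟨A, hA⟩ := assembly l L0 hL0 hlb ρ ε X0 hX0 (hX0g.trans hXg1) hε hε2 hρ hρ1 J hJ θ hθ hper
    U L
    (fun j hj X h1 h2 => hFam j X h1 (h2.trans_le (hX0J j hj)))
    (fun X y h1 h2 h3 => asym_station l L0 hL0 hlb σ hG' ε ρ Xg hε hρ hρ1 hXg1 Θ hVV J θ hsurj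
      X y h1 (h2.trans_le hX0g) (h2.le.trans hX0s) h3)
    q
    (fun j hj X h1 h2 n => hq j X h1 (h2.trans_le (hX0J j hj)) n)
  refine ⟨J, fun j => -(q j) / (2 * Real.pi * Complex.I),
    fun j => Complex.exp (-((θ j : ℂ) * Complex.I)), ?_, A, ?_⟩
  · intro j
    have : (-((θ j : ℂ) * Complex.I)) = ((-(θ j) : ℝ) : ℂ) * Complex.I := by
      push_cast
      ring
    show ‖Complex.exp (-((θ j : ℂ) * Complex.I))‖ = 1
    rw [this, Complex.norm_exp_ofReal_mul_I]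
  · intro n
    have := hA n
    rw [Finset.sum_range] at this
    exact this

end NM
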