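import Pool.Agent.Helper360.NM.Defs



namespace NM
open Complex Metric Set Filter Topology MeasureTheory


theorem enumT (Θ : Finset ℂ) (hΘ : Θ.Nonempty) (h1 : ∀ w ∈ Θ, ‖w‖ = 1) :
    ∃ (J : ℕ) (θ : ℕ → ℝ), 0 < J ∧ (∀ j < J, θ j < θ (j + 1)) ∧ θ J = θ 0 + 2 * Real.pi ∧
      (∀ j < J, Complex.exp ((θ j : ℂ) * Complex.I) ∈ Θ) ∧
      (∀ w ∈ Θ, ∃ j < J, w = Complex.exp ((θ j : ℂ) * Complex.I)) ∧
      (∀ i j : ℕ, i < J → j < J → i ≠ j →
        Complex.exp ((θ i : ℂ) * Complex.I) ≠ Complex.exp ((θ j : ℂ) * Complex.I)) := by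
  classical
  have hexp : ∀ w ∈ Θ, Complex.exp ((Complex.arg w : ℂ) * Complex.I) = w := by
    intro w hw
    have := Complex.norm_mul_exp_arg_mul_I w
    rw [h1 w hw] at this
    simpa using this
  set A : Finset ℝ := Θ.image Complex.arg with hA
  have hAne : A.Nonempty := hΘ.image _
  have hJ : 0 < A.card := Finset.card_pos.2 hAne
  set e := A.orderEmbOfFin rfl with he
  have hemem : ∀ i, e i ∈ A := fun i => Finset.orderEmbOfFin_mem A rfl i
  have hew : ∀ i, ∃ w ∈ Θ, Complex.arg w = e i := fun i => Finset.mem_image.1 (hemem i)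
  have hbd : ∀ i, -Real.pi < e i ∧ e i ≤ Real.pi := by
    intro i
    obtain ⟨w, _, hwe⟩ := hew i
    rw [← hwe]
    exact ⟨Complex.neg_pi_lt_arg w, Complex.arg_le_pi w⟩
  refine ⟨A.card, fun j => if h : j < A.card then e ⟨j, h⟩ else e ⟨0, hJ⟩ + 2 * Real.pi, hJ,
    ?_, ?_, ?_, ?_, ?_⟩
  · intro j hj
    simp only
    rw [dif_pos hj]
    by_cases hj1 : j + 1 < A.card
    · rw [dif_pos hj1]
      apply e.strictMono
      rw [Fin.lt_def]
      exact Nat.lt_succ_self j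
    · rw [dif_neg hj1]
      have := (hbd ⟨j, hj⟩).2
      have := (hbd ⟨0, hJ⟩).1
      linarith
  · simp only
    rw [dif_neg (lt_irrefl _), dif_pos hJ]
  · intro j hj
    simp only
    rw [dif_pos hj]
    obtain ⟨w, hw, hwe⟩ := hew ⟨j, hj⟩
    rw [← hwe, hexp w hw]
    exact hw
  · intro w hw
    have hwA : Complex.arg w ∈ (A : Set ℝ) := Finset.mem_coe.2 (Finset.mem_image_of_mem _ hw)
    rw [← Finset.range_orderEmbOfFin A rfl] at hwA
    obtain ⟨i, hi⟩ := hwA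
    refine ⟨i.1, i.2, ?_⟩
    simp only
    rw [dif_pos i.2]
    have : e ⟨i.1, i.2⟩ = Complex.arg w := hi
    rw [this, hexp w hw]
  · intro i j hi hj hij
    simp only
    rw [dif_pos hi, dif_pos hj]
    obtain ⟨w, hw, hwe⟩ := hew ⟨i, hi⟩
    obtain ⟨v, hv, hve⟩ := hew ⟨j, hj⟩
    intro h
    rw [← hwe, ← hve, hexp w hw, hexp v hv] at h
    rw [h, hve] at hwe
    have := e.injective hwe
    rw [Fin.mk.injEq] at this
    exact hij this.symm

end NM
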