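import Pool.Agent.Helper360.NM.Defs
import Pool.Agent.Helper360.NM.P_asym
import Pool.Agent.Helper360.NM.P_undec
import Pool.Agent.Helper360.NM.P_uniq_exp



namespace NM
open Complex Metric Set Filter Topology MeasureTheory


theorem necessity (l : ℕ → ℂ) (hl : IsMul l) :
    ∃ (m : ℕ) (c w : Fin m → ℂ), (∀ j, ‖w j‖ = 1) ∧
      ∀ C : ℝ, ∃ A : ℝ, ∀ n : ℕ,
        ‖l n - ∑ j, c j * w j ^ n‖ ≤ A * Real.exp (-(C * Real.sqrt n)) := by
  obtain ⟨m, c, w, hw, A, hA⟩ := asym l hl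
  refine ⟨m, c, w, hw, fun C => ?_⟩
  obtain ⟨q0, hq0⟩ := exists_nat_gt ((10 ^ 5 * |C|) ^ 2)
  have hq0' : 0 < q0 + 1 := Nat.succ_pos _
  set q : ℕ := q0 + 1 with hq
  have hqC : C ≤ Real.sqrt q / 10 ^ 5 := by
    have h1 : 10 ^ 5 * |C| ≤ Real.sqrt q := by
      apply Real.le_sqrt_of_sq_le
      have : (q : ℝ) = q0 + 1 := by rw [hq]; push_cast; rfl
      rw [this]
      linarith
    have h2 := le_abs_self C
    rw [le_div_iff₀ (by norm_num)]
    linarith
  obtain ⟨m', c', w', hw', A', hA'⟩ := asym _ (undec l hl q hq0')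
  have hA0 : 0 ≤ A' := by
    have h1 := (norm_nonneg _).trans (hA' 0)
    simpa using h1
  have hA00 : 0 ≤ A := by
    have h1 := (norm_nonneg _).trans (hA 0)
    simpa using h1
  have hk : ∀ k : ℕ, ‖l k - ∑ j, c' j * (w' j ^ q) ^ k‖ ≤
      A' * Real.exp (-(Real.sqrt q / 10 ^ 5 * Real.sqrt k)) := by
    intro k
    have h1 := hA' (q * k)
    have h2 : l (q * k / q) = l k := by rw [Nat.mul_div_cancel_left k hq0']
    have h3 : ∀ j, w' j ^ (q * k) = (w' j ^ q) ^ k := fun j => pow_mul _ _ _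
    simp only [h2, h3] at h1
    refine h1.trans (le_of_eq ?_)
    congr 2
    push_cast
    rw [Real.sqrt_mul (by positivity)]
    ring
  -- the two exponential sums agree
  let c'' : Fin (m' + m) → ℂ := Fin.append c' (fun j => - c j)
  let w'' : Fin (m' + m) → ℂ := Fin.append (fun j => w' j ^ q) w
  have hw'' : ∀ j, ‖w'' j‖ = 1 := by
    intro j
    refine Fin.addCases (fun j => ?_) (fun j => ?_) j
    · show ‖Fin.append (fun j => w' j ^ q) w (Fin.castAdd m j)‖ = 1
      rw [Fin.append_left, norm_pow, hw', one_pow]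
    · show ‖Fin.append (fun j => w' j ^ q) w (Fin.natAdd m' j)‖ = 1
      rw [Fin.append_right, hw]
  have hsum : ∀ n : ℕ, ∑ j, c'' j * w'' j ^ n = ∑ j, c' j * (w' j ^ q) ^ n - ∑ j, c j * w j ^ n := by
    intro n
    rw [Fin.sum_univ_add]
    simp only [c'', w'', Fin.append_left, Fin.append_right, neg_mul, Finset.sum_neg_distrib]
    rw [sub_eq_add_neg]
  have hzero : ∀ n : ℕ, ∑ j, c'' j * w'' j ^ n = 0 := by
    apply uniq_exp _ _ _ hw''
    rw [tendsto_zero_iff_norm_tendsto_zero]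
    have h1 : Tendsto (fun n : ℕ => (A' + A) * Real.exp (-(Real.sqrt n / 10 ^ 5))) atTop
        (𝓝 ((A' + A) * 0)) := by
      apply Tendsto.const_mul
      have h2 : Tendsto (fun n : ℕ => Real.sqrt n / 10 ^ 5) atTop atTop :=
        (Real.tendsto_sqrt_atTop.comp tendsto_natCast_atTop_atTop).atTop_div_const (by norm_num)
      exact Real.tendsto_exp_neg_atTop_nhds_zero.comp h2
    rw [mul_zero] at h1
    refine squeeze_zero (fun n => norm_nonneg _) (fun n => ?_) h1
    rw [hsum]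
    have h3 := hA n
    have h4 := hk n
    have h5 : Real.exp (-(Real.sqrt q / 10 ^ 5 * Real.sqrt n)) ≤ Real.exp (-(Real.sqrt n / 10 ^ 5)) := by
      apply Real.exp_le_exp.2
      have h6 : 1 ≤ Real.sqrt q := by
        rw [Real.one_le_sqrt]
        exact_mod_cast hq0'
      have h7 : Real.sqrt n ≤ Real.sqrt q * Real.sqrt n := by
        have := Real.sqrt_nonneg (n : ℝ)
        nlinarith
      have h8 : Real.sqrt q / 10 ^ 5 * Real.sqrt n = (Real.sqrt q * Real.sqrt n) / 10 ^ 5 := by ring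
      rw [h8]
      have h9 : Real.sqrt n / 10 ^ 5 ≤ (Real.sqrt q * Real.sqrt n) / 10 ^ 5 :=
        div_le_div_of_nonneg_right h7 (by norm_num)
      linarith
    have h6 : ∑ j, c' j * (w' j ^ q) ^ n - ∑ j, c j * w j ^ n =
        (l n - ∑ j, c j * w j ^ n) - (l n - ∑ j, c' j * (w' j ^ q) ^ n) := by ring
    rw [h6]
    refine (norm_sub_le _ _).trans ?_
    have h7 := mul_le_mul_of_nonneg_left h5 hA0
    rw [add_mul]
    linarith
  refine ⟨A', fun n => ?_⟩
  have h1 : ∑ j, c j * w j ^ n = ∑ j, c' j * (w' j ^ q) ^ n := by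
    have h2 := hzero n
    rw [hsum, sub_eq_zero] at h2
    exact h2.symm
  rw [h1]
  refine (hk n).trans (mul_le_mul_of_nonneg_left ?_ hA0)
  apply Real.exp_le_exp.2
  have := mul_le_mul_of_nonneg_right hqC (Real.sqrt_nonneg (n : ℝ))
  linarith

end NM
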